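import Pool.Agent.H873.RT.Defs

set_option autoImplicit false

namespace Pool.Agent.H873.RT

open MvPolynomial

variable {k : Type*} [Field k] {s : Finset (k × k)} {F : R k} {G : Fin 3 → R k} {a : Fin 3 → ℕ}

/-- the part of degree `d - e`, zero when `e > d` -/
noncomputable def hc (d e : ℕ) (p : A k) : A k := if e ≤ d then homogeneousComponent (d - e) p else 0

theorem coeff_hc (d e : ℕ) (p : A k) (m : Fin 2 →₀ ℕ) :
    coeff m (hc d e p) = if m.degree + e = d then coeff m p else 0 := by
  unfold hc
  by_cases he : e ≤ d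
  · rw [if_pos he, coeff_homogeneousComponent]
    by_cases h : m.degree + e = d
    · rw [if_pos h, if_pos (by omega)]
    · rw [if_neg h, if_neg (by omega)]
  · rw [if_neg he, if_neg (by omega), coeff_zero]

theorem coeff_hc_mul (d e l : ℕ) (p q : A k) (hq : ∀ m, coeff m q ≠ 0 → m.degree + l = e)
    (m : Fin 2 →₀ ℕ) :
    coeff m (hc d e p * q) = if m.degree + l = d then coeff m (p * q) else 0 := by
  rw [coeff_mul, coeff_mul]
  have key : ∀ x ∈ Finset.HasAntidiagonal.antidiagonal m, coeff x.1 (hc d e p) * coeff x.2 q =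
      if m.degree + l = d then coeff x.1 p * coeff x.2 q else 0 := by
    intro x hx
    rw [Finset.HasAntidiagonal.mem_antidiagonal] at hx
    by_cases h0 : coeff x.2 q = 0
    · rw [h0]; simp
    · have h1 := hq _ h0
      have h2 : m.degree = x.1.degree + x.2.degree := by rw [← hx, map_add]
      rw [coeff_hc]
      by_cases h : m.degree + l = d
      · rw [if_pos h, if_pos (by omega)]
      · rw [if_neg h, if_neg (by omega), zero_mul]
  rw [Finset.sum_congr rfl key]
  by_cases h : m.degree + l = d
  · simp only [if_pos h]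
  · simp only [if_neg h, Finset.sum_const_zero]

theorem natDegree_combo (hN : NF s F G a) (α : Fin 3 → A k) :
    (∑ i, Polynomial.C (α i) * G i).natDegree ≤ 2 := by
  refine Polynomial.natDegree_sum_le_of_forall_le _ _ fun i _ => ?_
  exact (Polynomial.natDegree_C_mul_le _ _).trans (hN.degG i)

theorem exists_mh (hN : NF s F G a) :
    ∃ (M : Matrix (Fin 3) (Fin 3) (A k)) (h : Fin 3 → A k), MH F G a M h := by
  have h1 : ∀ i, ∃ (c : A k) (α : Fin 3 → A k),
      Polynomial.X * G i = Polynomial.C c * F + ∑ j, Polynomial.C (α j) * G j := by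
    intro i
    obtain ⟨c, α, h⟩ := hN.span (Polynomial.X * G i) (Ideal.mul_mem_left _ _ (hN.memG i))
    have hc0 : c.natDegree = 0 := by
      by_cases hc : c = 0
      · rw [hc, Polynomial.natDegree_zero]
      · have h2 : (c * F).natDegree = c.natDegree + 3 := by
          rw [mul_comm, Polynomial.Monic.natDegree_mul' hN.monic hc, hN.deg, add_comm]
        have h3 : c * F = Polynomial.X * G i - ∑ j, Polynomial.C (α j) * G j := by
          rw [h]; ring
        have h4 : (c * F).natDegree ≤ 3 := by
          rw [h3]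
          refine (Polynomial.natDegree_sub_le _ _).trans (max_le ?_ ?_)
          · refine (Polynomial.natDegree_mul_le).trans ?_
            have := hN.degG i
            have h5 : (Polynomial.X : R k).natDegree ≤ 1 := Polynomial.natDegree_X_le
            omega
          · exact (natDegree_combo hN α).trans (by norm_num)
        omega
    refine ⟨c.coeff 0, α, ?_⟩
    rw [← Polynomial.eq_C_of_natDegree_eq_zero hc0]
    exact h
  choose c α h1 using h1
  refine ⟨Matrix.of fun i j => hc (a i + 1) (a j) (α i j), fun i => hc (a i + 1) 3 (c i), ?_, ?_, ?_⟩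
  · intro i
    refine Polynomial.ext fun l => ?_
    refine MvPolynomial.ext _ _ fun m => ?_
    have e1 : coeff m ((Polynomial.X * G i).coeff l) = if m.degree + l = a i + 1 then
        coeff m ((Polynomial.X * G i).coeff l) else 0 := by
      by_cases h : m.degree + l = a i + 1
      · rw [if_pos h]
      · rw [if_neg h]
        rcases l with _ | l
        · rw [Polynomial.mul_coeff_zero, Polynomial.coeff_X_zero, zero_mul, coeff_zero]
        · rw [Polynomial.coeff_X_mul]
          by_contra hne
          exact h (by have := hN.homG i l m hne; omega)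
    rw [e1, h1 i]
    simp only [Polynomial.coeff_add, Polynomial.finsetSum_coeff, Polynomial.coeff_C_mul, coeff_add,
      coeff_sum, Matrix.of_apply]
    rw [coeff_hc_mul (a i + 1) 3 l (c i) (F.coeff l) (fun m hm => hN.hom l m hm)]
    rw [Finset.sum_congr rfl fun j _ => coeff_hc_mul (a i + 1) (a j) l (α i j) ((G j).coeff l)
      (fun m hm => hN.homG j l m hm) m]
    by_cases h : m.degree + l = a i + 1
    · simp only [if_pos h]
      rw [add_comm]
    · simp only [if_neg h, Finset.sum_const_zero, add_zero]
  · intro i j m hm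
    simp only [Matrix.of_apply, coeff_hc] at hm
    by_contra h
    exact hm (if_neg h)
  · intro i m hm
    simp only [coeff_hc] at hm
    by_contra h
    exact hm (if_neg h)

theorem charpoly_gen {B : Type*} [CommRing B] [IsDomain B] (M P : Matrix (Fin 3) (Fin 3) B)
    (f0 f1 f2 : B) (hdet : P.det ≠ 0) (hMP : M * P = P * !![0, 1, 0; 0, 0, 1; -f0, -f1, -f2]) :
    M.charpoly = Polynomial.C f0 + Polynomial.C f1 * Polynomial.X
      + Polynomial.C f2 * Polynomial.X ^ 2 + Polynomial.X ^ 3 := by
  set Q : Matrix (Fin 3) (Fin 3) B := !![0, 1, 0; 0, 0, 1; -f0, -f1, -f2] with hQ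
  have hcm : M.charmatrix * P.map Polynomial.C = P.map Polynomial.C * Q.charmatrix := by
    rw [Matrix.charmatrix, Matrix.charmatrix, sub_mul, mul_sub]
    have e1 : (Polynomial.C.mapMatrix M) * P.map Polynomial.C = (M * P).map Polynomial.C :=
      (map_mul (Polynomial.C.mapMatrix) M P).symm
    have e2 : P.map Polynomial.C * (Polynomial.C.mapMatrix Q) = (P * Q).map Polynomial.C :=
      (map_mul (Polynomial.C.mapMatrix) P Q).symm
    have e3 : Matrix.scalar (Fin 3) (Polynomial.X : Polynomial B) * P.map Polynomial.C =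
        P.map Polynomial.C * Matrix.scalar (Fin 3) (Polynomial.X : Polynomial B) :=
      Matrix.scalar_commute _ (fun r => Commute.all _ _) _
    rw [e1, e2, hMP, e3]
  have hd := congrArg Matrix.det hcm
  rw [Matrix.det_mul, Matrix.det_mul] at hd
  have hPne : (P.map Polynomial.C).det ≠ 0 := by
    have : (P.map Polynomial.C).det = Polynomial.C P.det := (RingHom.map_det Polynomial.C P).symm
    rw [this]
    exact Polynomial.C_ne_zero.mpr hdet
  rw [mul_comm] at hd
  have hcp : M.charpoly = Q.charpoly := mul_left_cancel₀ hPne hd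
  rw [hcp, Matrix.charpoly, Matrix.det_fin_three]
  simp [hQ]
  ring

theorem cubic_eq {B : Type*} [CommRing B] (F : Polynomial B) (hd : F.natDegree = 3)
    (h3 : F.coeff 3 = 1) : F = Polynomial.C (F.coeff 0) + Polynomial.C (F.coeff 1) * Polynomial.X
      + Polynomial.C (F.coeff 2) * Polynomial.X ^ 2 + Polynomial.X ^ 3 := by
  conv_lhs => rw [F.as_sum_range_C_mul_X_pow, hd]
  simp only [Finset.sum_range_succ, Finset.sum_range_zero, h3]
  simp

theorem charpoly_eq (hN : NF s F G a) {M : Matrix (Fin 3) (Fin 3) (A k)} {h : Fin 3 → A k}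
    (hM : MH F G a M h) : M.charpoly = F := by
  set P : Matrix (Fin 3) (Fin 3) (A k) := Matrix.of fun i j : Fin 3 => (G i).coeff j with hP
  have hdet : P.det ≠ 0 := hN.det
  have hF3 : F.coeff 3 = 1 := by
    have := hN.monic.coeff_natDegree
    rwa [hN.deg] at this
  have hrel : ∀ i l, (Polynomial.X * G i).coeff l = ∑ j, M i j * (G j).coeff l + h i * F.coeff l := by
    intro i l
    rw [hM.rel i]
    simp only [Polynomial.coeff_add, Polynomial.finsetSum_coeff, Polynomial.coeff_C_mul]
  have hG3 : ∀ j, (G j).coeff 3 = 0 := fun j =>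
    Polynomial.coeff_eq_zero_of_natDegree_lt (lt_of_le_of_lt (hN.degG j) (by norm_num))
  have hh : ∀ i, h i = (G i).coeff 2 := by
    intro i
    have := hrel i 3
    rw [Polynomial.coeff_X_mul, hF3] at this
    simp only [hG3, mul_zero, Finset.sum_const_zero, zero_add, mul_one] at this
    exact this.symm
  have h0 : ∀ i, ∑ j, M i j * (G j).coeff 0 = - ((G i).coeff 2 * F.coeff 0) := by
    intro i
    have := hrel i 0
    rw [Polynomial.mul_coeff_zero, Polynomial.coeff_X_zero, zero_mul, hh] at this
    linear_combination -this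
  have h1 : ∀ i, ∑ j, M i j * (G j).coeff 1 = (G i).coeff 0 - ((G i).coeff 2 * F.coeff 1) := by
    intro i
    have := hrel i 1
    rw [Polynomial.coeff_X_mul, hh] at this
    linear_combination -this
  have h2 : ∀ i, ∑ j, M i j * (G j).coeff 2 = (G i).coeff 1 - ((G i).coeff 2 * F.coeff 2) := by
    intro i
    have := hrel i 2
    rw [Polynomial.coeff_X_mul, hh] at this
    linear_combination -this
  have hMP : M * P = P * !![0, 1, 0; 0, 0, 1; -F.coeff 0, -F.coeff 1, -F.coeff 2] := by
    ext1 i j
    rw [Matrix.mul_apply, Matrix.mul_apply]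
    have e : ∀ x, P x 0 = (G x).coeff 0 ∧ P x 1 = (G x).coeff 1 ∧ P x 2 = (G x).coeff 2 :=
      fun x => ⟨rfl, rfl, rfl⟩
    have g0 := h0 i
    have g1 := h1 i
    have g2 := h2 i
    rw [Fin.sum_univ_three] at g0 g1 g2
    fin_cases j
    · simp only [Fin.zero_eta, Fin.sum_univ_three, (e _).1, (e _).2.1, (e _).2.2]
      rw [g0]
      simp
    · simp only [Fin.mk_one, Fin.sum_univ_three, (e _).1, (e _).2.1, (e _).2.2]
      rw [g1]
      simp
      ring
    · simp only [Fin.reduceFinMk, Fin.sum_univ_three, (e _).1, (e _).2.1, (e _).2.2]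
      rw [g2]
      simp
      ring
  rw [charpoly_gen M P (F.coeff 0) (F.coeff 1) (F.coeff 2) hdet hMP]
  exact (cubic_eq F hN.deg hF3).symm

theorem indep (hN : NF s F G a) (α : Fin 3 → A k) (h : ∑ i, Polynomial.C (α i) * G i = 0) : α = 0 := by
  refine Matrix.eq_zero_of_vecMul_eq_zero hN.det ?_
  funext j
  have h1 := congrArg (fun p : R k => p.coeff j) h
  simp only [Polynomial.finsetSum_coeff, Polynomial.coeff_C_mul, Polynomial.coeff_zero] at h1
  rw [Pi.zero_apply, ← h1]
  rfl

end Pool.Agent.H873.RT
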