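import Pool.Agent.H873.RT.Defs

set_option autoImplicit false

namespace Pool.Agent.H873.RT

open MvPolynomial

variable {k : Type*} [Field k] {s : Finset (k × k)} {F : R k} {G : Fin 3 → R k} {a : Fin 3 → ℕ}
  {M : Matrix (Fin 3) (Fin 3) (A k)} {h : Fin 3 → A k}

/-- the case of constant coefficients -/
theorem syz_zero (hN : NF s F G a) (β : Fin 3 → A k) (b0 : R k)
    (hb : (∑ j, Polynomial.C (β j) * G j) + b0 * F = 0) : β = 0 ∧ b0 = 0 := by
  have hdeg : (∑ j, Polynomial.C (β j) * G j).natDegree ≤ 2 := by
    apply Polynomial.natDegree_sum_le_of_forall_le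
    intro j _
    exact (Polynomial.natDegree_C_mul_le _ _).trans (hN.degG j)
  have hb0 : b0 = 0 := by
    by_contra hne
    have h1 : (b0 * F).natDegree = b0.natDegree + 3 := by
      rw [Polynomial.natDegree_mul hne hN.monic.ne_zero, hN.deg]
    have h2 : b0 * F = -∑ j, Polynomial.C (β j) * G j := by
      linear_combination hb
    rw [h2, Polynomial.natDegree_neg] at h1
    omega
  refine ⟨?_, hb0⟩
  rw [hb0, zero_mul, add_zero] at hb
  apply Matrix.eq_zero_of_vecMul_eq_zero hN.det
  funext l
  have h3 := congrArg (fun p => Polynomial.coeff p (l : ℕ)) hb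
  simp only [Polynomial.finsetSum_coeff, Polynomial.coeff_C_mul, Polynomial.coeff_zero] at h3
  simp only [Matrix.vecMul, dotProduct, Matrix.of_apply, Pi.zero_apply]
  exact h3

theorem syz_base (hN : NF s F G a) (b : Fin 3 → R k) (b0 : R k)
    (hd : ∀ j, (b j).natDegree ≤ 0) (hb : (∑ j, b j * G j) + b0 * F = 0) :
    (∀ j, b j = 0) ∧ b0 = 0 := by
  have hc : ∀ j, b j = Polynomial.C ((b j).coeff 0) := fun j =>
    Polynomial.eq_C_of_natDegree_le_zero (hd j)
  have hsum : (∑ j, Polynomial.C ((b j).coeff 0) * G j) = ∑ j, b j * G j :=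
    Finset.sum_congr rfl fun j _ => congrArg (fun q => q * G j) (hc j).symm
  have hb' : (∑ j, Polynomial.C ((b j).coeff 0) * G j) + b0 * F = 0 := by
    rw [hsum]; exact hb
  obtain ⟨h1, h2⟩ := syz_zero hN _ b0 hb'
  refine ⟨fun j => ?_, h2⟩
  have h3 : (b j).coeff 0 = 0 := congrFun h1 j
  rw [hc j, h3, Polynomial.C_0]

theorem syz_aux (hN : NF s F G a) (hM : MH F G a M h) (D : ℕ) : ∀ (b : Fin 3 → R k) (b0 : R k),
    (∀ j, (b j).natDegree ≤ D) → (∑ j, b j * G j) + b0 * F = 0 →
    ∃ lam : Fin 3 → R k,
      (∀ j, b j = lam j * Polynomial.X - ∑ i, lam i * Polynomial.C (M i j)) ∧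
      b0 = - ∑ i, lam i * Polynomial.C (h i) := by
  induction D with
  | zero =>
    intro b b0 hd hb
    obtain ⟨h1, h2⟩ := syz_base hN b b0 hd hb
    refine ⟨fun _ => 0, fun j => ?_, ?_⟩
    · rw [h1 j]
      simp only [zero_mul, Finset.sum_const_zero, sub_zero]
    · rw [h2]
      simp only [zero_mul, Finset.sum_const_zero, neg_zero]
  | succ D ih =>
    intro b b0 hd hb
    set b' : Fin 3 → R k := fun j => (b j).divX with hb'
    set β : Fin 3 → A k := fun j => (b j).coeff 0 with hβ
    have hdec : ∀ j, b j = b' j * Polynomial.X + Polynomial.C (β j) := fun j =>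
      (Polynomial.divX_mul_X_add (b j)).symm
    have hdeg' : ∀ j, (b' j).natDegree ≤ D := by
      intro j
      rw [hb']
      simp only
      rw [Polynomial.natDegree_divX_eq_natDegree_tsub_one]
      have := hd j
      omega
    obtain ⟨lam, hl1, hl2⟩ := ih (fun j => Polynomial.C (β j) + ∑ i, b' i * Polynomial.C (M i j))
      (b0 + ∑ i, b' i * Polynomial.C (h i)) (by
        intro j
        refine (Polynomial.natDegree_add_le _ _).trans (max_le ?_ ?_)
        · rw [Polynomial.natDegree_C]; exact Nat.zero_le _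
        · apply Polynomial.natDegree_sum_le_of_forall_le
          intro i _
          exact (Polynomial.natDegree_mul_C_le _ _).trans (hdeg' i)) (by
        have e0 := hM.rel 0
        have e1 := hM.rel 1
        have e2 := hM.rel 2
        have d0 := hdec 0
        have d1 := hdec 1
        have d2 := hdec 2
        simp only [Fin.sum_univ_three] at hb e0 e1 e2 ⊢
        rw [d0, d1, d2] at hb
        linear_combination hb - b' 0 * e0 - b' 1 * e1 - b' 2 * e2)
    refine ⟨fun i => lam i + b' i, fun j => ?_, ?_⟩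
    · have := hl1 j
      rw [hdec j]
      simp only [add_mul, Finset.sum_add_distrib] at this ⊢
      linear_combination this
    · simp only [add_mul, Finset.sum_add_distrib]
      linear_combination hl2

theorem syz (hN : NF s F G a) (hM : MH F G a M h) (b : Fin 3 → R k) (b0 : R k)
    (hb : (∑ j, b j * G j) + b0 * F = 0) :
    ∃ lam : Fin 3 → R k,
      (∀ j, b j = lam j * Polynomial.X - ∑ i, lam i * Polynomial.C (M i j)) ∧
      b0 = - ∑ i, lam i * Polynomial.C (h i) := by
  refine syz_aux hN hM (Finset.univ.sup fun j => (b j).natDegree) b b0 (fun j => ?_) hb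
  exact Finset.le_sup (f := fun j => (b j).natDegree) (Finset.mem_univ j)

/-- the first linear form of a point -/
noncomputable def lx (P : k × k) : R k := Polynomial.X - Polynomial.C (C P.1 * X 1)

/-- the second linear form of a point -/
noncomputable def ly (P : k × k) : R k := Polynomial.C (X 0 - C P.2 * X 1)

theorem evP_lx (P : k × k) : evP P (lx P) = 0 := by
  simp [evP, lx]

theorem evP_ly (P : k × k) : evP P (ly P) = 0 := by
  simp [evP, ly]

theorem mem_IX {f : R k} : f ∈ IX s ↔ ∀ P ∈ s, evP P f = 0 := by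
  simp [IX, Submodule.mem_iInf, RingHom.mem_ker]

/-- the ideal of a point is generated by the two linear forms -/
theorem ker_evP (P : k × k) (f : R k) (hf : evP P f = 0) :
    ∃ al be : R k, f = al * lx P + be * ly P := by
  set c : A k := C P.1 * X 1 with hc
  have hdiv : f = Polynomial.C (f.eval c) + lx P * (f /ₘ (Polynomial.X - Polynomial.C c)) := by
    have := Polynomial.modByMonic_add_div f (Polynomial.X - Polynomial.C c)
    rw [Polynomial.modByMonic_X_sub_C_eq_C_eval] at this
    exact this.symm
  have h1 : evP P (Polynomial.C (f.eval c)) = 0 := by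
    have := congrArg (evP P) hdiv
    rw [map_add, map_mul, evP_lx, zero_mul, add_zero, hf] at this
    exact this.symm
  set r : A k := f.eval c with hr
  have h2 : MvPolynomial.eval₂Hom Polynomial.C ![Polynomial.C P.2 * Polynomial.X, Polynomial.X] r
      = 0 := by
    simpa [evP] using h1
  -- `r` vanishes modulo `y - q z`
  set I : Ideal (A k) := Ideal.span {X 0 - C P.2 * X 1} with hI
  have h3 : (Ideal.Quotient.mk I) = ((Ideal.Quotient.mk I).comp
      (Polynomial.eval₂RingHom (C : k →+* A k) (X 1))).comp
      (MvPolynomial.eval₂Hom Polynomial.C ![Polynomial.C P.2 * Polynomial.X, Polynomial.X]) := by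
    apply MvPolynomial.ringHom_ext
    · intro x
      simp
    · intro i
      fin_cases i
      · simp only [RingHom.comp_apply, Fin.zero_eta, Fin.isValue, MvPolynomial.coe_eval₂Hom,
          MvPolynomial.eval₂_X, Matrix.cons_val_zero, map_mul, Polynomial.coe_eval₂RingHom,
          Polynomial.eval₂_C, Polynomial.eval₂_X]
        rw [← map_mul, Ideal.Quotient.eq]
        exact Ideal.subset_span rfl
      · simp
  have h4 : (Ideal.Quotient.mk I) r = 0 := by
    rw [h3, RingHom.comp_apply, h2, map_zero]
  rw [Ideal.Quotient.eq_zero_iff_mem, hI, Ideal.mem_span_singleton] at h4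
  obtain ⟨g, hg⟩ := h4
  refine ⟨f /ₘ (Polynomial.X - Polynomial.C c), Polynomial.C g, ?_⟩
  conv_lhs => rw [hdiv]
  rw [hg, map_mul]
  unfold ly
  ring

/-- in `κ^4` the unit vectors are not in the span of three vectors -/
theorem no_span {κ : Type*} [Field κ] (U : κ) (hU : U ≠ 0) (c d P al be t : Fin 4 → κ)
    (hh : ∀ j l, (if j = l then U else 0) = al j * c l + be j * d l + t j * P l) : False := by
  set N : Matrix (Fin 4) (Fin 3) κ := Matrix.of fun j i => ![al j, be j, t j] i with hN
  set Q : Matrix (Fin 3) (Fin 4) κ := Matrix.of fun i l => U⁻¹ * ![c l, d l, P l] i with hQ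
  have h1 : N * Q = 1 := by
    ext j l
    have h0 : (N * Q) j l = al j * (U⁻¹ * c l) + be j * (U⁻¹ * d l) + t j * (U⁻¹ * P l) := by
      rw [Matrix.mul_apply, Fin.sum_univ_three]; rfl
    rw [h0, Matrix.one_apply]
    have h2 := hh j l
    have h3 : al j * (U⁻¹ * c l) + be j * (U⁻¹ * d l) + t j * (U⁻¹ * P l) =
        U⁻¹ * (al j * c l + be j * d l + t j * P l) := by ring
    rw [h3, ← h2]
    split_ifs
    · exact inv_mul_cancel₀ hU
    · ring
  have h2 : (N * Q).rank ≤ 3 := by
    refine (Matrix.rank_mul_le_left N Q).trans ?_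
    have := Matrix.rank_le_card_width N
    simpa using this
  rw [h1, Matrix.rank_one] at h2
  simp at h2

theorem rc (hN : NF s F G a) (hM : MH F G a M h) {κ : Type*} [Field κ] (χ : R k →+* κ)
    (hχ : ¬ (χ Polynomial.X = 0 ∧ χ (Polynomial.C (X 0)) = 0 ∧ χ (Polynomial.C (X 1)) = 0)) :
    ¬ ∃ (u p : Fin 3 → κ) (p0 : κ),
      (∀ i j, (if i = j then χ Polynomial.X else 0) - χ (Polynomial.C (M i j)) = u i * p j) ∧
      ∀ i, χ (Polynomial.C (h i)) = u i * p0 := by
  classical
  rintro ⟨u, p, p0, hu, hp0⟩
  -- relations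
  have rel : ∀ b : Fin 4 → R k, ∑ l, b l * fam F G l = 0 →
      ∃ t : κ, ∀ l, χ (b l) = t * (Fin.cons (-p0) p : Fin 4 → κ) l := by
    intro b hb
    rw [Fin.sum_univ_succ] at hb
    have hb' : (∑ j : Fin 3, b j.succ * G j) + b 0 * F = 0 := by
      rw [add_comm]
      exact hb
    obtain ⟨lam, h1, h2⟩ := syz hN hM (fun j => b j.succ) (b 0) hb'
    refine ⟨∑ i, χ (lam i) * u i, fun l => ?_⟩
    refine Fin.cases ?_ (fun j => ?_) l
    · rw [Fin.cons_zero, h2, map_neg, map_sum]
      simp only [map_mul, hp0]
      rw [mul_neg, Finset.sum_mul]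
      congr 1
      exact Finset.sum_congr rfl fun i _ => by ring
    · rw [Fin.cons_succ, h1 j, map_sub, map_mul, map_sum, Finset.sum_mul]
      simp only [map_mul]
      have h3 : χ (lam j) * χ Polynomial.X = ∑ i, χ (lam i) * (if i = j then χ Polynomial.X else 0) := by
        simp
      rw [h3, ← Finset.sum_sub_distrib]
      refine Finset.sum_congr rfl fun i _ => ?_
      rw [mul_assoc, ← hu i j]
      ring
  -- criterion
  have crit : ∀ (U : R k) (c d al be : Fin 4 → R k), χ U ≠ 0 →
      (∀ j, U * fam F G j = al j * (∑ l, c l * fam F G l) + be j * (∑ l, d l * fam F G l)) →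
      False := by
    intro U c d al be hU hrel
    have hex : ∀ j, ∃ t : κ, ∀ l, χ ((if j = l then U else 0) - al j * c l - be j * d l) =
        t * (Fin.cons (-p0) p : Fin 4 → κ) l := by
      intro j
      apply rel
      have e1 : ∀ l, ((if j = l then U else 0) - al j * c l - be j * d l) * fam F G l =
          (if j = l then U * fam F G l else 0) - al j * (c l * fam F G l) -
            be j * (d l * fam F G l) := by
        intro l
        split_ifs <;> ring
      simp only [e1, Finset.sum_sub_distrib, ← Finset.mul_sum]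
      rw [Finset.sum_ite_eq Finset.univ j (fun l => U * fam F G l), if_pos (Finset.mem_univ j),
        hrel j]
      ring
    choose t ht using hex
    refine no_span (χ U) hU (fun l => χ (c l)) (fun l => χ (d l)) (Fin.cons (-p0) p)
      (fun j => χ (al j)) (fun j => χ (be j)) t ?_
    intro j l
    have h1 := ht j l
    rw [map_sub, map_sub, map_mul, map_mul] at h1
    have h2 : (if j = l then χ U else 0) = χ (if j = l then U else 0) := by
      split_ifs <;> simp
    rw [h2]
    linear_combination h1
  -- elements of the ideal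
  have spn : ∀ f ∈ IX s, ∃ c : Fin 4 → R k, f = ∑ l, c l * fam F G l := by
    intro f hf
    obtain ⟨c, α, hcα⟩ := hN.span f hf
    refine ⟨Fin.cons c fun i => Polynomial.C (α i), ?_⟩
    rw [Fin.sum_univ_succ]
    simp only [Fin.cons_zero, Fin.cons_succ, fam]
    exact hcα
  have famI : ∀ l, fam F G l ∈ IX s := by
    intro l
    refine Fin.cases ?_ (fun j => ?_) l
    · exact hN.memF
    · exact hN.memG j
  by_cases hcase : ∃ f ∈ IX s, χ f ≠ 0
  · obtain ⟨f, hf, hχf⟩ := hcase
    obtain ⟨c, hc⟩ := spn f hf
    refine crit f c 0 (fam F G) 0 hχf ?_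
    intro j
    rw [← hc]
    simp only [Pi.zero_apply, zero_mul, add_zero]
    ring
  · push Not at hcase
    -- the point
    obtain ⟨P, hPs, hP1, hP2⟩ : ∃ P ∈ s, χ (lx P) = 0 ∧ χ (ly P) = 0 := by
      by_contra hcon
      push Not at hcon
      have hm : (∏ P ∈ s, (if χ (lx P) = 0 then ly P else lx P)) ∈ IX s := by
        rw [mem_IX]
        intro P hP
        rw [map_prod]
        apply Finset.prod_eq_zero hP
        split_ifs
        · exact evP_ly P
        · exact evP_lx P
      have h0 := hcase _ hm
      rw [map_prod, Finset.prod_eq_zero_iff] at h0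
      obtain ⟨P, hP, hPz⟩ := h0
      split_ifs at hPz with h1
      · exact hcon P hP h1 hPz
      · exact h1 hPz
    set ζ := χ (Polynomial.C (X 1)) with hζ
    have vx : ∀ P' : k × k, χ (lx P') = χ Polynomial.X - χ (Polynomial.C (C P'.1)) * ζ := by
      intro P'
      unfold lx
      rw [map_sub, map_mul, map_mul]
    have vy : ∀ P' : k × k, χ (ly P') = χ (Polynomial.C (X 0)) - χ (Polynomial.C (C P'.2)) * ζ := by
      intro P'
      unfold ly
      rw [map_sub, map_mul, map_sub, map_mul]
    have hζ0 : ζ ≠ 0 := by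
      intro hz
      apply hχ
      refine ⟨?_, ?_, hz⟩
      · have := vx P
        rw [hP1, hz, mul_zero, sub_zero] at this
        exact this.symm
      · have := vy P
        rw [hP2, hz, mul_zero, sub_zero] at this
        exact this.symm
    let ψ : k →+* κ := χ.comp ((Polynomial.C : A k →+* R k).comp (C : k →+* A k))
    have hψ : ∀ x, χ (Polynomial.C (C x)) = ψ x := fun x => rfl
    have ψinj : Function.Injective ψ := ψ.injective
    set U : R k := ∏ P' ∈ s.erase P, (if P'.1 = P.1 then ly P' else lx P') with hU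
    have hχU : χ U ≠ 0 := by
      rw [hU, map_prod, Finset.prod_ne_zero_iff]
      intro P' hP'
      rw [Finset.mem_erase] at hP'
      split_ifs with h1
      · have h2 : P'.2 ≠ P.2 := fun h2 => hP'.1 (Prod.ext h1 h2)
        rw [vy, hψ]
        rw [vy, hψ] at hP2
        have h3 : χ (Polynomial.C (X 0)) - ψ P'.2 * ζ = (ψ P.2 - ψ P'.2) * ζ := by
          linear_combination hP2
        rw [h3]
        exact mul_ne_zero (sub_ne_zero.2 fun h => h2 (ψinj h).symm) hζ0
      · rw [vx, hψ]
        rw [vx, hψ] at hP1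
        have h3 : χ Polynomial.X - ψ P'.1 * ζ = (ψ P.1 - ψ P'.1) * ζ := by
          linear_combination hP1
        rw [h3]
        exact mul_ne_zero (sub_ne_zero.2 fun h => h1 (ψinj h).symm) hζ0
    have hUv : ∀ P' ∈ s, P' ≠ P → evP P' U = 0 := by
      intro P' hP' hne
      rw [hU, map_prod]
      apply Finset.prod_eq_zero (Finset.mem_erase.2 ⟨hne, hP'⟩)
      split_ifs
      · exact evP_ly P'
      · exact evP_lx P'
    have m1 : U * lx P ∈ IX s := by
      rw [mem_IX]
      intro P' hP'
      rw [map_mul]
      by_cases hPP : P' = P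
      · rw [hPP, evP_lx, mul_zero]
      · rw [hUv P' hP' hPP, zero_mul]
    have m2 : U * ly P ∈ IX s := by
      rw [mem_IX]
      intro P' hP'
      rw [map_mul]
      by_cases hPP : P' = P
      · rw [hPP, evP_ly, mul_zero]
      · rw [hUv P' hP' hPP, zero_mul]
    obtain ⟨c, hc⟩ := spn _ m1
    obtain ⟨d, hd⟩ := spn _ m2
    have hk : ∀ j, ∃ al be : R k, fam F G j = al * lx P + be * ly P := fun j =>
      ker_evP P _ (mem_IX.1 (famI j) P hPs)
    choose al be hab using hk
    refine crit U c d al be hχU ?_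
    intro j
    rw [← hc, ← hd]
    conv_lhs => rw [hab j]
    ring

end Pool.Agent.H873.RT
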