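import Pool.Agent.H873.RT.Defs
import Pool.Agent.H873.RT.Mult
import Pool.Agent.H873.RT.Syz

set_option autoImplicit false

namespace Pool.Agent.H873.RT

open MvPolynomial

variable {k : Type*} [Field k] {s : Finset (k × k)} {F : R k} {G : Fin 3 → R k} {a : Fin 3 → ℕ}
  {M : Matrix (Fin 3) (Fin 3) (A k)} {h : Fin 3 → A k}

/-- `F` is not a product of a linear form and an element of the ideal if all relations have coefficients in
the irrelevant ideal -/
theorem not_factor (hN : NF s F G a) (hM : MH F G a M h) (hM0 : ∀ i j, (M i j).coeff 0 = 0)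
    (hh0 : ∀ i, (h i).coeff 0 = 0) (l f : R k) (hl : (l.coeff 0).coeff 0 = 0) (hf : f ∈ IX s) : F ≠ l * f := by
  intro hF
  obtain ⟨c, al, hc⟩ := hN.span f hf
  have h1 : (∑ j, (l * Polynomial.C (al j)) * G j) + (l * c - 1) * F = 0 := by
    have h2 : (∑ j, (l * Polynomial.C (al j)) * G j) = l * ∑ j, Polynomial.C (al j) * G j := by
      rw [Finset.mul_sum]
      exact Finset.sum_congr rfl fun j _ => mul_assoc _ _ _
    have h3 : l * (c * F + ∑ i, Polynomial.C (al i) * G i) = F := by rw [← hc, ← hF]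
    rw [h2]
    linear_combination h3
  obtain ⟨lam, -, h4⟩ := syz hN hM _ _ h1
  set φ : R k →+* k := (MvPolynomial.constantCoeff).comp (Polynomial.constantCoeff) with hφ
  have hφc : ∀ p : R k, φ p = (p.coeff 0).coeff 0 := fun p => rfl
  have h5 := congrArg φ h4
  rw [map_sub, map_mul, map_one, hφc l, hl, zero_mul, zero_sub, map_neg, map_sum] at h5
  have h6 : ∑ i, φ (lam i * Polynomial.C (h i)) = 0 := by
    refine Finset.sum_eq_zero fun i _ => ?_
    rw [map_mul, hφc (Polynomial.C (h i)), Polynomial.coeff_C_zero, hh0 i, mul_zero]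
  rw [h6, neg_zero, neg_eq_zero] at h5
  exact one_ne_zero h5

/-- `F` has no repeated linear factor -/
theorem not_square (hN : NF s F G a) (hM : MH F G a M h) (hM0 : ∀ i j, (M i j).coeff 0 = 0)
    (hh0 : ∀ i, (h i).coeff 0 = 0) (b c b' c' : k) :
    F ≠ (Polynomial.X - Polynomial.C (C b * X 0 + C c * X 1)) ^ 2 *
      (Polynomial.X - Polynomial.C (C b' * X 0 + C c' * X 1)) := by
  intro hF
  set l : R k := Polynomial.X - Polynomial.C (C b * X 0 + C c * X 1) with hl
  set l' : R k := Polynomial.X - Polynomial.C (C b' * X 0 + C c' * X 1) with hl'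
  have hmem : l * l' ∈ IX s := by
    rw [mem_IX]
    intro P hP
    have h1 := (mem_IX.1 hN.memF) P hP
    rw [hF, map_mul, map_pow, mul_eq_zero] at h1
    rw [map_mul]
    rcases h1 with h1 | h1
    · rw [pow_eq_zero_iff (by norm_num)] at h1
      rw [h1, zero_mul]
    · rw [h1, mul_zero]
  refine not_factor hN hM hM0 hh0 l (l * l') ?_ hmem (by rw [hF]; ring)
  have h2 : l.coeff 0 = -(C b * X 0 + C c * X 1) := by
    rw [hl, Polynomial.coeff_sub, Polynomial.coeff_X_zero, Polynomial.coeff_C_zero, zero_sub]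
  rw [h2]
  change MvPolynomial.constantCoeff (-(C b * X 0 + C c * X 1 : A k)) = 0
  rw [map_neg, map_add, map_mul, map_mul, MvPolynomial.constantCoeff_X,
    MvPolynomial.constantCoeff_X]
  simp

end Pool.Agent.H873.RT
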