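import Pool.Agent.H873.RT.LA
import Pool.Agent.H873.RT.Case2a

set_option autoImplicit false

namespace Pool.Agent.H873.RT

open MvPolynomial

namespace C2

section

variable {k : Type*} [Field k]

/-- restriction to a line -/
noncomputable def psi (p q : k) : A k →+* Polynomial k :=
  MvPolynomial.eval₂Hom Polynomial.C ![Polynomial.C p * Polynomial.X, Polynomial.C q * Polynomial.X]

theorem psi_C (p q c : k) : psi p q (C c) = Polynomial.C c := by
  unfold psi
  rw [eval₂Hom_C]

theorem psi_X0 (p q : k) : psi p q (X 0) = Polynomial.C p * Polynomial.X := by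
  unfold psi
  rw [eval₂Hom_X']
  rfl

theorem psi_X1 (p q : k) : psi p q (X 1) = Polynomial.C q * Polynomial.X := by
  unfold psi
  rw [eval₂Hom_X']
  rfl

theorem deg_eq (m : Fin 2 →₀ ℕ) : m.degree = m 0 + m 1 := by
  rw [Finsupp.degree_eq_sum, Fin.sum_univ_two]

theorem psi_monomial (p q : k) (m : Fin 2 →₀ ℕ) (c : k) :
    psi p q (monomial m c) =
      Polynomial.C (c * p ^ m 0 * q ^ m 1) * Polynomial.X ^ (m.degree) := by
  unfold psi
  rw [eval₂Hom_monomial, Finsupp.prod_fintype _ _ (fun i => pow_zero _), Fin.prod_univ_two, deg_eq]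
  simp only [Matrix.cons_val_zero, Matrix.cons_val_one, map_mul, map_pow]
  ring

theorem psi_hom (p q : k) (f : A k) (n : ℕ) (h : (psi p q f).coeff n ≠ 0) :
    ∃ m, f.coeff m ≠ 0 ∧ m.degree = n := by
  have h1 : psi p q f = ∑ m ∈ f.support, psi p q (monomial m (f.coeff m)) := by
    conv_lhs => rw [← f.support_sum_monomial_coeff]
    rw [map_sum]
  rw [h1, Polynomial.finsetSum_coeff] at h
  obtain ⟨m, hm, hne⟩ := Finset.exists_ne_zero_of_sum_ne_zero h
  refine ⟨m, mem_support_iff.1 hm, ?_⟩
  rw [psi_monomial, Polynomial.coeff_C_mul, Polynomial.coeff_X_pow] at hne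
  by_contra hcon
  rw [if_neg (Ne.symm hcon), mul_zero] at hne
  exact hne rfl

theorem psi_zero (p q : k) (f : A k) : (psi p q f).coeff 0 = f.coeff 0 := by
  have h1 : (Polynomial.constantCoeff.comp (psi p q)) = (constantCoeff : A k →+* k) := by
    apply MvPolynomial.ringHom_ext
    · intro c
      rw [RingHom.comp_apply, psi_C, constantCoeff_C, Polynomial.constantCoeff_apply,
        Polynomial.coeff_C_zero]
    · intro i
      fin_cases i
      · simp [psi_X0]
      · simp [psi_X1]
  exact RingHom.congr_fun h1 f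

theorem psi_lin (p q : k) (f : A k) : (psi p q f).coeff 1 =
    p * f.coeff (Finsupp.single 0 1) + q * f.coeff (Finsupp.single 1 1) := by
  induction f using MvPolynomial.induction_on with
  | C c =>
    rw [psi_C, Polynomial.coeff_C, if_neg one_ne_zero, coeff_C, coeff_C, if_neg, if_neg]
    · ring
    · intro h
      have := congrArg (fun m : Fin 2 →₀ ℕ => m 1) h
      simp at this
    · intro h
      have := congrArg (fun m : Fin 2 →₀ ℕ => m 0) h
      simp at this
  | add f g hf hg =>
    rw [map_add, Polynomial.coeff_add, hf, hg, coeff_add, coeff_add]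
    ring
  | mul_X f i hf =>
    rw [map_mul, coeff_mul_X', coeff_mul_X']
    fin_cases i
    · simp only [Fin.zero_eta, psi_X0]
      rw [mul_left_comm, Polynomial.coeff_C_mul, Polynomial.coeff_mul_X, psi_zero]
      simp
    · simp only [Fin.mk_one, psi_X1]
      rw [mul_left_comm, Polynomial.coeff_C_mul, Polynomial.coeff_mul_X, psi_zero]
      simp

theorem decomp (α β b c : k) (hd : b * α + c * β = 1) (f : A k) :
    ∃ g : A k, f = (C β * X 0 + C (-α) * X 1) * g +
      Polynomial.aeval (C b * X 0 + C c * X 1 : A k) (psi α β f) := by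
  have hC : (C b * C α + C c * C β : A k) = 1 := by
    rw [← C_mul, ← C_mul, ← C_add, hd, C_1]
  induction f using MvPolynomial.induction_on with
  | C x =>
    refine ⟨0, ?_⟩
    rw [psi_C, Polynomial.aeval_C, mul_zero, zero_add]
    rfl
  | add f g hf hg =>
    obtain ⟨f1, hf1⟩ := hf
    obtain ⟨g1, hg1⟩ := hg
    refine ⟨f1 + g1, ?_⟩
    conv_lhs => rw [hf1, hg1]
    rw [map_add, map_add]
    ring
  | mul_X f i hf =>
    obtain ⟨g, hg⟩ := hf
    have hC' : (C (-α) : A k) = - C α := C_neg _ _
    rw [map_mul, map_mul]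
    set P : A k := Polynomial.aeval (C b * X 0 + C c * X 1 : A k) (psi α β f) with hP
    fin_cases i
    · simp only [Fin.zero_eta, psi_X0]
      refine ⟨g * X 0 + P * C c, ?_⟩
      rw [map_mul, Polynomial.aeval_C, Polynomial.aeval_X, MvPolynomial.algebraMap_eq, hC']
      rw [hC'] at hg
      conv_lhs => rw [hg]
      linear_combination (-P * X 0) * hC
    · simp only [Fin.mk_one, psi_X1]
      refine ⟨g * X 1 - P * C b, ?_⟩
      rw [map_mul, Polynomial.aeval_C, Polynomial.aeval_X, MvPolynomial.algebraMap_eq, hC']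
      rw [hC'] at hg
      conv_lhs => rw [hg]
      linear_combination (-P * X 1) * hC

theorem decomp_zero (α β b c : k) (hd : b * α + c * β = 1) (f g : A k) (p : Polynomial k)
    (h : f = (C β * X 0 + C (-α) * X 1) * g + Polynomial.aeval (C b * X 0 + C c * X 1 : A k) p) :
    g.coeff 0 = c * f.coeff (Finsupp.single 0 1) - b * f.coeff (Finsupp.single 1 1) := by
  have h1 : (psi c (-b) f).coeff 1 = (psi c (-b) ((C β * X 0 + C (-α) * X 1) * g +
      Polynomial.aeval (C b * X 0 + C c * X 1 : A k) p)).coeff 1 :=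
    congrArg (fun x => (psi c (-b) x).coeff 1) h
  rw [psi_lin] at h1
  have h2 : psi c (-b) (C β * X 0 + C (-α) * X 1) = Polynomial.X := by
    rw [map_add, map_mul, map_mul, psi_C, psi_C, psi_X0, psi_X1, ← mul_assoc, ← mul_assoc,
      ← Polynomial.C_mul, ← Polynomial.C_mul, ← add_mul, ← Polynomial.C_add]
    have : β * c + -α * -b = 1 := by linear_combination hd
    rw [this, Polynomial.C_1, one_mul]
  have h3 : psi c (-b) (C b * X 0 + C c * X 1) = 0 := by
    rw [map_add, map_mul, map_mul, psi_C, psi_C, psi_X0, psi_X1, ← mul_assoc, ← mul_assoc,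
      ← Polynomial.C_mul, ← Polynomial.C_mul, ← add_mul, ← Polynomial.C_add]
    have : b * c + c * -b = 0 := by ring
    rw [this, Polynomial.C_0, zero_mul]
  have h4 : psi c (-b) (Polynomial.aeval (C b * X 0 + C c * X 1 : A k) p) =
      Polynomial.C (p.coeff 0) := by
    rw [Polynomial.aeval_def, Polynomial.hom_eval₂, h3, Polynomial.eval₂_at_zero,
      RingHom.comp_apply, MvPolynomial.algebraMap_eq, psi_C]
  rw [map_add, map_mul, h2, h4, Polynomial.coeff_add, Polynomial.coeff_C, if_neg one_ne_zero,
    Polynomial.coeff_X_mul, psi_zero] at h1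
  linear_combination -h1

/-! ### the triple product -/

theorem tri_map {B B' : Type*} [CommRing B] [CommRing B'] (f : B →+* B') (t x y : Fin 3 → B) :
    f (dotProduct t (crossProduct x y)) =
      dotProduct (fun i => f (t i)) (crossProduct (fun i => f (x i)) (fun i => f (y i))) := by
  simp only [dotProduct, Fin.sum_univ_three, cross_apply, Matrix.cons_val_zero, Matrix.cons_val_one,
    Matrix.cons_val, map_add, map_mul, map_sub]

theorem map_nn {B B' : Type*} [CommRing B] [CommRing B'] (f : B →+* B')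
    (M : Matrix (Fin 3) (Fin 3) B) (h : Fin 3 → B) (i : Fin 3) :
    MvPolynomial.map f (nn M h i) = nn (M.map f) (fun j => f (h j)) i := by
  unfold nn
  rw [map_add, map_sum, map_mul, map_C, map_X]
  congr 1
  refine Finset.sum_congr rfl fun j _ => ?_
  rw [map_mul, map_C, map_X]
  rfl

theorem eval_nn (N : Matrix (Fin 3) (Fin 3) k) (h : Fin 3 → k) (t : k) (v : Fin 3 → k) (i : Fin 3) :
    MvPolynomial.eval (Fin.cons t v : Fin 4 → k) (nn N h i) = (N.mulVec v + t • h) i := by
  unfold nn
  rw [map_add, map_sum, map_mul, eval_C, eval_X, Fin.cons_zero]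
  simp only [map_mul, eval_C, eval_X, Fin.cons_succ]
  rw [Pi.add_apply, Pi.smul_apply, smul_eq_mul, mul_comm t]
  rfl

theorem tri_eval (N N' : Matrix (Fin 3) (Fin 3) k) (h h' : Fin 3 → k)
    (hD : dotProduct (TT k) (crossProduct (nn N h) (nn N' h')) = 0) (t : k) (v : Fin 3 → k) :
    Matrix.det ![v, N.mulVec v + t • h, N'.mulVec v + t • h'] = 0 := by
  have h1 := congrArg (MvPolynomial.eval (Fin.cons t v : Fin 4 → k)) hD
  rw [tri_map, map_zero] at h1
  have h2 : (fun i => MvPolynomial.eval (Fin.cons t v : Fin 4 → k) (TT k i)) = v := by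
    funext i
    unfold TT
    rw [eval_X, Fin.cons_succ]
  have h3 : (fun i => MvPolynomial.eval (Fin.cons t v : Fin 4 → k) (nn N h i)) =
      N.mulVec v + t • h := by
    funext i
    rw [eval_nn]
  have h4 : (fun i => MvPolynomial.eval (Fin.cons t v : Fin 4 → k) (nn N' h' i)) =
      N'.mulVec v + t • h' := by
    funext i
    rw [eval_nn]
  rw [h2, h3, h4, triple_product_eq_det] at h1
  exact h1

theorem hom_nn {B : Type*} [CommRing B] (M : Matrix (Fin 3) (Fin 3) B) (h : Fin 3 → B)
    (i : Fin 3) : (nn M h i).IsHomogeneous 1 := by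
  unfold nn
  refine IsHomogeneous.add (IsHomogeneous.sum _ _ _ fun j _ => ?_) ?_
  · exact isHomogeneous_C_mul_X _ _
  · exact isHomogeneous_C_mul_X _ _

/-! ### the frame -/

theorem cc_aeval (v : A k) (hv : constantCoeff v = 0) (p : Polynomial k) :
    constantCoeff (Polynomial.aeval v p) = p.coeff 0 := by
  rw [Polynomial.aeval_def, Polynomial.hom_eval₂, hv, Polynomial.eval₂_at_zero,
    RingHom.comp_apply, MvPolynomial.algebraMap_eq, constantCoeff_C]

theorem frame {M : Matrix (Fin 3) (Fin 3) (A k)} {h : Fin 3 → A k} (α β b c lam : k)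
    (hd : b * α + c * β = 1) (e : ℕ) (he : 0 < e)
    (hP : ∀ i j, ∀ m < e, (psi α β (M i j) -
      (if i = j then Polynomial.C lam * Polynomial.X else 0)).coeff m = 0)
    (hQ : ∀ i, ∀ m < e, (psi α β (h i)).coeff m = 0)
    (hD : dotProduct (TT k) (crossProduct
      (nn (Matrix.of fun i j => c * (M i j).coeff (Finsupp.single 0 1) -
          b * (M i j).coeff (Finsupp.single 1 1))
        (fun i => c * (h i).coeff (Finsupp.single 0 1) - b * (h i).coeff (Finsupp.single 1 1)))
      (nn (Matrix.of fun i j => (psi α β (M i j) -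
          (if i = j then Polynomial.C lam * Polynomial.X else 0)).coeff e)
        (fun i => (psi α β (h i)).coeff e))) ≠ 0) :
    ∃ (u v l0 : A k) (N : ℕ) (n1 n2 : Fin 3 → E k), 0 < N ∧
      (∃ b c b' c' : k, u = C b * X 0 + C c * X 1 ∧ v = C b' * X 0 + C c' * X 1 ∧
        b * c' - b' * c ≠ 0) ∧
      (∀ i, nn M h i = C l0 * TT (A k) i + C u * n1 i + C (v ^ N) * n2 i) ∧
      (∀ i, (n1 i).IsHomogeneous 1) ∧ (∀ i, (n2 i).IsHomogeneous 1) ∧
      dotProduct (TT (A k)) (crossProduct n1 n2) ∉ Ideal.span {(C (X 0) : E k), C (X 1)} := by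
  choose g hg using fun i j => decomp α β b c hd (M i j)
  choose g' hg' using fun i => decomp α β b c hd (h i)
  have hdvd : ∀ i j, Polynomial.X ^ e ∣ psi α β (M i j) -
      (if i = j then Polynomial.C lam * Polynomial.X else 0) :=
    fun i j => Polynomial.X_pow_dvd_iff.2 (hP i j)
  have hdvd' : ∀ i, Polynomial.X ^ e ∣ psi α β (h i) :=
    fun i => Polynomial.X_pow_dvd_iff.2 (hQ i)
  choose P hPe using hdvd
  choose Q hQe using hdvd'
  obtain ⟨u, hu⟩ : ∃ u : A k, u = C β * X 0 + C (-α) * X 1 := ⟨_, rfl⟩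
  obtain ⟨v, hv⟩ : ∃ v : A k, v = C b * X 0 + C c * X 1 := ⟨_, rfl⟩
  have hM1 : ∀ i j, M i j = u * g i j + (if i = j then C lam * v else 0) +
      v ^ e * Polynomial.aeval v (P i j) := by
    intro i j
    have h1 : psi α β (M i j) = (if i = j then Polynomial.C lam * Polynomial.X else 0) +
        Polynomial.X ^ e * P i j := by
      rw [← hPe i j]
      ring
    have h2 := hg i j
    rw [← hu, ← hv, h1, map_add, map_mul, map_pow, Polynomial.aeval_X] at h2
    conv_lhs => rw [h2]
    rw [← add_assoc]
    congr 2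
    split_ifs
    · rw [map_mul, Polynomial.aeval_X, Polynomial.aeval_C]
      rfl
    · rw [map_zero]
  have hh1 : ∀ i, h i = u * g' i + v ^ e * Polynomial.aeval v (Q i) := by
    intro i
    have h2 := hg' i
    rw [← hu, ← hv, hQe i, map_mul, map_pow, Polynomial.aeval_X] at h2
    exact h2
  refine ⟨u, v, C lam * v, e, nn (Matrix.of g) g',
    nn (Matrix.of fun i j => Polynomial.aeval v (P i j)) (fun i => Polynomial.aeval v (Q i)), he,
    ⟨β, -α, b, c, hu, hv, ?_⟩, ?_, fun i => hom_nn _ _ i, fun i => hom_nn _ _ i, ?_⟩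
  · have : β * c - b * -α = 1 := by linear_combination hd
    rw [this]
    exact one_ne_zero
  · intro i
    have e1 : (∑ j, C (M i j) * X j.succ : E k) = C u * (∑ j, C (g i j) * X j.succ) +
        C (C lam * v) * X i.succ + C (v ^ e) * ∑ j, C (Polynomial.aeval v (P i j)) * X j.succ := by
      have e2 : (C (C lam * v) * X i.succ : E k) =
          ∑ j, C (if i = j then C lam * v else 0) * X j.succ := by
        rw [Finset.sum_eq_single i]
        · rw [if_pos rfl]
        · intro j _ hj
          rw [if_neg (Ne.symm hj), C_0, zero_mul]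
        · intro hi
          exact absurd (Finset.mem_univ i) hi
      rw [e2, Finset.mul_sum, Finset.mul_sum, ← Finset.sum_add_distrib, ← Finset.sum_add_distrib]
      refine Finset.sum_congr rfl fun j _ => ?_
      conv_lhs => rw [hM1 i j]
      rw [C_add, C_add, C_mul, C_mul]
      ring
    have e3 : (C (h i) : E k) = C u * C (g' i) + C (v ^ e) * C (Polynomial.aeval v (Q i)) := by
      conv_lhs => rw [hh1 i]
      rw [C_add, C_mul, C_mul]
    unfold nn TT
    rw [e1, e3]
    simp only [Matrix.of_apply]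
    ring
  · intro hmem
    have h1 : Ideal.span {(C (X 0) : E k), C (X 1)} ≤
        RingHom.ker (MvPolynomial.map (σ := Fin 4) (constantCoeff : A k →+* k)) := by
      rw [Ideal.span_le]
      rintro x (rfl | rfl)
      · rw [SetLike.mem_coe, RingHom.mem_ker, map_C, constantCoeff_X, C_0]
      · rw [SetLike.mem_coe, RingHom.mem_ker, map_C, constantCoeff_X, C_0]
    have h2 := h1 hmem
    rw [RingHom.mem_ker, tri_map] at h2
    have hcv : constantCoeff v = 0 := by
      rw [hv, map_add, map_mul, map_mul, constantCoeff_X, constantCoeff_X, mul_zero, mul_zero,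
        add_zero]
    have e0 : (fun i => MvPolynomial.map (σ := Fin 4) (constantCoeff : A k →+* k)
        (TT (A k) i)) = TT k := by
      funext i
      unfold TT
      rw [map_X]
    have e1 : (fun i => MvPolynomial.map (σ := Fin 4) (constantCoeff : A k →+* k)
        (nn (Matrix.of g) g' i)) =
        nn (Matrix.of fun i j => c * (M i j).coeff (Finsupp.single 0 1) -
          b * (M i j).coeff (Finsupp.single 1 1))
        (fun i => c * (h i).coeff (Finsupp.single 0 1) -
          b * (h i).coeff (Finsupp.single 1 1)) := by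
      funext i
      rw [map_nn]
      have f1 : (Matrix.of g).map (constantCoeff : A k →+* k) =
          Matrix.of fun i j => c * (M i j).coeff (Finsupp.single 0 1) -
            b * (M i j).coeff (Finsupp.single 1 1) := by
        ext i j
        rw [Matrix.map_apply, Matrix.of_apply, Matrix.of_apply]
        exact decomp_zero α β b c hd _ _ _ (hg i j)
      have f2 : (fun j => (constantCoeff : A k →+* k) (g' j)) =
          fun i => c * (h i).coeff (Finsupp.single 0 1) -
            b * (h i).coeff (Finsupp.single 1 1) := by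
        funext j
        exact decomp_zero α β b c hd _ _ _ (hg' j)
      rw [f1, f2]
    have e2 : (fun i => MvPolynomial.map (σ := Fin 4) (constantCoeff : A k →+* k)
        (nn (Matrix.of fun i j => Polynomial.aeval v (P i j))
          (fun i => Polynomial.aeval v (Q i)) i)) =
        nn (Matrix.of fun i j => (psi α β (M i j) -
          (if i = j then Polynomial.C lam * Polynomial.X else 0)).coeff e)
        (fun i => (psi α β (h i)).coeff e) := by
      funext i
      rw [map_nn]
      have f1 : (Matrix.of fun i j => Polynomial.aeval v (P i j)).map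
          (constantCoeff : A k →+* k) =
          Matrix.of fun i j => (psi α β (M i j) -
            (if i = j then Polynomial.C lam * Polynomial.X else 0)).coeff e := by
        ext i j
        rw [Matrix.map_apply, Matrix.of_apply, Matrix.of_apply, cc_aeval v hcv, hPe i j]
        have := Polynomial.coeff_X_pow_mul (P i j) e 0
        rw [zero_add] at this
        exact this.symm
      have f2 : (fun j => (constantCoeff : A k →+* k) (Polynomial.aeval v (Q j))) =
          fun i => (psi α β (h i)).coeff e := by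
        funext j
        rw [cc_aeval v hcv, hQe j]
        have := Polynomial.coeff_X_pow_mul (Q j) e 0
        rw [zero_add] at this
        exact this.symm
      rw [f1, f2]
    rw [e0, e1, e2] at h2
    exact hD h2

/-! ### determinants -/

theorem det_comb (v x y : Fin 3 → k) (a b c d : k) :
    Matrix.det ![v, a • x + b • y, c • x + d • y] = (a * d - b * c) * Matrix.det ![v, x, y] := by
  have h1 : ∀ p q r : Fin 3 → k, Matrix.det ![p, q, r] =
      p 0 * q 1 * r 2 - p 0 * q 2 * r 1 - p 1 * q 0 * r 2 + p 1 * q 2 * r 0 +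
        p 2 * q 0 * r 1 - p 2 * q 1 * r 0 := fun p q r => Matrix.det_fin_three _
  rw [h1, h1]
  simp only [Pi.add_apply, Pi.smul_apply, smul_eq_mul]
  ring

theorem det_last (v x y : Fin 3 → k) (l t : k) :
    Matrix.det ![v, x, l • v + t • y] = t * Matrix.det ![v, x, y] := by
  have h1 : ∀ p q r : Fin 3 → k, Matrix.det ![p, q, r] =
      p 0 * q 1 * r 2 - p 0 * q 2 * r 1 - p 1 * q 0 * r 2 + p 1 * q 2 * r 0 +
        p 2 * q 0 * r 1 - p 2 * q 1 * r 0 := fun p q r => Matrix.det_fin_three _
  rw [h1, h1]
  simp only [Pi.add_apply, Pi.smul_apply, smul_eq_mul]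
  ring

theorem det_mid (v x y z : Fin 3 → k) (t : k) :
    Matrix.det ![v, x + t • y, z] = Matrix.det ![v, x, z] + t * Matrix.det ![v, y, z] := by
  have h1 : ∀ p q r : Fin 3 → k, Matrix.det ![p, q, r] =
      p 0 * q 1 * r 2 - p 0 * q 2 * r 1 - p 1 * q 0 * r 2 + p 1 * q 2 * r 0 +
        p 2 * q 0 * r 1 - p 2 * q 1 * r 0 := fun p q r => Matrix.det_fin_three _
  rw [h1, h1, h1]
  simp only [Pi.add_apply, Pi.smul_apply, smul_eq_mul]
  ring

theorem key [Infinite k] (N : Matrix (Fin 3) (Fin 3) k) (hu h' : Fin 3 → k) (hne : h' ≠ 0)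
    (hdet : ∀ t : k, t ≠ 0 → ∀ v : Fin 3 → k, Matrix.det ![v, N.mulVec v + t • hu, h'] = 0) :
    ∃ (a : k) (p : Fin 3 → k), N = a • (1 : Matrix (Fin 3) (Fin 3) k) + Matrix.vecMulVec h' p := by
  classical
  refine la2 N h' hne fun v => ?_
  obtain ⟨t, ht⟩ := Infinite.exists_notMem_finset ({0, 1} : Finset k)
  rw [Finset.mem_insert, Finset.mem_singleton, not_or] at ht
  have h1 := hdet 1 one_ne_zero v
  have h2 := hdet t ht.1 v
  rw [det_mid] at h1 h2
  have h3 : (t - 1) * Matrix.det ![v, hu, h'] = 0 := by linear_combination h2 - h1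
  have h4 : Matrix.det ![v, hu, h'] = 0 := by
    rcases mul_eq_zero.1 h3 with h | h
    · exact absurd (sub_eq_zero.1 h) ht.2
    · exact h
  rw [h4, mul_zero, add_zero] at h1
  exact h1

/-! ### the characteristic polynomial -/

theorem charpoly_rank1 {B : Type*} [CommRing B] (c : B) (u w : Fin 3 → B) :
    (c • (1 : Matrix (Fin 3) (Fin 3) B) + Matrix.vecMulVec u w).charpoly =
      (Polynomial.X - Polynomial.C c) ^ 2 *
        (Polynomial.X - Polynomial.C (c + (u 0 * w 0 + u 1 * w 1 + u 2 * w 2))) := by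
  rw [Matrix.charpoly, Matrix.det_fin_three]
  simp only [Matrix.charmatrix_apply, Matrix.add_apply, Matrix.smul_apply, Matrix.vecMulVec_apply,
    Matrix.diagonal_apply, Matrix.one_apply, smul_eq_mul]
  simp
  ring

theorem lin_of_deg (f : A k) (hf : ∀ m, f.coeff m ≠ 0 → m.degree = 1) :
    f = C (f.coeff (Finsupp.single 0 1)) * X 0 + C (f.coeff (Finsupp.single 1 1)) * X 1 := by
  refine MvPolynomial.ext _ _ fun m => ?_
  rw [coeff_add, coeff_C_mul, coeff_C_mul, coeff_X, coeff_X]
  by_cases hm0 : Finsupp.single 0 1 = m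
  · have hm1 : Finsupp.single 1 1 ≠ m := by
      intro h
      rw [← hm0] at h
      have := congrArg (fun m : Fin 2 →₀ ℕ => m 0) h
      simp at this
    rw [if_pos hm0, if_neg hm1, hm0]
    ring
  · by_cases hm1 : Finsupp.single 1 1 = m
    · rw [if_neg hm0, if_pos hm1, hm1]
      ring
    · rw [if_neg hm0, if_neg hm1, mul_zero, mul_zero, add_zero]
      by_contra hne
      have h1 := hf m hne
      rw [deg_eq] at h1
      rcases Nat.eq_zero_or_pos (m 0) with h3 | h3
      · refine hm1 (Finsupp.ext fun x => ?_)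
        fin_cases x
        · simp [h3]
        · simp
          omega
      · refine hm0 (Finsupp.ext fun x => ?_)
        fin_cases x
        · simp
          omega
        · simp
          omega

theorem zero_of_deg (f : A k) (h0 : f.coeff 0 = 0) (hf : ∀ m, f.coeff m ≠ 0 → m.degree = 0) :
    f = 0 := by
  refine MvPolynomial.ext _ _ fun m => ?_
  rw [coeff_zero]
  by_contra hne
  have h2 := hf m hne
  rw [Finsupp.degree_eq_zero_iff] at h2
  rw [h2] at hne
  exact hne h0

theorem charpoly_congr {B : Type*} [CommRing B] (M M' : Matrix (Fin 3) (Fin 3) B) (a : Fin 3 → ℕ)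
    (h1 : ∀ i j, a i < a j → M i j = 0) (h2 : ∀ i j, a i < a j → M' i j = 0)
    (h3 : ∀ i j, a i = a j → M i j = M' i j) : M.charpoly = M'.charpoly := by
  unfold Matrix.charpoly
  rw [Matrix.det_apply, Matrix.det_apply]
  refine Finset.sum_congr rfl fun σ _ => ?_
  congr 1
  by_cases hσ : ∃ i, a (σ i) < a i
  · obtain ⟨i, hi⟩ := hσ
    have hne : σ i ≠ i := by
      intro h
      rw [h] at hi
      exact lt_irrefl _ hi
    rw [Finset.prod_eq_zero (Finset.mem_univ i), Finset.prod_eq_zero (Finset.mem_univ i)]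
    · rw [Matrix.charmatrix_apply_ne _ _ _ hne, h2 _ _ hi, Polynomial.C_0, neg_zero]
    · rw [Matrix.charmatrix_apply_ne _ _ _ hne, h1 _ _ hi, Polynomial.C_0, neg_zero]
  · push Not at hσ
    have hsum : ∑ i, a i = ∑ i, a (σ i) := (Equiv.sum_comp σ a).symm
    have heq := (Finset.sum_eq_sum_iff_of_le (fun i _ => hσ i)).1 hsum
    refine Finset.prod_congr rfl fun i _ => ?_
    rw [Matrix.charmatrix_apply, Matrix.charmatrix_apply,
      h3 _ _ (heq i (Finset.mem_univ i)).symm]

theorem charpoly_lin (M : Matrix (Fin 3) (Fin 3) (A k)) (a : Fin 3 → ℕ)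
    (hom : ∀ i j m, (M i j).coeff m ≠ 0 → m.degree + a j = a i + 1)
    (hM0 : ∀ i j, (M i j).coeff 0 = 0) :
    M.charpoly = (Matrix.of fun i j => C ((M i j).coeff (Finsupp.single 0 1)) * X 0 +
      C ((M i j).coeff (Finsupp.single 1 1)) * X 1 : Matrix (Fin 3) (Fin 3) (A k)).charpoly := by
  have hzero : ∀ i j, a i < a j → M i j = 0 := by
    intro i j hij
    refine zero_of_deg _ (hM0 i j) fun m hm => ?_
    have h1 := hom i j m hm
    omega
  refine charpoly_congr _ _ a hzero ?_ ?_
  · intro i j hij
    rw [Matrix.of_apply, hzero i j hij, coeff_zero, coeff_zero, C_0, zero_mul, zero_mul, add_zero]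
  · intro i j hij
    rw [Matrix.of_apply]
    refine lin_of_deg _ fun m hm => ?_
    have h1 := hom i j m hm
    omega

variable {s : Finset (k × k)} {F : R k} {G : Fin 3 → R k} {a : Fin 3 → ℕ}
  {M : Matrix (Fin 3) (Fin 3) (A k)} {h : Fin 3 → A k}

theorem nsq (hN : NF s F G a) (hM : MH F G a M h) (hM0 : ∀ i j, (M i j).coeff 0 = 0)
    (hh0 : ∀ i, (h i).coeff 0 = 0) (c1 c2 : k) (w p q : Fin 3 → k)
    (h1 : ∀ i j, (M i j).coeff (Finsupp.single 0 1) = (if i = j then c1 else 0) + w i * p j)
    (h2 : ∀ i j, (M i j).coeff (Finsupp.single 1 1) = (if i = j then c2 else 0) + w i * q j) :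
    False := by
  have e1 : (Matrix.of fun i j => C ((M i j).coeff (Finsupp.single 0 1)) * X 0 +
      C ((M i j).coeff (Finsupp.single 1 1)) * X 1 : Matrix (Fin 3) (Fin 3) (A k)) =
      (C c1 * X 0 + C c2 * X 1 : A k) • (1 : Matrix (Fin 3) (Fin 3) (A k)) +
        Matrix.vecMulVec (fun i => (C (w i) : A k)) (fun j => C (p j) * X 0 + C (q j) * X 1) := by
    ext1 i j
    rw [Matrix.of_apply, Matrix.add_apply, Matrix.smul_apply, Matrix.one_apply,
      Matrix.vecMulVec_apply, smul_eq_mul, h1, h2]
    split_ifs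
    · rw [C_add, C_add, C_mul, C_mul]
      ring
    · rw [C_add, C_add, C_mul, C_mul, C_0]
      ring
  have e2 := charpoly_lin M a hM.homM hM0
  rw [charpoly_eq hN hM, e1, charpoly_rank1] at e2
  refine not_square hN hM hM0 hh0 c1 c2 (c1 + (w 0 * p 0 + w 1 * p 1 + w 2 * p 2))
    (c2 + (w 0 * q 0 + w 1 * q 1 + w 2 * q 2)) ?_
  rw [e2]
  congr 3
  simp only [C_add, C_mul]
  ring

end

end C2

open C2

variable {k : Type*} [Field k] {s : Finset (k × k)} {F : R k} {G : Fin 3 → R k} {a : Fin 3 → ℕ}
  {M : Matrix (Fin 3) (Fin 3) (A k)} {h : Fin 3 → A k}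

/-- the structure of the linear parts in the four-generated case -/
theorem case2 [Infinite k] (hN : NF s F G a) (hM : MH F G a M h) (hM0 : ∀ i j, (M i j).coeff 0 = 0)
    (hh0 : ∀ i, (h i).coeff 0 = 0) :
    ∃ (u v l0 : A k) (N : ℕ) (n1 n2 : Fin 3 → E k), 0 < N ∧
      -- `u, v` is a basis of the linear forms of `A`
      (∃ b c b' c' : k, u = C b * X 0 + C c * X 1 ∧ v = C b' * X 0 + C c' * X 1 ∧ b * c' - b' * c ≠ 0) ∧
      (∀ i, nn M h i = C l0 * TT (A k) i + C u * n1 i + C (v ^ N) * n2 i) ∧
      (∀ i, (n1 i).IsHomogeneous 1) ∧ (∀ i, (n2 i).IsHomogeneous 1) ∧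
      dotProduct (TT (A k)) (crossProduct n1 n2) ∉ Ideal.span {(C (X 0) : E k), C (X 1)} := by
  classical
  obtain ⟨My, hMy⟩ : ∃ My : Matrix (Fin 3) (Fin 3) k,
    ∀ i j, My i j = (M i j).coeff (Finsupp.single 0 1) := ⟨Matrix.of fun i j => _, fun i j => rfl⟩
  obtain ⟨Mz, hMz⟩ : ∃ Mz : Matrix (Fin 3) (Fin 3) k,
    ∀ i j, Mz i j = (M i j).coeff (Finsupp.single 1 1) := ⟨Matrix.of fun i j => _, fun i j => rfl⟩
  obtain ⟨hy, hhy⟩ : ∃ hy : Fin 3 → k, ∀ i, hy i = (h i).coeff (Finsupp.single 0 1) :=
    ⟨fun i => _, fun i => rfl⟩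
  obtain ⟨hz, hhz⟩ : ∃ hz : Fin 3 → k, ∀ i, hz i = (h i).coeff (Finsupp.single 1 1) :=
    ⟨fun i => _, fun i => rfl⟩
  -- nonzero entries of the linear parts
  have hMya : ∀ i j, My i j ≠ 0 → a i = a j := by
    intro i j hne
    rw [hMy] at hne
    have h1 := hM.homM i j _ hne
    rw [Finsupp.degree_single] at h1
    omega
  have hMza : ∀ i j, Mz i j ≠ 0 → a i = a j := by
    intro i j hne
    rw [hMz] at hne
    have h1 := hM.homM i j _ hne
    rw [Finsupp.degree_single] at h1
    omega
  by_cases hD0 : dotProduct (TT k) (crossProduct (nn My hy) (nn Mz hz)) = 0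
  swap
  · -- the generic case
    refine frame 0 1 0 1 0 (by ring) 1 one_pos ?_ ?_ ?_
    · intro i j m hm
      obtain rfl : m = 0 := by omega
      rw [Polynomial.coeff_sub, psi_zero, hM0]
      split_ifs <;> simp
    · intro i m hm
      obtain rfl : m = 0 := by omega
      rw [psi_zero, hh0]
    · have e1 : (Matrix.of fun i j => (1 : k) * (M i j).coeff (Finsupp.single 0 1) -
          0 * (M i j).coeff (Finsupp.single 1 1)) = My := by
        ext i j
        rw [Matrix.of_apply, hMy]
        ring
      have e2 : (fun i => (1 : k) * (h i).coeff (Finsupp.single 0 1) -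
          0 * (h i).coeff (Finsupp.single 1 1)) = hy := by
        funext i
        rw [hhy]
        ring
      have e3 : (Matrix.of fun i j => (psi 0 1 (M i j) -
          (if i = j then Polynomial.C (0 : k) * Polynomial.X else 0)).coeff 1) = Mz := by
        ext i j
        rw [Matrix.of_apply, Polynomial.coeff_sub, psi_lin, hMz]
        split_ifs <;> simp
      have e4 : (fun i => (psi 0 1 (h i)).coeff 1) = hz := by
        funext i
        rw [psi_lin, hhz]
        ring
      rw [e1, e2, e3, e4]
      exact hD0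
  -- the special case
  have hdet := tri_eval My Mz hy hz hD0
  have hdet0 : ∀ v : Fin 3 → k, Matrix.det ![v, My.mulVec v, Mz.mulVec v] = 0 := by
    intro v
    have h1 := hdet 0 v
    rwa [zero_smul, zero_smul, add_zero, add_zero] at h1
  rcases la1 My Mz hdet0 with ⟨a0, b0, c0, hne, hrel⟩ | ⟨w, p, q, a0, b0, hw, h1, h2⟩
  swap
  · exfalso
    refine nsq hN hM hM0 hh0 a0 b0 w p q (fun i j => ?_) (fun i j => ?_)
    · rw [← hMy, h1, Matrix.add_apply, Matrix.smul_apply, Matrix.one_apply,
        Matrix.vecMulVec_apply, smul_eq_mul]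
      split_ifs <;> ring
    · rw [← hMz, h2, Matrix.add_apply, Matrix.smul_apply, Matrix.one_apply,
        Matrix.vecMulVec_apply, smul_eq_mul]
      split_ifs <;> ring
  have hrel' : ∀ i j, (if i = j then a0 else 0) + b0 * My i j + c0 * Mz i j = 0 := by
    intro i j
    have h1 := congrFun (congrFun hrel i) j
    rw [Matrix.add_apply, Matrix.add_apply, Matrix.smul_apply, Matrix.smul_apply,
      Matrix.smul_apply, Matrix.one_apply, Matrix.zero_apply, smul_eq_mul, smul_eq_mul,
      smul_eq_mul] at h1
    split_ifs at h1 ⊢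
    · linear_combination h1
    · linear_combination h1
  have hbc : ∃ b' c' : k, b' * b0 + c' * c0 = 1 := by
    by_cases hb : b0 = 0
    · by_cases hc : c0 = 0
      · exfalso
        have h1 := hrel' 0 0
        rw [if_pos rfl, hb, hc, zero_mul, zero_mul, add_zero, add_zero] at h1
        rcases hne with h | h | h
        · exact h h1
        · exact h hb
        · exact h hc
      · exact ⟨0, c0⁻¹, by rw [zero_mul, zero_add, inv_mul_cancel₀ hc]⟩
    · exact ⟨b0⁻¹, 0, by rw [zero_mul, add_zero, inv_mul_cancel₀ hb]⟩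
  obtain ⟨b', c', hd⟩ := hbc
  obtain ⟨N0, hN0⟩ : ∃ N0 : Matrix (Fin 3) (Fin 3) k,
    N0 = Matrix.of fun i j => c' * (M i j).coeff (Finsupp.single 0 1) -
      b' * (M i j).coeff (Finsupp.single 1 1) := ⟨_, rfl⟩
  obtain ⟨hu, hhu⟩ : ∃ hu : Fin 3 → k, hu = fun i => c' * (h i).coeff (Finsupp.single 0 1) -
      b' * (h i).coeff (Finsupp.single 1 1) := ⟨_, rfl⟩
  have hN0' : ∀ i j, N0 i j = c' * My i j - b' * Mz i j := by
    intro i j
    rw [hN0, Matrix.of_apply, hMy, hMz]
  -- `N0` is not of the form scalar plus rank one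
  have hN1 : ∀ (μ : k) (w p : Fin 3 → k),
      N0 ≠ μ • (1 : Matrix (Fin 3) (Fin 3) k) + Matrix.vecMulVec w p := by
    intro μ w p heq
    have hN : ∀ i j, N0 i j = (if i = j then μ else 0) + w i * p j := by
      intro i j
      rw [heq, Matrix.add_apply, Matrix.smul_apply, Matrix.one_apply,
        Matrix.vecMulVec_apply, smul_eq_mul]
      split_ifs <;> ring
    refine nsq ‹NF s F G a› hM hM0 hh0 (c0 * μ - b' * a0) (-b0 * μ - c' * a0) w
      (fun j => c0 * p j) (fun j => -b0 * p j) (fun i j => ?_) (fun i j => ?_)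
    · rw [← hMy]
      have h1 := hN i j
      rw [hN0'] at h1
      have h2 := hrel' i j
      split_ifs at h1 h2 ⊢
      · linear_combination (-My i j) * hd + c0 * h1 + b' * h2
      · linear_combination (-My i j) * hd + c0 * h1 + b' * h2
    · rw [← hMz]
      have h1 := hN i j
      rw [hN0'] at h1
      have h2 := hrel' i j
      split_ifs at h1 h2 ⊢
      · linear_combination (-Mz i j) * hd - b0 * h1 + c' * h2
      · linear_combination (-Mz i j) * hd - b0 * h1 + c' * h2
  have hN0a : ∀ i j, N0 i j ≠ 0 → a i = a j := by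
    intro i j hne
    by_contra hcon
    apply hne
    have h1 : My i j = 0 := by
      by_contra h
      exact hcon (hMya i j h)
    have h2 : Mz i j = 0 := by
      by_contra h
      exact hcon (hMza i j h)
    rw [hN0', h1, h2]
    ring
  -- the coefficient of `v` in `h` vanishes
  have hv0 : (fun i => b0 * hy i + c0 * hz i) = 0 := by
    by_contra hne0
    have hdet2 : ∀ t : k, t ≠ 0 → ∀ v : Fin 3 → k,
        Matrix.det ![v, N0.mulVec v + t • hu, fun i => b0 * hy i + c0 * hz i] = 0 := by
      intro t ht v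
      have h1 := det_comb v (My.mulVec v + t • hy) (Mz.mulVec v + t • hz) c' (-b') b0 c0
      rw [hdet t v, mul_zero] at h1
      have h2 : c' • (My.mulVec v + t • hy) + -b' • (Mz.mulVec v + t • hz) =
          N0.mulVec v + t • hu := by
        have h3 : N0 = c' • My + -b' • Mz := by
          ext i j
          rw [hN0', Matrix.add_apply, Matrix.smul_apply, Matrix.smul_apply, smul_eq_mul,
            smul_eq_mul]
          ring
        have h4 : hu = c' • hy + -b' • hz := by
          funext i
          rw [hhu, Pi.add_apply, Pi.smul_apply, Pi.smul_apply, smul_eq_mul, smul_eq_mul, hhy, hhz]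
          ring
        rw [h3, h4, Matrix.add_mulVec, Matrix.smul_mulVec, Matrix.smul_mulVec]
        funext i
        simp only [Pi.add_apply, Pi.smul_apply, smul_eq_mul]
        ring
      have h5 : b0 • (My.mulVec v + t • hy) + c0 • (Mz.mulVec v + t • hz) =
          (-a0) • v + t • fun i => b0 * hy i + c0 * hz i := by
        have h6 : b0 • My + c0 • Mz = (-a0) • (1 : Matrix (Fin 3) (Fin 3) k) := by
          ext i j
          have h7 := hrel' i j
          rw [Matrix.add_apply, Matrix.smul_apply, Matrix.smul_apply, Matrix.smul_apply,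
            Matrix.one_apply, smul_eq_mul, smul_eq_mul, smul_eq_mul]
          split_ifs at h7 ⊢
          · linear_combination h7
          · linear_combination h7
        have h8 := congrArg (fun N : Matrix (Fin 3) (Fin 3) k => N.mulVec v) h6
        simp only [Matrix.add_mulVec, Matrix.smul_mulVec, Matrix.one_mulVec] at h8
        rw [← h8]
        funext i
        simp only [Pi.add_apply, Pi.smul_apply, smul_eq_mul]
        ring
      rw [h2, h5, det_last] at h1
      rcases mul_eq_zero.1 h1 with h | h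
      · exact absurd h ht
      · exact h
    obtain ⟨x, p, hx⟩ := key N0 hu _ hne0 hdet2
    exact hN1 x _ p hx
  -- the restrictions to the line
  obtain ⟨P, hPdef⟩ : ∃ P : Fin 3 → Fin 3 → Polynomial k, ∀ i j, P i j = psi b0 c0 (M i j) -
      (if i = j then Polynomial.C (-a0) * Polynomial.X else 0) := ⟨fun i j => _, fun i j => rfl⟩
  obtain ⟨Q, hQdef⟩ : ∃ Q : Fin 3 → Polynomial k, ∀ i, Q i = psi b0 c0 (h i) :=
    ⟨fun i => _, fun i => rfl⟩
  have hP0 : ∀ i j, (P i j).coeff 0 = 0 := by
    intro i j
    rw [hPdef, Polynomial.coeff_sub, psi_zero, hM0]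
    split_ifs <;> simp
  have hP1 : ∀ i j, (P i j).coeff 1 = 0 := by
    intro i j
    have h1 := hrel' i j
    rw [hPdef, Polynomial.coeff_sub, psi_lin, ← hMy, ← hMz]
    split_ifs at h1 ⊢
    · rw [Polynomial.coeff_C_mul, Polynomial.coeff_X_one]
      linear_combination h1
    · rw [Polynomial.coeff_zero]
      linear_combination h1
  have hQ0 : ∀ i, (Q i).coeff 0 = 0 := by
    intro i
    rw [hQdef, psi_zero, hh0]
  have hQ1 : ∀ i, (Q i).coeff 1 = 0 := by
    intro i
    rw [hQdef, psi_lin, ← hhy, ← hhz]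
    exact congrFun hv0 i
  by_cases hall : (∀ i j, P i j = 0) ∧ ∀ i, Q i = 0
  · -- impossible by `rc`
    exfalso
    let χ : R k →+* FractionRing (Polynomial k) :=
      (algebraMap (Polynomial k) (FractionRing (Polynomial k))).comp
        (Polynomial.eval₂RingHom (psi b0 c0) (Polynomial.C (-a0) * Polynomial.X))
    have hχC : ∀ f : A k, χ (Polynomial.C f) =
        algebraMap (Polynomial k) (FractionRing (Polynomial k)) (psi b0 c0 f) := by
      intro f
      change algebraMap _ _ (Polynomial.eval₂ (psi b0 c0) _ (Polynomial.C f)) = _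
      rw [Polynomial.eval₂_C]
    have hχX : χ Polynomial.X = algebraMap (Polynomial k) (FractionRing (Polynomial k))
        (Polynomial.C (-a0) * Polynomial.X) := by
      change algebraMap _ _ (Polynomial.eval₂ (psi b0 c0) _ Polynomial.X) = _
      rw [Polynomial.eval₂_X]
    have hinj : ∀ x : Polynomial k,
        algebraMap (Polynomial k) (FractionRing (Polynomial k)) x = 0 → x = 0 := fun x hx =>
      (IsFractionRing.injective (Polynomial k) (FractionRing (Polynomial k)))
        (by rw [hx, map_zero])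
    refine rc hN hM χ ?_ ⟨0, 0, 0, fun i j => ?_, fun i => ?_⟩
    · rintro ⟨-, h1, h2⟩
      rw [hχC] at h1 h2
      have h3 := congrArg (fun x : Polynomial k => x.coeff 1) (hinj _ h1)
      have h4 := congrArg (fun x : Polynomial k => x.coeff 1) (hinj _ h2)
      simp only [psi_X0, psi_X1, Polynomial.coeff_C_mul, Polynomial.coeff_X_one, mul_one,
        Polynomial.coeff_zero] at h3 h4
      rw [h3, h4, mul_zero, mul_zero, add_zero] at hd
      exact zero_ne_one hd
    · have h1 := hall.1 i j
      rw [hPdef] at h1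
      rw [hχC, hχX, Pi.zero_apply, zero_mul]
      split_ifs at h1 ⊢
      · rw [← map_sub, ← neg_sub, map_neg, h1, map_zero, neg_zero]
      · rw [sub_zero] at h1
        rw [h1, map_zero, sub_zero]
    · have h1 := hall.2 i
      rw [hQdef] at h1
      rw [hχC, h1, map_zero, Pi.zero_apply, zero_mul]
  -- the first nonzero coefficient
  have hex : ∃ e, (∃ i j, (P i j).coeff e ≠ 0) ∨ ∃ i, (Q i).coeff e ≠ 0 := by
    by_contra hcon
    push Not at hcon
    exact hall ⟨fun i j => Polynomial.ext fun n => by
      rw [(hcon n).1 i j, Polynomial.coeff_zero], fun i => Polynomial.ext fun n => by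
      rw [(hcon n).2 i, Polynomial.coeff_zero]⟩
  obtain ⟨e, hespec, hemin⟩ : ∃ e, ((∃ i j, (P i j).coeff e ≠ 0) ∨ ∃ i, (Q i).coeff e ≠ 0) ∧
      ∀ m < e, ¬ ((∃ i j, (P i j).coeff m ≠ 0) ∨ ∃ i, (Q i).coeff m ≠ 0) :=
    ⟨Nat.find hex, Nat.find_spec hex, fun m hm => Nat.find_min hex hm⟩
  have he2 : 2 ≤ e := by
    by_contra hlt
    have h1 : e = 0 ∨ e = 1 := by omega
    rcases h1 with rfl | rfl
    · rcases hespec with ⟨i, j, hij⟩ | ⟨i, hi⟩
      · exact hij (hP0 i j)
      · exact hi (hQ0 i)
    · rcases hespec with ⟨i, j, hij⟩ | ⟨i, hi⟩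
      · exact hij (hP1 i j)
      · exact hi (hQ1 i)
  refine frame b0 c0 b' c' (-a0) hd e (by omega) ?_ ?_ ?_
  · intro i j m hm
    rw [← hPdef]
    by_contra hne
    exact hemin m hm (Or.inl ⟨i, j, hne⟩)
  · intro i m hm
    rw [← hQdef]
    by_contra hne
    exact hemin m hm (Or.inr ⟨i, hne⟩)
  rw [← hN0, ← hhu]
  obtain ⟨Me, hMe⟩ : ∃ Me : Matrix (Fin 3) (Fin 3) k, Me = Matrix.of fun i j =>
      (psi b0 c0 (M i j) -
        (if i = j then Polynomial.C (-a0) * Polynomial.X else 0)).coeff e := ⟨_, rfl⟩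
  obtain ⟨he, hhe⟩ : ∃ he : Fin 3 → k, he = fun i => (psi b0 c0 (h i)).coeff e := ⟨_, rfl⟩
  rw [← hMe, ← hhe]
  intro hD1
  have hMe' : ∀ i j, Me i j = (P i j).coeff e := by
    intro i j
    rw [hMe, Matrix.of_apply, hPdef]
  have hhe' : ∀ i, he i = (Q i).coeff e := by
    intro i
    rw [hhe, hQdef]
  have hMea : ∀ i j, Me i j ≠ 0 → a i ≠ a j := by
    intro i j hne
    rw [hMe', hPdef, Polynomial.coeff_sub] at hne
    have h1 : (if i = j then Polynomial.C (-a0) * Polynomial.X else 0 : Polynomial k).coeff e =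
        0 := by
      split_ifs
      · rw [Polynomial.coeff_C_mul, Polynomial.coeff_X, if_neg (by omega), mul_zero]
      · rw [Polynomial.coeff_zero]
    rw [h1, sub_zero] at hne
    obtain ⟨m, hm1, hm2⟩ := psi_hom _ _ _ _ hne
    have h2 := hM.homM i j m hm1
    omega
  have hdet1 := tri_eval N0 Me hu he hD1
  have hMe0 : Me = 0 := by
    rcases la1 N0 Me (fun v => by
      have h1 := hdet1 0 v
      rwa [zero_smul, zero_smul, add_zero, add_zero] at h1) with
      ⟨a1, b1, c1, hne1, hrel1⟩ | ⟨w, p, q, a1, b1, hw, h1, h2⟩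
    · have hrel1' : ∀ i j, (if i = j then a1 else 0) + b1 * N0 i j + c1 * Me i j = 0 := by
        intro i j
        have h1 := congrFun (congrFun hrel1 i) j
        rw [Matrix.add_apply, Matrix.add_apply, Matrix.smul_apply, Matrix.smul_apply,
          Matrix.smul_apply, Matrix.one_apply, Matrix.zero_apply, smul_eq_mul, smul_eq_mul,
          smul_eq_mul] at h1
        split_ifs at h1 ⊢
        · linear_combination h1
        · linear_combination h1
      by_cases hc1 : c1 = 0
      · exfalso
        by_cases hb1 : b1 = 0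
        · have h1 := hrel1' 0 0
          rw [if_pos rfl, hb1, hc1, zero_mul, zero_mul, add_zero, add_zero] at h1
          rcases hne1 with h | h | h
          · exact h h1
          · exact h hb1
          · exact h hc1
        · refine hN1 (-(a1 / b1)) 0 0 ?_
          ext i j
          have h1 := hrel1' i j
          rw [hc1, zero_mul, add_zero] at h1
          rw [Matrix.add_apply, Matrix.smul_apply, Matrix.one_apply, Matrix.vecMulVec_apply,
            Pi.zero_apply, zero_mul, add_zero, smul_eq_mul]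
          split_ifs at h1 ⊢
          · field_simp
            linear_combination h1
          · have h2 : b1 * N0 i j = 0 := by linear_combination h1
            rcases mul_eq_zero.1 h2 with h | h
            · exact absurd h hb1
            · rw [h]
              ring
      · ext i j
        rw [Matrix.zero_apply]
        by_contra hne2
        have h1 := hMea i j hne2
        have h2 : i ≠ j := by
          rintro rfl
          exact h1 rfl
        have h3 : N0 i j = 0 := by
          by_contra h
          exact h1 (hN0a i j h)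
        have h4 := hrel1' i j
        rw [if_neg h2, h3, mul_zero, add_zero, zero_add] at h4
        rcases mul_eq_zero.1 h4 with h | h
        · exact hc1 h
        · exact hne2 h
    · exact absurd h1 (hN1 a1 w p)
  have hhe0 : he ≠ 0 := by
    intro h0
    rcases hespec with ⟨i, j, hij⟩ | ⟨i, hi⟩
    · apply hij
      rw [← hMe', hMe0, Matrix.zero_apply]
    · apply hi
      rw [← hhe', h0, Pi.zero_apply]
  have hdet2 : ∀ t : k, t ≠ 0 → ∀ v : Fin 3 → k,
      Matrix.det ![v, N0.mulVec v + t • hu, he] = 0 := by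
    intro t ht v
    have h1 := hdet1 t v
    have h2 : Me.mulVec v + t • he = (0 : k) • v + t • he := by
      rw [hMe0, Matrix.zero_mulVec, zero_smul]
    rw [h2, det_last] at h1
    rcases mul_eq_zero.1 h1 with h | h
    · exact absurd h ht
    · exact h
  obtain ⟨x, p, hx⟩ := key N0 hu he hhe0 hdet2
  exact hN1 x _ p hx

end Pool.Agent.H873.RT
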