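import Pool.Agent.H873.RT.Core2

set_option autoImplicit false

namespace Pool.Agent.H873.RT

open MvPolynomial

section comp

variable {k : Type*} [Field k]

/-- component of degree `n` in the `T`'s -/
noncomputable def cS (n : ℕ) (p : Polynomial (E k)) : Polynomial (E k) :=
  ∑ j ∈ p.support, Polynomial.monomial j (homogeneousComponent n (p.coeff j))

theorem coeff_cS (n : ℕ) (p : Polynomial (E k)) (j : ℕ) :
    (cS n p).coeff j = homogeneousComponent n (p.coeff j) := by
  unfold cS
  rw [Polynomial.finsetSum_coeff]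
  simp only [Polynomial.coeff_monomial]
  rw [Finset.sum_ite_eq' p.support j]
  by_cases hj : j ∈ p.support
  · rw [if_pos hj]
  · rw [if_neg hj, Polynomial.notMem_support_iff.1 hj, map_zero]

theorem homS_cS (n : ℕ) (p : Polynomial (E k)) : HomS n (cS n p) := by
  intro j
  rw [coeff_cS]
  exact homogeneousComponent_isHomogeneous n _

theorem sum_cS (p : Polynomial (E k)) :
    p = ∑ n ∈ Finset.range (p.support.sup (fun j => (p.coeff j).totalDegree) + 1), cS n p := by
  apply Polynomial.ext
  intro j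
  rw [Polynomial.finsetSum_coeff]
  simp only [coeff_cS]
  by_cases hj : j ∈ p.support
  · have h1 : (p.coeff j).totalDegree ≤ p.support.sup (fun j => (p.coeff j).totalDegree) :=
      Finset.le_sup (f := fun j => (p.coeff j).totalDegree) hj
    conv_lhs => rw [← sum_homogeneousComponent (p.coeff j)]
    apply Finset.sum_subset
    · intro n hn
      rw [Finset.mem_range] at hn ⊢
      omega
    · intro n _ hn
      rw [Finset.mem_range, not_lt] at hn
      exact homogeneousComponent_eq_zero _ _ (by omega)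
  · rw [Polynomial.notMem_support_iff.1 hj]
    simp

end comp

variable {k : Type*} [Field k] {s : Finset (k × k)} {F : R k} {G : Fin 3 → R k} {a : Fin 3 → ℕ}
  {M : Matrix (Fin 3) (Fin 3) (A k)} {h : Fin 3 → A k}

theorem Phi_homS (F : R k) (G : Fin 3 → R k) (n : ℕ) (p : Polynomial (E k)) (hp : HomS n p) :
    ∃ r : R k, Phi F G p = Polynomial.C r * Polynomial.X ^ n := by
  have h1 : Phi F G p = ∑ j ∈ Finset.range (p.natDegree + 1),
      evE F G (p.coeff j) * (Polynomial.C (Polynomial.X : R k)) ^ j := by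
    unfold Phi
    rw [Polynomial.coe_eval₂RingHom, Polynomial.eval₂_eq_sum_range]
  rw [h1]
  refine ⟨∑ j ∈ Finset.range (p.natDegree + 1), Rees_ev F G (p.coeff j) * Polynomial.X ^ j, ?_⟩
  rw [map_sum, Finset.sum_mul]
  refine Finset.sum_congr rfl fun j _ => ?_
  rw [Rees_ev_hom n _ (hp j), map_mul, map_pow]
  ring

theorem cS_mem (F : R k) (G : Fin 3 → R k) (n : ℕ) (p : Polynomial (E k)) (hp : p ∈ RingHom.ker (Phi F G)) :
    cS n p ∈ RingHom.ker (Phi F G) := by
  choose r hr using fun n => Phi_homS F G n (cS n p) (homS_cS n p)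
  rw [RingHom.mem_ker, hr n]
  rw [RingHom.mem_ker, sum_cS p, map_sum] at hp
  by_cases hn : n ∈ Finset.range (p.support.sup (fun j => (p.coeff j).totalDegree) + 1)
  · have h1 := congrArg (fun q : Polynomial (R k) => q.coeff n) hp
    simp only [hr, Polynomial.finsetSum_coeff, Polynomial.coeff_C_mul, Polynomial.coeff_X_pow,
      Polynomial.coeff_zero] at h1
    simp only [mul_ite, mul_one, mul_zero] at h1
    rw [Finset.sum_ite_eq, if_pos hn] at h1
    rw [h1, map_zero, zero_mul]
  · have h1 : cS n p = 0 := by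
      apply Polynomial.ext
      intro j
      rw [coeff_cS, Polynomial.coeff_zero]
      by_cases hj : j ∈ p.support
      · have h1 : (p.coeff j).totalDegree ≤ p.support.sup (fun j => (p.coeff j).totalDegree) :=
          Finset.le_sup (f := fun j => (p.coeff j).totalDegree) hj
        rw [Finset.mem_range, not_lt] at hn
        exact homogeneousComponent_eq_zero _ _ (by omega)
      · rw [Polynomial.notMem_support_iff.1 hj, map_zero]
    have h2 := hr n
    rw [h1, map_zero] at h2
    exact h2.symm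

theorem gg_homS (i : Fin 3) : HomS 1 (gg M h i) := by
  intro j
  unfold gg
  rw [Polynomial.coeff_sub, Polynomial.coeff_C_mul, Polynomial.coeff_X]
  refine IsHomogeneous.sub ?_ ?_
  · by_cases hj : 1 = j
    · rw [if_pos hj, mul_one]
      exact isHomogeneous_X _ _
    · rw [if_neg hj, mul_zero]
      exact isHomogeneous_zero _ _ _
  · rw [Polynomial.coeff_C]
    by_cases hj : j = 0
    · rw [if_pos hj]
      exact Rees_nn_hom i
    · rw [if_neg hj]
      exact isHomogeneous_zero _ _ _

/-- first case: linear type -/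
theorem combo1 (hN : NF s F G a) (hM : MH F G a M h)
    (h0 : ¬ ((∀ i j, (M i j).coeff 0 = 0) ∧ ∀ i, (h i).coeff 0 = 0)) :
    RingHom.ker (Phi F G) = Ideal.span {q | q ∈ RingHom.ker (Phi F G) ∧ ∃ n ≤ 1, HomS n q} := by
  apply le_antisymm
  · intro p hp
    rw [sum_cS p]
    refine Ideal.sum_mem _ fun n _ => ?_
    have h1 := cS_mem F G n p hp
    obtain ⟨e, he, h2, h3⟩ := red hN hM n (cS n p) (homS_cS n p) h1
    have h4 : Polynomial.C e ∈ LL M h := (elim e).2 (core1 hN hM h0 n e he h3)
    have h5 : cS n p ∈ LL M h := by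
      have h5 := Ideal.add_mem _ h2 h4
      have h6 : cS n p - Polynomial.C e + Polynomial.C e = cS n p := by ring
      rwa [h6] at h5
    have h6 : LL M h ≤ Ideal.span {q | q ∈ RingHom.ker (Phi F G) ∧ ∃ n ≤ 1, HomS n q} := by
      unfold LL
      rw [Ideal.span_le]
      rintro _ ⟨i, rfl⟩
      exact Ideal.subset_span ⟨LL_le hM (Ideal.subset_span ⟨i, rfl⟩), 1, le_refl 1, gg_homS i⟩
    exact h6 h5
  · rw [Ideal.span_le]
    rintro q ⟨hq, _⟩
    exact hq

/-- reduction modulo `(x, y, z)` -/
noncomputable def chi (k : Type*) [Field k] : Polynomial (E k) →+* MvPolynomial (Fin 4) k :=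
  Polynomial.eval₂RingHom (MvPolynomial.map constantCoeff) 0

theorem chi_C (e : E k) : chi k (Polynomial.C e) = MvPolynomial.map constantCoeff e := by
  unfold chi
  rw [Polynomial.coe_eval₂RingHom, Polynomial.eval₂_C]

theorem chi_X : chi k Polynomial.X = 0 := by
  unfold chi
  rw [Polynomial.coe_eval₂RingHom, Polynomial.eval₂_X]

theorem chi_sub (p q : Polynomial (E k)) : chi k (p - q) = chi k p - chi k q := map_sub (chi k) p q

theorem map_nn_zero (hM0 : ∀ i j, (M i j).coeff 0 = 0) (hh0 : ∀ i, (h i).coeff 0 = 0) (i : Fin 3) :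
    MvPolynomial.map (constantCoeff : A k →+* k) (nn M h i) = 0 := by
  have h1 : ∀ i j, constantCoeff (M i j) = 0 := hM0
  have h2 : ∀ i, constantCoeff (h i) = 0 := hh0
  unfold nn
  simp only [map_add, map_mul, map_sum, map_C, map_X, h1, h2]
  simp

theorem chi_LL (hM0 : ∀ i j, (M i j).coeff 0 = 0) (hh0 : ∀ i, (h i).coeff 0 = 0) {p : Polynomial (E k)}
    (hp : p ∈ LL M h) : chi k p = 0 := by
  have h1 : LL M h ≤ RingHom.ker (chi k) := by
    unfold LL
    rw [Ideal.span_le]
    rintro _ ⟨i, rfl⟩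
    rw [SetLike.mem_coe, RingHom.mem_ker]
    unfold gg
    rw [chi_sub, map_mul, chi_X, mul_zero, zero_sub, chi_C, map_nn_zero hM0 hh0, neg_zero]
  exact h1 hp

/-- second case: relation type three -/
theorem combo2 [Infinite k] (hN : NF s F G a) (hM : MH F G a M h) (hM0 : ∀ i j, (M i j).coeff 0 = 0)
    (hh0 : ∀ i, (h i).coeff 0 = 0) :
    RingHom.ker (Phi F G) = Ideal.span {q | q ∈ RingHom.ker (Phi F G) ∧ ∃ n ≤ 3, HomS n q} ∧
    ¬ RingHom.ker (Phi F G) = Ideal.span {q | q ∈ RingHom.ker (Phi F G) ∧ ∃ n ≤ 2, HomS n q} := by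
  obtain ⟨Δ, hΔ3, hΔm, hΔ0, hΔ⟩ := core2 hN hM hM0 hh0
  have hΔker : (Polynomial.C Δ : Polynomial (E k)) ∈ RingHom.ker (Phi F G) := by
    rw [RingHom.mem_ker, Rees_Phi_C]
    exact hΔ0
  constructor
  · apply le_antisymm
    · intro p hp
      rw [sum_cS p]
      refine Ideal.sum_mem _ fun n _ => ?_
      have h1 := cS_mem F G n p hp
      obtain ⟨e, he, h2, h3⟩ := red hN hM n (cS n p) (homS_cS n p) h1
      obtain ⟨j, hj, c, hc, hjc⟩ := Submodule.mem_sup.1 (hΔ n e he h3)
      obtain ⟨c, rfl⟩ := Ideal.mem_span_singleton'.1 hc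
      have h4 : (Polynomial.C j : Polynomial (E k)) ∈ LL M h := (elim j).2 hj
      have h6 : LL M h ≤ Ideal.span {q | q ∈ RingHom.ker (Phi F G) ∧ ∃ n ≤ 3, HomS n q} := by
        unfold LL
        rw [Ideal.span_le]
        rintro _ ⟨i, rfl⟩
        exact Ideal.subset_span ⟨LL_le hM (Ideal.subset_span ⟨i, rfl⟩), 1, by norm_num, gg_homS i⟩
      have h7 : (Polynomial.C Δ : Polynomial (E k)) ∈
          Ideal.span {q | q ∈ RingHom.ker (Phi F G) ∧ ∃ n ≤ 3, HomS n q} := by
        refine Ideal.subset_span ⟨hΔker, 3, le_refl 3, ?_⟩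
        intro i
        rw [Polynomial.coeff_C]
        by_cases hi : i = 0
        · rw [if_pos hi]
          exact hΔ3
        · rw [if_neg hi]
          exact isHomogeneous_zero _ _ _
      have h8 : cS n p = (cS n p - Polynomial.C e) + Polynomial.C j + Polynomial.C c * Polynomial.C Δ := by
        rw [← hjc, map_add, map_mul]
        ring
      rw [h8]
      exact Ideal.add_mem _ (Ideal.add_mem _ (h6 h2) (h6 h4)) (Ideal.mul_mem_left _ _ h7)
    · rw [Ideal.span_le]
      rintro q ⟨hq, _⟩
      exact hq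
  · intro heq
    have hle : Ideal.span {q | q ∈ RingHom.ker (Phi F G) ∧ ∃ n ≤ 2, HomS n q} ≤ RingHom.ker (chi k) := by
      rw [Ideal.span_le]
      rintro q ⟨hq, n, hn, hqn⟩
      rw [SetLike.mem_coe, RingHom.mem_ker]
      obtain ⟨e, he, h2, h3⟩ := red hN hM n q hqn hq
      obtain ⟨j, hj, c, hc, hjc⟩ := Submodule.mem_sup.1 (hΔ n e he h3)
      obtain ⟨c, rfl⟩ := Ideal.mem_span_singleton'.1 hc
      have h4 : chi k (q - Polynomial.C e) = 0 := chi_LL hM0 hh0 h2
      rw [chi_sub, chi_C, sub_eq_zero] at h4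
      rw [h4]
      have h5 : MvPolynomial.map constantCoeff j = (0 : MvPolynomial (Fin 4) k) := by
        have := chi_LL hM0 hh0 ((elim j).2 hj)
        rwa [chi_C] at this
      rw [← hjc, map_add, h5, zero_add, map_mul]
      by_contra hne
      have hne' : MvPolynomial.map (constantCoeff : A k →+* k) e ≠ 0 := by
        rw [← hjc, map_add, h5, zero_add, map_mul]
        exact hne
      have h6 := (he.map (constantCoeff : A k →+* k)).totalDegree hne'
      have hc0 : MvPolynomial.map (constantCoeff : A k →+* k) c ≠ 0 := left_ne_zero_of_mul hne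
      have hΔ0' : MvPolynomial.map (constantCoeff : A k →+* k) Δ ≠ 0 := right_ne_zero_of_mul hne
      have h7 := (hΔ3.map (constantCoeff : A k →+* k)).totalDegree hΔ0'
      have h8 := MvPolynomial.totalDegree_mul_of_isDomain hc0 hΔ0'
      have h9 : MvPolynomial.map (constantCoeff : A k →+* k) e =
          MvPolynomial.map (constantCoeff : A k →+* k) c * MvPolynomial.map (constantCoeff : A k →+* k) Δ := by
        rw [← hjc, map_add, h5, zero_add, map_mul]
      rw [← h9] at h8
      omega
    have h1 : chi k (Polynomial.C Δ) = 0 := hle (heq ▸ hΔker)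
    rw [chi_C] at h1
    exact hΔm ((mem_yz Δ).2 h1)

end Pool.Agent.H873.RT
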