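import Mathlib

/-! Definitions for MP_2f9c58_ag: relation types of homogeneous ideals of point sets. -/

set_option autoImplicit false

namespace Pool.Agent.H873.RT

open MvPolynomial
open scoped LinearAlgebra.Projectivization

section gen

variable {B : Type*} [CommRing B] {m : ℕ}

/-- the ideal `𝒬` of relations: the kernel of `B[T₁, …, T_m] → B[t]`, `T_i ↦ f_i t` -/
noncomputable def relIdeal (f : Fin m → B) : Ideal (MvPolynomial (Fin m) B) :=
  RingHom.ker (MvPolynomial.eval₂Hom (Polynomial.C : B →+* Polynomial B)
    (fun i => Polynomial.C (f i) * Polynomial.X))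

/-- `𝒬` is generated by its elements that are homogeneous in the `T_i` of degree at most `r` -/
def GenIn (f : Fin m → B) (r : ℕ) : Prop :=
  relIdeal f = Ideal.span {q | q ∈ relIdeal f ∧ ∃ n ≤ r, q.IsHomogeneous n}

/-- the relation type: the least `r` such that `𝒬` is generated in `T`-degrees at most `r` -/
noncomputable def relType (f : Fin m → B) : ℕ := sInf {r | GenIn f r}

end gen

section points

variable {k : Type*} [Field k]

/-- the homogeneous ideal `I_X` of a finite set `X` of points of the projective plane -/
noncomputable def pointIdeal (X : Finset (ℙ k (Fin 3 → k))) : Ideal (MvPolynomial (Fin 3) k) :=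
  Ideal.span {f | (∃ d, f.IsHomogeneous d) ∧ ∀ P ∈ X, eval P.rep f = 0}

/-- `f` is a minimal homogeneous generating set of `I_X` -/
structure MinGens {m : ℕ} (X : Finset (ℙ k (Fin 3 → k))) (f : Fin m → MvPolynomial (Fin 3) k) : Prop where
  hom : ∀ i, ∃ d, (f i).IsHomogeneous d
  span : Ideal.span (Set.range f) = pointIdeal X
  min : ∀ i, f i ∉ Ideal.span (f '' {j | j ≠ i})

end points

end Pool.Agent.H873.RT
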