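import Pool.Agent.H873.RT.Defs
import Pool.Agent.H873.RT.RelDefs

set_option autoImplicit false

namespace Pool.Agent.H873.RT

open MvPolynomial
open scoped LinearAlgebra.Projectivization

namespace Crd

variable {k : Type*} [Field k]

/-- the linear forms of a matrix -/
noncomputable def Lf (g : Matrix (Fin 3) (Fin 3) k) (i : Fin 3) : MvPolynomial (Fin 3) k :=
  ∑ j, C (g i j) * X j

/-- the linear substitution of a matrix -/
noncomputable def sub (g : Matrix (Fin 3) (Fin 3) k) :
    MvPolynomial (Fin 3) k →ₐ[k] MvPolynomial (Fin 3) k := aeval (Lf g)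

theorem sub_X (g : Matrix (Fin 3) (Fin 3) k) (i : Fin 3) : sub g (X i) = Lf g i := by
  unfold sub
  rw [aeval_X]

theorem sub_comp (g g' : Matrix (Fin 3) (Fin 3) k) (h : g * g' = 1) :
    (sub g').comp (sub g) = AlgHom.id k _ := by
  apply MvPolynomial.algHom_ext
  intro i
  rw [AlgHom.comp_apply, sub_X, AlgHom.id_apply]
  unfold Lf
  rw [map_sum]
  have h1 : ∀ j, (sub g') (C (g i j) * X j) = ∑ l, C (g i j * g' j l) * X l := by
    intro j
    rw [map_mul, sub_X, ← MvPolynomial.algebraMap_eq, AlgHom.commutes, MvPolynomial.algebraMap_eq, Lf, Finset.mul_sum]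
    refine Finset.sum_congr rfl fun l _ => ?_
    rw [C_mul, mul_assoc]
  rw [Finset.sum_congr rfl fun j _ => h1 j, Finset.sum_comm]
  have h2 : ∀ l, ∑ j, C (g i j * g' j l) * X l = (if i = l then (X l : MvPolynomial (Fin 3) k) else 0) := by
    intro l
    rw [← Finset.sum_mul, ← map_sum]
    have h3 : ∑ j, g i j * g' j l = (g * g') i l := (Matrix.mul_apply).symm
    rw [h3, h, Matrix.one_apply]
    split_ifs
    · rw [C_1, one_mul]
    · rw [C_0, zero_mul]
  rw [Finset.sum_congr rfl fun l _ => h2 l, Finset.sum_ite_eq, if_pos (Finset.mem_univ i)]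

/-- the linear substitution as an equivalence -/
noncomputable def subE (g g' : Matrix (Fin 3) (Fin 3) k) (h1 : g * g' = 1) (h2 : g' * g = 1) :
    MvPolynomial (Fin 3) k ≃ₐ[k] MvPolynomial (Fin 3) k :=
  AlgEquiv.ofAlgHom (sub g) (sub g') (sub_comp g' g h2) (sub_comp g g' h1)

/-- the coordinate change -/
noncomputable def crd (g g' : Matrix (Fin 3) (Fin 3) k) (h1 : g * g' = 1) (h2 : g' * g = 1) :
    MvPolynomial (Fin 3) k ≃+* R k :=
  ((subE g g' h1 h2).trans (MvPolynomial.finSuccEquiv k 2)).toRingEquiv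

theorem crd_apply (g g' : Matrix (Fin 3) (Fin 3) k) (h1 : g * g' = 1) (h2 : g' * g = 1)
    (f : MvPolynomial (Fin 3) k) : crd g g' h1 h2 f = MvPolynomial.finSuccEquiv k 2 (sub g f) := rfl

theorem sub_hom (g : Matrix (Fin 3) (Fin 3) k) {f : MvPolynomial (Fin 3) k} {d : ℕ}
    (hf : f.IsHomogeneous d) : (sub g f).IsHomogeneous d := by
  have h := hf.aeval (Lf g) (n := 1) (fun i => by
    unfold Lf
    refine IsHomogeneous.sum _ _ _ fun j _ => ?_
    have := (isHomogeneous_C (Fin 3) (g i j)).mul (isHomogeneous_X k j)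
    rwa [zero_add] at this)
  rw [one_mul] at h
  exact h

theorem degree_cons3 (j : ℕ) (m : Fin 2 →₀ ℕ) : (Finsupp.cons j m).degree = m.degree + j := by
  rw [Finsupp.degree_eq_sum, Finsupp.degree_eq_sum, Fin.sum_univ_succ, Finsupp.cons_zero]
  simp_rw [Finsupp.cons_succ]
  exact add_comm _ _

theorem crd_hom (g g' : Matrix (Fin 3) (Fin 3) k) (h1 : g * g' = 1) (h2 : g' * g = 1)
    {f : MvPolynomial (Fin 3) k} {d : ℕ} (hf : f.IsHomogeneous d) : HomR d (crd g g' h1 h2 f) := by
  intro j m hm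
  rw [crd_apply, finSuccEquiv_coeff_coeff] at hm
  rw [← degree_cons3]
  by_contra hne
  exact hm ((sub_hom g hf).coeff_eq_zero hne)

theorem eval_sub (g : Matrix (Fin 3) (Fin 3) k) (v : Fin 3 → k) (f : MvPolynomial (Fin 3) k) :
    eval v (sub g f) = eval (g.mulVec v) f := by
  have h : (aeval v).comp (sub g) = (aeval (g.mulVec v) : MvPolynomial (Fin 3) k →ₐ[k] k) := by
    apply MvPolynomial.algHom_ext
    intro i
    rw [AlgHom.comp_apply, sub_X, aeval_X, Lf, map_sum]
    simp only [map_mul, aeval_X, aeval_C]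
    rfl
  have h1 := DFunLike.congr_fun h f
  rw [AlgHom.comp_apply] at h1
  exact h1

/-- evaluation of forms -/
theorem aeval_form {S : Type*} [CommRing S] [Algebra k S] (v : Fin 3 → k) (t : S)
    {f : MvPolynomial (Fin 3) k} {d : ℕ} (hf : f.IsHomogeneous d) :
    aeval (fun i => algebraMap k S (v i) * t) f = algebraMap k S (eval v f) * t ^ d := by
  rw [aeval_def, eval₂_eq', eval_eq', map_sum, Finset.sum_mul]
  refine Finset.sum_congr rfl fun m hm => ?_
  have h1 : m.degree = d := by
    by_contra h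
    exact (MvPolynomial.mem_support_iff.1 hm) (hf.coeff_eq_zero h)
  have h2 : ∏ i, (algebraMap k S (v i) * t) ^ m i = algebraMap k S (∏ i, v i ^ m i) * t ^ d := by
    rw [← h1, Finsupp.degree_eq_sum, ← Finset.prod_pow_eq_pow_sum, map_prod, ← Finset.prod_mul_distrib]
    refine Finset.prod_congr rfl fun i _ => ?_
    rw [mul_pow, map_pow]
  rw [h2, map_mul]
  ring

/-- the point in normal position -/
noncomputable def pt (g' : Matrix (Fin 3) (Fin 3) k) (v : Fin 3 → k) : k × k :=
  ((g'.mulVec v) 0 / (g'.mulVec v) 2, (g'.mulVec v) 1 / (g'.mulVec v) 2)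

theorem evC (P : k × k) (a : k) : evP P (Polynomial.C (C a) : R k) = Polynomial.C a := by
  simp [evP]

theorem evX (P : k × k) : evP P (Polynomial.X : R k) = Polynomial.C P.1 * Polynomial.X := by
  simp [evP]

theorem ev0 (P : k × k) : evP P (Polynomial.C (X 0) : R k) = Polynomial.C P.2 * Polynomial.X := by
  simp [evP]

theorem ev1 (P : k × k) : evP P (Polynomial.C (X 1) : R k) = Polynomial.X := by
  simp [evP]

theorem ev_key (g g' : Matrix (Fin 3) (Fin 3) k) (h1 : g * g' = 1) (h2 : g' * g = 1) (v : Fin 3 → k)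
    (hv : (g'.mulVec v) 2 ≠ 0) (f : MvPolynomial (Fin 3) k) :
    evP (pt g' v) (crd g g' h1 h2 f) =
      aeval (fun i => algebraMap k (Polynomial k) (v i) *
        (Polynomial.C ((g'.mulVec v) 2)⁻¹ * Polynomial.X)) f := by
  set w := g'.mulVec v with hw
  have hgw : g.mulVec w = v := by
    rw [hw, Matrix.mulVec_mulVec, h1, Matrix.one_mulVec]
  have key : (evP (pt g' v)).comp (crd g g' h1 h2 : MvPolynomial (Fin 3) k →+* R k) =
      ((aeval (fun i => algebraMap k (Polynomial k) (v i) *
        (Polynomial.C (w 2)⁻¹ * Polynomial.X)) : MvPolynomial (Fin 3) k →ₐ[k] Polynomial k) :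
          MvPolynomial (Fin 3) k →+* Polynomial k) := by
    apply MvPolynomial.ringHom_ext
    · intro c
      have e1 : crd g g' h1 h2 (C c) = Polynomial.C (C c) := by
        rw [crd_apply, ← MvPolynomial.algebraMap_eq, AlgHom.commutes, AlgEquiv.commutes]
        rfl
      show evP (pt g' v) (crd g g' h1 h2 (C c)) = aeval _ (C c)
      rw [e1, aeval_C, evC]
      rfl
    · intro i
      show evP (pt g' v) (crd g g' h1 h2 (X i)) = aeval _ (X i)
      have e1 : crd g g' h1 h2 (X i) = Polynomial.C (C (g i 0)) * Polynomial.X +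
          Polynomial.C (C (g i 1)) * Polynomial.C (X 0) + Polynomial.C (C (g i 2)) * Polynomial.C (X 1) := by
        rw [crd_apply, sub_X, Lf, map_sum, Fin.sum_univ_three, map_mul, map_mul, map_mul]
        have hC : ∀ a : k, MvPolynomial.finSuccEquiv k 2 (C a) = Polynomial.C (C a) := by
          intro a
          rw [← MvPolynomial.algebraMap_eq, AlgEquiv.commutes]
          rfl
        have h0 : MvPolynomial.finSuccEquiv k 2 (X 0) = Polynomial.X := finSuccEquiv_X_zero
        have h1' : MvPolynomial.finSuccEquiv k 2 (X 1) = Polynomial.C (X 0) := finSuccEquiv_X_succ (j := 0)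
        have h2' : MvPolynomial.finSuccEquiv k 2 (X 2) = Polynomial.C (X 1) := finSuccEquiv_X_succ (j := 1)
        rw [hC, hC, hC, h0, h1', h2']
      have hvi : v i = g i 0 * w 0 + g i 1 * w 1 + g i 2 * w 2 := by
        rw [← hgw, Matrix.mulVec, dotProduct, Fin.sum_univ_three]
      rw [e1, aeval_X, map_add, map_add, map_mul, map_mul, map_mul, evC, evC, evC, evX, ev0, ev1, hvi]
      show Polynomial.C (g i 0) * (Polynomial.C (w 0 / w 2) * Polynomial.X) +
        Polynomial.C (g i 1) * (Polynomial.C (w 1 / w 2) * Polynomial.X) +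
        Polynomial.C (g i 2) * Polynomial.X =
        Polynomial.C (g i 0 * w 0 + g i 1 * w 1 + g i 2 * w 2) * (Polynomial.C (w 2)⁻¹ * Polynomial.X)
      have hs : (g i 0 * w 0 + g i 1 * w 1 + g i 2 * w 2) * (w 2)⁻¹ =
          g i 0 * (w 0 / w 2) + g i 1 * (w 1 / w 2) + g i 2 := by
        field_simp
      have hs' := congrArg Polynomial.C hs
      simp only [map_add, map_mul] at hs' ⊢
      linear_combination (-Polynomial.X) * hs'
  exact RingHom.congr_fun key f

theorem coeff_top (g g' : Matrix (Fin 3) (Fin 3) k) (h1 : g * g' = 1) (h2 : g' * g = 1)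
    {F : MvPolynomial (Fin 3) k} {d : ℕ} (hF : F.IsHomogeneous d) :
    (crd g g' h1 h2 F).coeff d = C (eval (fun i => g i 0) F) := by
  have hh := crd_hom g g' h1 h2 hF
  obtain ⟨q, hq⟩ : ∃ q : R k, q = crd g g' h1 h2 F := ⟨_, rfl⟩
  rw [← hq] at hh ⊢
  have hc : q.coeff d = C (coeff 0 (q.coeff d)) := by
    ext m
    rw [coeff_C]
    split_ifs with h
    · rw [← h]
    · by_contra hne
      have := hh d m hne
      have h0 : m.degree = 0 := by omega
      rw [Finsupp.degree_eq_zero_iff] at h0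
      exact h h0.symm
  rw [hc]
  congr 1
  have e1 : eval (Fin.cons 1 0) (sub g F) = Polynomial.eval 1 (Polynomial.map (eval 0) q) := by
    rw [hq, crd_apply]
    exact eval_eq_eval_mv_eval' 0 1 (sub g F)
  have e2 : Polynomial.map (eval 0) q = Polynomial.C (coeff 0 (q.coeff d)) * Polynomial.X ^ d := by
    ext j
    rw [Polynomial.coeff_map, Polynomial.coeff_C_mul, Polynomial.coeff_X_pow]
    have e3 : eval 0 (q.coeff j) = coeff 0 (q.coeff j) := by
      rw [← constantCoeff_eq, constantCoeff]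
      exact RingHom.congr_fun (by
        apply MvPolynomial.ringHom_ext
        · intro a; simp
        · intro i; simp) (q.coeff j)
    rw [e3]
    split_ifs with h
    · rw [h, mul_one]
    · rw [mul_zero]
      by_contra hne
      have := hh j 0 hne
      have h0 : (0 : Fin 2 →₀ ℕ).degree = 0 := by simp
      omega
  rw [e2, Polynomial.eval_mul, Polynomial.eval_C, Polynomial.eval_pow, Polynomial.eval_X, one_pow,
    mul_one] at e1
  rw [← e1, eval_sub]
  have e4 : g.mulVec (Fin.cons 1 0) = fun i => g i 0 := by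
    funext i
    rw [Matrix.mulVec, dotProduct, Fin.sum_univ_succ]
    simp
  rw [e4]

theorem mem_iff (X : Finset (ℙ k (Fin 3 → k))) (g g' : Matrix (Fin 3) (Fin 3) k) (h1 : g * g' = 1)
    (h2 : g' * g = 1) (h4 : ∀ P ∈ X, (g'.mulVec P.rep) 2 ≠ 0) (f : MvPolynomial (Fin 3) k) :
    f ∈ pointIdeal X ↔ ∀ P ∈ X, evP (pt g' P.rep) (crd g g' h1 h2 f) = 0 := by
  constructor
  · intro hf P hP
    have hle : pointIdeal X ≤ RingHom.ker ((evP (pt g' P.rep)).comp
        (crd g g' h1 h2 : MvPolynomial (Fin 3) k →+* R k)) := by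
      unfold pointIdeal
      rw [Ideal.span_le]
      rintro q ⟨⟨d, hd⟩, hq⟩
      show evP (pt g' P.rep) (crd g g' h1 h2 q) = 0
      rw [ev_key g g' h1 h2 _ (h4 P hP), aeval_form _ _ hd, hq P hP, map_zero, zero_mul]
    exact hle hf
  · intro hf
    rw [← sum_homogeneousComponent f]
    refine Ideal.sum_mem _ fun d hd => Ideal.subset_span ⟨⟨d, homogeneousComponent_isHomogeneous d f⟩, fun P hP => ?_⟩
    have hz := hf P hP
    rw [ev_key g g' h1 h2 _ (h4 P hP)] at hz
    have hz1 : ∑ i ∈ Finset.range (f.totalDegree + 1), algebraMap k (Polynomial k)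
        (eval P.rep (homogeneousComponent i f)) *
          (Polynomial.C ((g'.mulVec P.rep) 2)⁻¹ * Polynomial.X) ^ i = 0 := by
      rw [← hz]
      conv_rhs => arg 2; rw [← sum_homogeneousComponent f]
      rw [map_sum]
      exact Finset.sum_congr rfl fun i _ => (aeval_form P.rep _ (homogeneousComponent_isHomogeneous i f)).symm
    have hz2 := congrArg (fun q : Polynomial k => q.coeff d) hz1
    simp only [Polynomial.finsetSum_coeff, Polynomial.coeff_zero] at hz2
    have h5 : ∀ i, (algebraMap k (Polynomial k) (eval P.rep (homogeneousComponent i f)) *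
          (Polynomial.C ((g'.mulVec P.rep) 2)⁻¹ * Polynomial.X) ^ i).coeff d =
        if d = i then eval P.rep (homogeneousComponent i f) * ((g'.mulVec P.rep) 2)⁻¹ ^ i else 0 := by
      intro i
      rw [mul_pow, ← Polynomial.C_pow, Polynomial.algebraMap_eq, Polynomial.coeff_C_mul,
        Polynomial.coeff_C_mul, Polynomial.coeff_X_pow]
      split_ifs
      · rw [mul_one]
      · rw [mul_zero, mul_zero]
    rw [Finset.sum_congr rfl fun i _ => h5 i, Finset.sum_ite_eq, if_pos hd] at hz2
    rcases mul_eq_zero.1 hz2 with h | h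
    · exact h
    · exact absurd h (pow_ne_zero _ (inv_ne_zero (h4 P hP)))

end Crd

open Crd

/-- coordinate change to normal position -/
theorem exists_coord {k : Type*} [Field k] (X : Finset (ℙ k (Fin 3 → k)))
    (F : MvPolynomial (Fin 3) k) (hF : F.IsHomogeneous 3) (hX : ∀ P ∈ X, eval P.rep F = 0)
    (g g' : Matrix (Fin 3) (Fin 3) k) (h1 : g * g' = 1) (h2 : g' * g = 1)
    (h3 : eval (fun i => g i 0) F ≠ 0) (h4 : ∀ P ∈ X, (g'.mulVec P.rep) 2 ≠ 0) :
    ∃ (e : MvPolynomial (Fin 3) k ≃+* R k) (s : Finset (k × k)) (F' : R k),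
      F'.Monic ∧ F'.natDegree = 3 ∧ HomR 3 F' ∧ F' ∈ IX s ∧
      (∀ f : MvPolynomial (Fin 3) k, f ∈ pointIdeal X ↔ e f ∈ IX s) ∧ (X.Nonempty → s.Nonempty) := by
  classical
  obtain ⟨c, hc⟩ : ∃ c, c = eval (fun i => g i 0) F := ⟨_, rfl⟩
  rw [← hc] at h3
  have heF : HomR 3 (crd g g' h1 h2 F) := crd_hom g g' h1 h2 hF
  have htop : (crd g g' h1 h2 F).coeff 3 = C c := by rw [hc]; exact coeff_top g g' h1 h2 hF
  have hmemf := mem_iff X g g' h1 h2 h4
  obtain ⟨e, he⟩ : ∃ e, e = crd g g' h1 h2 := ⟨_, rfl⟩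
  rw [← he] at heF htop hmemf
  obtain ⟨s, hs⟩ : ∃ s, s = X.image fun P => pt g' P.rep := ⟨_, rfl⟩
  have hiff : ∀ f : MvPolynomial (Fin 3) k, f ∈ pointIdeal X ↔ e f ∈ IX s := by
    intro f
    rw [hmemf, hs]
    simp [IX, Submodule.mem_iInf, RingHom.mem_ker]
  have hle : (Polynomial.C (C c⁻¹) * e F : R k).natDegree ≤ 3 := by
    rw [Polynomial.natDegree_le_iff_coeff_eq_zero]
    intro j hj
    rw [Polynomial.coeff_C_mul]
    have : (e F).coeff j = 0 := by
      ext m
      rw [coeff_zero]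
      by_contra hne
      have := heF j m hne
      omega
    rw [this, mul_zero]
  have h1' : (Polynomial.C (C c⁻¹) * e F : R k).coeff 3 = 1 := by
    rw [Polynomial.coeff_C_mul, htop, ← C_mul, inv_mul_cancel₀ h3, C_1]
  refine ⟨e, s, Polynomial.C (C c⁻¹) * e F, Polynomial.monic_of_natDegree_le_of_coeff_eq_one 3 hle h1',
    Polynomial.natDegree_eq_of_le_of_coeff_ne_zero hle (by rw [h1']; exact one_ne_zero), ?_, ?_, hiff,
    fun hne => ?_⟩
  · intro j m hm
    rw [Polynomial.coeff_C_mul, coeff_C_mul] at hm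
    exact heF j m (right_ne_zero_of_mul hm)
  · exact Ideal.mul_mem_left _ _ ((hiff F).1 (Ideal.subset_span ⟨⟨3, hF⟩, hX⟩))
  · rw [hs]
    exact hne.image _

end Pool.Agent.H873.RT
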