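import Pool.Agent.H873.RT.Defs

set_option autoImplicit false

namespace Pool.Agent.H873.RT

open MvPolynomial Matrix

section general

variable {P : Type*} [CommRing P]

theorem dot3 (a b : Fin 3 → P) : a ⬝ᵥ b = a 0 * b 0 + a 1 * b 1 + a 2 * b 2 := by
  simp [dotProduct, Fin.sum_univ_three]

theorem mem_span_dot (w : Fin 3 → P) (e : P) :
    e ∈ Ideal.span (Set.range w) ↔ ∃ a : Fin 3 → P, e = a ⬝ᵥ w := by
  rw [Ideal.mem_span_range_iff_exists_fun]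
  constructor
  · rintro ⟨c, hc⟩
    exact ⟨c, hc.symm⟩
  · rintro ⟨c, hc⟩
    exact ⟨c, hc.symm⟩

theorem dot_cross_eq (T n : Fin 3 → P) : T ⬝ᵥ (T ⨯₃ n) = 0 := dot_self_cross T n

end general

/-- abstract saturation lemma, second case -/
theorem sat2 {P : Type*} [CommRing P] [IsDomain P] (T n n1 n2 : Fin 3 → P) (u1 u2 l0 : P) (hu1 : u1 ≠ 0)
    (hn : ∀ i, n i = l0 * T i + u1 * n1 i + u2 * n2 i)
    (hb : ∀ v : Fin 3 → P, v ⬝ᵥ (T ⨯₃ n) = 0 → ∃ α β, ∀ i, v i = α * T i + β * n i)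
    (hcop : ∀ a b : P, u2 * a = u1 * b → ∃ v, a = u1 * v ∧ b = u2 * v)
    (hT : ∀ b : P, (∀ i, b * T i ∈ Ideal.span {u1, u2}) → b ∈ Ideal.span {u1, u2})
    (hD : ∀ b : P, b * (T ⬝ᵥ (n1 ⨯₃ n2)) ∈ Ideal.span {u1, u2} → b ∈ Ideal.span {u1, u2})
    (e : P)
    (h1 : u1 * e ∈ Ideal.span (Set.range (T ⨯₃ n)) ⊔ Ideal.span {T ⬝ᵥ (n1 ⨯₃ n2)})
    (h2 : u2 * e ∈ Ideal.span (Set.range (T ⨯₃ n)) ⊔ Ideal.span {T ⬝ᵥ (n1 ⨯₃ n2)}) :
    e ∈ Ideal.span (Set.range (T ⨯₃ n)) ⊔ Ideal.span {T ⬝ᵥ (n1 ⨯₃ n2)} := by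
  set D := T ⬝ᵥ (n1 ⨯₃ n2) with hDdef
  set w := T ⨯₃ n with hw
  have hn' : n = fun i => l0 * T i + u1 * n1 i + u2 * n2 i := funext hn
  -- basic identities
  have hw0 : w 0 = T 1 * n 2 - T 2 * n 1 := by rw [hw, cross_apply]; simp
  have hw1 : w 1 = T 2 * n 0 - T 0 * n 2 := by rw [hw, cross_apply]; simp
  have hw2 : w 2 = T 0 * n 1 - T 1 * n 0 := by rw [hw, cross_apply]; simp
  have hDe : D = T 0 * (n1 1 * n2 2 - n1 2 * n2 1) + T 1 * (n1 2 * n2 0 - n1 0 * n2 2) +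
      T 2 * (n1 0 * n2 1 - n1 1 * n2 0) := by
    rw [hDdef, dot3, cross_apply]; simp
  have hn2w : n2 ⬝ᵥ w = u1 * D := by
    rw [dot3, hw0, hw1, hw2, hDe, hn 0, hn 1, hn 2]; ring
  have hn1w : n1 ⬝ᵥ w = - (u2 * D) := by
    rw [dot3, hw0, hw1, hw2, hDe, hn 0, hn 1, hn 2]; ring
  have hTw : T ⬝ᵥ w = 0 := dot_self_cross T n
  have hwq : ∀ i, w i ∈ Ideal.span {u1, u2} := by
    intro i
    rw [Ideal.mem_span_pair]
    fin_cases i
    · refine ⟨T 1 * n1 2 - T 2 * n1 1, T 1 * n2 2 - T 2 * n2 1, ?_⟩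
      show _ = w 0
      rw [hw0, hn 1, hn 2]; ring
    · refine ⟨T 2 * n1 0 - T 0 * n1 2, T 2 * n2 0 - T 0 * n2 2, ?_⟩
      show _ = w 1
      rw [hw1, hn 0, hn 2]; ring
    · refine ⟨T 0 * n1 1 - T 1 * n1 0, T 0 * n2 1 - T 1 * n2 0, ?_⟩
      show _ = w 2
      rw [hw2, hn 0, hn 1]; ring
  have hJq : ∀ x ∈ Ideal.span (Set.range w), x ∈ Ideal.span {u1, u2} := by
    intro x hx
    have : Ideal.span (Set.range w) ≤ Ideal.span {u1, u2} := by
      rw [Ideal.span_le]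
      rintro _ ⟨i, rfl⟩
      exact hwq i
    exact this hx
  have hu1D : u1 * D ∈ Ideal.span (Set.range w) := (mem_span_dot w _).2 ⟨n2, hn2w.symm⟩
  have hu2D : u2 * D ∈ Ideal.span (Set.range w) :=
    (mem_span_dot w _).2 ⟨-n1, by rw [neg_dotProduct, hn1w, neg_neg]⟩
  -- from J + (D) to J
  have key : ∀ u ∈ ({u1, u2} : Set P), u * e ∈ Ideal.span (Set.range w) ⊔ Ideal.span {D} →
      u * e ∈ Ideal.span (Set.range w) := by
    intro u hu h
    obtain ⟨j, hj, x, hx, hjx⟩ := Submodule.mem_sup.1 h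
    obtain ⟨b, rfl⟩ := Ideal.mem_span_singleton'.1 hx
    have hb1 : b * D ∈ Ideal.span {u1, u2} := by
      have h3 : u * e ∈ Ideal.span {u1, u2} := Ideal.mul_mem_right _ _ (Ideal.subset_span hu)
      have h4 : b * D = u * e - j := by rw [← hjx]; ring
      rw [h4]
      exact Ideal.sub_mem _ h3 (hJq j hj)
    obtain ⟨c1, c2, hc⟩ := Ideal.mem_span_pair.1 (hD b hb1)
    have h5 : b * D = c1 * (u1 * D) + c2 * (u2 * D) := by rw [← hc]; ring
    rw [← hjx, h5]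
    exact Ideal.add_mem _ hj (Ideal.add_mem _ (Ideal.mul_mem_left _ _ hu1D) (Ideal.mul_mem_left _ _ hu2D))
  have h1' := key u1 (by simp) h1
  have h2' := key u2 (by simp) h2
  obtain ⟨a, ha⟩ := (mem_span_dot w _).1 h1'
  obtain ⟨b, hb'⟩ := (mem_span_dot w _).1 h2'
  obtain ⟨α, β, hαβ⟩ := hb (fun i => u2 * a i - u1 * b i) (by
    have : (fun i => u2 * a i - u1 * b i) ⬝ᵥ w = u2 * (a ⬝ᵥ w) - u1 * (b ⬝ᵥ w) := by
      rw [dot3, dot3, dot3]; ring
    rw [this, ← ha, ← hb']; ring)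
  have hα : α + β * l0 ∈ Ideal.span {u1, u2} := by
    apply hT
    intro i
    have h6 : (α + β * l0) * T i = u2 * (a i - β * n2 i) - u1 * (b i + β * n1 i) := by
      have := hαβ i
      rw [hn i] at this
      linear_combination -this
    rw [h6, Ideal.mem_span_pair]
    exact ⟨-(b i + β * n1 i), a i - β * n2 i, by ring⟩
  obtain ⟨c1, c2, hc⟩ := Ideal.mem_span_pair.1 hα
  have h7 : ∀ i, ∃ v, a i - β * n2 i - c2 * T i = u1 * v := by
    intro i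
    have h8 : u2 * (a i - β * n2 i - c2 * T i) = u1 * (b i + β * n1 i + c1 * T i) := by
      have := hαβ i
      rw [hn i] at this
      linear_combination this + T i * (-hc)
    obtain ⟨v, hv, -⟩ := hcop _ _ h8
    exact ⟨v, hv⟩
  choose v hv using h7
  have h9 : u1 * e = u1 * (β * D + v ⬝ᵥ w) := by
    rw [ha]
    have h10 : a = fun i => β * n2 i + c2 * T i + u1 * v i := by
      funext i
      linear_combination hv i
    have h11 : a ⬝ᵥ w = β * (n2 ⬝ᵥ w) + c2 * (T ⬝ᵥ w) + u1 * (v ⬝ᵥ w) := by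
      rw [h10, dot3, dot3, dot3, dot3]; ring
    rw [h11, hn2w, hTw]; ring
  have h12 : e = β * D + v ⬝ᵥ w := mul_left_cancel₀ hu1 h9
  rw [h12, add_comm]
  exact Submodule.add_mem_sup ((mem_span_dot w _).2 ⟨v, rfl⟩) (Ideal.mem_span_singleton'.2 ⟨β, rfl⟩)

/-- abstract saturation lemma, first case -/
theorem sat1 {P : Type*} [CommRing P] [IsDomain P] (T n : Fin 3 → P) (u1 u2 : P) (hu1 : u1 ≠ 0)
    (hb : ∀ v : Fin 3 → P, v ⬝ᵥ (T ⨯₃ n) = 0 → ∃ α β, ∀ i, v i = α * T i + β * n i)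
    (hcop : ∀ a b : P, u2 * a = u1 * b → ∃ v, a = u1 * v ∧ b = u2 * v)
    (hprime : (Ideal.span {u1, u2} : Ideal P).IsPrime)
    (hw : ¬ ∀ i, (T ⨯₃ n) i ∈ (Ideal.span {u1, u2} : Ideal P))
    (e : P) (h1 : u1 * e ∈ Ideal.span (Set.range (T ⨯₃ n)))
    (h2 : u2 * e ∈ Ideal.span (Set.range (T ⨯₃ n))) :
    e ∈ Ideal.span (Set.range (T ⨯₃ n)) := by
  set w := T ⨯₃ n with hwd
  have hw0 : w 0 = T 1 * n 2 - T 2 * n 1 := by rw [hwd, cross_apply]; simp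
  have hw1 : w 1 = T 2 * n 0 - T 0 * n 2 := by rw [hwd, cross_apply]; simp
  have hw2 : w 2 = T 0 * n 1 - T 1 * n 0 := by rw [hwd, cross_apply]; simp
  obtain ⟨a, ha⟩ := (mem_span_dot w _).1 h1
  obtain ⟨b, hb'⟩ := (mem_span_dot w _).1 h2
  obtain ⟨α, β, hαβ⟩ := hb (fun i => u2 * a i - u1 * b i) (by
    have : (fun i => u2 * a i - u1 * b i) ⬝ᵥ w = u2 * (a ⬝ᵥ w) - u1 * (b ⬝ᵥ w) := by
      rw [dot3, dot3, dot3]; ring
    rw [this, ← ha, ← hb']; ring)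
  have hq : ∀ i, α * T i + β * n i ∈ (Ideal.span {u1, u2} : Ideal P) := by
    intro i
    rw [← hαβ i, Ideal.mem_span_pair]
    exact ⟨-b i, a i, by ring⟩
  have hβ : β ∈ (Ideal.span {u1, u2} : Ideal P) := by
    by_contra hβ
    apply hw
    intro i
    have : β * w i ∈ (Ideal.span {u1, u2} : Ideal P) := by
      fin_cases i
      · show β * w 0 ∈ _
        have : β * w 0 = T 1 * (α * T 2 + β * n 2) - T 2 * (α * T 1 + β * n 1) := by rw [hw0]; ring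
        rw [this]
        exact Ideal.sub_mem _ (Ideal.mul_mem_left _ _ (hq 2)) (Ideal.mul_mem_left _ _ (hq 1))
      · show β * w 1 ∈ _
        have : β * w 1 = T 2 * (α * T 0 + β * n 0) - T 0 * (α * T 2 + β * n 2) := by rw [hw1]; ring
        rw [this]
        exact Ideal.sub_mem _ (Ideal.mul_mem_left _ _ (hq 0)) (Ideal.mul_mem_left _ _ (hq 2))
      · show β * w 2 ∈ _
        have : β * w 2 = T 0 * (α * T 1 + β * n 1) - T 1 * (α * T 0 + β * n 0) := by rw [hw2]; ring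
        rw [this]
        exact Ideal.sub_mem _ (Ideal.mul_mem_left _ _ (hq 1)) (Ideal.mul_mem_left _ _ (hq 0))
    exact (hprime.mem_or_mem this).resolve_left hβ
  have hα : α ∈ (Ideal.span {u1, u2} : Ideal P) := by
    by_contra hα
    apply hw
    have hTi : ∀ i, T i ∈ (Ideal.span {u1, u2} : Ideal P) := by
      intro i
      have h3 : α * T i ∈ (Ideal.span {u1, u2} : Ideal P) := by
        have : α * T i = (α * T i + β * n i) - β * n i := by ring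
        rw [this]
        exact Ideal.sub_mem _ (hq i) (Ideal.mul_mem_right _ _ hβ)
      exact (hprime.mem_or_mem h3).resolve_left hα
    intro i
    fin_cases i
    · show w 0 ∈ _
      rw [hw0]
      exact Ideal.sub_mem _ (Ideal.mul_mem_right _ _ (hTi 1)) (Ideal.mul_mem_right _ _ (hTi 2))
    · show w 1 ∈ _
      rw [hw1]
      exact Ideal.sub_mem _ (Ideal.mul_mem_right _ _ (hTi 2)) (Ideal.mul_mem_right _ _ (hTi 0))
    · show w 2 ∈ _
      rw [hw2]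
      exact Ideal.sub_mem _ (Ideal.mul_mem_right _ _ (hTi 0)) (Ideal.mul_mem_right _ _ (hTi 1))
  obtain ⟨a1, a2, hα'⟩ := Ideal.mem_span_pair.1 hα
  obtain ⟨b1, b2, hβ'⟩ := Ideal.mem_span_pair.1 hβ
  have h7 : ∀ i, ∃ v, a i - a2 * T i - b2 * n i = u1 * v := by
    intro i
    have h8 : u2 * (a i - a2 * T i - b2 * n i) = u1 * (b i + a1 * T i + b1 * n i) := by
      have := hαβ i
      rw [← hα', ← hβ'] at this
      linear_combination this
    obtain ⟨v, hv, -⟩ := hcop _ _ h8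
    exact ⟨v, hv⟩
  choose v hv using h7
  have h9 : u1 * e = u1 * (v ⬝ᵥ w) := by
    rw [ha]
    have h10 : a = fun i => b2 * n i + a2 * T i + u1 * v i := by
      funext i
      linear_combination hv i
    have h11 : a ⬝ᵥ w = b2 * (n ⬝ᵥ w) + a2 * (T ⬝ᵥ w) + u1 * (v ⬝ᵥ w) := by
      rw [h10, dot3, dot3, dot3, dot3]; ring
    have h12 : n ⬝ᵥ w = 0 := dot_cross_self T n
    have h13 : T ⬝ᵥ w = 0 := dot_self_cross T n
    rw [h11, h12, h13]; ring
  have h12 : e = v ⬝ᵥ w := mul_left_cancel₀ hu1 h9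
  rw [h12]
  exact (mem_span_dot w _).2 ⟨v, rfl⟩

end Pool.Agent.H873.RT
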