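import Pool.Agent.H873.RT.HB
import Pool.Agent.H873.RT.Sat

set_option autoImplicit false

namespace Pool.Agent.H873.RT

open MvPolynomial

/-- nonzerodivisors modulo `(x, y ^ N)` -/
theorem nzd {P : Type*} [CommRing P] [IsDomain P] (x y : P) (hx : Prime x) (hxy : ¬ x ∣ y)
    (hp : (Ideal.span {x, y} : Ideal P).IsPrime) (D : P) (hD : D ∉ (Ideal.span {x, y} : Ideal P)) (N : ℕ) :
    ∀ b : P, b * D ∈ (Ideal.span {x, y ^ N} : Ideal P) → b ∈ (Ideal.span {x, y ^ N} : Ideal P) := by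
  induction N with
  | zero =>
    intro b _
    rw [Ideal.mem_span_pair]
    exact ⟨0, b, by ring⟩
  | succ N ih =>
    intro b hb
    obtain ⟨c1, c2, hc⟩ := Ideal.mem_span_pair.1 hb
    have h1 : b ∈ (Ideal.span {x, y ^ N} : Ideal P) := by
      apply ih
      rw [Ideal.mem_span_pair]
      exact ⟨c1, c2 * y, by rw [← hc]; ring⟩
    obtain ⟨α, β, hαβ⟩ := Ideal.mem_span_pair.1 h1
    have h2 : x ∣ y ^ N * (β * D - c2 * y) := by
      refine ⟨c1 - α * D, ?_⟩
      have : b * D = (α * x + β * y ^ N) * D := by rw [hαβ]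
      linear_combination this.symm.trans hc.symm
    have h3 : x ∣ β * D - c2 * y := by
      rcases hx.dvd_or_dvd h2 with h | h
      · exact absurd (hx.dvd_of_dvd_pow h) hxy
      · exact h
    obtain ⟨g, hg⟩ := h3
    have h4 : β * D ∈ (Ideal.span {x, y} : Ideal P) := by
      rw [Ideal.mem_span_pair]
      exact ⟨g, c2, by linear_combination -hg⟩
    have h5 := (hp.mem_or_mem h4).resolve_right hD
    obtain ⟨β1, β2, hβ⟩ := Ideal.mem_span_pair.1 h5
    rw [Ideal.mem_span_pair]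
    refine ⟨α + β1 * y ^ N, β2, ?_⟩
    rw [← hαβ, ← hβ]
    ring

/-- descending from torsion -/
theorem descend {P : Type*} [CommRing P] (J : Ideal P) (u1 u2 : P)
    (hs : ∀ e : P, u1 * e ∈ J → u2 * e ∈ J → e ∈ J) (m : ℕ) :
    ∀ e : P, (∀ x ∈ (Ideal.span {u1, u2} : Ideal P) ^ m, x * e ∈ J) → e ∈ J := by
  induction m with
  | zero =>
    intro e he
    have := he 1 (by simp)
    simpa using this
  | succ m ih =>
    intro e he
    apply ih
    intro x hx
    apply hs
    · rw [← mul_assoc]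
      apply he
      rw [pow_succ']
      exact Ideal.mul_mem_mul (Ideal.subset_span (by simp)) hx
    · rw [← mul_assoc]
      apply he
      rw [pow_succ']
      exact Ideal.mul_mem_mul (Ideal.subset_span (by simp)) hx

/-- powers of a two-generated ideal -/
theorem pow_torsion {P : Type*} [CommRing P] (J : Ideal P) (y z e : P) (N : ℕ) (hy : y ^ N * e ∈ J)
    (hz : z ^ N * e ∈ J) (x : P) (hx : x ∈ (Ideal.span {y, z} : Ideal P) ^ (2 * N)) : x * e ∈ J := by
  have h1 : (Ideal.span {y, z} : Ideal P) ^ (2 * N) ≤ Ideal.span {y ^ N, z ^ N} := by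
    rw [Ideal.span_insert, Ideal.span_insert, two_mul]
    refine (Ideal.sup_pow_add_le_pow_sup_pow).trans ?_
    rw [Ideal.span_singleton_pow, Ideal.span_singleton_pow]
  obtain ⟨c1, c2, hc⟩ := Ideal.mem_span_pair.1 (h1 hx)
  rw [← hc, add_mul, mul_assoc, mul_assoc]
  exact Ideal.add_mem _ (Ideal.mul_mem_left _ _ hy) (Ideal.mul_mem_left _ _ hz)

/-- coprimality -/
theorem cop {P : Type*} [CommRing P] [IsDomain P] (u1 u2 : P) (h1 : Prime u1) (h2 : ¬ u1 ∣ u2) (a b : P)
    (h : u2 * a = u1 * b) : ∃ v, a = u1 * v ∧ b = u2 * v := by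
  have h3 : u1 ∣ u2 * a := ⟨b, h⟩
  rcases h1.dvd_or_dvd h3 with h4 | ⟨v, hv⟩
  · exact absurd h4 h2
  · refine ⟨v, hv, ?_⟩
    apply mul_left_cancel₀ h1.ne_zero
    rw [← h, hv]
    ring

end Pool.Agent.H873.RT
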