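import Pool.Agent.H873.RT.Defs

set_option autoImplicit false

namespace Pool.Agent.H873.RT

open MvPolynomial

variable {k : Type*} [Field k] {s : Finset (k × k)} {F : R k} {G : Fin 3 → R k} {a : Fin 3 → ℕ}
  {M : Matrix (Fin 3) (Fin 3) (A k)} {h : Fin 3 → A k}

theorem Rees_P_sub (a b : E k) :
    (Polynomial.C (a - b) : Polynomial (E k)) = Polynomial.C a - Polynomial.C b :=
  map_sub Polynomial.C a b

theorem Rees_P_mul (a b : E k) :
    (Polynomial.C (a * b) : Polynomial (E k)) = Polynomial.C a * Polynomial.C b :=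
  map_mul Polynomial.C a b

theorem Rees_Phi_sub (F : R k) (G : Fin 3 → R k) (p q : Polynomial (E k)) :
    Phi F G (p - q) = Phi F G p - Phi F G q := map_sub (Phi F G) p q

theorem Rees_mul_sub (p q r : Polynomial (E k)) : p * (q - r) = p * q - p * r := mul_sub p q r

theorem Rees_sub_eq (p q : Polynomial (R k)) (h : p - q = 0) : p = q := sub_eq_zero.1 h

theorem Rees_evE_C (F : R k) (G : Fin 3 → R k) (c : A k) :
    evE F G (C c) = Polynomial.C (Polynomial.C c) := by
  unfold evE
  rw [MvPolynomial.eval₂Hom_C]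
  rfl

theorem Rees_evE_X (F : R k) (G : Fin 3 → R k) (j : Fin 4) :
    evE F G (X j) = Polynomial.C (fam F G j) * Polynomial.X := by
  unfold evE
  rw [MvPolynomial.eval₂Hom_X']

theorem Rees_Phi_C (F : R k) (G : Fin 3 → R k) (e : E k) :
    Phi F G (Polynomial.C e) = evE F G e := by
  unfold Phi
  rw [Polynomial.coe_eval₂RingHom, Polynomial.eval₂_C]

theorem Rees_Phi_X (F : R k) (G : Fin 3 → R k) :
    Phi F G Polynomial.X = Polynomial.C Polynomial.X := by
  unfold Phi
  rw [Polynomial.coe_eval₂RingHom, Polynomial.eval₂_X]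

theorem LL_le (hM : MH F G a M h) : LL M h ≤ RingHom.ker (Phi F G) := by
  unfold LL
  rw [Ideal.span_le]
  rintro _ ⟨i, rfl⟩
  rw [SetLike.mem_coe, RingHom.mem_ker]
  have h1 : evE F G (nn M h i) =
      Polynomial.C ((∑ j, Polynomial.C (M i j) * G j) + Polynomial.C (h i) * F) * Polynomial.X := by
    unfold nn
    rw [map_add, map_sum, map_mul, Rees_evE_C, Rees_evE_X]
    have h2 : ∀ j : Fin 3, evE F G (C (M i j) * X j.succ) =
        Polynomial.C (Polynomial.C (M i j) * G j) * Polynomial.X := by
      intro j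
      rw [map_mul, Rees_evE_C, Rees_evE_X]
      have h3 : fam F G j.succ = G j := rfl
      rw [h3, map_mul]
      ring
    rw [Finset.sum_congr rfl (fun j _ => h2 j), ← Finset.sum_mul, ← map_sum]
    have h4 : fam F G 0 = F := rfl
    rw [h4, map_add, map_mul]
    ring
  have h5 : evE F G (TT (A k) i) = Polynomial.C (G i) * Polynomial.X := by
    unfold TT
    rw [Rees_evE_X]
    rfl
  unfold gg
  rw [Rees_Phi_sub, map_mul, Rees_Phi_C, Rees_Phi_C, Rees_Phi_X, h1, h5, ← hM.rel i, map_mul]
  ring

/-! ### reduction -/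

/-- the normal form of an element of `E[x]` modulo the linear relations -/
def Rees_Q (M : Matrix (Fin 3) (Fin 3) (A k)) (h : Fin 3 → A k) (n : ℕ) (p : Polynomial (E k)) : Prop :=
  ∃ (e : E k) (r : R k), e.IsHomogeneous n ∧
    p - (Polynomial.C e + Polynomial.X * r.map C * Polynomial.C (X 0 ^ n)) ∈ LL M h

theorem Rees_Q_zero (n : ℕ) : Rees_Q M h n 0 := by
  refine ⟨0, 0, MvPolynomial.isHomogeneous_zero _ _ _, ?_⟩
  have h1 : (0 : Polynomial (E k)) - (Polynomial.C 0 +
      Polynomial.X * (0 : R k).map C * Polynomial.C (X 0 ^ n)) = 0 := by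
    rw [map_zero, Polynomial.map_zero]
    ring
  rw [h1]
  exact (LL M h).zero_mem

theorem Rees_Q_add {n : ℕ} {p q : Polynomial (E k)} (hp : Rees_Q M h n p) (hq : Rees_Q M h n q) :
    Rees_Q M h n (p + q) := by
  obtain ⟨e, r, he, h1⟩ := hp
  obtain ⟨e', r', he', h2⟩ := hq
  refine ⟨e + e', r + r', he.add he', ?_⟩
  have h3 := (LL M h).add_mem h1 h2
  have h4 : p + q - (Polynomial.C (e + e') + Polynomial.X * (r + r').map C *
      Polynomial.C (X 0 ^ n)) =
      p - (Polynomial.C e + Polynomial.X * r.map C * Polynomial.C (X 0 ^ n)) +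
      (q - (Polynomial.C e' + Polynomial.X * r'.map C * Polynomial.C (X 0 ^ n))) := by
    rw [Polynomial.map_add, map_add]
    ring
  rw [h4]
  exact h3

theorem Rees_Q_sum {n : ℕ} {ι : Type*} (t : Finset ι) (p : ι → Polynomial (E k))
    (hp : ∀ i ∈ t, Rees_Q M h n (p i)) : Rees_Q M h n (∑ i ∈ t, p i) := by
  classical
  induction t using Finset.induction_on with
  | empty => rw [Finset.sum_empty]; exact Rees_Q_zero n
  | insert b t hb ih =>
    rw [Finset.sum_insert hb]
    exact Rees_Q_add (hp b (Finset.mem_insert_self _ _))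
      (ih fun i hi => hp i (Finset.mem_insert_of_mem hi))

theorem Rees_Q_congr {n : ℕ} {p q : Polynomial (E k)} (hq : Rees_Q M h n q)
    (hpq : p - q ∈ LL M h) : Rees_Q M h n p := by
  obtain ⟨e, r, he, h1⟩ := hq
  refine ⟨e, r, he, ?_⟩
  have h2 := (LL M h).add_mem hpq h1
  have h3 : p - (Polynomial.C e + Polynomial.X * r.map C * Polynomial.C (X 0 ^ n)) =
      (p - q) + (q - (Polynomial.C e + Polynomial.X * r.map C * Polynomial.C (X 0 ^ n))) := by ring
  rw [h3]
  exact h2

theorem Rees_nn_hom (i : Fin 3) : (nn M h i).IsHomogeneous 1 := by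
  unfold nn
  refine MvPolynomial.IsHomogeneous.add ?_ ?_
  · refine MvPolynomial.IsHomogeneous.sum _ _ _ fun j _ => ?_
    have h1 := (MvPolynomial.isHomogeneous_C (Fin 4) (M i j)).mul
      (MvPolynomial.isHomogeneous_X (A k) j.succ)
    simpa using h1
  · have h1 := (MvPolynomial.isHomogeneous_C (Fin 4) (h i)).mul
      (MvPolynomial.isHomogeneous_X (A k) (0 : Fin 4))
    simpa using h1

theorem Rees_mono (n j : ℕ) (hj : ∀ q : E k, q.IsHomogeneous n →
    Rees_Q M h n (Polynomial.C q * Polynomial.X ^ j)) (b : Fin 4 →₀ ℕ) (c : A k)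
    (hb : b.degree = n) : Rees_Q M h n (Polynomial.C (monomial b c) * Polynomial.X ^ (j + 1)) := by
  classical
  by_cases hi : ∃ i : Fin 3, b i.succ ≠ 0
  · obtain ⟨i, hi⟩ := hi
    obtain ⟨b', hb'⟩ : ∃ b' : Fin 4 →₀ ℕ, b = b' + Finsupp.single i.succ 1 := by
      refine ⟨b - Finsupp.single i.succ 1, ?_⟩
      rw [tsub_add_cancel_of_le]
      rw [Finsupp.single_le_iff]
      exact Nat.one_le_iff_ne_zero.2 hi
    have hdeg : b'.degree + 1 = n := by
      rw [← hb, hb', map_add, Finsupp.degree_single]
    have hm : (monomial b c : E k) = monomial b' c * X i.succ := by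
      rw [hb', MvPolynomial.X, MvPolynomial.monomial_mul, mul_one]
    refine Rees_Q_congr (hj (monomial b' c * nn M h i) ?_) ?_
    · rw [← hdeg]
      exact (MvPolynomial.isHomogeneous_monomial c rfl).mul (Rees_nn_hom i)
    · have h1 : gg M h i ∈ LL M h := Ideal.subset_span ⟨i, rfl⟩
      have h2 := (LL M h).mul_mem_left (Polynomial.C (monomial b' c) * Polynomial.X ^ j) h1
      have h3 : Polynomial.C (monomial b c) * Polynomial.X ^ (j + 1) -
          Polynomial.C (monomial b' c * nn M h i) * Polynomial.X ^ j =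
          Polynomial.C (monomial b' c) * Polynomial.X ^ j * gg M h i := by
        rw [hm]
        unfold gg TT
        rw [map_mul, map_mul]
        ring
      rw [h3]
      exact h2
  · push Not at hi
    have hb0 : b = Finsupp.single 0 n := by
      have h1 : b = Finsupp.single 0 (b 0) := by
        ext i
        refine Fin.cases ?_ (fun i => ?_) i
        · rw [Finsupp.single_eq_same]
        · rw [hi i, Finsupp.single_apply, if_neg (Fin.succ_ne_zero i).symm]
      rw [h1, Finsupp.degree_single] at hb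
      rw [h1, hb]
    refine ⟨0, Polynomial.C c * Polynomial.X ^ j, MvPolynomial.isHomogeneous_zero _ _ _, ?_⟩
    have h2 : (monomial b c : E k) = C c * X 0 ^ n := by
      rw [hb0, MvPolynomial.C_mul_X_pow_eq_monomial]
    have h3 : Polynomial.C (monomial b c) * Polynomial.X ^ (j + 1) - (Polynomial.C (0 : E k) +
        Polynomial.X * (Polynomial.C c * Polynomial.X ^ j : R k).map C *
          Polynomial.C (X 0 ^ n)) = 0 := by
      rw [h2, Polynomial.map_mul, Polynomial.map_C, Polynomial.map_pow, Polynomial.map_X, map_mul,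
        map_zero]
      ring
    rw [h3]
    exact (LL M h).zero_mem

theorem Rees_pow (n j : ℕ) : ∀ q : E k, q.IsHomogeneous n →
    Rees_Q M h n (Polynomial.C q * Polynomial.X ^ j) := by
  induction j with
  | zero =>
    intro q hq
    refine ⟨q, 0, hq, ?_⟩
    have h1 : Polynomial.C q * Polynomial.X ^ 0 - (Polynomial.C q +
        Polynomial.X * (0 : R k).map C * Polynomial.C (X 0 ^ n)) = 0 := by
      rw [Polynomial.map_zero]
      ring
    rw [h1]
    exact (LL M h).zero_mem
  | succ j ih =>
    intro q hq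
    have h1 : Polynomial.C q * Polynomial.X ^ (j + 1) =
        ∑ b ∈ q.support, Polynomial.C (monomial b (q.coeff b)) * Polynomial.X ^ (j + 1) := by
      rw [← Finset.sum_mul, ← map_sum, ← q.as_sum]
    rw [h1]
    refine Rees_Q_sum _ _ fun b hb => ?_
    refine Rees_mono n j ih b _ ?_
    have h2 := hq (MvPolynomial.mem_support_iff.1 hb)
    rw [Finsupp.degree_eq_weight_one]
    exact h2

theorem Rees_all (n : ℕ) (p : Polynomial (E k)) (hp : HomS n p) : Rees_Q M h n p := by
  rw [p.as_sum_support_C_mul_X_pow]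
  exact Rees_Q_sum _ _ fun j _ => Rees_pow n j _ (hp j)

/-- evaluation of the forms at `F, G` -/
noncomputable def Rees_ev (F : R k) (G : Fin 3 → R k) : E k →+* R k :=
  MvPolynomial.eval₂Hom Polynomial.C (fam F G)

theorem Rees_ev_hom (n : ℕ) (e : E k) (he : e.IsHomogeneous n) :
    evE F G e = Polynomial.C (Rees_ev F G e) * Polynomial.X ^ n := by
  classical
  have key : ∀ b ∈ e.support, evE F G (monomial b (e.coeff b)) =
      Polynomial.C (Rees_ev F G (monomial b (e.coeff b))) * Polynomial.X ^ n := by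
    intro b hb
    have h2 := he (MvPolynomial.mem_support_iff.1 hb)
    have hdeg : ∑ i, b i = n := by
      rw [← Finsupp.degree_eq_sum, Finsupp.degree_eq_weight_one]
      exact h2
    unfold evE Rees_ev
    rw [MvPolynomial.coe_eval₂Hom, MvPolynomial.coe_eval₂Hom, MvPolynomial.eval₂_monomial,
      MvPolynomial.eval₂_monomial, Finsupp.prod_fintype _ _ (fun i => pow_zero _),
      Finsupp.prod_fintype _ _ (fun i => pow_zero _)]
    simp only [mul_pow, Finset.prod_mul_distrib, Finset.prod_pow_eq_pow_sum, hdeg]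
    rw [map_mul, map_prod]
    simp only [map_pow, RingHom.comp_apply]
    ring
  conv_lhs => rw [e.as_sum, map_sum]
  rw [Finset.sum_congr rfl key, ← Finset.sum_mul, ← map_sum, ← map_sum, ← e.as_sum]

theorem Rees_ev_deg (hN : NF s F G a) (n : ℕ) (e : E k) (he : e.IsHomogeneous n) :
    (Rees_ev F G e).natDegree ≤ 3 * n := by
  classical
  rw [e.as_sum, map_sum]
  refine Polynomial.natDegree_sum_le_of_forall_le _ _ fun b hb => ?_
  have h2 := he (MvPolynomial.mem_support_iff.1 hb)
  have hdeg : ∑ i, b i = n := by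
    rw [← Finsupp.degree_eq_sum, Finsupp.degree_eq_weight_one]
    exact h2
  unfold Rees_ev
  rw [MvPolynomial.coe_eval₂Hom, MvPolynomial.eval₂_monomial,
    Finsupp.prod_fintype _ _ (fun i => pow_zero _)]
  refine (Polynomial.natDegree_C_mul_le _ _).trans ?_
  refine (Polynomial.natDegree_prod_le _ _).trans ?_
  rw [← hdeg, Finset.mul_sum]
  refine Finset.sum_le_sum fun i _ => ?_
  refine Polynomial.natDegree_pow_le.trans ?_
  rw [mul_comm]
  refine Nat.mul_le_mul_right _ ?_
  refine Fin.cases ?_ (fun i => ?_) i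
  · exact hN.deg.le
  · exact (hN.degG i).trans (by norm_num)

theorem Rees_Phi_map (F : R k) (G : Fin 3 → R k) (r : R k) :
    Phi F G (r.map C) = Polynomial.C r := by
  unfold Phi
  rw [Polynomial.coe_eval₂RingHom, Polynomial.eval₂_map]
  have h1 : (evE F G).comp (C : A k →+* E k) = (Polynomial.C).comp (Polynomial.C) :=
    RingHom.ext fun c => Rees_evE_C F G c
  rw [h1]
  have h2 := Polynomial.hom_eval₂ r (Polynomial.C : A k →+* R k)
    (Polynomial.C : R k →+* Polynomial (R k)) Polynomial.X
  rw [Polynomial.eval₂_C_X] at h2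
  exact h2.symm

/-- reduction of the elements of the Rees ideal to `E` modulo the linear relations -/
theorem red (hN : NF s F G a) (hM : MH F G a M h) (n : ℕ) (p : Polynomial (E k)) (hp : HomS n p)
    (h0 : Phi F G p = 0) :
    ∃ e : E k, e.IsHomogeneous n ∧ p - Polynomial.C e ∈ LL M h ∧ evE F G e = 0 := by
  obtain ⟨e, r, he, h1⟩ := Rees_all (M := M) (h := h) n p hp
  have h2 := LL_le hM h1
  rw [RingHom.mem_ker, Rees_Phi_sub, h0] at h2
  have h2 := (Rees_sub_eq _ _ h2).symm
  rw [map_add, map_mul, map_mul, Rees_Phi_C,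
    Rees_Phi_C, Rees_Phi_X, Rees_Phi_map, map_pow, Rees_evE_X, Rees_ev_hom n e he] at h2
  have h3 : fam F G 0 = F := rfl
  rw [h3] at h2
  have h4 : Polynomial.C (Rees_ev F G e + Polynomial.X * r * F ^ n) * Polynomial.X ^ n =
      (0 : Polynomial (R k)) := by
    rw [← h2, map_add, map_mul, map_mul, map_pow]
    ring
  have h5 : Rees_ev F G e + Polynomial.X * r * F ^ n = 0 := by
    have h6 := congrArg (fun q : Polynomial (R k) => q.coeff n) h4
    simp only [Polynomial.coeff_C_mul, Polynomial.coeff_X_pow, if_true, mul_one,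
      Polynomial.coeff_zero] at h6
    exact h6
  have hr : r = 0 := by
    by_contra hr0
    have h6 : (Polynomial.X * r * F ^ n).natDegree = 1 + r.natDegree + 3 * n := by
      have hF : F ^ n ≠ 0 := (hN.monic.pow n).ne_zero
      rw [Polynomial.natDegree_mul (mul_ne_zero Polynomial.X_ne_zero hr0) hF,
        Polynomial.natDegree_mul Polynomial.X_ne_zero hr0, Polynomial.natDegree_X,
        Polynomial.natDegree_pow, hN.deg]
      ring
    have h7 : Polynomial.X * r * F ^ n = -Rees_ev F G e := by
      linear_combination h5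
    rw [h7, Polynomial.natDegree_neg] at h6
    have h8 := Rees_ev_deg hN n e he
    omega
  rw [hr, mul_zero, zero_mul, add_zero] at h5
  refine ⟨e, he, ?_, ?_⟩
  · rw [hr, Polynomial.map_zero, mul_zero, zero_mul, add_zero] at h1
    exact h1
  · rw [Rees_ev_hom n e he, h5, map_zero, zero_mul]

/-! ### elimination -/

/-- setting `X 3 = 0` -/
noncomputable def Rees_phi : E k →ₐ[A k] E k :=
  MvPolynomial.aeval (fun i : Fin 4 => if i = 3 then 0 else X i)

theorem Rees_phi_dvd (p : E k) : (X 3 : E k) ∣ p - Rees_phi p := by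
  induction p using MvPolynomial.induction_on with
  | C c =>
    have : Rees_phi (C c : E k) = C c := by
      unfold Rees_phi
      rw [MvPolynomial.aeval_C]
      rfl
    rw [this, sub_self]
    exact dvd_zero _
  | add p q hp hq =>
    rw [map_add]
    have : p + q - (Rees_phi p + Rees_phi q) = (p - Rees_phi p) + (q - Rees_phi q) := by ring
    rw [this]
    exact dvd_add hp hq
  | mul_X p i hp =>
    rw [map_mul]
    by_cases hi : i = 3
    · have : Rees_phi (X i : E k) = 0 := by
        unfold Rees_phi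
        rw [MvPolynomial.aeval_X, if_pos hi]
      rw [this, mul_zero, sub_zero, hi]
      exact dvd_mul_left _ _
    · have : Rees_phi (X i : E k) = X i := by
        unfold Rees_phi
        rw [MvPolynomial.aeval_X, if_neg hi]
      rw [this, ← sub_mul]
      exact dvd_mul_of_dvd_left hp _

theorem Rees_koszul (u0 u1 u2 : E k) (hu : u0 * X 1 + u1 * X 2 + u2 * X 3 = 0) :
    ∃ s0 s1 s2 : E k, u0 = X 2 * s2 - X 3 * s1 ∧ u1 = X 3 * s0 - X 1 * s2 ∧
      u2 = X 1 * s1 - X 2 * s0 := by
  have hX : ∀ i : Fin 4, (X i : E k) ≠ 0 := fun i => MvPolynomial.X_ne_zero i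
  have p1 : Rees_phi (X 1 : E k) = X 1 := by
    unfold Rees_phi
    rw [MvPolynomial.aeval_X, if_neg (by decide)]
  have p2 : Rees_phi (X 2 : E k) = X 2 := by
    unfold Rees_phi
    rw [MvPolynomial.aeval_X, if_neg (by decide)]
  have p3 : Rees_phi (X 3 : E k) = 0 := by
    unfold Rees_phi
    rw [MvPolynomial.aeval_X, if_pos rfl]
  have h1 := congrArg Rees_phi hu
  rw [map_add, map_add, map_mul, map_mul, map_mul, p1, p2, p3, map_zero, mul_zero, add_zero] at h1
  have h2 : (X 1 : E k) ∣ Rees_phi u1 * X 2 := by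
    refine ⟨-Rees_phi u0, ?_⟩
    linear_combination h1
  have h3 : (X 1 : E k) ∣ Rees_phi u1 := by
    rcases (MvPolynomial.X_prime (i := (1 : Fin 4))).dvd_or_dvd h2 with h3 | h3
    · exact h3
    · rw [MvPolynomial.X_dvd_X] at h3
      exact absurd h3 (by decide)
  obtain ⟨t, ht⟩ := h3
  have h4 : Rees_phi u0 = -(X 2 * t) := by
    rw [ht] at h1
    have h5 : (Rees_phi u0 + X 2 * t) * X 1 = 0 := by linear_combination h1
    rcases mul_eq_zero.1 h5 with h6 | h6
    · linear_combination h6
    · exact absurd h6 (hX 1)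
  obtain ⟨q0, hq0⟩ := Rees_phi_dvd u0
  obtain ⟨q1, hq1⟩ := Rees_phi_dvd u1
  have e0 : u0 = -(X 2 * t) + X 3 * q0 := by rw [← h4, ← hq0]; ring
  have e1 : u1 = X 1 * t + X 3 * q1 := by rw [← ht, ← hq1]; ring
  have e2 : u2 = -(q0 * X 1) - q1 * X 2 := by
    rw [e0, e1] at hu
    have h5 : (q0 * X 1 + q1 * X 2 + u2) * X 3 = 0 := by linear_combination hu
    rcases mul_eq_zero.1 h5 with h6 | h6
    · linear_combination h6
    · exact absurd h6 (hX 3)
  refine ⟨q1, -q0, -t, ?_, ?_, ?_⟩
  · rw [e0]; ring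
  · rw [e1]; ring
  · rw [e2]; ring

theorem Rees_w (M : Matrix (Fin 3) (Fin 3) (A k)) (h : Fin 3 → A k) :
    ww M h 0 = X 2 * nn M h 2 - X 3 * nn M h 1 ∧ ww M h 1 = X 3 * nn M h 0 - X 1 * nn M h 2 ∧
      ww M h 2 = X 1 * nn M h 1 - X 2 * nn M h 0 := by
  unfold ww
  rw [cross_apply]
  exact ⟨rfl, rfl, rfl⟩

theorem Rees_coeff (v : Polynomial (E k)) (i : Fin 3) (n : ℕ) :
    (v * gg M h i).coeff (n + 1) = v.coeff n * X i.succ - v.coeff (n + 1) * nn M h i := by
  unfold gg TT
  rw [Rees_mul_sub, ← mul_assoc, Polynomial.coeff_sub, Polynomial.coeff_mul_X, Polynomial.coeff_mul_C,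
    Polynomial.coeff_mul_C]

theorem Rees_coeff0 (v : Polynomial (E k)) (i : Fin 3) :
    (v * gg M h i).coeff 0 = -(v.coeff 0 * nn M h i) := by
  unfold gg TT
  rw [Rees_mul_sub, ← mul_assoc, Polynomial.coeff_sub, Polynomial.coeff_mul_X_zero,
    Polynomial.coeff_mul_C]
  ring

theorem Rees_elim (e : E k) (d : ℕ) : ∀ v : Fin 3 → Polynomial (E k),
    (∀ i, (v i).natDegree ≤ d) → ∑ i, v i * gg M h i = Polynomial.C e → e ∈ JJ M h := by
  induction d with
  | zero =>
    intro v hv hsum
    have c1 := congrArg (fun q : Polynomial (E k) => q.coeff (0 + 1)) hsum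
    have c0 := congrArg (fun q : Polynomial (E k) => q.coeff 0) hsum
    simp only [Fin.sum_univ_three, Polynomial.coeff_add, Rees_coeff, Rees_coeff0,
      Polynomial.coeff_C_zero] at c1 c0
    have z : ∀ i, (v i).coeff (0 + 1) = 0 := fun i =>
      Polynomial.coeff_eq_zero_of_natDegree_lt (by have := hv i; omega)
    rw [Polynomial.coeff_C_succ, z 0, z 1, z 2] at c1
    obtain ⟨s0, s1, s2, e0, e1, e2⟩ := Rees_koszul ((v 0).coeff 0) ((v 1).coeff 0) ((v 2).coeff 0)
      (by
        have f0 : (X (Fin.succ 0) : E k) = X 1 := rfl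
        have f1 : (X (Fin.succ 1) : E k) = X 2 := rfl
        have f2 : (X (Fin.succ 2) : E k) = X 3 := rfl
        rw [f0, f1, f2] at c1
        linear_combination c1)
    rw [e0, e1, e2] at c0
    unfold JJ
    rw [Ideal.mem_span_range_iff_exists_fun]
    refine ⟨![s0, s1, s2], ?_⟩
    obtain ⟨w0, w1, w2⟩ := Rees_w M h
    rw [Fin.sum_univ_three, w0, w1, w2]
    simp only [Matrix.cons_val_zero, Matrix.cons_val_one, Matrix.cons_val_two, Matrix.head_cons,
      Matrix.tail_cons]
    linear_combination c0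
  | succ d ih =>
    intro v hv hsum
    have c1 := congrArg (fun q : Polynomial (E k) => q.coeff (d + 1 + 1)) hsum
    simp only [Fin.sum_univ_three, Polynomial.coeff_add, Rees_coeff] at c1
    have z : ∀ i, (v i).coeff (d + 1 + 1) = 0 := fun i =>
      Polynomial.coeff_eq_zero_of_natDegree_lt (by have := hv i; omega)
    rw [Polynomial.coeff_C_succ, z 0, z 1, z 2] at c1
    obtain ⟨s0, s1, s2, e0, e1, e2⟩ := Rees_koszul ((v 0).coeff (d + 1)) ((v 1).coeff (d + 1))
      ((v 2).coeff (d + 1))
      (by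
        have f0 : (X (Fin.succ 0) : E k) = X 1 := rfl
        have f1 : (X (Fin.succ 1) : E k) = X 2 := rfl
        have f2 : (X (Fin.succ 2) : E k) = X 3 := rfl
        rw [f0, f1, f2] at c1
        linear_combination c1)
    -- the correction `X ^ d * (g × s)`
    set T0 : E k := X 1
    set T1 : E k := X 2
    set T2 : E k := X 3
    set n0 := nn M h 0
    set n1 := nn M h 1
    set n2 := nn M h 2
    have gd : ∀ (c b : E k) (N : ℕ), d < N →
        (Polynomial.X ^ d * (Polynomial.X * Polynomial.C c - Polynomial.C b)).coeff N =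
          if N = d + 1 then c else 0 := by
      intro c b N hN
      have h1 : Polynomial.X ^ d * (Polynomial.X * Polynomial.C c - Polynomial.C b) =
          Polynomial.C c * Polynomial.X ^ (d + 1) - Polynomial.C b * Polynomial.X ^ d := by ring
      rw [h1, Polynomial.coeff_sub, Polynomial.coeff_C_mul_X_pow, Polynomial.coeff_C_mul_X_pow,
        if_neg (show ¬ N = d by omega), sub_zero]
    refine ih ![v 0 - Polynomial.X ^ d * (Polynomial.X * Polynomial.C (T1 * s2 - T2 * s1) -
        Polynomial.C (n1 * s2 - n2 * s1)),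
      v 1 - Polynomial.X ^ d * (Polynomial.X * Polynomial.C (T2 * s0 - T0 * s2) -
        Polynomial.C (n2 * s0 - n0 * s2)),
      v 2 - Polynomial.X ^ d * (Polynomial.X * Polynomial.C (T0 * s1 - T1 * s0) -
        Polynomial.C (n0 * s1 - n1 * s0))] ?_ ?_
    · have key : ∀ (w : Polynomial (E k)) (c b : E k), w.natDegree ≤ d + 1 → w.coeff (d + 1) = c →
          (w - Polynomial.X ^ d * (Polynomial.X * Polynomial.C c - Polynomial.C b)).natDegree ≤ d := by
        intro w c b hw hc
        rw [Polynomial.natDegree_le_iff_coeff_eq_zero]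
        intro N hN
        rw [Polynomial.coeff_sub, gd c b N hN]
        by_cases hN1 : N = d + 1
        · rw [if_pos hN1, hN1, hc, sub_self]
        · rw [if_neg hN1, sub_zero]
          exact Polynomial.coeff_eq_zero_of_natDegree_lt (by omega)
      intro i
      fin_cases i
      · exact key _ _ _ (hv 0) e0
      · exact key _ _ _ (hv 1) e1
      · exact key _ _ _ (hv 2) e2
    · rw [← hsum, Fin.sum_univ_three, Fin.sum_univ_three]
      simp only [Matrix.cons_val_zero, Matrix.cons_val_one, Matrix.cons_val_two, Matrix.head_cons,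
        Matrix.tail_cons]
      have g0 : gg M h 0 = Polynomial.C T0 * Polynomial.X - Polynomial.C n0 := rfl
      have g1 : gg M h 1 = Polynomial.C T1 * Polynomial.X - Polynomial.C n1 := rfl
      have g2 : gg M h 2 = Polynomial.C T2 * Polynomial.X - Polynomial.C n2 := rfl
      rw [g0, g1, g2]
      simp only [Rees_P_sub, Rees_P_mul]
      ring

/-- elimination of `x` from the linear relations -/
theorem elim (e : E k) : Polynomial.C e ∈ LL M h ↔ e ∈ JJ M h := by
  constructor
  · intro he
    unfold LL at he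
    rw [Ideal.mem_span_range_iff_exists_fun] at he
    obtain ⟨v, hv⟩ := he
    exact Rees_elim e ((v 0).natDegree + (v 1).natDegree + (v 2).natDegree) v
      (by
        intro i
        fin_cases i
        · show (v 0).natDegree ≤ _
          omega
        · show (v 1).natDegree ≤ _
          omega
        · show (v 2).natDegree ≤ _
          omega) hv
  · intro he
    have h1 : JJ M h ≤ (LL M h).comap (Polynomial.C : E k →+* Polynomial (E k)) := by
      unfold JJ
      rw [Ideal.span_le]
      rintro _ ⟨i, rfl⟩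
      rw [SetLike.mem_coe, Ideal.mem_comap]
      unfold LL
      rw [Ideal.mem_span_range_iff_exists_fun]
      obtain ⟨w0, w1, w2⟩ := Rees_w M h
      have g0 : gg M h 0 = Polynomial.C (X 1) * Polynomial.X - Polynomial.C (nn M h 0) := rfl
      have g1 : gg M h 1 = Polynomial.C (X 2) * Polynomial.X - Polynomial.C (nn M h 1) := rfl
      have g2 : gg M h 2 = Polynomial.C (X 3) * Polynomial.X - Polynomial.C (nn M h 2) := rfl
      fin_cases i
      · refine ⟨(![0, Polynomial.C (X 3 : E k), -Polynomial.C (X 2 : E k)] : Fin 3 → Polynomial (E k)), ?_⟩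
        rw [Fin.sum_univ_three]
        show _ = Polynomial.C (ww M h 0)
        rw [w0, g0, g1, g2]
        simp only [Matrix.cons_val_zero, Matrix.cons_val_one, Matrix.cons_val_two, Matrix.head_cons,
          Matrix.tail_cons, Rees_P_sub, Rees_P_mul]
        ring
      · refine ⟨(![-Polynomial.C (X 3 : E k), 0, Polynomial.C (X 1 : E k)] : Fin 3 → Polynomial (E k)), ?_⟩
        rw [Fin.sum_univ_three]
        show _ = Polynomial.C (ww M h 1)
        rw [w1, g0, g1, g2]
        simp only [Matrix.cons_val_zero, Matrix.cons_val_one, Matrix.cons_val_two, Matrix.head_cons,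
          Matrix.tail_cons, Rees_P_sub, Rees_P_mul]
        ring
      · refine ⟨(![Polynomial.C (X 2 : E k), -Polynomial.C (X 1 : E k), 0] : Fin 3 → Polynomial (E k)), ?_⟩
        rw [Fin.sum_univ_three]
        show _ = Polynomial.C (ww M h 2)
        rw [w2, g0, g1, g2]
        simp only [Matrix.cons_val_zero, Matrix.cons_val_one, Matrix.cons_val_two, Matrix.head_cons,
          Matrix.tail_cons, Rees_P_sub, Rees_P_mul]
        ring
    exact h1 he

end Pool.Agent.H873.RT
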