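import Pool.Agent.H873.RT.Tors2

set_option autoImplicit false

namespace Pool.Agent.H873.RT

open MvPolynomial

variable {k : Type*} [Field k] {s : Finset (k × k)} {F : R k} {G : Fin 3 → R k} {a : Fin 3 → ℕ}
  {M : Matrix (Fin 3) (Fin 3) (A k)} {h : Fin 3 → A k}

/-- the rank condition for a homomorphism from `A` to a field and a value for `x` -/
theorem rcphi (hN : NF s F G a) (hM : MH F G a M h) {κ : Type*} [Field κ] (φ : A k →+* κ) (r : κ)
    (hφ : ¬ (φ (X 0) = 0 ∧ φ (X 1) = 0)) :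
    ¬ ∃ (u p : Fin 3 → κ) (p0 : κ),
      (∀ i j, (if i = j then r else 0) - φ (M i j) = u i * p j) ∧ ∀ i, φ (h i) = u i * p0 := by
  have h1 := rc hN hM (Polynomial.eval₂RingHom φ r) (by
    rintro ⟨_, h0, h1⟩
    apply hφ
    rw [Polynomial.coe_eval₂RingHom, Polynomial.eval₂_C] at h0 h1
    exact ⟨h0, h1⟩)
  simpa only [Polynomial.coe_eval₂RingHom, Polynomial.eval₂_C, Polynomial.eval₂_X] using h1

theorem e1 (hN : NF s F G a) (hM : MH F G a M h) {B : Type*} [CommRing B] (ψ : A k →+* B)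
    (t : B) (ht : Prime t) (hψ : ¬ (t ∣ ψ (X 0) ∧ t ∣ ψ (X 1))) :
    ¬ ∃ ρ : B, (∀ i j, t ∣ (ψ (M i j) - if i = j then ρ else 0)) ∧ ∀ i, t ∣ ψ (h i) := by
  rintro ⟨ρ, h1, h2⟩
  have hprime : (Ideal.span {t}).IsPrime := (Ideal.span_singleton_prime ht.ne_zero).2 ht
  have hdom : IsDomain (B ⧸ Ideal.span {t}) := Ideal.Quotient.isDomain _
  set κ := FractionRing (B ⧸ Ideal.span {t}) with hκ
  set φ : B →+* κ := (algebraMap (B ⧸ Ideal.span {t}) κ).comp (Ideal.Quotient.mk (Ideal.span {t})) with hφ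
  have hz : ∀ x : B, φ x = 0 ↔ t ∣ x := by
    intro x
    rw [hφ, RingHom.comp_apply, IsFractionRing.to_map_eq_zero_iff, Ideal.Quotient.eq_zero_iff_mem,
      Ideal.mem_span_singleton]
  refine rcphi hN hM (φ.comp ψ) (φ ρ) ?_ ⟨0, 0, 0, ?_, ?_⟩
  · show ¬ (φ (ψ (X 0)) = 0 ∧ φ (ψ (X 1)) = 0)
    rw [hz, hz]
    exact hψ
  · intro i j
    have h3 := (hz _).2 (h1 i j)
    have h4 : φ (if i = j then ρ else 0) = if i = j then φ ρ else 0 := by
      split_ifs
      · rfl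
      · exact map_zero _
    rw [map_sub, h4] at h3
    rw [RingHom.comp_apply, Pi.zero_apply, Pi.zero_apply, mul_zero]
    linear_combination -h3
  · intro i
    rw [RingHom.comp_apply, (hz _).2 (h2 i), mul_zero]

theorem e2 (hN : NF s F G a) (hM : MH F G a M h) {B : Type*} [CommRing B] [IsDomain B] (ψ : A k →+* B)
    (hψ : ¬ (ψ (X 0) = 0 ∧ ψ (X 1) = 0)) :
    ¬ ∃ (ρ : B) (b p : Fin 3 → B) (p0 : B),
      (∀ i j, ψ (M i j) = (if i = j then ρ else 0) + b i * p j) ∧ ∀ i, ψ (h i) = b i * p0 := by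
  rintro ⟨ρ, b, p, p0, h1, h2⟩
  set κ := FractionRing B with hκ
  set φ : B →+* κ := algebraMap B κ with hφ
  have hz : ∀ x : B, φ x = 0 ↔ x = 0 := by
    intro x
    rw [hφ, IsFractionRing.to_map_eq_zero_iff]
  refine rcphi hN hM (φ.comp ψ) (φ ρ) ?_ ⟨fun i => φ (b i), fun i => - φ (p i), φ p0, ?_, ?_⟩
  · show ¬ (φ (ψ (X 0)) = 0 ∧ φ (ψ (X 1)) = 0)
    rw [hz, hz]
    exact hψ
  · intro i j
    have h4 : φ (if i = j then ρ else 0) = if i = j then φ ρ else 0 := by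
      split_ifs
      · rfl
      · exact map_zero _
    rw [RingHom.comp_apply, h1, map_add, map_mul, h4]
    ring
  · intro i
    rw [RingHom.comp_apply, h2, map_mul]

theorem prime_not_dvd (t : A k) (ht : Prime t) : ¬ (t ∣ X 0 ∧ t ∣ X 1) := by
  rintro ⟨h0, h1⟩
  have ha : Associated t (X 0) := (ht.dvd_prime_iff_associated (X_prime (i := (0 : Fin 2)))).1 h0
  obtain ⟨g, hg⟩ := ha.symm.dvd.trans h1
  have := congrArg (MvPolynomial.eval ![0, 1]) hg
  simp at this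

/-- Hilbert–Burch over `A` -/
theorem hbA (hN : NF s F G a) (hM : MH F G a M h) (v : Fin 3 → E k) (hv : dotProduct v (ww M h) = 0) :
    ∃ α β : E k, ∀ i, v i = α * TT (A k) i + β * nn M h i := by
  obtain ⟨N, α, β, h1⟩ := hb M h 1 one_ne_zero
    (fun t ht _ => e1 hN hM (RingHom.id _) t ht (prime_not_dvd t ht))
    (e2 hN hM (RingHom.id _) (fun h0 => X_ne_zero (0 : Fin 2) h0.1)) v hv
  refine ⟨α, β, fun i => ?_⟩
  have := h1 i
  rwa [one_pow, C_1, one_mul] at this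

theorem lemmaZ (hN : NF s F G a) (hM : MH F G a M h) (q : k) (e : E k) (he : C (ell q) * e ∈ JJ M h) :
    ∃ N : ℕ, C (X 1 ^ N) * e ∈ JJ M h := by
  refine lemmaZ_abs q (fun v hv => ?_) e he
  have h1 : rho q (X 1) = Polynomial.X := by simp [rho]
  exact hb (M.map (rho q)) (fun i => rho q (h i)) Polynomial.X Polynomial.X_ne_zero
    (fun t ht htX => e1 hN hM (rho q) t ht (fun h0 => htX (h1 ▸ h0.2)))
    (e2 hN hM (rho q) (fun h0 => Polynomial.X_ne_zero (h1 ▸ h0.2))) v hv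

theorem good_prod (hN : NF s F G a) (hM : MH F G a M h) (n : ℕ) (e : E k)
    (he : C ((∏ P ∈ s, ell P.2) ^ n) * e ∈ JJ M h) : ∃ N : ℕ, C (X 1 ^ N) * e ∈ JJ M h := by
  -- the good elements form a submonoid
  let good : A k → Prop := fun c => ∀ e : E k, C c * e ∈ JJ M h → ∃ N : ℕ, C (X 1 ^ N) * e ∈ JJ M h
  have gone : good 1 := by
    intro e he
    exact ⟨0, by simpa using he⟩
  have gmul : ∀ c d, good c → good d → good (c * d) := by
    intro c d hc hd e he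
    have h1 : C c * (C d * e) ∈ JJ M h := by
      rw [← mul_assoc, ← map_mul]
      exact he
    obtain ⟨N, hN1⟩ := hc _ h1
    have h2 : C d * (C (X 1 ^ N) * e) ∈ JJ M h := by
      have : C d * (C (X 1 ^ N) * e) = C (X 1 ^ N) * (C d * e) := by ring
      rw [this]
      exact hN1
    obtain ⟨N', hN2⟩ := hd _ h2
    refine ⟨N' + N, ?_⟩
    rw [pow_add, map_mul, mul_assoc]
    exact hN2
  have gp : good (∏ P ∈ s, ell P.2) :=
    Finset.prod_induction _ good gmul gone fun P _ => fun e he => lemmaZ hN hM P.2 e he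
  have gpow : ∀ n : ℕ, good ((∏ P ∈ s, ell P.2) ^ n) := by
    intro n
    induction n with
    | zero => rw [pow_zero]; exact gone
    | succ n ih => rw [pow_succ]; exact gmul _ _ ih gp
  exact gpow n e he

theorem ell_congr (s : Finset (k × k)) : ∃ g : A k, X 0 ^ s.card = ∏ P ∈ s, ell P.2 + X 1 * g := by
  classical
  induction s using Finset.induction_on with
  | empty => exact ⟨0, by simp⟩
  | insert P s hP ih =>
    obtain ⟨g, hg⟩ := ih
    refine ⟨X 0 * g + C P.2 * ∏ P ∈ s, ell P.2, ?_⟩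
    rw [Finset.card_insert_of_notMem hP, Finset.prod_insert hP, pow_succ, hg]
    unfold ell
    ring

theorem pow_congr (s : Finset (k × k)) (n : ℕ) :
    ∃ g : A k, X 0 ^ (s.card * n) = (∏ P ∈ s, ell P.2) ^ n + X 1 * g := by
  obtain ⟨g, hg⟩ := ell_congr s
  have h1 : X 1 ∣ (X 0 ^ s.card) ^ n - (∏ P ∈ s, ell P.2) ^ n :=
    dvd_trans ⟨g, by rw [hg]; ring⟩ (sub_dvd_pow_sub_pow (X 0 ^ s.card) (∏ P ∈ s, ell P.2) n)
  obtain ⟨g', hg'⟩ := h1
  exact ⟨g', by rw [pow_mul, ← hg']; ring⟩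

theorem tors (hN : NF s F G a) (hM : MH F G a M h) (n : ℕ) (e : E k) (he : e.IsHomogeneous n)
    (h0 : evE F G e = 0) : ∃ N : ℕ, C (X 1 ^ N) * e ∈ JJ M h ∧ C (X 0 ^ N) * e ∈ JJ M h := by
  have h1 := pow_mem hN hM (∏ P ∈ s, ell P.2) (prod_mem s) n e he h0
  obtain ⟨N, h2⟩ := good_prod hN hM n e h1
  obtain ⟨g, hg⟩ := pow_congr s n
  have h3 : C ((X 0 ^ (s.card * n)) ^ N) * e ∈ JJ M h := by
    obtain ⟨w, hw⟩ := sub_dvd_pow_sub_pow (X 0 ^ (s.card * n) : A k) (X 1 * g) N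
    have h4 : (X 0 ^ (s.card * n) : A k) ^ N = g ^ N * X 1 ^ N + w * (∏ P ∈ s, ell P.2) ^ n := by
      have h5 : (X 0 ^ (s.card * n) : A k) - X 1 * g = (∏ P ∈ s, ell P.2) ^ n := by rw [hg]; ring
      rw [h5] at hw
      linear_combination hw
    rw [h4, map_add, map_mul, map_mul, add_mul, mul_assoc, mul_assoc]
    exact Ideal.add_mem _ (Ideal.mul_mem_left _ _ h2) (Ideal.mul_mem_left _ _ h1)
  refine ⟨s.card * n * N + N, ?_, ?_⟩
  · rw [pow_add, map_mul, mul_assoc]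
    exact Ideal.mul_mem_left _ _ h2
  · rw [add_comm, pow_add, map_mul, mul_assoc]
    rw [← pow_mul] at h3
    exact Ideal.mul_mem_left _ _ h3

end Pool.Agent.H873.RT
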