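import Pool.Agent.H873.RT.Core0
import Pool.Agent.H873.RT.Tors3
import Pool.Agent.H873.RT.Rees

set_option autoImplicit false

namespace Pool.Agent.H873.RT

open MvPolynomial

section span

variable {k : Type*} [Field k]

/-- the ideal `(y, z) E` -/
theorem mem_yz (e : E k) : e ∈ (Ideal.span {C (X 0), C (X 1)} : Ideal (E k)) ↔
    MvPolynomial.map (constantCoeff : A k →+* k) e = 0 := by
  have h1 : (Ideal.span {X 0, X 1} : Ideal (A k)) = RingHom.ker (constantCoeff : A k →+* k) := by
    have h2 : ({X 0, X 1} : Set (A k)) = X '' (Set.univ : Set (Fin 2)) := by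
      ext p
      simp only [Set.mem_insert_iff, Set.mem_singleton_iff, Set.image_univ, Set.mem_range, Fin.exists_fin_two]
      constructor
      · rintro (h | h)
        · exact Or.inl h.symm
        · exact Or.inr h.symm
      · rintro (h | h)
        · exact Or.inl h.symm
        · exact Or.inr h.symm
    rw [h2]
    ext p
    rw [mem_ideal_span_X_image, RingHom.mem_ker]
    constructor
    · intro h
      change coeff 0 p = 0
      by_contra hne
      obtain ⟨i, _, hi⟩ := h 0 (mem_support_iff.2 hne)
      exact hi rfl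
    · intro h m hm
      by_contra hne
      push Not at hne
      have hm0 : m = 0 := by
        ext i
        exact hne i (Set.mem_univ i)
      rw [hm0, mem_support_iff] at hm
      exact hm h
  have h3 : (Ideal.span {C (X 0), C (X 1)} : Ideal (E k)) =
      Ideal.map C (Ideal.span {X 0, X 1} : Ideal (A k)) := by
    rw [Ideal.map_span, Set.image_pair]
  rw [h3, h1, ← MvPolynomial.ker_map, RingHom.mem_ker]

theorem yz_prime : (Ideal.span {C (X 0), C (X 1)} : Ideal (E k)).IsPrime := by
  have h : (Ideal.span {C (X 0), C (X 1)} : Ideal (E k)) =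
      RingHom.ker (MvPolynomial.map (σ := Fin 4) (constantCoeff : A k →+* k)) := by
    ext e
    rw [mem_yz, RingHom.mem_ker]
  rw [h]
  exact RingHom.ker_isPrime _

end span

variable {k : Type*} [Field k] {s : Finset (k × k)} {F : R k} {G : Fin 3 → R k} {a : Fin 3 → ℕ}
  {M : Matrix (Fin 3) (Fin 3) (A k)} {h : Fin 3 → A k}

theorem not_all_w (hM : MH F G a M h)
    (h0 : ¬ ((∀ i j, (M i j).coeff 0 = 0) ∧ ∀ i, (h i).coeff 0 = 0)) :
    ¬ ∀ i, (ww M h) i ∈ (Ideal.span {C (X 0), C (X 1)} : Ideal (E k)) := by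
  intro hall
  apply h0
  have h1 : ∀ i, ww (M.map constantCoeff) (fun i => constantCoeff (h i)) i = 0 := by
    intro i
    have h2 := (mem_yz _).1 (hall i)
    rw [← h2]
    have h3 : ∀ j, MvPolynomial.map (constantCoeff : A k →+* k) (nn M h j) =
        nn (M.map constantCoeff) (fun i => constantCoeff (h i)) j := by
      intro j
      unfold nn
      simp only [map_add, map_mul, map_sum, map_C, map_X, Matrix.map_apply]
    fin_cases i
    · change ww (M.map constantCoeff) (fun i => constantCoeff (h i)) 0 =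
        MvPolynomial.map (constantCoeff : A k →+* k) (ww M h 0)
      rw [HBaux.w0, HBaux.w0, map_sub, map_mul, map_mul, map_X, map_X, h3, h3]
    · change ww (M.map constantCoeff) (fun i => constantCoeff (h i)) 1 =
        MvPolynomial.map (constantCoeff : A k →+* k) (ww M h 1)
      rw [HBaux.w1, HBaux.w1, map_sub, map_mul, map_mul, map_X, map_X, h3, h3]
    · change ww (M.map constantCoeff) (fun i => constantCoeff (h i)) 2 =
        MvPolynomial.map (constantCoeff : A k →+* k) (ww M h 2)
      rw [HBaux.w2, HBaux.w2, map_sub, map_mul, map_mul, map_X, map_X, h3, h3]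
  obtain ⟨h4, h5⟩ := HBaux.common_C (M.map constantCoeff) (fun i => constantCoeff (h i)) (0 : k)
    (fun j => by rw [h1 j]; exact dvd_zero _)
  have h6 : constantCoeff (M 0 0) = (0 : k) := by
    by_contra hne
    have := hM.homM 0 0 0 hne
    simp at this
  refine ⟨fun i j => ?_, fun i => ?_⟩
  · have h7 := zero_dvd_iff.1 (h4 i j)
    rw [Matrix.map_apply, Matrix.map_apply, h6] at h7
    have h8 : constantCoeff (M i j) = 0 := by simpa using h7
    exact h8
  · exact zero_dvd_iff.1 (h5 i)

theorem C_X_not_dvd : ¬ (C (X 0) : E k) ∣ C (X 1) := by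
  intro h
  have h1 : (X 0 : A k) ∣ X 1 := by
    have := map_dvd (MvPolynomial.eval (0 : Fin 4 → A k)) h
    rwa [eval_C, eval_C] at this
  rw [MvPolynomial.X_dvd_X] at h1
  rcases h1 with h1 | h1

/-- first case: some constant coefficient is nonzero -/
theorem core1 (hN : NF s F G a) (hM : MH F G a M h)
    (h0 : ¬ ((∀ i j, (M i j).coeff 0 = 0) ∧ ∀ i, (h i).coeff 0 = 0)) (n : ℕ) (e : E k)
    (he : e.IsHomogeneous n) (hev : evE F G e = 0) : e ∈ JJ M h := by
  have hpr : Prime (C (X 0) : E k) := (prime_C_iff _).2 X_prime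
  have hs : ∀ e : E k, C (X 0) * e ∈ JJ M h → C (X 1) * e ∈ JJ M h → e ∈ JJ M h := by
    intro e h1 h2
    exact sat1 (TT (A k)) (nn M h) (C (X 0)) (C (X 1)) hpr.ne_zero (hbA hN hM)
      (cop _ _ hpr C_X_not_dvd) yz_prime (not_all_w hM h0) e h1 h2
  obtain ⟨N, hz, hy⟩ := tors hN hM n e he hev
  rw [map_pow] at hz hy
  exact descend (JJ M h) _ _ hs (2 * N) e (pow_torsion (JJ M h) _ _ e N hy hz)

end Pool.Agent.H873.RT
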