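import Pool.Agent.H873.RT.Core1
import Pool.Agent.H873.RT.Case2

set_option autoImplicit false

namespace Pool.Agent.H873.RT

open MvPolynomial

variable {k : Type*} [Field k] {s : Finset (k × k)} {F : R k} {G : Fin 3 → R k} {a : Fin 3 → ℕ}
  {M : Matrix (Fin 3) (Fin 3) (A k)} {h : Fin 3 → A k}

theorem evE_JJ (hM : MH F G a M h) {e : E k} (he : e ∈ JJ M h) : evE F G e = 0 := by
  have h1 := LL_le hM ((elim e).2 he)
  rw [RingHom.mem_ker, Rees_Phi_C] at h1
  exact h1

theorem linear_eval {b c b' c' : k} (hd : b * c' - b' * c ≠ 0) (u v : A k)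
    (hu : u = C b * X 0 + C c * X 1) (hv : v = C b' * X 0 + C c' * X 1) :
    X 0 = C ((b * c' - b' * c)⁻¹ * c') * u + C (-(b * c' - b' * c)⁻¹ * c) * v ∧
    X 1 = C (-(b * c' - b' * c)⁻¹ * b') * u + C ((b * c' - b' * c)⁻¹ * b) * v := by
  have h1 : (C ((b * c' - b' * c)⁻¹) : A k) * (C b * C c' - C b' * C c) = 1 := by
    rw [← C_mul, ← C_mul, ← C_sub, ← C_mul, inv_mul_cancel₀ hd, C_1]
  subst hu hv
  constructor
  · simp only [C_mul, C_neg]
    linear_combination (-X 0) * h1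
  · simp only [C_mul, C_neg]
    linear_combination (-X 1) * h1

theorem span_uv {b c b' c' : k} (hd : b * c' - b' * c ≠ 0) (u v : A k)
    (hu : u = C b * X 0 + C c * X 1) (hv : v = C b' * X 0 + C c' * X 1) :
    (Ideal.span {C u, C v} : Ideal (E k)) = Ideal.span {C (X 0), C (X 1)} := by
  obtain ⟨h0, h1⟩ := linear_eval hd u v hu hv
  apply le_antisymm
  · rw [Ideal.span_le]
    rintro _ (rfl | rfl)
    · rw [SetLike.mem_coe, Ideal.mem_span_pair]
      refine ⟨C (C b), C (C c), ?_⟩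
      rw [hu]
      simp only [map_add, map_mul]
    · rw [SetLike.mem_coe, Ideal.mem_span_pair]
      refine ⟨C (C b'), C (C c'), ?_⟩
      rw [hv]
      simp only [map_add, map_mul]
  · rw [Ideal.span_le]
    rintro _ (rfl | rfl)
    · rw [SetLike.mem_coe, Ideal.mem_span_pair]
      refine ⟨C (C ((b * c' - b' * c)⁻¹ * c')), C (C (-(b * c' - b' * c)⁻¹ * c)), ?_⟩
      rw [← map_mul, ← map_mul, ← map_add, ← h0]
    · rw [SetLike.mem_coe, Ideal.mem_span_pair]
      refine ⟨C (C (-(b * c' - b' * c)⁻¹ * b')), C (C ((b * c' - b' * c)⁻¹ * b)), ?_⟩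
      rw [← map_mul, ← map_mul, ← map_add, ← h1]

/-- a nonzero linear form is prime -/
theorem prime_u {b c b' c' : k} (hd : b * c' - b' * c ≠ 0) (u v : A k)
    (hu : u = C b * X 0 + C c * X 1) (hv : v = C b' * X 0 + C c' * X 1) : Prime u ∧ ¬ u ∣ v := by
  -- the linear change of variables `X 0 ↦ u`, `X 1 ↦ v`
  obtain ⟨h0, h1⟩ := linear_eval hd u v hu hv
  set d : k := (b * c' - b' * c)⁻¹ with hdd
  have hdd' : d * (b * c' - b' * c) = 1 := inv_mul_cancel₀ hd
  let φ : A k →ₐ[k] A k := aeval ![u, v]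
  let ψ : A k →ₐ[k] A k := aeval ![C (d * c') * X 0 + C (-d * c) * X 1, C (-d * b') * X 0 + C (d * b) * X 1]
  have f0 : φ (X 0) = u := by simp [φ]
  have f1 : φ (X 1) = v := by simp [φ]
  have g0 : ψ (X 0) = C (d * c') * X 0 + C (-d * c) * X 1 := by simp [ψ]
  have g1 : ψ (X 1) = C (-d * b') * X 0 + C (d * b) * X 1 := by simp [ψ]
  have hφl : ∀ p q : k, φ (C p * X 0 + C q * X 1) = C p * u + C q * v := by
    intro p q
    rw [map_add, map_mul φ (C p), map_mul φ (C q), f0, f1, MvPolynomial.algHom_C, MvPolynomial.algHom_C, algebraMap_eq]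
  have hψl : ∀ p q : k, ψ (C p * X 0 + C q * X 1) = C p * (C (d * c') * X 0 + C (-d * c) * X 1) +
      C q * (C (-d * b') * X 0 + C (d * b) * X 1) := by
    intro p q
    rw [map_add, map_mul ψ (C p), map_mul ψ (C q), g0, g1, MvPolynomial.algHom_C, MvPolynomial.algHom_C, algebraMap_eq]
  have hφψ : φ.comp ψ = AlgHom.id k _ := by
    apply MvPolynomial.algHom_ext
    intro i
    fin_cases i
    · change φ (ψ (X 0)) = X 0
      rw [g0, hφl]
      exact h0.symm
    · change φ (ψ (X 1)) = X 1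
      rw [g1, hφl]
      exact h1.symm
  have hψφ : ψ.comp φ = AlgHom.id k _ := by
    have hC : (C d : A k) * (C b * C c' - C b' * C c) = 1 := by
      rw [← C_mul, ← C_mul, ← C_sub, ← C_mul, hdd', C_1]
    apply MvPolynomial.algHom_ext
    intro i
    fin_cases i
    · change ψ (φ (X 0)) = X 0
      rw [f0, hu, hψl]
      simp only [C_mul, C_neg]
      linear_combination (X 0) * hC
    · change ψ (φ (X 1)) = X 1
      rw [f1, hv, hψl]
      simp only [C_mul, C_neg]
      linear_combination (X 1) * hC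
  let eqv : A k ≃ₐ[k] A k := AlgEquiv.ofAlgHom φ ψ hφψ hψφ
  have e0 : eqv (X 0) = u := by
    change φ (X 0) = u
    simp [φ]
  have e1 : eqv (X 1) = v := by
    change φ (X 1) = v
    simp [φ]
  constructor
  · rw [← e0]
    exact (MulEquiv.prime_iff eqv).2 X_prime
  · rw [← e0, ← e1]
    intro hdvd
    have := (map_dvd_iff eqv).1 hdvd
    rw [MvPolynomial.X_dvd_X] at this
    rcases this with this | this

/-- second case: all the constant coefficients vanish -/
theorem core2 [Infinite k] (hN : NF s F G a) (hM : MH F G a M h) (hM0 : ∀ i j, (M i j).coeff 0 = 0)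
    (hh0 : ∀ i, (h i).coeff 0 = 0) :
    ∃ Δ : E k, Δ.IsHomogeneous 3 ∧ Δ ∉ (Ideal.span {C (X 0), C (X 1)} : Ideal (E k)) ∧ evE F G Δ = 0 ∧
      ∀ (n : ℕ) (e : E k), e.IsHomogeneous n → evE F G e = 0 → e ∈ JJ M h ⊔ Ideal.span {Δ} := by
  obtain ⟨u, v, l0, N, n1, n2, hNpos, ⟨b, c, b', c', hu, hv, hd⟩, hn, hn1, hn2, hΔ⟩ := case2 hN hM hM0 hh0
  obtain ⟨hup, huv⟩ := prime_u hd u v hu hv
  have hspan := span_uv hd u v hu hv
  have hn' : ∀ i, nn M h i = C l0 * TT (A k) i + C u * n1 i + (C v) ^ N * n2 i := by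
    intro i
    rw [hn i, map_pow]
  set Δ : E k := dotProduct (TT (A k)) (crossProduct n1 n2) with hΔdef
  have hT1 : ∀ i, (TT (A k) i).IsHomogeneous 1 := fun i => isHomogeneous_X _ _
  have hc : ∀ i, (crossProduct n1 n2 i).IsHomogeneous 2 := by
    intro i
    have hm : ∀ i j, (n1 i * n2 j).IsHomogeneous 2 := fun i j => (hn1 i).mul (hn2 j)
    rw [cross_apply]
    fin_cases i
    · exact (hm 1 2).sub (hm 2 1)
    · exact (hm 2 0).sub (hm 0 2)
    · exact (hm 0 1).sub (hm 1 0)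
  have hΔh : Δ.IsHomogeneous 3 := by
    rw [hΔdef, dotProduct]
    exact IsHomogeneous.sum _ _ _ fun i _ => (hT1 i).mul (hc i)
  -- `u Δ = n₂ · w`
  have huΔ : C u * Δ ∈ JJ M h := by
    have h1 : C u * Δ = dotProduct n2 (ww M h) := by
      rw [hΔdef, dot3, dot3, HBaux.w0, HBaux.w1, HBaux.w2, hn' 0, hn' 1, hn' 2, cross_apply]
      have t0 : TT (A k) 0 = X 1 := rfl
      have t1 : TT (A k) 1 = X 2 := rfl
      have t2 : TT (A k) 2 = X 3 := rfl
      simp only [t0, t1, t2, Matrix.cons_val_zero, Matrix.cons_val_one, Matrix.cons_val]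
      ring
    rw [h1]
    exact (mem_span_dot _ _).2 ⟨n2, rfl⟩
  have huC : Prime (C u : E k) := (prime_C_iff _).2 hup
  have hCne : (C u : E k) ≠ 0 := huC.ne_zero
  have hCuv : ¬ (C u : E k) ∣ C v := by
    intro hdvd
    apply huv
    have := map_dvd (MvPolynomial.eval (0 : Fin 4 → A k)) hdvd
    rwa [eval_C, eval_C] at this
  have hCuvN : ¬ (C u : E k) ∣ (C v) ^ N := fun hdvd => hCuv (huC.dvd_of_dvd_pow hdvd)
  have hevΔ : evE F G Δ = 0 := by
    have h1 := evE_JJ hM huΔ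
    rw [map_mul, Rees_evE_C] at h1
    rcases mul_eq_zero.1 h1 with h2 | h2
    · exfalso
      apply hup.ne_zero
      have h3 : (Polynomial.C (Polynomial.C u) : Polynomial (R k)) = 0 := h2
      rwa [Polynomial.C_eq_zero, Polynomial.C_eq_zero] at h3
    · exact h2
  refine ⟨Δ, hΔh, hΔ, hevΔ, ?_⟩
  intro n e he hev
  have hpr : (Ideal.span {C u, C v} : Ideal (E k)).IsPrime := by
    rw [hspan]
    exact yz_prime
  have hT : ∀ b : E k, (∀ i, b * TT (A k) i ∈ (Ideal.span {C u, (C v) ^ N} : Ideal (E k))) →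
      b ∈ (Ideal.span {C u, (C v) ^ N} : Ideal (E k)) := by
    intro b hb
    refine nzd (C u) (C v) huC hCuv hpr (TT (A k) 0) ?_ N b (hb 0)
    rw [hspan, mem_yz]
    change ¬ MvPolynomial.map (constantCoeff : A k →+* k) (X 1) = 0
    rw [map_X]
    exact X_ne_zero _
  have hD : ∀ b : E k, b * Δ ∈ (Ideal.span {C u, (C v) ^ N} : Ideal (E k)) →
      b ∈ (Ideal.span {C u, (C v) ^ N} : Ideal (E k)) := by
    intro b hb
    refine nzd (C u) (C v) huC hCuv hpr Δ ?_ N b hb
    rw [hspan]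
    exact hΔ
  have hs : ∀ e : E k, C u * e ∈ JJ M h ⊔ Ideal.span {Δ} → (C v) ^ N * e ∈ JJ M h ⊔ Ideal.span {Δ} →
      e ∈ JJ M h ⊔ Ideal.span {Δ} := by
    intro e h1 h2
    exact sat2 (TT (A k)) (nn M h) n1 n2 (C u) ((C v) ^ N) (C l0) hCne hn' (hbA hN hM)
      (cop _ _ huC hCuvN) hT hD e h1 h2
  obtain ⟨N', hz, hy⟩ := tors hN hM n e he hev
  rw [map_pow] at hz hy
  refine descend (JJ M h ⊔ Ideal.span {Δ}) _ _ hs (2 * N') e ?_
  intro x hx
  have hle : (Ideal.span {C u, (C v) ^ N} : Ideal (E k)) ≤ Ideal.span {C (X 0), C (X 1)} := by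
    rw [← hspan, Ideal.span_le]
    rintro _ (rfl | rfl)
    · exact Ideal.subset_span (by simp)
    · have hv1 : (C v : E k) ∈ (Ideal.span {C u, C v} : Ideal (E k)) := Ideal.subset_span (by simp)
      exact Ideal.pow_mem_of_mem _ hv1 N hNpos
  have hx' := Ideal.pow_right_mono hle (2 * N') hx
  exact Ideal.mem_sup_left (pow_torsion (JJ M h) _ _ e N' hy hz x hx')

end Pool.Agent.H873.RT
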