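import Mathlib

/-! Definitions for MP_2f9c58_ag: relation types of point sets on a cubic. -/

set_option autoImplicit false

namespace Pool.Agent.H873.RT

open MvPolynomial

section gen

variable {B : Type*} [CommRing B]

/-- the vector `(T₁, T₂, T₃)` of variables of `B[T₀, T₁, T₂, T₃]` -/
noncomputable def TT (B : Type*) [CommRing B] : Fin 3 → MvPolynomial (Fin 4) B := fun i => X i.succ

/-- the vector `n = M T + h T₀` -/
noncomputable def nn (M : Matrix (Fin 3) (Fin 3) B) (h : Fin 3 → B) : Fin 3 → MvPolynomial (Fin 4) B :=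
  fun i => (∑ j, C (M i j) * X j.succ) + C (h i) * X 0

/-- the cross product `w = T × n` -/
noncomputable def ww (M : Matrix (Fin 3) (Fin 3) B) (h : Fin 3 → B) : Fin 3 → MvPolynomial (Fin 4) B :=
  crossProduct (TT B) (nn M h)

/-- the ideal generated by the entries of `w` -/
noncomputable def JJ (M : Matrix (Fin 3) (Fin 3) B) (h : Fin 3 → B) : Ideal (MvPolynomial (Fin 4) B) :=
  Ideal.span (Set.range (ww M h))

end gen

/-- `A = k[y, z]`, `y = X 0`, `z = X 1` -/
abbrev A (k : Type*) [Field k] := MvPolynomial (Fin 2) k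

/-- `R = A[x] = k[x, y, z]` -/
abbrev R (k : Type*) [Field k] := Polynomial (A k)

/-- `E = A[T₀, T₁, T₂, T₃]` -/
abbrev E (k : Type*) [Field k] := MvPolynomial (Fin 4) (A k)

section field

variable {k : Type*} [Field k]

/-- homogeneous of degree `d` in the three variables `x, y, z` -/
def HomR (d : ℕ) (f : R k) : Prop :=
  ∀ (j : ℕ) (m : Fin 2 →₀ ℕ), (f.coeff j).coeff m ≠ 0 → m.degree + j = d

/-- evaluation on the line of the point `(p : q : 1)`: `x ↦ p z`, `y ↦ q z`, `z ↦ z` -/
noncomputable def evP (P : k × k) : R k →+* Polynomial k :=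
  Polynomial.eval₂RingHom
    (MvPolynomial.eval₂Hom Polynomial.C ![Polynomial.C P.2 * Polynomial.X, Polynomial.X])
    (Polynomial.C P.1 * Polynomial.X)

/-- the ideal of the set of the points `(p : q : 1)`, `(p, q) ∈ s` -/
noncomputable def IX (s : Finset (k × k)) : Ideal (R k) := ⨅ P ∈ s, RingHom.ker (evP P)

/-- normal form of the ideal of a set of points on the cubic `F` -/
structure NF (s : Finset (k × k)) (F : R k) (G : Fin 3 → R k) (a : Fin 3 → ℕ) : Prop where
  monic : F.Monic
  deg : F.natDegree = 3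
  hom : HomR 3 F
  memF : F ∈ IX s
  degG : ∀ i, (G i).natDegree ≤ 2
  homG : ∀ i, HomR (a i) (G i)
  memG : ∀ i, G i ∈ IX s
  span : ∀ f ∈ IX s, ∃ (c : R k) (α : Fin 3 → A k), f = c * F + ∑ i, Polynomial.C (α i) * G i
  det : (Matrix.of fun i j : Fin 3 => (G i).coeff j).det ≠ 0

/-- multiplication by `x` in the normal form -/
structure MH (F : R k) (G : Fin 3 → R k) (a : Fin 3 → ℕ) (M : Matrix (Fin 3) (Fin 3) (A k))
    (h : Fin 3 → A k) : Prop where
  rel : ∀ i, Polynomial.X * G i = (∑ j, Polynomial.C (M i j) * G j) + Polynomial.C (h i) * F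
  homM : ∀ i j m, (M i j).coeff m ≠ 0 → m.degree + a j = a i + 1
  homh : ∀ i m, (h i).coeff m ≠ 0 → m.degree + 3 = a i + 1

/-- the generators `F, G₁, G₂, G₃` -/
noncomputable def fam (F : R k) (G : Fin 3 → R k) : Fin 4 → R k := Fin.cons F G

/-- `E → R[t]`, `T_j ↦ f_j t` -/
noncomputable def evE (F : R k) (G : Fin 3 → R k) : E k →+* Polynomial (R k) :=
  MvPolynomial.eval₂Hom (Polynomial.C.comp Polynomial.C)
    (fun j => Polynomial.C (fam F G j) * Polynomial.X)

/-- `E[x] = R[T₀, …, T₃] → R[t]`, `T_j ↦ f_j t` -/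
noncomputable def Phi (F : R k) (G : Fin 3 → R k) : Polynomial (E k) →+* Polynomial (R k) :=
  Polynomial.eval₂RingHom (evE F G) (Polynomial.C (Polynomial.X : R k))

/-- the linear relations `T_i x - n_i` -/
noncomputable def gg (M : Matrix (Fin 3) (Fin 3) (A k)) (h : Fin 3 → A k) : Fin 3 → Polynomial (E k) :=
  fun i => Polynomial.C (TT (A k) i) * Polynomial.X - Polynomial.C (nn M h i)

/-- the ideal generated by the linear relations -/
noncomputable def LL (M : Matrix (Fin 3) (Fin 3) (A k)) (h : Fin 3 → A k) : Ideal (Polynomial (E k)) :=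
  Ideal.span (Set.range (gg M h))

/-- homogeneous of degree `n` in the `T`'s -/
def HomS (n : ℕ) (p : Polynomial (E k)) : Prop := ∀ j, (p.coeff j).IsHomogeneous n

end field

end Pool.Agent.H873.RT
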