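import Pool.Agent.H873.RT.RelDefs

set_option autoImplicit false

namespace Pool.Agent.H873.RT

open MvPolynomial
open scoped LinearAlgebra.Projectivization

namespace Ex1

variable {k : Type*} [Field k]

/-- two substitutions that agree modulo an ideal on the variables agree modulo the ideal -/
theorem sub_mem {I : Ideal (MvPolynomial (Fin 3) k)} {g : Fin 3 → MvPolynomial (Fin 3) k}
    (h : ∀ i, X i - g i ∈ I) (f : MvPolynomial (Fin 3) k) : f - aeval g f ∈ I := by
  have h1 : (Ideal.Quotient.mkₐ k I).comp (aeval g) = Ideal.Quotient.mkₐ k I := by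
    refine MvPolynomial.algHom_ext fun i => ?_
    rw [AlgHom.comp_apply, aeval_X]
    exact ((Ideal.Quotient.mk_eq_mk_iff_sub_mem _ _).mpr (h i)).symm
  have h2 := DFunLike.congr_fun h1 f
  rw [AlgHom.comp_apply] at h2
  exact (Ideal.Quotient.mk_eq_mk_iff_sub_mem _ _).mp h2.symm

/-- the value of a form on a line through the origin -/
theorem hom_sub {f : MvPolynomial (Fin 3) k} {d : ℕ} (hf : f.IsHomogeneous d) (c : Fin 3 → k) :
    aeval (fun i => C (c i) * (X 0 : MvPolynomial (Fin 3) k)) f = C (eval c f) * X 0 ^ d := by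
  rw [aeval_def, eval₂_eq', eval_eq', map_sum, Finset.sum_mul]
  refine Finset.sum_congr rfl fun m hm => ?_
  have h1 : ∑ i, m i = d := by
    have h2 := hf (mem_support_iff.mp hm)
    rw [Finsupp.weight_apply, Finsupp.sum_fintype _ _ (by simp)] at h2
    simpa using h2
  rw [algebraMap_eq, map_mul, map_prod]
  have h3 : ∏ i, (C (c i) * (X 0 : MvPolynomial (Fin 3) k)) ^ m i =
      (∏ i, C (c i ^ m i)) * X 0 ^ d := by
    rw [← h1, ← Finset.prod_pow_eq_pow_sum, ← Finset.prod_mul_distrib]
    refine Finset.prod_congr rfl fun i _ => ?_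
    rw [mul_pow, map_pow]
  rw [h3, mul_assoc]

/-- the linear form -/
noncomputable def lf (t : k) : MvPolynomial (Fin 3) k := X 1 - C t * X 0

/-- the substitution `X 1 ↦ t X 0` -/
noncomputable def st (t : k) : MvPolynomial (Fin 3) k →ₐ[k] MvPolynomial (Fin 3) k :=
  aeval ![X 0, C t * X 0, X 2]

theorem lf_dvd (t : k) (f : MvPolynomial (Fin 3) k) (h : st t f = 0) : lf t ∣ f := by
  have h1 : f - st t f ∈ Ideal.span {lf t} := by
    refine sub_mem (fun i => ?_) f
    fin_cases i
    · simp
    · exact Ideal.subset_span rfl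
    · simp
  rw [h, sub_zero, Ideal.mem_span_singleton] at h1
  exact h1

theorem st_lf (t t' : k) : st t (lf t') = C (t - t') * X 0 := by
  simp [st, lf, algHom_C, algebraMap_eq]
  ring

theorem prod_dvd (T : Finset k) : ∀ f : MvPolynomial (Fin 3) k, (∀ t ∈ T, st t f = 0) →
    ∏ t ∈ T, lf t ∣ f := by
  classical
  induction T using Finset.induction_on with
  | empty =>
    intro f _
    simp
  | insert t T ht ih =>
    intro f hf
    rw [Finset.prod_insert ht]
    obtain ⟨g, hg⟩ := lf_dvd t f (hf t (Finset.mem_insert_self _ _))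
    have h1 : ∀ s ∈ T, st s g = 0 := by
      intro s hs
      have h2 := hf s (Finset.mem_insert_of_mem hs)
      rw [hg, map_mul, st_lf] at h2
      have h3 : s - t ≠ 0 := by
        rw [sub_ne_zero]
        rintro rfl
        exact ht hs
      have h4 : (C (s - t) * X 0 : MvPolynomial (Fin 3) k) ≠ 0 :=
        mul_ne_zero (by rwa [Ne, C_eq_zero]) (X_ne_zero _)
      exact (mul_eq_zero.mp h2).resolve_left h4
    obtain ⟨q, hq⟩ := ih g h1
    refine ⟨q, ?_⟩
    rw [hg, hq]
    ring

/-- the vector `(1, t, 0)` -/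
def vc (t : k) : Fin 3 → k := ![1, t, 0]

theorem vc_ne (t : k) : vc t ≠ 0 := by
  intro h
  have h1 := congrFun h 0
  simp [vc] at h1

/-- the point `(1 : t : 0)` -/
def pt (t : k) : ℙ k (Fin 3 → k) := Projectivization.mk k (vc t) (vc_ne t)

theorem pt_inj : Function.Injective (pt : k → ℙ k (Fin 3 → k)) := by
  intro t t' h
  rw [pt, pt, Projectivization.mk_eq_mk_iff] at h
  obtain ⟨a, ha⟩ := h
  have h0 := congrFun ha 0
  have h1 := congrFun ha 1
  simp [vc, Units.smul_def] at h0 h1
  rw [h0] at h1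
  simpa using h1.symm

theorem rep_pt (t : k) : ∃ a : kˣ, (pt t).rep = fun i => (a : k) * vc t i := by
  obtain ⟨a, ha⟩ := Projectivization.exists_smul_eq_mk_rep k (vc t) (vc_ne t)
  refine ⟨a, ?_⟩
  rw [pt, ← ha]
  rfl

theorem eval_vc {f : MvPolynomial (Fin 3) k} {d : ℕ} (hf : f.IsHomogeneous d) (t : k)
    (h : eval (pt t).rep f = 0) : eval (vc t) f = 0 := by
  obtain ⟨a, ha⟩ := rep_pt t
  have h1 := congrArg (eval (fun _ => (a : k))) (hom_sub hf (vc t))
  have h2 : eval (fun _ => (a : k)) (aeval (fun i => C (vc t i) *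
      (X 0 : MvPolynomial (Fin 3) k)) f) = eval (pt t).rep f := by
    rw [ha, aeval_def, eval₂_eq', map_sum, eval_eq']
    refine Finset.sum_congr rfl fun m _ => ?_
    rw [map_mul, map_prod, algebraMap_eq, eval_C]
    refine congrArg _ (Finset.prod_congr rfl fun i _ => ?_)
    rw [map_pow, map_mul, eval_C, eval_X, mul_comm]
  rw [h2, h, map_mul, eval_C, map_pow, eval_X] at h1
  exact (mul_eq_zero.mp h1.symm).resolve_right (pow_ne_zero _ a.ne_zero)

end Ex1

/-- eleven points on a cubic whose ideal is generated by three elements -/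
theorem example1 {k : Type*} [Field k] [Infinite k] : ∃ X : Finset (ℙ k (Fin 3 → k)), X.card = 11 ∧
    (∃ F : MvPolynomial (Fin 3) k, F.IsHomogeneous 3 ∧ F ≠ 0 ∧ ∀ P ∈ X, eval P.rep F = 0) ∧
    ∃ g : Fin 3 → MvPolynomial (Fin 3) k, Ideal.span (Set.range g) = pointIdeal X := by
  classical
  obtain ⟨T, hT⟩ := Infinite.exists_subset_card_eq k 11
  refine ⟨T.map ⟨Ex1.pt, Ex1.pt_inj⟩, by rw [Finset.card_map, hT], ⟨X 2 ^ 3, ?_, ?_, ?_⟩,
    ![X 2, ∏ t ∈ T, Ex1.lf t, 0], ?_⟩
  · have := (isHomogeneous_X k (2 : Fin 3)).pow 3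
    simpa using this
  · exact pow_ne_zero _ (X_ne_zero _)
  · intro P hP
    rw [Finset.mem_map] at hP
    obtain ⟨t, -, rfl⟩ := hP
    obtain ⟨a, ha⟩ := Ex1.rep_pt t
    change eval (Ex1.pt t).rep _ = 0
    rw [ha]
    simp [Ex1.vc]
  · apply le_antisymm
    · rw [Ideal.span_le]
      rintro _ ⟨i, rfl⟩
      fin_cases i
      · refine Ideal.subset_span ⟨⟨1, isHomogeneous_X _ _⟩, ?_⟩
        intro P hP
        rw [Finset.mem_map] at hP
        obtain ⟨t, -, rfl⟩ := hP
        obtain ⟨a, ha⟩ := Ex1.rep_pt t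
        change eval (Ex1.pt t).rep (X 2) = 0
        rw [ha]
        simp [Ex1.vc]
      · refine Ideal.subset_span ⟨⟨∑ t ∈ T, 1, ?_⟩, ?_⟩
        · change (∏ t ∈ T, Ex1.lf t).IsHomogeneous _
          refine IsHomogeneous.prod _ _ _ fun t _ => ?_
          refine (isHomogeneous_X _ _).sub ?_
          have := (isHomogeneous_C (Fin 3) t).mul (isHomogeneous_X k (0 : Fin 3))
          simpa using this
        · intro P hP
          rw [Finset.mem_map] at hP
          obtain ⟨t, ht, rfl⟩ := hP
          obtain ⟨a, ha⟩ := Ex1.rep_pt t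
          change eval (Ex1.pt t).rep (∏ t ∈ T, Ex1.lf t) = 0
          rw [map_prod]
          refine Finset.prod_eq_zero ht ?_
          rw [ha]
          simp [Ex1.vc, Ex1.lf]
          ring
      · exact Ideal.zero_mem _
    · rw [pointIdeal, Ideal.span_le]
      rintro f ⟨⟨d, hd⟩, hf⟩
      set I := Ideal.span (Set.range ![X 2, ∏ t ∈ T, Ex1.lf t, (0 : MvPolynomial (Fin 3) k)])
        with hI
      have hX2 : (X 2 : MvPolynomial (Fin 3) k) ∈ I := Ideal.subset_span ⟨0, rfl⟩
      have hD : (∏ t ∈ T, Ex1.lf t : MvPolynomial (Fin 3) k) ∈ I := Ideal.subset_span ⟨1, rfl⟩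
      have h1 : f - aeval ![X 0, X 1, (0 : MvPolynomial (Fin 3) k)] f ∈ I := by
        refine Ex1.sub_mem (fun i => ?_) f
        fin_cases i
        · simp
        · simp
        · simpa using hX2
      have h2 : aeval ![X 0, X 1, (0 : MvPolynomial (Fin 3) k)] f ∈ I := by
        refine Ideal.mem_of_dvd _ (Ex1.prod_dvd T _ ?_) hD
        intro t ht
        have h3 : Ex1.st t (aeval ![X 0, X 1, (0 : MvPolynomial (Fin 3) k)] f) =
            aeval (fun i => C (Ex1.vc t i) * (X 0 : MvPolynomial (Fin 3) k)) f := by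
          have h4 : (Ex1.st t).comp (aeval ![X 0, X 1, (0 : MvPolynomial (Fin 3) k)]) =
              aeval (fun i => C (Ex1.vc t i) * (X 0 : MvPolynomial (Fin 3) k)) := by
            refine MvPolynomial.algHom_ext fun i => ?_
            rw [AlgHom.comp_apply, aeval_X, aeval_X]
            fin_cases i <;> simp [Ex1.st, Ex1.vc]
          exact DFunLike.congr_fun h4 f
        rw [h3, Ex1.hom_sub hd, Ex1.eval_vc hd t (hf _ (Finset.mem_map_of_mem _ ht)), map_zero,
          zero_mul]
      have h5 := I.add_mem h1 h2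
      rwa [sub_add_cancel] at h5

/-- every ideal of points has a minimal homogeneous generating family -/
theorem exists_minGens {k : Type*} [Field k] (X : Finset (ℙ k (Fin 3 → k))) :
    ∃ (m : ℕ) (f : Fin m → MvPolynomial (Fin 3) k), MinGens X f := by
  classical
  set H : Set (MvPolynomial (Fin 3) k) :=
    {f | (∃ d, f.IsHomogeneous d) ∧ ∀ P ∈ X, eval P.rep f = 0} with hH
  have hex : ∃ n : ℕ, ∃ S : Finset (MvPolynomial (Fin 3) k), (S : Set (MvPolynomial (Fin 3) k)) ⊆ H ∧
      Ideal.span (S : Set (MvPolynomial (Fin 3) k)) = pointIdeal X ∧ S.card = n := by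
    have h1 : (Submodule.span (MvPolynomial (Fin 3) k) H).FG := IsNoetherian.noetherian _
    rw [Submodule.fg_span_iff_fg_span_finset_subset] at h1
    obtain ⟨S, hS1, hS2⟩ := h1
    exact ⟨S.card, S, hS1, hS2.symm, rfl⟩
  obtain ⟨S, hS1, hS2, hS3⟩ := Nat.find_spec hex
  set n := Nat.find hex with hn
  set e : Fin n ≃ S := (S.equivFinOfCardEq hS3).symm with he
  refine ⟨n, fun i => (e i : MvPolynomial (Fin 3) k), ?_, ?_, ?_⟩
  · intro i
    exact (hS1 (e i).2).1
  · rw [← hS2]
    refine congrArg Ideal.span ?_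
    ext f
    constructor
    · rintro ⟨i, rfl⟩
      exact (e i).2
    · intro hf
      exact ⟨e.symm ⟨f, hf⟩, by simp⟩
  · intro i hi
    have h1 : ((fun i => (e i : MvPolynomial (Fin 3) k)) '' {j | j ≠ i}) ⊆
        (S.erase (e i : MvPolynomial (Fin 3) k) : Finset (MvPolynomial (Fin 3) k)) := by
      rintro _ ⟨j, hj, rfl⟩
      rw [Finset.mem_coe, Finset.mem_erase]
      refine ⟨fun h => hj ?_, (e j).2⟩
      exact e.injective (Subtype.ext h)
    have h2 : (e i : MvPolynomial (Fin 3) k) ∈ Ideal.span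
        ((S.erase (e i : MvPolynomial (Fin 3) k) : Finset (MvPolynomial (Fin 3) k)) :
          Set (MvPolynomial (Fin 3) k)) := Ideal.span_mono h1 hi
    have h3 : Ideal.span ((S.erase (e i : MvPolynomial (Fin 3) k) :
        Finset (MvPolynomial (Fin 3) k)) : Set (MvPolynomial (Fin 3) k)) = pointIdeal X := by
      rw [← hS2]
      apply le_antisymm
      · exact Ideal.span_mono (by exact_mod_cast Finset.erase_subset _ _)
      · rw [Ideal.span_le]
        intro g hg
        by_cases hgi : g = e i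
        · rw [hgi]
          exact h2
        · exact Ideal.subset_span (by
            rw [Finset.mem_coe, Finset.mem_erase]
            exact ⟨hgi, hg⟩)
    have h4 : n ≤ (S.erase (e i : MvPolynomial (Fin 3) k)).card :=
      Nat.find_min' hex ⟨_, fun g hg => hS1 (Finset.mem_of_mem_erase hg), h3, rfl⟩
    have h5 := Finset.card_erase_lt_of_mem (e i).2
    omega

end Pool.Agent.H873.RT
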