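import Mathlib

set_option autoImplicit false

namespace Pool.Agent.H873.RT

open MvPolynomial
open scoped LinearAlgebra.Projectivization

variable {k : Type*} [Field k]

/-- the forms of degree `t` vanishing at the points of `X` -/
noncomputable def vanishingForms (X : Finset (ℙ k (Fin 3 → k))) (t : ℕ) :
    Submodule k (homogeneousSubmodule (Fin 3) k t) :=
  ⨅ P ∈ X, LinearMap.ker ((MvPolynomial.aeval (R := k) P.rep).toLinearMap ∘ₗ (homogeneousSubmodule (Fin 3) k t).subtype)

/-- the Hilbert function of `X` -/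
noncomputable def hilb (X : Finset (ℙ k (Fin 3 → k))) (t : ℕ) : ℕ :=
  Module.finrank k (homogeneousSubmodule (Fin 3) k t ⧸ vanishingForms X t)

/-- `X` is in generic position -/
def GenericPosition (X : Finset (ℙ k (Fin 3 → k))) : Prop :=
  ∀ t, hilb X t = min (Nat.choose (t + 2) 2) X.card

namespace HilbL

lemma finrank_hom (t : ℕ) :
    Module.finrank k (homogeneousSubmodule (Fin 3) k t) = Nat.choose (t + 2) 2 := by
  classical
  have e : homogeneousSubmodule (Fin 3) k t =
      restrictSupport k {d : Fin 3 →₀ ℕ | d.degree = t} :=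
    homogeneousSubmodule_eq_finsupp_supported (Fin 3) k t
  rw [e, Module.finrank_eq_nat_card_basis (basisRestrictSupport k _)]
  have h1 : {d : Fin 3 →₀ ℕ | d.degree = t} =
      ↑((Finset.univ : Finset (Fin 3)).finsuppAntidiag t) := by
    ext d
    rw [Set.mem_ofPred_eq, Finset.mem_coe, Finset.mem_finsuppAntidiag, Finsupp.degree_eq_sum]
    constructor
    · intro h
      exact ⟨h, Finset.subset_univ _⟩
    · intro h
      exact h.1
  rw [h1, Nat.card_coe_set_eq, Set.ncard_coe_finset, Finset.card_finsuppAntidiag_nat_eq_choose,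
    Finset.card_univ, Fintype.card_fin, show 3 + t - 1 = t + 2 by omega]
  exact Nat.choose_symm_add

/-- the values of a form at the points of `X`, normalized by `l` -/
noncomputable def ph (X : Finset (ℙ k (Fin 3 → k))) (l : MvPolynomial (Fin 3) k) (t : ℕ) :
    homogeneousSubmodule (Fin 3) k t →ₗ[k] (X → k) where
  toFun f := fun P => eval P.1.rep f.1 / (eval P.1.rep l) ^ t
  map_add' f g := by
    funext P
    show eval P.1.rep (f.1 + g.1) / _ = _
    rw [map_add, add_div]
    rfl
  map_smul' c f := by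
    funext P
    show eval P.1.rep (c • f.1) / _ = _
    rw [smul_eval, mul_div_assoc]
    rfl

lemma ph_apply (X : Finset (ℙ k (Fin 3 → k))) (l : MvPolynomial (Fin 3) k) (t : ℕ)
    (f : homogeneousSubmodule (Fin 3) k t) (P : X) :
    ph X l t f P = eval P.1.rep f.1 / (eval P.1.rep l) ^ t := rfl

lemma vanishing_eq (X : Finset (ℙ k (Fin 3 → k))) (l : MvPolynomial (Fin 3) k)
    (hl : ∀ P ∈ X, eval P.rep l ≠ 0) (t : ℕ) : vanishingForms X t = LinearMap.ker (ph X l t) := by
  ext f
  unfold vanishingForms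
  rw [Submodule.mem_iInf]
  constructor
  · intro h
    rw [LinearMap.mem_ker]
    funext P
    have h1 := h P.1
    rw [Submodule.mem_iInf] at h1
    have h2 := h1 P.2
    rw [LinearMap.mem_ker] at h2
    have h3 : eval P.1.rep f.1 = 0 := h2
    rw [ph_apply, h3, zero_div]
    rfl
  · intro h P
    rw [Submodule.mem_iInf]
    intro hP
    rw [LinearMap.mem_ker] at h ⊢
    have h1 := congrFun h ⟨P, hP⟩
    rw [ph_apply] at h1
    have h2 : eval P.rep f.1 / (eval P.rep l) ^ t = 0 := h1
    rw [div_eq_zero_iff] at h2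
    exact h2.resolve_right (pow_ne_zero _ (hl P hP))

lemma hilb_eq (X : Finset (ℙ k (Fin 3 → k))) (l : MvPolynomial (Fin 3) k)
    (hl : ∀ P ∈ X, eval P.rep l ≠ 0) (t : ℕ) :
    hilb X t = Module.finrank k (LinearMap.range (ph X l t)) := by
  unfold hilb
  rw [vanishing_eq X l hl t]
  exact (LinearMap.quotKerEquivRange (ph X l t)).finrank_eq

lemma mem_W (X : Finset (ℙ k (Fin 3 → k))) (l : MvPolynomial (Fin 3) k) (t : ℕ) (φ : X → k) :
    φ ∈ LinearMap.range (ph X l t) ↔ ∃ f : MvPolynomial (Fin 3) k, f.IsHomogeneous t ∧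
      ∀ P : X, φ P = eval P.1.rep f / (eval P.1.rep l) ^ t := by
  rw [LinearMap.mem_range]
  constructor
  · rintro ⟨f, hf⟩
    refine ⟨f.1, f.2, fun P => ?_⟩
    rw [← hf]
    rfl
  · rintro ⟨f, hf, h⟩
    refine ⟨⟨f, hf⟩, ?_⟩
    funext P
    rw [h P]
    rfl

lemma W_mono (X : Finset (ℙ k (Fin 3 → k))) (l : MvPolynomial (Fin 3) k)
    (hl : ∀ P ∈ X, eval P.rep l ≠ 0) (hl1 : l.IsHomogeneous 1) (t : ℕ) :
    LinearMap.range (ph X l t) ≤ LinearMap.range (ph X l (t + 1)) := by
  intro φ hφ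
  rw [mem_W] at hφ ⊢
  obtain ⟨f, hf, h⟩ := hφ
  refine ⟨f * l, hf.mul hl1, fun P => ?_⟩
  rw [h P, map_mul, pow_succ, mul_div_mul_right _ _ (hl P.1 P.2)]

lemma W_step (X : Finset (ℙ k (Fin 3 → k))) (l : MvPolynomial (Fin 3) k)
    (hl : ∀ P ∈ X, eval P.rep l ≠ 0) (t : ℕ)
    (h : LinearMap.range (ph X l (t + 1)) ≤ LinearMap.range (ph X l t)) :
    LinearMap.range (ph X l (t + 2)) ≤ LinearMap.range (ph X l (t + 1)) := by
  classical
  intro φ hφ
  rw [mem_W] at hφ
  obtain ⟨f, hf, hφ⟩ := hφ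
  -- monomials
  have hmon : ∀ d : Fin 3 →₀ ℕ, d.degree = t + 2 →
      (fun P : X => eval P.1.rep (monomial d (1 : k)) / (eval P.1.rep l) ^ (t + 2)) ∈
        LinearMap.range (ph X l (t + 1)) := by
    intro d hd
    have hne : d ≠ 0 := by
      rintro rfl
      rw [map_zero] at hd
      omega
    obtain ⟨i, hi⟩ := Finsupp.ne_iff.1 hne
    have hi' : Finsupp.single i 1 ≤ d := by
      rw [Finsupp.single_le_iff]
      exact Nat.one_le_iff_ne_zero.2 hi
    have hd' : d = Finsupp.single i 1 + (d - Finsupp.single i 1) :=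
      (add_tsub_cancel_of_le hi').symm
    obtain ⟨d', hd''⟩ : ∃ d', d' = d - Finsupp.single i 1 := ⟨_, rfl⟩
    rw [← hd''] at hd'
    have hdeg : d'.degree = t + 1 := by
      rw [hd', map_add, Finsupp.degree_single] at hd
      omega
    have h1 : (fun P : X => eval P.1.rep (monomial d' (1 : k)) / (eval P.1.rep l) ^ (t + 1)) ∈
        LinearMap.range (ph X l (t + 1)) := by
      rw [mem_W]
      exact ⟨monomial d' 1, isHomogeneous_monomial 1 hdeg, fun P => rfl⟩
    have h2 := h h1
    rw [mem_W] at h2 ⊢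
    obtain ⟨g, hg, hg2⟩ := h2
    refine ⟨g * MvPolynomial.X i, hg.mul (isHomogeneous_X k i), fun P => ?_⟩
    have h3 := hg2 P
    have h4 : monomial d (1 : k) = MvPolynomial.X i * monomial d' 1 := by
      rw [hd']
      have : MvPolynomial.X (R := k) i = monomial (Finsupp.single i 1) 1 := rfl
      rw [this, monomial_mul, one_mul]
    have hlP : eval P.1.rep l ≠ 0 := hl P.1 P.2
    rw [h4, map_mul, map_mul, eval_X]
    have h5 : eval P.1.rep (monomial d' (1 : k)) / (eval P.1.rep l) ^ (t + 1) =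
      eval P.1.rep g / (eval P.1.rep l) ^ t := h3
    have h6 : P.1.rep i * eval P.1.rep (monomial d' (1 : k)) / (eval P.1.rep l) ^ (t + 2) =
        P.1.rep i / (eval P.1.rep l) *
          (eval P.1.rep (monomial d' (1 : k)) / (eval P.1.rep l) ^ (t + 1)) := by
      rw [div_mul_div_comm, ← pow_succ']
    rw [h6, h5, div_mul_div_comm, ← pow_succ', mul_comm (P.1.rep i)]
  have hsum : φ = ∑ d ∈ f.support, (coeff d f) •
      (fun P : X => eval P.1.rep (monomial d (1 : k)) / (eval P.1.rep l) ^ (t + 2)) := by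
    funext P
    rw [hφ P, Finset.sum_apply]
    have h1 : eval P.1.rep f = ∑ d ∈ f.support, coeff d f * eval P.1.rep (monomial d (1 : k)) := by
      conv_lhs => rw [← support_sum_monomial_coeff f]
      rw [map_sum]
      refine Finset.sum_congr rfl fun d _ => ?_
      rw [eval_monomial, eval_monomial, one_mul]
    rw [h1, Finset.sum_div]
    refine Finset.sum_congr rfl fun d _ => ?_
    rw [Pi.smul_apply, smul_eq_mul, mul_div_assoc]
  rw [hsum]
  refine Submodule.sum_mem _ fun d hd => Submodule.smul_mem _ _ (hmon d ?_)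
  have := hf (mem_support_iff.1 hd)
  rw [Finsupp.degree_eq_weight_one]
  exact this

/-- a linear form vanishing at `Q` but not at `P` -/
lemma exists_lin {P Q : ℙ k (Fin 3 → k)} (h : P ≠ Q) : ∃ L : MvPolynomial (Fin 3) k,
    L.IsHomogeneous 1 ∧ eval Q.rep L = 0 ∧ eval P.rep L ≠ 0 := by
  by_contra hcon
  push Not at hcon
  have h1 : ∀ i j, Q.rep j * P.rep i = Q.rep i * P.rep j := by
    intro i j
    have h2 := hcon (C (Q.rep j) * MvPolynomial.X i - C (Q.rep i) * MvPolynomial.X j)
      (((isHomogeneous_C_mul_X _ _).sub (isHomogeneous_C_mul_X _ _)))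
      (by simp only [map_sub, map_mul, eval_C, eval_X]; ring)
    simp only [map_sub, map_mul, eval_C, eval_X] at h2
    exact sub_eq_zero.1 h2
  obtain ⟨j, hj⟩ := Function.ne_iff.1 Q.rep_nonzero
  have hj' : Q.rep j ≠ 0 := hj
  apply h
  rw [← P.mk_rep, ← Q.mk_rep, Projectivization.mk_eq_mk_iff']
  refine ⟨P.rep j / Q.rep j, ?_⟩
  funext i
  rw [Pi.smul_apply, smul_eq_mul, div_mul_eq_mul_div, div_eq_iff hj']
  have := h1 i j
  rw [mul_comm (P.rep j), ← this, mul_comm]

lemma W_top (X : Finset (ℙ k (Fin 3 → k))) (l : MvPolynomial (Fin 3) k)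
    (hl : ∀ P ∈ X, eval P.rep l ≠ 0) {n : ℕ} (hX : X.card = n + 1) :
    LinearMap.range (ph X l n) = ⊤ := by
  classical
  have hsingle : ∀ P : X, Pi.single P (1 : k) ∈ LinearMap.range (ph X l n) := by
    intro P
    have hL : ∀ Q : ℙ k (Fin 3 → k), ∃ L : MvPolynomial (Fin 3) k, Q ≠ P.1 →
        L.IsHomogeneous 1 ∧ eval Q.rep L = 0 ∧ eval P.1.rep L ≠ 0 := by
      intro Q
      by_cases h : Q = P.1
      · exact ⟨0, fun h' => (h' h).elim⟩
      · obtain ⟨L, hL⟩ := exists_lin (P := P.1) (Q := Q) (fun h' => h h'.symm)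
        exact ⟨L, fun _ => hL⟩
    choose L hL using hL
    obtain ⟨c, hc⟩ : ∃ c, c = ∏ Q ∈ X.erase P.1, eval P.1.rep (L Q) := ⟨_, rfl⟩
    have hc0 : c ≠ 0 := by
      rw [hc]
      exact Finset.prod_ne_zero_iff.2 fun Q hQ => (hL Q (Finset.ne_of_mem_erase hQ)).2.2
    rw [mem_W]
    refine ⟨C ((eval P.1.rep l) ^ n / c) * ∏ Q ∈ X.erase P.1, L Q, ?_, fun Q => ?_⟩
    · have h1 : (∏ Q ∈ X.erase P.1, L Q).IsHomogeneous (∑ _Q ∈ X.erase P.1, 1) :=
        IsHomogeneous.prod _ _ _ fun Q hQ => (hL Q (Finset.ne_of_mem_erase hQ)).1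
      rw [Finset.sum_const, Finset.card_erase_of_mem P.2, hX] at h1
      have h2 := (isHomogeneous_C (Fin 3) ((eval P.1.rep l) ^ n / c)).mul h1
      rw [zero_add, smul_eq_mul, mul_one, Nat.add_sub_cancel] at h2
      exact h2
    · rw [map_mul, eval_C, map_prod]
      by_cases h : Q = P
      · subst h
        rw [← hc, div_mul_cancel₀ _ hc0, div_self (pow_ne_zero _ (hl Q.1 Q.2)), Pi.single_eq_same]
      · have hQ : Q.1 ∈ X.erase P.1 := Finset.mem_erase.2 ⟨fun h' => h (Subtype.ext h'), Q.2⟩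
        rw [Finset.prod_eq_zero hQ (hL Q.1 (Finset.ne_of_mem_erase hQ)).2.1, mul_zero, zero_div,
          Pi.single_eq_of_ne h]
  rw [eq_top_iff]
  intro φ _
  have h1 : φ = ∑ P, φ P • (Pi.single P (1 : k) : X → k) := by
    funext Q
    rw [Finset.sum_apply, Finset.sum_eq_single Q]
    · rw [Pi.smul_apply, Pi.single_eq_same, smul_eq_mul, mul_one]
    · intro P _ hP
      rw [Pi.smul_apply, Pi.single_eq_of_ne (Ne.symm hP), smul_eq_mul, mul_zero]
    · intro h
      exact (h (Finset.mem_univ _)).elim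
  rw [h1]
  exact Submodule.sum_mem _ fun P _ => Submodule.smul_mem _ _ (hsingle P)

/-- a linear form vanishing at none of the points -/
lemma exists_l [Infinite k] (X : Finset (ℙ k (Fin 3 → k))) : ∃ l : MvPolynomial (Fin 3) k,
    l.IsHomogeneous 1 ∧ ∀ P ∈ X, eval P.rep l ≠ 0 := by
  classical
  obtain ⟨F, hF⟩ : ∃ F : MvPolynomial (Fin 3) k,
      F = ∏ P ∈ X, ∑ i, C (P.rep i) * MvPolynomial.X i := ⟨_, rfl⟩
  have hF0 : F ≠ 0 := by
    rw [hF, Finset.prod_ne_zero_iff]
    intro P _ h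
    obtain ⟨j, hj⟩ := Function.ne_iff.1 P.rep_nonzero
    have h1 := congrArg (fun p => eval (Pi.single j (1 : k)) p) h
    simp only [map_sum, map_mul, eval_C, eval_X, map_zero] at h1
    rw [Finset.sum_eq_single j] at h1
    · rw [Pi.single_eq_same, mul_one] at h1
      exact hj h1
    · intro i _ hi
      rw [Pi.single_eq_of_ne hi, mul_zero]
    · intro h'
      exact (h' (Finset.mem_univ _)).elim
  have h2 : ∃ a : Fin 3 → k, eval a F ≠ 0 := by
    by_contra hcon
    push Not at hcon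
    exact hF0 (MvPolynomial.funext fun a => by rw [hcon a, map_zero])
  obtain ⟨a, ha⟩ := h2
  refine ⟨∑ i, C (a i) * MvPolynomial.X i,
    IsHomogeneous.sum _ _ _ fun i _ => isHomogeneous_C_mul_X _ _, fun P hP => ?_⟩
  rw [hF, map_prod, Finset.prod_ne_zero_iff] at ha
  have h3 := ha P hP
  simp only [map_sum, map_mul, eval_C, eval_X] at h3 ⊢
  have h4 : ∑ i, a i * P.rep i = ∑ i, P.rep i * a i := Finset.sum_congr rfl fun i _ => mul_comm _ _
  rw [h4]
  exact h3

end HilbL

open HilbL in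
theorem exists_cubic [Infinite k] (X : Finset (ℙ k (Fin 3 → k))) (hX : X.card = 11)
    (h : ¬ GenericPosition X) :
    ∃ F : MvPolynomial (Fin 3) k, F.IsHomogeneous 3 ∧ F ≠ 0 ∧ ∀ P ∈ X, eval P.rep F = 0 := by
  classical
  by_contra hcon
  push Not at hcon
  apply h
  obtain ⟨l, hl1, hl⟩ := exists_l X
  -- small degrees
  have hinj : ∀ t, t ≤ 3 → hilb X t = Nat.choose (t + 2) 2 := by
    intro t ht
    rw [hilb_eq X l hl, ← finrank_hom (k := k) t]
    refine LinearMap.finrank_range_of_inj ?_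
    rw [← LinearMap.ker_eq_bot, ← vanishing_eq X l hl, eq_bot_iff]
    intro f hf
    rw [vanishing_eq X l hl, LinearMap.mem_ker] at hf
    have h1 : ∀ P ∈ X, eval P.rep f.1 = 0 := by
      intro P hP
      have h2 := congrFun hf ⟨P, hP⟩
      rw [ph_apply] at h2
      have h3 : eval P.rep f.1 / (eval P.rep l) ^ t = 0 := h2
      rw [div_eq_zero_iff] at h3
      exact h3.resolve_right (pow_ne_zero _ (hl P hP))
    rw [Submodule.mem_bot]
    by_contra hf0
    have hf0' : f.1 ≠ 0 := fun h' => hf0 (Subtype.ext h')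
    have h2 : (MvPolynomial.X 0 ^ (3 - t) * f.1 : MvPolynomial (Fin 3) k).IsHomogeneous 3 := by
      have h3 := (isHomogeneous_X_pow (R := k) (0 : Fin 3) (3 - t)).mul f.2
      rw [Nat.sub_add_cancel ht] at h3
      exact h3
    have h4 : (MvPolynomial.X 0 ^ (3 - t) * f.1 : MvPolynomial (Fin 3) k) ≠ 0 :=
      mul_ne_zero (pow_ne_zero _ (X_ne_zero 0)) hf0'
    obtain ⟨P, hP, hP'⟩ := hcon _ h2 h4
    apply hP'
    rw [map_mul, h1 P hP, mul_zero]
  have hW3 : Module.finrank k (LinearMap.range (ph X l 3)) = 10 := by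
    rw [← hilb_eq X l hl, hinj 3 le_rfl]
    rfl
  have hdim : Module.finrank k (X → k) = 11 := by
    rw [Module.finrank_fintype_fun_eq_card, Fintype.card_coe, hX]
  have hnot : ¬ LinearMap.range (ph X l 4) ≤ LinearMap.range (ph X l 3) := by
    intro h43
    have h1 : ∀ n, LinearMap.range (ph X l (n + 4)) ≤ LinearMap.range (ph X l (n + 3)) := by
      intro n
      induction n with
      | zero => exact h43
      | succ n ih => exact W_step X l hl (n + 3) ih
    have h2 : ∀ n, LinearMap.range (ph X l (n + 3)) ≤ LinearMap.range (ph X l 3) := by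
      intro n
      induction n with
      | zero => exact le_rfl
      | succ n ih => exact (h1 n).trans ih
    have h3 := h2 7
    rw [W_top X l hl hX, top_le_iff] at h3
    have h4 : Module.finrank k (⊤ : Submodule k (X → k)) = 10 := by rw [← h3]; exact hW3
    rw [finrank_top, hdim] at h4
    omega
  have hW4 : LinearMap.range (ph X l 4) = ⊤ := by
    have h1 : LinearMap.range (ph X l 3) < LinearMap.range (ph X l 4) :=
      lt_of_le_not_ge (W_mono X l hl hl1 3) hnot
    have h2 := Submodule.finrank_lt_finrank_of_lt h1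
    have h3 := Submodule.finrank_le (LinearMap.range (ph X l 4))
    refine Submodule.eq_top_of_finrank_eq ?_
    omega
  have hW : ∀ n, LinearMap.range (ph X l (n + 4)) = ⊤ := by
    intro n
    induction n with
    | zero => exact hW4
    | succ n ih =>
      rw [eq_top_iff, ← ih]
      exact W_mono X l hl hl1 (n + 4)
  intro t
  rcases Nat.lt_or_ge t 4 with ht | ht
  · rw [hinj t (by omega), hX]
    interval_cases t <;> rfl
  · obtain ⟨n, rfl⟩ : ∃ n, t = n + 4 := ⟨t - 4, by omega⟩
    rw [hilb_eq X l hl, hW n, finrank_top, hdim, hX]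
    have h1 : Nat.choose 6 2 ≤ Nat.choose (n + 4 + 2) 2 := Nat.choose_le_choose 2 (by omega)
    have h2 : Nat.choose 6 2 = 15 := rfl
    rw [min_eq_right (by omega)]

end Pool.Agent.H873.RT
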