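import Pool.Agent.H873.RT.RelDefs
import Pool.Agent.H873.RT.Hilb

set_option autoImplicit false

namespace Pool.Agent.H873.RT

open MvPolynomial
open scoped LinearAlgebra.Projectivization

namespace Ex3L

variable {k : Type*} [Field k]

/-- the evaluation on the line through `v` -/
noncomputable def ps (v : Fin 3 → k) : MvPolynomial (Fin 3) k →ₐ[k] Polynomial k :=
  aeval (fun i => Polynomial.C (v i) * Polynomial.X)

lemma ps_coeff (v : Fin 3 → k) (g : MvPolynomial (Fin 3) k) (d : ℕ) :
    (ps v g).coeff d =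
      ∑ m ∈ g.support, if m.degree = d then coeff m g * ∏ i, v i ^ m i else 0 := by
  unfold ps
  rw [aeval_def, eval₂_eq', Polynomial.finsetSum_coeff]
  refine Finset.sum_congr rfl fun m _ => ?_
  have h1 : algebraMap k (Polynomial k) (coeff m g) *
      ∏ i, (Polynomial.C (v i) * Polynomial.X) ^ m i =
      Polynomial.C (coeff m g * ∏ i, v i ^ m i) * Polynomial.X ^ m.degree := by
    simp only [mul_pow, Finset.prod_mul_distrib, Finset.prod_pow_eq_pow_sum]
    rw [← Finsupp.degree_eq_sum, Polynomial.C_mul, map_prod]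
    simp only [map_pow, Polynomial.algebraMap_eq]
    ring
  rw [h1, Polynomial.coeff_C_mul_X_pow]
  by_cases h : m.degree = d
  · rw [if_pos h, if_pos h.symm]
  · rw [if_neg h, if_neg (fun h' => h h'.symm)]

lemma ps_hom {v : Fin 3 → k} {g : MvPolynomial (Fin 3) k} {d : ℕ} (hg : g.IsHomogeneous d)
    (h0 : eval v g = 0) : ps v g = 0 := by
  ext e
  rw [ps_coeff, Polynomial.coeff_zero]
  by_cases he : e = d
  · rw [← h0, eval_eq']
    refine Finset.sum_congr rfl fun m hm => ?_
    rw [if_pos]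
    by_contra h
    rw [he] at h
    exact (mem_support_iff.1 hm) (hg.coeff_eq_zero h)
  · refine Finset.sum_eq_zero fun m hm => ?_
    rw [if_neg]
    intro h
    have h2 : m.degree ≠ d := fun h' => he (h.symm.trans h')
    exact (mem_support_iff.1 hm) (hg.coeff_eq_zero h2)

lemma eval_smul' {v : Fin 3 → k} {g : MvPolynomial (Fin 3) k} {d : ℕ} (hg : g.IsHomogeneous d)
    (a : k) : eval (a • v) g = a ^ d * eval v g := by
  rw [eval_eq', eval_eq', Finset.mul_sum]
  refine Finset.sum_congr rfl fun m hm => ?_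
  have h1 : m.degree = d := by
    by_contra h
    exact (mem_support_iff.1 hm) (hg.coeff_eq_zero h)
  have h2 : ∏ i, (a • v) i ^ m i = a ^ d * ∏ i, v i ^ m i := by
    simp only [Pi.smul_apply, smul_eq_mul, mul_pow, Finset.prod_mul_distrib,
      Finset.prod_pow_eq_pow_sum]
    rw [← Finsupp.degree_eq_sum, h1]
  rw [h2]; ring

lemma eval_rep {v : Fin 3 → k} (hv : v ≠ 0) {g : MvPolynomial (Fin 3) k} {d : ℕ}
    (hg : g.IsHomogeneous d) :
    eval (Projectivization.mk k v hv).rep g = 0 ↔ eval v g = 0 := by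
  obtain ⟨a, ha⟩ := Projectivization.exists_smul_eq_mk_rep k v hv
  rw [← ha]
  have h1 : (a • v : Fin 3 → k) = (a : k) • v := rfl
  rw [h1, eval_smul' hg, mul_eq_zero, or_iff_right]
  exact pow_ne_zero _ a.ne_zero

lemma ideal_le {X : Finset (ℙ k (Fin 3 → k))} {v : Fin 3 → k} (hv : v ≠ 0)
    (hX : Projectivization.mk k v hv ∈ X) {g : MvPolynomial (Fin 3) k} (hg : g ∈ pointIdeal X) :
    ps v g = 0 := by
  have h : pointIdeal X ≤ RingHom.ker (ps v).toRingHom := by
    unfold pointIdeal
    rw [Ideal.span_le]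
    rintro f ⟨⟨d, hd⟩, hf⟩
    exact ps_hom hd ((eval_rep hv hd).1 (hf _ hX))
  exact h hg

/-- only one monomial contributes -/
lemma ps_single (v : Fin 3 → k) (g : MvPolynomial (Fin 3) k) (m0 : Fin 3 →₀ ℕ)
    (h : ∀ m : Fin 3 →₀ ℕ, m ≠ m0 → m.degree = m0.degree →
      coeff m g = 0 ∨ ∏ i, v i ^ m i = 0) :
    (ps v g).coeff m0.degree = coeff m0 g * ∏ i, v i ^ m0 i := by
  rw [ps_coeff]
  have h1 : ∀ m, m ≠ m0 →
      (if m.degree = m0.degree then coeff m g * ∏ i, v i ^ m i else 0) = 0 := by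
    intro m hm
    split_ifs with hd
    · rcases h m hm hd with h2 | h2
      · rw [h2, zero_mul]
      · rw [h2, mul_zero]
    · rfl
  by_cases hm : m0 ∈ g.support
  · rw [Finset.sum_eq_single m0]
    · rw [if_pos rfl]
    · intro m _ hne
      exact h1 m hne
    · intro h2
      exact absurd hm h2
  · rw [notMem_support_iff.1 hm, zero_mul]
    refine Finset.sum_eq_zero fun m hm' => h1 m ?_
    rintro rfl
    exact hm hm'

lemma deg3 (m : Fin 3 →₀ ℕ) : m.degree = m 0 + m 1 + m 2 := by
  rw [Finsupp.degree_eq_sum, Fin.sum_univ_three]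

lemma ext3 {m m' : Fin 3 →₀ ℕ} (h0 : m 0 = m' 0) (h1 : m 1 = m' 1) (h2 : m 2 = m' 2) :
    m = m' := by
  ext i
  fin_cases i
  · exact h0
  · exact h1
  · exact h2

/-- the polynomial of the restriction to the line -/
noncomputable def Q (g : MvPolynomial (Fin 3) k) (d : ℕ) : Polynomial k :=
  ∑ m ∈ g.support, if m.degree = d ∧ m 2 = 0 then Polynomial.monomial (m 1) (coeff m g) else 0

lemma Q_eval (g : MvPolynomial (Fin 3) k) (d : ℕ) (t : k) :
    (Q g d).eval t = (ps ![1, t, 0] g).coeff d := by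
  rw [ps_coeff, Q, Polynomial.eval_finsetSum]
  refine Finset.sum_congr rfl fun m _ => ?_
  rw [Fin.prod_univ_three]
  have e0 : (![1, t, 0] : Fin 3 → k) 0 = 1 := rfl
  have e1 : (![1, t, 0] : Fin 3 → k) 1 = t := rfl
  have e2 : (![1, t, 0] : Fin 3 → k) 2 = 0 := rfl
  rw [e0, e1, e2]
  by_cases hd : m.degree = d
  · by_cases h2 : m 2 = 0
    · rw [if_pos ⟨hd, h2⟩, if_pos hd, h2, Polynomial.eval_monomial]
      simp
    · rw [if_neg (fun h => h2 h.2), if_pos hd, zero_pow h2]
      simp
  · rw [if_neg (fun h => hd h.1), if_neg hd]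
    simp

lemma Q_deg (g : MvPolynomial (Fin 3) k) (d : ℕ) : (Q g d).natDegree ≤ d := by
  apply Polynomial.natDegree_sum_le_of_forall_le
  intro m _
  split_ifs with h
  · refine (Polynomial.natDegree_monomial_le _).trans ?_
    have := deg3 m
    omega
  · simp

lemma Q_coeff (g : MvPolynomial (Fin 3) k) (m : Fin 3 →₀ ℕ) (hm : m 2 = 0) :
    (Q g m.degree).coeff (m 1) = coeff m g := by
  rw [Q, Polynomial.finsetSum_coeff]
  have h1 : ∀ m', m' ≠ m → ((if m'.degree = m.degree ∧ m' 2 = 0 then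
      Polynomial.monomial (m' 1) (coeff m' g) else 0 : Polynomial k)).coeff (m 1) = 0 := by
    intro m' hne
    split_ifs with h
    · rw [Polynomial.coeff_monomial, if_neg]
      intro h'
      apply hne
      have e1 := deg3 m
      have e2 := deg3 m'
      have e3 := h.1
      have e4 := h.2
      apply ext3 <;> omega
    · rfl
  by_cases hs : m ∈ g.support
  · rw [Finset.sum_eq_single m]
    · rw [if_pos ⟨rfl, hm⟩, Polynomial.coeff_monomial, if_pos rfl]
    · intro m' _ hne
      exact h1 m' hne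
    · intro h
      exact absurd hs h
  · rw [notMem_support_iff.1 hs]
    refine Finset.sum_eq_zero fun m' hm' => h1 m' ?_
    rintro rfl
    exact hs hm'

/-- the conditions which hold for the elements of the ideal -/
structure Cnd (τ : Fin 8 → k) (g : MvPolynomial (Fin 3) k) : Prop where
  h0 : ps ![0, 0, 1] g = 0
  h1 : ps ![1, 0, 1] g = 0
  h2 : ps ![0, 1, 1] g = 0
  hl : ∀ i, ps ![1, τ i, 0] g = 0

lemma Cnd.line {τ : Fin 8 → k} (hτ : Function.Injective τ) {g : MvPolynomial (Fin 3) k}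
    (h : Cnd τ g) (m : Fin 3 →₀ ℕ) (hm : m 2 = 0) (hd : m.degree ≤ 7) : coeff m g = 0 := by
  have hQ : Q g m.degree = 0 := by
    apply Polynomial.eq_zero_of_natDegree_lt_card_of_eval_eq_zero _ hτ
    · intro i
      rw [Q_eval, h.hl i, Polynomial.coeff_zero]
    · rw [Fintype.card_fin]
      have := Q_deg g m.degree
      omega
  rw [← Q_coeff g m hm, hQ, Polynomial.coeff_zero]

lemma Cnd.pure {τ : Fin 8 → k} {g : MvPolynomial (Fin 3) k}
    (h : Cnd τ g) (m : Fin 3 →₀ ℕ) (hm0 : m 0 = 0) (hm1 : m 1 = 0) : coeff m g = 0 := by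
  have h1 := ps_single ![0, 0, 1] g m (by
    intro m' hne hd
    right
    rw [Fin.prod_univ_three]
    have e0 : (![0, 0, 1] : Fin 3 → k) 0 = 0 := rfl
    have e1 : (![0, 0, 1] : Fin 3 → k) 1 = 0 := rfl
    rw [e0, e1]
    by_cases k0 : m' 0 = 0
    · by_cases k1 : m' 1 = 0
      · exfalso
        apply hne
        rw [deg3, deg3] at hd
        apply ext3 <;> omega
      · rw [zero_pow k1]; ring
    · rw [zero_pow k0]; ring)
  rw [h.h0, Polynomial.coeff_zero, Fin.prod_univ_three] at h1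
  have e0 : (![0, 0, 1] : Fin 3 → k) 0 = 0 := rfl
  have e1 : (![0, 0, 1] : Fin 3 → k) 1 = 0 := rfl
  have e2 : (![0, 0, 1] : Fin 3 → k) 2 = 1 := rfl
  rw [e0, e1, e2, hm0, hm1, pow_zero, one_pow, mul_one, mul_one, mul_one] at h1
  exact h1.symm

lemma Cnd.x02 {τ : Fin 8 → k} (hτ : Function.Injective τ) {g : MvPolynomial (Fin 3) k}
    (h : Cnd τ g) (m : Fin 3 →₀ ℕ) (hm0 : m 0 = 1) (hm1 : m 1 = 0) (hm2 : m 2 = 1) :
    coeff m g = 0 := by
  have hdm := deg3 m
  have h1 := ps_single ![1, 0, 1] g m (by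
    intro m' hne hd
    have hd' := deg3 m'
    by_cases k1 : m' 1 = 0
    · left
      by_cases k0 : m' 0 = 0
      · exact h.pure m' k0 k1
      · by_cases k2 : m' 2 = 0
        · exact h.line hτ m' k2 (by omega)
        · exfalso
          apply hne
          apply ext3 <;> omega
    · right
      rw [Fin.prod_univ_three]
      have e1 : (![1, 0, 1] : Fin 3 → k) 1 = 0 := rfl
      rw [e1, zero_pow k1]; ring)
  rw [h.h1, Polynomial.coeff_zero, Fin.prod_univ_three] at h1
  have e0 : (![1, 0, 1] : Fin 3 → k) 0 = 1 := rfl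
  have e1 : (![1, 0, 1] : Fin 3 → k) 1 = 0 := rfl
  have e2 : (![1, 0, 1] : Fin 3 → k) 2 = 1 := rfl
  rw [e0, e1, e2, hm1, pow_zero, one_pow, one_pow, mul_one, mul_one, mul_one] at h1
  exact h1.symm

lemma Cnd.x12 {τ : Fin 8 → k} (hτ : Function.Injective τ) {g : MvPolynomial (Fin 3) k}
    (h : Cnd τ g) (m : Fin 3 →₀ ℕ) (hm0 : m 0 = 0) (hm1 : m 1 = 1) (hm2 : m 2 = 1) :
    coeff m g = 0 := by
  have hdm := deg3 m
  have h1 := ps_single ![0, 1, 1] g m (by
    intro m' hne hd
    have hd' := deg3 m'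
    by_cases k0 : m' 0 = 0
    · left
      by_cases k1 : m' 1 = 0
      · exact h.pure m' k0 k1
      · by_cases k2 : m' 2 = 0
        · exact h.line hτ m' k2 (by omega)
        · exfalso
          apply hne
          apply ext3 <;> omega
    · right
      rw [Fin.prod_univ_three]
      have e0 : (![0, 1, 1] : Fin 3 → k) 0 = 0 := rfl
      rw [e0, zero_pow k0]; ring)
  rw [h.h2, Polynomial.coeff_zero, Fin.prod_univ_three] at h1
  have e0 : (![0, 1, 1] : Fin 3 → k) 0 = 0 := rfl
  have e1 : (![0, 1, 1] : Fin 3 → k) 1 = 1 := rfl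
  have e2 : (![0, 1, 1] : Fin 3 → k) 2 = 1 := rfl
  rw [e0, e1, e2, hm0, pow_zero, one_pow, one_pow, mul_one, mul_one, mul_one] at h1
  exact h1.symm

lemma Cnd.low {τ : Fin 8 → k} (hτ : Function.Injective τ) {g : MvPolynomial (Fin 3) k}
    (h : Cnd τ g) (m : Fin 3 →₀ ℕ) (hd : m.degree ≤ 2) : coeff m g = 0 := by
  have hdm := deg3 m
  by_cases k2 : m 2 = 0
  · exact h.line hτ m k2 (by omega)
  · by_cases k0 : m 0 = 0
    · by_cases k1 : m 1 = 0
      · exact h.pure m k0 k1
      · exact h.x12 hτ m k0 (by omega) (by omega)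
    · exact h.x02 hτ m (by omega) (by omega) (by omega)

/-! ### The four elements -/

open Finsupp in
/-- the four monomials -/
noncomputable def MM : Fin 4 → (Fin 3 →₀ ℕ) :=
  ![single 2 1 + single 0 1 + single 0 1, single 2 1 + single 1 1 + single 1 1,
    single 2 1 + single 0 1 + single 1 1, single 1 8]

/-- the third coefficients of the linear forms -/
noncomputable def cc (τ : Fin 8 → k) (i : Fin 8) : k := if i = 1 then τ 1 else if i = 2 then -1 else 0

/-- the form of degree eight -/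
noncomputable def f8 (τ : Fin 8 → k) : MvPolynomial (Fin 3) k :=
  ∏ i : Fin 8, (X 1 - C (τ i) * X 0 + C (cc τ i) * X 2)

/-- the four elements -/
noncomputable def BB (τ : Fin 8 → k) : Fin 4 → MvPolynomial (Fin 3) k :=
  ![X 2 * X 0 * X 0 - X 2 * X 0 * X 2, X 2 * X 1 * X 1 - X 2 * X 1 * X 2, X 2 * X 0 * X 1, f8 τ]

lemma hom3 (a b c : Fin 3) : (X a * X b * X c : MvPolynomial (Fin 3) k).IsHomogeneous 3 :=
  ((isHomogeneous_X k a).mul (isHomogeneous_X k b)).mul (isHomogeneous_X k c)

lemma hom8 (τ : Fin 8 → k) : (f8 τ).IsHomogeneous 8 := by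
  have h := IsHomogeneous.prod Finset.univ
    (fun i : Fin 8 => (X 1 - C (τ i) * X 0 + C (cc τ i) * X 2 : MvPolynomial (Fin 3) k))
    (fun _ => 1) (by
      intro i _
      refine ((isHomogeneous_X k 1).sub ?_).add ?_
      · exact (isHomogeneous_X k 0).C_mul _
      · exact (isHomogeneous_X k 2).C_mul _)
  unfold f8
  simpa using h

lemma homB (τ : Fin 8 → k) (i : Fin 4) : (BB τ i).IsHomogeneous (if i = 3 then 8 else 3) := by
  fin_cases i
  · exact (hom3 2 0 0).sub (hom3 2 0 2)
  · exact (hom3 2 1 1).sub (hom3 2 1 2)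
  · exact hom3 2 0 1
  · exact hom8 τ

lemma evalB (τ : Fin 8 → k) (i : Fin 4) : eval ![0, 0, 1] (BB τ i) = 0 ∧
    eval ![1, 0, 1] (BB τ i) = 0 ∧ eval ![0, 1, 1] (BB τ i) = 0 ∧
    ∀ j, eval ![1, τ j, 0] (BB τ i) = 0 := by
  fin_cases i
  · simp [BB]
  · simp [BB]
  · simp [BB]
  · change eval ![0, 0, 1] (f8 τ) = 0 ∧ eval ![1, 0, 1] (f8 τ) = 0 ∧ eval ![0, 1, 1] (f8 τ) = 0 ∧
      ∀ j, eval ![1, τ j, 0] (f8 τ) = 0
    unfold f8
    simp only [map_prod]
    refine ⟨?_, ?_, ?_, ?_⟩
    · apply Finset.prod_eq_zero (Finset.mem_univ 0)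
      simp [cc]
    · apply Finset.prod_eq_zero (Finset.mem_univ 1)
      simp [cc]
    · apply Finset.prod_eq_zero (Finset.mem_univ 2)
      simp [cc]
    · intro j
      apply Finset.prod_eq_zero (Finset.mem_univ j)
      simp [cc]

lemma coeff3 (a b c : Fin 3) (m : Fin 3 →₀ ℕ) :
    coeff m (X a * X b * X c : MvPolynomial (Fin 3) k) =
      if Finsupp.single a 1 + Finsupp.single b 1 + Finsupp.single c 1 = m then 1 else 0 := by
  have h : (X a * X b * X c : MvPolynomial (Fin 3) k) =
      monomial (Finsupp.single a 1 + Finsupp.single b 1 + Finsupp.single c 1) 1 := by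
    simp only [X, monomial_mul, mul_one]
  rw [h, coeff_monomial]

lemma degMM (j : Fin 4) : (MM j).degree = if j = 3 then 8 else 3 := by
  rw [deg3]
  fin_cases j <;> simp [MM]

lemma coeff_f8 (τ : Fin 8 → k) : coeff (Finsupp.single 1 8) (f8 τ) = 1 := by
  have h1 := ps_single ![0, 1, 0] (f8 τ) (Finsupp.single 1 8) (by
    intro m hne hd
    right
    rw [Fin.prod_univ_three]
    have e0 : (![0, 1, 0] : Fin 3 → k) 0 = 0 := rfl
    have e2 : (![0, 1, 0] : Fin 3 → k) 2 = 0 := rfl
    rw [e0, e2]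
    by_cases k0 : m 0 = 0
    · by_cases k2 : m 2 = 0
      · exfalso
        apply hne
        rw [deg3, Finsupp.degree_single] at hd
        apply ext3
        · rw [k0]; simp
        · simp; omega
        · rw [k2]; simp
      · rw [zero_pow k2]; ring
    · rw [zero_pow k0]; ring)
  rw [Finsupp.degree_single] at h1
  have h2 : ps ![0, 1, 0] (f8 τ) = Polynomial.X ^ 8 := by
    unfold f8 ps
    rw [map_prod]
    have h3 : ∀ i : Fin 8, (aeval fun i => Polynomial.C ((![0, 1, 0] : Fin 3 → k) i) * Polynomial.X)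
        (X 1 - C (τ i) * X 0 + C (cc τ i) * X 2 : MvPolynomial (Fin 3) k) =
        (Polynomial.X : Polynomial k) := by
      intro i
      simp
    rw [Finset.prod_congr rfl (fun i _ => h3 i)]
    simp
  rw [h2, Polynomial.coeff_X_pow, if_pos rfl] at h1
  have h4 : ∏ i, (![0, 1, 0] : Fin 3 → k) i ^ (Finsupp.single (1 : Fin 3) 8) i = 1 := by
    rw [Fin.prod_univ_three]
    simp
  rw [h4, mul_one] at h1
  exact h1.symm

lemma coeffB (τ : Fin 8 → k) (i j : Fin 4) :
    coeff (MM j) (BB τ i) = if i = j then 1 else 0 := by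
  by_cases hij : (if i = 3 then 8 else 3) = (if j = 3 then 8 else 3)
  · by_cases hi : i = 3
    · subst hi
      have hj : j = 3 := by
        by_contra hj
        rw [if_pos rfl, if_neg hj] at hij
        omega
      subst hj
      rw [if_pos rfl]
      exact coeff_f8 τ
    · have hj : j ≠ 3 := by
        intro hj
        rw [if_neg hi, if_pos hj] at hij
        omega
      revert hi hj
      fin_cases i <;> fin_cases j <;>
        simp [BB, MM, coeff3, Finsupp.ext_iff, Fin.forall_fin_succ, Finsupp.single_apply]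
  · rw [(homB τ i).coeff_eq_zero (by rw [degMM]; exact fun h => hij h.symm), if_neg]
    rintro rfl
    exact hij rfl

/-- the coefficients vanish on the multiples by polynomials without constant term -/
lemma Cnd.mul_coeff {τ : Fin 8 → k} (hτ : Function.Injective τ) {g : MvPolynomial (Fin 3) k}
    (h : Cnd τ g) (p : MvPolynomial (Fin 3) k) (hp : constantCoeff p = 0) (i : Fin 4) :
    coeff (MM i) (p * g) = 0 := by
  classical
  rw [coeff_mul]
  refine Finset.sum_eq_zero fun x hx => ?_
  rw [Finset.HasAntidiagonal.mem_antidiagonal] at hx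
  by_cases hx1 : x.1 = 0
  · rw [hx1]
    have : coeff 0 p = 0 := hp
    rw [this, zero_mul]
  · have hd : x.1.degree + x.2.degree = if i = 3 then 8 else 3 := by
      rw [← degMM, ← hx, map_add]
    have hd1 : x.1.degree ≠ 0 := fun h0 => hx1 ((Finsupp.degree_eq_zero_iff _).1 h0)
    have : coeff x.2 g = 0 := by
      by_cases hi : i = 3
      · subst hi
        rw [if_pos rfl] at hd
        refine h.line hτ x.2 ?_ (by omega)
        have h2 : x.1 2 + x.2 2 = (MM 3) 2 := by rw [← hx]; rfl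
        have h3 : (MM 3) 2 = 0 := by simp [MM]
        omega
      · rw [if_neg hi] at hd
        exact h.low hτ x.2 (by omega)
    rw [this, mul_zero]

/-! ### The points -/

/-- the vectors of the points -/
def vec (τ : Fin 8 → k) : Fin 3 ⊕ Fin 8 → (Fin 3 → k)
  | Sum.inl i => ![if i = 1 then 1 else 0, if i = 2 then 1 else 0, 1]
  | Sum.inr i => ![1, τ i, 0]

lemma vec_ne (τ : Fin 8 → k) (j : Fin 3 ⊕ Fin 8) : vec τ j ≠ 0 := by
  intro h
  rcases j with j | j
  · have := congrFun h 2
    simp [vec] at this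
  · have := congrFun h 0
    simp [vec] at this

lemma vec_inj {τ : Fin 8 → k} (hτ : Function.Injective τ) (j j' : Fin 3 ⊕ Fin 8) (a : k)
    (h : a • vec τ j' = vec τ j) : j = j' := by
  have h0 := congrFun h 0
  have h1 := congrFun h 1
  have h2 := congrFun h 2
  rcases j with j | j <;> rcases j' with j' | j'
  · simp only [vec, Pi.smul_apply, smul_eq_mul] at h0 h1 h2
    simp only [Matrix.cons_val_zero, Matrix.cons_val_one, Matrix.cons_val] at h0 h1 h2
    have ha : a = 1 := by simpa using h2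
    rw [ha] at h0 h1
    congr 1
    revert h0 h1
    fin_cases j <;> fin_cases j' <;> simp
  · simp only [vec, Pi.smul_apply, smul_eq_mul] at h2
    simp at h2
  · simp only [vec, Pi.smul_apply, smul_eq_mul] at h0 h2
    simp only [Matrix.cons_val_zero, Matrix.cons_val] at h0 h2
    have ha : a = 0 := by simpa using h2
    rw [ha] at h0
    simp at h0
  · simp only [vec, Pi.smul_apply, smul_eq_mul] at h0 h1
    simp only [Matrix.cons_val_zero, Matrix.cons_val_one] at h0 h1
    have ha : a = 1 := by simpa using h0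
    rw [ha, one_mul] at h1
    rw [hτ h1]

open Classical in
/-- the eleven points -/
noncomputable def XX (τ : Fin 8 → k) : Finset (ℙ k (Fin 3 → k)) :=
  Finset.univ.image fun j => Projectivization.mk k (vec τ j) (vec_ne τ j)

lemma XX_card {τ : Fin 8 → k} (hτ : Function.Injective τ) : (XX τ).card = 11 := by
  classical
  unfold XX
  rw [Finset.card_image_of_injective]
  · simp
  · intro j j' h
    rw [Projectivization.mk_eq_mk_iff'] at h
    obtain ⟨a, ha⟩ := h
    exact vec_inj hτ j j' a ha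

lemma mem_XX (τ : Fin 8 → k) (j : Fin 3 ⊕ Fin 8) :
    Projectivization.mk k (vec τ j) (vec_ne τ j) ∈ XX τ := by
  classical
  exact Finset.mem_image_of_mem _ (Finset.mem_univ j)

lemma vec0 (τ : Fin 8 → k) : vec τ (Sum.inl 0) = ![0, 0, 1] := by simp [vec]
lemma vec1 (τ : Fin 8 → k) : vec τ (Sum.inl 1) = ![1, 0, 1] := by simp [vec]
lemma vec2 (τ : Fin 8 → k) : vec τ (Sum.inl 2) = ![0, 1, 1] := by simp [vec]
lemma vecl (τ : Fin 8 → k) (i : Fin 8) : vec τ (Sum.inr i) = ![1, τ i, 0] := rfl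

lemma cnd {τ : Fin 8 → k} {g : MvPolynomial (Fin 3) k} (hg : g ∈ pointIdeal (XX τ)) :
    Cnd τ g where
  h0 := by rw [← vec0 τ]; exact ideal_le (vec_ne τ _) (mem_XX τ _) hg
  h1 := by rw [← vec1 τ]; exact ideal_le (vec_ne τ _) (mem_XX τ _) hg
  h2 := by rw [← vec2 τ]; exact ideal_le (vec_ne τ _) (mem_XX τ _) hg
  hl := by intro i; rw [← vecl τ]; exact ideal_le (vec_ne τ _) (mem_XX τ _) hg

lemma vanB (τ : Fin 8 → k) (i : Fin 4) (P : ℙ k (Fin 3 → k)) (hP : P ∈ XX τ) :
    eval P.rep (BB τ i) = 0 := by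
  classical
  obtain ⟨j, -, rfl⟩ := Finset.mem_image.1 hP
  rw [eval_rep (vec_ne τ j) (homB τ i)]
  obtain ⟨e0, e1, e2, e3⟩ := evalB τ i
  rcases j with j | j
  · have hj : j = 0 ∨ j = 1 ∨ j = 2 := by
      fin_cases j <;> simp
    rcases hj with rfl | rfl | rfl
    · rw [vec0]; exact e0
    · rw [vec1]; exact e1
    · rw [vec2]; exact e2
  · rw [vecl]; exact e3 j

lemma memB (τ : Fin 8 → k) (i : Fin 4) : BB τ i ∈ pointIdeal (XX τ) :=
  Ideal.subset_span ⟨⟨_, homB τ i⟩, vanB τ i⟩

lemma not_three {τ : Fin 8 → k} (hτ : Function.Injective τ)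
    (g : Fin 3 → MvPolynomial (Fin 3) k) : Ideal.span (Set.range g) ≠ pointIdeal (XX τ) := by
  intro hg
  have hgm : ∀ j, g j ∈ pointIdeal (XX τ) := fun j => by
    rw [← hg]
    exact Ideal.subset_span ⟨j, rfl⟩
  let L : MvPolynomial (Fin 3) k →ₗ[k] (Fin 4 → k) := LinearMap.pi fun i => lcoeff k (MM i)
  have hL : ∀ p i, L p i = coeff (MM i) p := fun p i => rfl
  have hmul : ∀ (c : MvPolynomial (Fin 3) k) (j : Fin 3), L (c * g j) = constantCoeff c • L (g j) := by
    intro c j
    funext i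
    have h1 := (cnd (hgm j)).mul_coeff hτ (c - C (constantCoeff c)) (by simp) i
    rw [sub_mul, coeff_sub, coeff_C_mul, sub_eq_zero] at h1
    rw [Pi.smul_apply, smul_eq_mul, hL, hL]
    exact h1
  have hspan : (⊤ : Submodule k (Fin 4 → k)) ≤
      Submodule.span k (Set.range fun j => L (g j)) := by
    rw [← (Pi.basisFun k (Fin 4)).span_eq, Submodule.span_le]
    rintro _ ⟨i, rfl⟩
    have h1 := memB τ i
    rw [← hg, Ideal.mem_span_range_iff_exists_fun] at h1
    obtain ⟨c, hc⟩ := h1
    have h2 : L (BB τ i) = Pi.basisFun k (Fin 4) i := by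
      funext j
      rw [hL, coeffB, Pi.basisFun_apply, Pi.single_apply]
      by_cases h : i = j
      · rw [if_pos h, if_pos h.symm]
      · rw [if_neg h, if_neg (fun h' => h h'.symm)]
    rw [← h2, ← hc, map_sum]
    refine Submodule.sum_mem _ fun j _ => ?_
    rw [hmul]
    exact Submodule.smul_mem _ _ (Submodule.subset_span ⟨j, rfl⟩)
  have h1 := finrank_range_le_card (R := k) (fun j => L (g j))
  have h2 : Set.finrank k (Set.range fun j => L (g j)) = 4 := by
    unfold Set.finrank
    rw [top_le_iff.1 hspan, finrank_top, Module.finrank_fintype_fun_eq_card, Fintype.card_fin]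
  rw [h2, Fintype.card_fin] at h1
  omega

end Ex3L

/-- sets on a cubic are not in generic position -/
theorem not_generic {k : Type*} [Field k] (X : Finset (ℙ k (Fin 3 → k))) (hX : X.card = 11)
    (F : MvPolynomial (Fin 3) k) (hF : F.IsHomogeneous 3) (hF0 : F ≠ 0) (h : ∀ P ∈ X, eval P.rep F = 0) :
    ¬ GenericPosition X := by
  intro hgen
  have h1 := hgen 3
  rw [hX] at h1
  have h2 : min (Nat.choose (3 + 2) 2) 11 = 10 := by decide
  rw [h2] at h1
  have h3 : Module.finrank k (homogeneousSubmodule (Fin 3) k 3) = 10 := by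
    rw [HilbL.finrank_hom]
    decide
  have hfin : Module.Finite k (homogeneousSubmodule (Fin 3) k 3) :=
    Module.finite_of_finrank_pos (by omega)
  have h4 := Submodule.finrank_quotient_add_finrank (vanishingForms X 3)
  unfold hilb at h1
  rw [h1, h3] at h4
  have h5 : Module.finrank k (vanishingForms X 3) = 0 := by omega
  rw [Submodule.finrank_eq_zero] at h5
  have h6 : (⟨F, hF⟩ : homogeneousSubmodule (Fin 3) k 3) ∈ vanishingForms X 3 := by
    unfold vanishingForms
    simp only [Submodule.mem_iInf]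
    intro P hP
    rw [LinearMap.mem_ker]
    have := h P hP
    change aeval P.rep F = 0
    rw [aeval_eq_eval]
    exact this
  rw [h5, Submodule.mem_bot] at h6
  exact hF0 (congrArg Subtype.val h6)

/-- eleven points on a cubic whose ideal is not generated by three elements -/
theorem example3 {k : Type*} [Field k] [Infinite k] : ∃ X : Finset (ℙ k (Fin 3 → k)), X.card = 11 ∧
    (∃ F : MvPolynomial (Fin 3) k, F.IsHomogeneous 3 ∧ F ≠ 0 ∧ ∀ P ∈ X, eval P.rep F = 0) ∧
    ∀ g : Fin 3 → MvPolynomial (Fin 3) k, Ideal.span (Set.range g) ≠ pointIdeal X := by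
  let τ : Fin 8 → k := fun i => Infinite.natEmbedding k i
  have hτ : Function.Injective τ := by
    intro i j h
    exact Fin.ext ((Infinite.natEmbedding k).injective h)
  refine ⟨Ex3L.XX τ, Ex3L.XX_card hτ, ⟨Ex3L.BB τ 0, Ex3L.homB τ 0, ?_, Ex3L.vanB τ 0⟩,
    Ex3L.not_three hτ⟩
  intro h0
  have h1 := Ex3L.coeffB τ 0 0
  rw [h0, coeff_zero, if_pos rfl] at h1
  exact zero_ne_one h1

end Pool.Agent.H873.RT
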