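import Mathlib

set_option autoImplicit false

namespace Pool.Agent.H873.RT

open MvPolynomial
open scoped LinearAlgebra.Projectivization

namespace Frame

/-- scaling of the argument of a homogeneous polynomial -/
theorem eval_scale {k : Type*} [Field k] (F : MvPolynomial (Fin 3) k) (d : ℕ)
    (hF : F.IsHomogeneous d) (c : k) (O : Fin 3 → k) :
    eval (fun i => c * O i) F = c ^ d * eval O F := by
  rw [eval_eq', eval_eq', Finset.mul_sum]
  refine Finset.sum_congr rfl fun m hm => ?_
  have h1 : m.degree = d := by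
    by_contra h
    exact (mem_support_iff.1 hm) (hF.coeff_eq_zero h)
  have h2 : ∏ i, (c * O i) ^ m i = c ^ d * ∏ i, O i ^ m i := by
    rw [← h1, Finsupp.degree_eq_sum, ← Finset.prod_pow_eq_pow_sum, ← Finset.prod_mul_distrib]
    exact Finset.prod_congr rfl fun i _ => mul_pow _ _ _
  rw [h2]
  ring

/-- completing a nonzero vector to an invertible matrix -/
theorem exists_matrix {k : Type*} [Field k] (O : Fin 3 → k) (hO : O ≠ 0) :
    ∃ A A' : Matrix (Fin 3) (Fin 3) k, A * A' = 1 ∧ A' * A = 1 ∧ ∀ i, A i 0 = O i := by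
  obtain ⟨A, hA, hA0⟩ : ∃ A : Matrix (Fin 3) (Fin 3) k, A.det ≠ 0 ∧ ∀ i, A i 0 = O i := by
    by_cases h0 : O 0 = 0
    · by_cases h1 : O 1 = 0
      · have h2 : O 2 ≠ 0 := by
          intro h2
          apply hO
          funext i
          fin_cases i
          · exact h0
          · exact h1
          · exact h2
        refine ⟨!![O 0, 1, 0; O 1, 0, 1; O 2, 0, 0], ?_, ?_⟩
        · rw [Matrix.det_fin_three]
          simpa using h2
        · intro i
          fin_cases i
          · rfl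
          · rfl
          · rfl
      · refine ⟨!![O 0, 1, 0; O 1, 0, 0; O 2, 0, 1], ?_, ?_⟩
        · rw [Matrix.det_fin_three]
          simpa using h1
        · intro i
          fin_cases i
          · rfl
          · rfl
          · rfl
    · refine ⟨!![O 0, 0, 0; O 1, 1, 0; O 2, 0, 1], ?_, ?_⟩
      · rw [Matrix.det_fin_three]
        simpa using h0
      · intro i
        fin_cases i
        · rfl
        · rfl
        · rfl
  have hu : IsUnit A.det := isUnit_iff_ne_zero.2 hA
  exact ⟨A, A⁻¹, Matrix.mul_nonsing_inv A hu, Matrix.nonsing_inv_mul A hu, hA0⟩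

end Frame

/-- a frame with first point off the curve `F = 0` and a line through it missing `X` -/
theorem exists_frame {k : Type*} [Field k] [Infinite k] (X : Finset (ℙ k (Fin 3 → k)))
    (F : MvPolynomial (Fin 3) k) (d : ℕ) (hd : 0 < d) (hF : F.IsHomogeneous d) (hF0 : F ≠ 0)
    (hX : ∀ P ∈ X, eval P.rep F = 0) :
    ∃ g g' : Matrix (Fin 3) (Fin 3) k, g * g' = 1 ∧ g' * g = 1 ∧ eval (fun i => g i 0) F ≠ 0 ∧
      ∀ P ∈ X, (g'.mulVec P.rep) 2 ≠ 0 := by
  classical
  obtain ⟨O, hOF⟩ : ∃ O : Fin 3 → k, eval O F ≠ 0 := by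
    by_contra hcon
    apply hF0
    apply MvPolynomial.funext
    intro x
    rw [map_zero]
    by_contra hx
    exact hcon ⟨x, hx⟩
  have hO : O ≠ 0 := by
    intro h0
    apply hOF
    have h1 := Frame.eval_scale F d hF 0 O
    rw [zero_pow hd.ne', zero_mul] at h1
    have e : (fun i => (0 : k) * O i) = O := by
      funext i
      rw [h0, zero_mul]
      rfl
    rw [e] at h1
    exact h1
  obtain ⟨A, A', hAA', hA'A, hA0⟩ := Frame.exists_matrix O hO
  have hw : ∀ P ∈ X, (A'.mulVec P.rep) 1 = 0 → (A'.mulVec P.rep) 2 = 0 → False := by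
    intro P hP h1 h2
    have h3 : P.rep = A.mulVec (A'.mulVec P.rep) := by
      rw [Matrix.mulVec_mulVec, hAA', Matrix.one_mulVec]
    have h4 : P.rep = fun i => (A'.mulVec P.rep) 0 * O i := by
      funext i
      have h5 := congrFun h3 i
      rw [h5]
      have h6 : (A.mulVec (A'.mulVec P.rep)) i = ∑ j, A i j * (A'.mulVec P.rep) j := rfl
      rw [h6, Fin.sum_univ_three, h1, h2, hA0]
      ring
    have h7 : (A'.mulVec P.rep) 0 ≠ 0 := by
      intro h8
      apply P.rep_nonzero
      rw [h4]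
      funext i
      rw [h8, zero_mul]
      rfl
    have h9 := hX P hP
    rw [h4, Frame.eval_scale F d hF] at h9
    rcases mul_eq_zero.1 h9 with h10 | h10
    · exact h7 (pow_eq_zero_iff hd.ne' |>.1 h10)
    · exact hOF h10
  obtain ⟨p, hp⟩ := Infinite.exists_notMem_finset
    (X.image fun P => -(A'.mulVec P.rep) 2 / (A'.mulVec P.rep) 1)
  have hD : (!![1, 0, 0; 0, 1, 0; 0, -p, 1] : Matrix (Fin 3) (Fin 3) k) *
      !![1, 0, 0; 0, 1, 0; 0, p, 1] = 1 := by
    ext i j
    fin_cases i <;> fin_cases j <;> simp [Matrix.mul_apply, Fin.sum_univ_three]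
  have hD' : (!![1, 0, 0; 0, 1, 0; 0, p, 1] : Matrix (Fin 3) (Fin 3) k) *
      !![1, 0, 0; 0, 1, 0; 0, -p, 1] = 1 := by
    ext i j
    fin_cases i <;> fin_cases j <;> simp [Matrix.mul_apply, Fin.sum_univ_three]
  refine ⟨A * !![1, 0, 0; 0, 1, 0; 0, -p, 1], !![1, 0, 0; 0, 1, 0; 0, p, 1] * A', ?_, ?_, ?_, ?_⟩
  · rw [Matrix.mul_assoc, ← Matrix.mul_assoc _ _ A', hD, Matrix.one_mul, hAA']
  · rw [Matrix.mul_assoc, ← Matrix.mul_assoc A' A, hA'A, Matrix.one_mul, hD']
  · have e : (fun i => (A * !![1, 0, 0; 0, 1, 0; 0, -p, 1] : Matrix (Fin 3) (Fin 3) k) i 0) = O := by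
      funext i
      rw [Matrix.mul_apply, Fin.sum_univ_three]
      simp [hA0]
    rw [e]
    exact hOF
  · intro P hP h
    rw [← Matrix.mulVec_mulVec] at h
    have h1 : ((!![1, 0, 0; 0, 1, 0; 0, p, 1] : Matrix (Fin 3) (Fin 3) k).mulVec
        (A'.mulVec P.rep)) 2 = p * (A'.mulVec P.rep) 1 + (A'.mulVec P.rep) 2 := by
      rw [Matrix.mulVec, dotProduct, Fin.sum_univ_three]
      simp
    rw [h1] at h
    by_cases h2 : (A'.mulVec P.rep) 1 = 0
    · rw [h2, mul_zero, zero_add] at h
      exact hw P hP h2 h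
    · apply hp
      rw [Finset.mem_image]
      refine ⟨P, hP, ?_⟩
      rw [div_eq_iff h2]
      linear_combination -h

end Pool.Agent.H873.RT
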