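import Mathlib

set_option autoImplicit false

namespace Pool.Agent.H873.RT

open MvPolynomial

namespace MinCount

variable {k : Type*} [Field k]

/-- homogeneous components of a product with a homogeneous polynomial -/
theorem comp_mul (b f : MvPolynomial (Fin 3) k) (e n : ℕ) (hf : f.IsHomogeneous e) :
    homogeneousComponent n (b * f) = ∑ i ∈ Finset.range (b.totalDegree + 1),
      if n = i + e then homogeneousComponent i b * f else 0 := by
  conv_lhs => rw [← sum_homogeneousComponent b]
  rw [Finset.sum_mul, map_sum]
  refine Finset.sum_congr rfl fun i _ => ?_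
  exact homogeneousComponent_of_mem ((homogeneousComponent_isHomogeneous i b).mul hf)

/-- the coefficients of a relation between minimal generators vanish at the origin -/
theorem rel_zero {m : ℕ} (f : Fin m → MvPolynomial (Fin 3) k)
    (hom : ∀ i, ∃ d, (f i).IsHomogeneous d)
    (hmin : ∀ i, f i ∉ Ideal.span (f '' {j | j ≠ i})) (b : Fin m → MvPolynomial (Fin 3) k)
    (h : ∑ l, b l * f l = 0) (j : Fin m) : coeff 0 (b j) = 0 := by
  classical
  by_contra hne
  choose e he using hom
  have h1 : ∑ l, homogeneousComponent (e j) (b l * f l) = 0 := by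
    rw [← map_sum, h, map_zero]
  have h2 : homogeneousComponent (e j) (b j * f j) = C (coeff 0 (b j)) * f j := by
    rw [comp_mul (b j) (f j) (e j) (e j) (he j), Finset.sum_eq_single 0]
    · rw [if_pos (zero_add _).symm, homogeneousComponent_zero]
    · intro i _ hi
      rw [if_neg]
      intro h'
      omega
    · intro h'
      exact absurd (Finset.mem_range.2 (Nat.succ_pos _)) h'
  have h3 : ∀ l, l ≠ j → homogeneousComponent (e j) (b l * f l) ∈
      Ideal.span (f '' {i | i ≠ j}) := by
    intro l hl
    rw [comp_mul (b l) (f l) (e l) (e j) (he l)]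
    refine Ideal.sum_mem _ fun i _ => ?_
    split_ifs
    · exact Ideal.mul_mem_left _ _ (Ideal.subset_span ⟨l, hl, rfl⟩)
    · exact Ideal.zero_mem _
  have h4 : C (coeff 0 (b j)) * f j ∈ Ideal.span (f '' {i | i ≠ j}) := by
    rw [← h2]
    have h5 : homogeneousComponent (e j) (b j * f j) =
        -∑ l ∈ Finset.univ.erase j, homogeneousComponent (e j) (b l * f l) := by
      rw [← Finset.add_sum_erase _ _ (Finset.mem_univ j)] at h1
      exact eq_neg_of_add_eq_zero_left h1
    rw [h5]
    refine Ideal.neg_mem_iff _ |>.2 (Ideal.sum_mem _ fun l hl => ?_)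
    exact h3 l (Finset.ne_of_mem_erase hl)
  apply hmin j
  have h6 : f j = C (coeff 0 (b j))⁻¹ * (C (coeff 0 (b j)) * f j) := by
    rw [← mul_assoc, ← C_mul, inv_mul_cancel₀ hne, C_1, one_mul]
  rw [h6]
  exact Ideal.mul_mem_left _ _ h4

end MinCount

open MinCount in
/-- a minimal homogeneous generating family has the least number of elements -/
theorem card_le {k : Type*} [Field k] {m n : ℕ} (f : Fin m → MvPolynomial (Fin 3) k)
    (hom : ∀ i, ∃ d, (f i).IsHomogeneous d)
    (hmin : ∀ i, f i ∉ Ideal.span (f '' {j | j ≠ i})) (g : Fin n → MvPolynomial (Fin 3) k)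
    (h : Ideal.span (Set.range f) = Ideal.span (Set.range g)) : m ≤ n := by
  classical
  have hf : ∀ i, ∃ c : Fin n → MvPolynomial (Fin 3) k, ∑ j, c j * g j = f i := by
    intro i
    have h1 : f i ∈ Ideal.span (Set.range g) := by
      rw [← h]
      exact Ideal.subset_span ⟨i, rfl⟩
    exact Ideal.mem_span_range_iff_exists_fun.1 h1
  have hg : ∀ i, ∃ d : Fin m → MvPolynomial (Fin 3) k, ∑ j, d j * f j = g i := by
    intro i
    have h1 : g i ∈ Ideal.span (Set.range f) := by
      rw [h]
      exact Ideal.subset_span ⟨i, rfl⟩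
    exact Ideal.mem_span_range_iff_exists_fun.1 h1
  choose c hc using hf
  choose d hd using hg
  have h1 : ∀ i l, constantCoeff (∑ j, c i j * d j l - if i = l then 1 else 0) = 0 := by
    intro i l
    rw [constantCoeff_eq]
    refine rel_zero f hom hmin (fun l => ∑ j, c i j * d j l - if i = l then 1 else 0) ?_ l
    have h2 : ∑ l, (∑ j, c i j * d j l) * f l = f i := by
      calc ∑ l, (∑ j, c i j * d j l) * f l = ∑ l, ∑ j, c i j * (d j l * f l) := by
            refine Finset.sum_congr rfl fun l _ => ?_
            rw [Finset.sum_mul]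
            exact Finset.sum_congr rfl fun j _ => mul_assoc _ _ _
        _ = ∑ j, ∑ l, c i j * (d j l * f l) := Finset.sum_comm
        _ = ∑ j, c i j * g j := by
            refine Finset.sum_congr rfl fun j _ => ?_
            rw [← Finset.mul_sum, hd]
        _ = f i := hc i
    have h3 : ∑ l, (if i = l then (1 : MvPolynomial (Fin 3) k) else 0) * f l = f i := by
      simp
    simp only [sub_mul, Finset.sum_sub_distrib]
    rw [h2, h3, sub_self]
  -- matrices of constant terms
  obtain ⟨A, hA⟩ : ∃ A : Matrix (Fin m) (Fin n) k, ∀ i j, A i j = constantCoeff (c i j) :=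
    ⟨fun i j => constantCoeff (c i j), fun _ _ => rfl⟩
  obtain ⟨D, hD⟩ : ∃ D : Matrix (Fin n) (Fin m) k, ∀ i j, D i j = constantCoeff (d i j) :=
    ⟨fun i j => constantCoeff (d i j), fun _ _ => rfl⟩
  have h4 : A * D = 1 := by
    ext i l
    rw [Matrix.mul_apply, Matrix.one_apply]
    have h5 := h1 i l
    rw [map_sub, map_sum, sub_eq_zero] at h5
    simp only [map_mul] at h5
    rw [Finset.sum_congr rfl fun j _ => by rw [hA, hD], h5]
    split_ifs
    · exact map_one _
    · exact map_zero _
  have h6 : Function.Injective (Matrix.mulVecLin D) := by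
    intro v w hvw
    have h7 : A.mulVec (D.mulVec v) = A.mulVec (D.mulVec w) := by
      have : D.mulVec v = D.mulVec w := hvw
      rw [this]
    rwa [Matrix.mulVec_mulVec, Matrix.mulVec_mulVec, h4, Matrix.one_mulVec,
      Matrix.one_mulVec] at h7
  have h8 := card_le_of_injective k (Matrix.mulVecLin D) h6
  simpa using h8

end Pool.Agent.H873.RT
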