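import Pool.Agent.H873.RT.Defs

set_option autoImplicit false

namespace Pool.Agent.H873.RT

open MvPolynomial

section NForm

variable {k : Type*} [Field k]

theorem nf_mem {s : Finset (k × k)} {f : R k} : f ∈ IX s ↔ ∀ P ∈ s, evP P f = 0 := by
  unfold IX
  simp only [Submodule.mem_iInf, RingHom.mem_ker]

theorem nf_evX (P : k × k) :
    evP P (Polynomial.X : R k) = Polynomial.C P.1 * Polynomial.X := by
  unfold evP
  rw [Polynomial.coe_eval₂RingHom, Polynomial.eval₂_X]

theorem nf_evC (P : k × k) (b : A k) : evP P (Polynomial.C b) =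
    MvPolynomial.eval₂Hom Polynomial.C ![Polynomial.C P.2 * Polynomial.X, Polynomial.X] b := by
  unfold evP
  rw [Polynomial.coe_eval₂RingHom, Polynomial.eval₂_C]

theorem nf_ev0 (P : k × k) :
    evP P (Polynomial.C (X 0) : R k) = Polynomial.C P.2 * Polynomial.X := by
  rw [nf_evC, MvPolynomial.eval₂Hom_X']
  rfl

theorem nf_ev1 (P : k × k) : evP P (Polynomial.C (X 1) : R k) = Polynomial.X := by
  rw [nf_evC, MvPolynomial.eval₂Hom_X']
  rfl

theorem nf_evk (P : k × k) (r : k) : evP P (Polynomial.C (C r) : R k) = Polynomial.C r := by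
  rw [nf_evC, MvPolynomial.eval₂Hom_C]

theorem nf_hom (P : k × k) {d : ℕ} {f : R k} (hf : HomR d f) :
    ∃ c : k, evP P f = Polynomial.C c * Polynomial.X ^ d := by
  have hsum : f = ∑ j ∈ f.support, ∑ m ∈ (f.coeff j).support,
      Polynomial.C (monomial m ((f.coeff j).coeff m)) * Polynomial.X ^ j := by
    conv_lhs => rw [f.as_sum_support_C_mul_X_pow]
    refine Finset.sum_congr rfl fun j _ => ?_
    rw [← Finset.sum_mul, ← map_sum]
    conv_lhs => rw [← (f.coeff j).support_sum_monomial_coeff]
  rw [hsum, map_sum]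
  apply Finset.sum_induction _ (fun g : Polynomial k => ∃ c : k,
    g = Polynomial.C c * Polynomial.X ^ d)
  · rintro _ _ ⟨c, rfl⟩ ⟨c', rfl⟩
    exact ⟨c + c', by rw [map_add, add_mul]⟩
  · exact ⟨0, by rw [map_zero, zero_mul]⟩
  intro j _
  rw [map_sum]
  apply Finset.sum_induction _ (fun g : Polynomial k => ∃ c : k,
    g = Polynomial.C c * Polynomial.X ^ d)
  · rintro _ _ ⟨c, rfl⟩ ⟨c', rfl⟩
    exact ⟨c + c', by rw [map_add, add_mul]⟩
  · exact ⟨0, by rw [map_zero, zero_mul]⟩
  intro m hm
  have hd : m.degree + j = d := hf j m (MvPolynomial.mem_support_iff.1 hm)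
  have hm2 : m.degree = m 0 + m 1 := by
    rw [Finsupp.degree_eq_sum, Fin.sum_univ_two]
  refine ⟨(f.coeff j).coeff m * P.2 ^ m 0 * P.1 ^ j, ?_⟩
  rw [map_mul, map_pow, nf_evX, nf_evC, MvPolynomial.eval₂Hom_monomial,
    Finsupp.prod_fintype _ _ (fun i => pow_zero _), Fin.prod_univ_two, ← hd, hm2]
  simp only [Matrix.cons_val_zero, Matrix.cons_val_one, map_mul, map_pow]
  ring

theorem nf_mul {d e : ℕ} {b : A k} {f : R k} (hb : ∀ m, b.coeff m ≠ 0 → m.degree = e)
    (hf : HomR d f) : HomR (e + d) (Polynomial.C b * f) := by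
  intro j m hjm
  rw [Polynomial.coeff_C_mul, MvPolynomial.coeff_mul] at hjm
  obtain ⟨⟨m1, m2⟩, hm, hne⟩ := Finset.exists_ne_zero_of_sum_ne_zero hjm
  have h1 := hb m1 (left_ne_zero_of_mul hne)
  have h2 := hf j m2 (right_ne_zero_of_mul hne)
  have h3 : m1 + m2 = m := Finset.HasAntidiagonal.mem_antidiagonal.1 hm
  rw [← h3, map_add, h1, ← h2, add_assoc]

theorem nf_sub {d : ℕ} {f g : R k} (hf : HomR d f) (hg : HomR d g) : HomR d (f - g) := by
  intro j m hjm
  rw [Polynomial.coeff_sub, MvPolynomial.coeff_sub] at hjm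
  by_cases h : (f.coeff j).coeff m = 0
  · rw [h, zero_sub] at hjm
    exact hg j m (neg_ne_zero.1 hjm)
  · exact hf j m h

/-- the linear form of the second coordinate -/
noncomputable def nfy (q : k) : A k := X 0 - C q * X 1

theorem nfy_ne (q : k) : nfy q ≠ 0 := by
  intro h
  have h1 := congrArg (MvPolynomial.eval ![1, 0]) h
  unfold nfy at h1
  simp at h1

theorem nfy_ev (P : k × k) (q : k) : evP P (Polynomial.C (nfy q) : R k) =
    Polynomial.C (P.2 - q) * Polynomial.X := by
  unfold nfy
  rw [map_sub, map_mul, map_sub, map_mul, nf_ev0, nf_evk, nf_ev1, map_sub, sub_mul]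

theorem nfy_hom (q : k) : ∀ m, (nfy q).coeff m ≠ 0 → m.degree = 1 := by
  intro m hm
  unfold nfy at hm
  rw [MvPolynomial.coeff_sub, MvPolynomial.coeff_C_mul, MvPolynomial.coeff_X,
    MvPolynomial.coeff_X] at hm
  by_cases h0 : Finsupp.single 0 1 = m
  · rw [← h0, Finsupp.degree_single]
  · by_cases h1 : Finsupp.single 1 1 = m
    · rw [← h1, Finsupp.degree_single]
    · rw [if_neg h0, if_neg h1, mul_zero, sub_zero] at hm
      exact absurd rfl hm

theorem nf_pow_hom (r : k) (n : ℕ) :
    ∀ m, (C r * X 1 ^ n : A k).coeff m ≠ 0 → m.degree = n := by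
  intro m hm
  rw [MvPolynomial.coeff_C_mul, MvPolynomial.coeff_X_pow] at hm
  by_cases h1 : Finsupp.single 1 n = m
  · rw [← h1, Finsupp.degree_single]
  · rw [if_neg h1, mul_zero] at hm
    exact absurd rfl hm

/-- the kernel of the substitution `y ↦ q z` -/
theorem nfy_dvd (P : k × k) {b : A k} (hb : evP P (Polynomial.C b) = 0) : nfy P.2 ∣ b := by
  rw [nf_evC] at hb
  rw [← Ideal.mem_span_singleton, ← Ideal.Quotient.eq_zero_iff_mem]
  have hring : (Ideal.Quotient.mk (Ideal.span {nfy P.2})) =
      ((Ideal.Quotient.mk (Ideal.span {nfy P.2})).comp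
        (Polynomial.eval₂RingHom (C : k →+* A k) (X 1))).comp
        (MvPolynomial.eval₂Hom Polynomial.C
          ![Polynomial.C P.2 * Polynomial.X, Polynomial.X]) := by
    apply MvPolynomial.ringHom_ext
    · intro r
      rw [RingHom.comp_apply, RingHom.comp_apply, MvPolynomial.eval₂Hom_C,
        Polynomial.coe_eval₂RingHom, Polynomial.eval₂_C]
    · intro i
      rw [RingHom.comp_apply, RingHom.comp_apply, MvPolynomial.eval₂Hom_X']
      fin_cases i
      · show Ideal.Quotient.mk _ (X 0) = Ideal.Quotient.mk _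
          (Polynomial.eval₂RingHom (C : k →+* A k) (X 1) (Polynomial.C P.2 * Polynomial.X))
        rw [Polynomial.coe_eval₂RingHom, Polynomial.eval₂_mul, Polynomial.eval₂_C,
          Polynomial.eval₂_X, Ideal.Quotient.eq]
        exact Ideal.subset_span rfl
      · show Ideal.Quotient.mk _ (X 1) = Ideal.Quotient.mk _
          (Polynomial.eval₂RingHom (C : k →+* A k) (X 1) Polynomial.X)
        rw [Polynomial.coe_eval₂RingHom, Polynomial.eval₂_X]
  rw [hring, RingHom.comp_apply, hb, map_zero]

theorem nf_empty (F : R k) (hF : F.Monic) (hd : F.natDegree = 3) (hom : HomR 3 F)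
    (hm : F ∈ IX (∅ : Finset (k × k))) :
    NF (∅ : Finset (k × k)) F (fun i => Polynomial.X ^ (i : ℕ)) (fun i => i) where
  monic := hF
  deg := hd
  hom := hom
  memF := hm
  degG i := by
    rw [Polynomial.natDegree_X_pow]
    omega
  homG i := by
    intro j m hjm
    rw [Polynomial.coeff_X_pow] at hjm
    by_cases h : j = (i : ℕ)
    · rw [if_pos h, MvPolynomial.coeff_one] at hjm
      by_cases h0 : 0 = m
      · rw [← h0, h, map_zero, zero_add]
      · rw [if_neg h0] at hjm
        exact absurd rfl hjm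
    · rw [if_neg h, MvPolynomial.coeff_zero] at hjm
      exact absurd rfl hjm
  memG i := nf_mem.2 fun P hP => absurd hP (Finset.notMem_empty P)
  span f _ := by
    have hdeg : (f %ₘ F).natDegree < 3 := by
      rw [← hd]
      apply Polynomial.natDegree_modByMonic_lt _ hF
      intro h1
      rw [h1, Polynomial.natDegree_one] at hd
      omega
    refine ⟨f /ₘ F, fun i => (f %ₘ F).coeff i, ?_⟩
    have h1 := Polynomial.modByMonic_add_div f F
    have h2 := (f %ₘ F).as_sum_range_C_mul_X_pow' hdeg
    rw [Finset.sum_range] at h2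
    rw [← h2, mul_comm, add_comm]
    exact h1.symm
  det := by
    have h1 : (Matrix.of fun i j : Fin 3 => ((Polynomial.X : R k) ^ (i : ℕ)).coeff (j : ℕ)) =
        1 := by
      ext1 i j
      rw [Matrix.of_apply, Polynomial.coeff_X_pow, Matrix.one_apply]
      by_cases h : i = j
      · rw [if_pos h, if_pos (by rw [h])]
      · rw [if_neg h, if_neg (fun h' => h (Fin.ext h'.symm))]
    rw [h1, Matrix.det_one]
    exact one_ne_zero

/-- some generator does not vanish at a new point -/
theorem nf_exists {s : Finset (k × k)} {P : k × k} (hP : P ∉ s) {F : R k} {G : Fin 3 → R k}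
    {a : Fin 3 → ℕ} (h : NF s F G a) (hF : evP P F = 0) : ∃ i, evP P (G i) ≠ 0 := by
  by_contra hcon
  push Not at hcon
  have hall : ∀ f ∈ IX s, evP P f = 0 := by
    intro f hf
    obtain ⟨c, al, rfl⟩ := h.span f hf
    rw [map_add, map_mul, hF, mul_zero, zero_add, map_sum]
    refine Finset.sum_eq_zero fun i _ => ?_
    rw [map_mul, hcon i, mul_zero]
  classical
  let L : k × k → R k := fun P' => if P'.1 = P.1 then Polynomial.C (nfy P'.2)
    else Polynomial.X - Polynomial.C (C P'.1 * X 1)
  have hL0 : ∀ P', evP P' (L P') = 0 := by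
    intro P'
    show evP P' (if P'.1 = P.1 then Polynomial.C (nfy P'.2)
      else Polynomial.X - Polynomial.C (C P'.1 * X 1)) = 0
    split_ifs with h1
    · rw [nfy_ev, sub_self, map_zero, zero_mul]
    · rw [map_sub, nf_evX, map_mul, map_mul, nf_evk, nf_ev1, sub_self]
  have hL1 : ∀ P', P' ≠ P → evP P (L P') ≠ 0 := by
    intro P' hne
    show evP P (if P'.1 = P.1 then Polynomial.C (nfy P'.2)
      else Polynomial.X - Polynomial.C (C P'.1 * X 1)) ≠ 0
    split_ifs with h1
    · rw [nfy_ev]
      refine mul_ne_zero (Polynomial.C_ne_zero.2 (sub_ne_zero.2 fun h2 => hne ?_))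
        Polynomial.X_ne_zero
      exact Prod.ext h1 h2.symm
    · rw [map_sub, nf_evX, map_mul, map_mul, nf_evk, nf_ev1, ← sub_mul, ← map_sub]
      exact mul_ne_zero (Polynomial.C_ne_zero.2 (sub_ne_zero.2 fun h2 => h1 h2.symm))
        Polynomial.X_ne_zero
  have hmem : (∏ P' ∈ s, L P') ∈ IX s := by
    rw [nf_mem]
    intro P' hP'
    rw [map_prod]
    exact Finset.prod_eq_zero hP' (hL0 P')
  have h3 := hall _ hmem
  rw [map_prod, Finset.prod_eq_zero_iff] at h3
  obtain ⟨P', hP', h4⟩ := h3
  exact hL1 P' (fun h5 => hP (h5 ▸ hP')) h4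

theorem nf_insert [DecidableEq (k × k)] {s : Finset (k × k)} {P : k × k} (hP : P ∉ s) {F : R k}
    {G : Fin 3 → R k} {a : Fin 3 → ℕ} (h : NF s F G a) (hF : F ∈ IX (insert P s)) :
    ∃ (G' : Fin 3 → R k) (a' : Fin 3 → ℕ), NF (insert P s) F G' a' := by
  have hFP : evP P F = 0 := nf_mem.1 hF P (Finset.mem_insert_self P s)
  have hdec : DecidableEq k := Classical.decEq k
  choose c hc using fun i => nf_hom P (h.homG i)
  have hne : (Finset.univ.filter fun i : Fin 3 => c i ≠ 0).Nonempty := by
    obtain ⟨i, hi⟩ := nf_exists hP h hFP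
    refine ⟨i, Finset.mem_filter.2 ⟨Finset.mem_univ i, fun h0 => hi ?_⟩⟩
    rw [hc i, h0, map_zero, zero_mul]
  obtain ⟨i0, hi0, hmin⟩ := Finset.exists_min_image _ a hne
  have hc0 : c i0 ≠ 0 := (Finset.mem_filter.1 hi0).2
  have hle : ∀ i, c i ≠ 0 → a i0 ≤ a i := fun i hi =>
    hmin i (Finset.mem_filter.2 ⟨Finset.mem_univ i, hi⟩)
  -- the coefficients of the row operations
  let r : Fin 3 → A k := fun i => C (c i / c i0) * X 1 ^ (a i - a i0)
  have hr0 : ∀ i, c i = 0 → r i = 0 := by
    intro i hi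
    show C (c i / c i0) * X 1 ^ (a i - a i0) = 0
    rw [hi, zero_div, map_zero, zero_mul]
  let G' : Fin 3 → R k := fun i => if i = i0 then Polynomial.C (nfy P.2) * G i0
    else G i - Polynomial.C (r i) * G i0
  let a' : Fin 3 → ℕ := fun i => if i = i0 then 1 + a i0 else a i
  have hG0 : G' i0 = Polynomial.C (nfy P.2) * G i0 := if_pos rfl
  have hG1 : ∀ i, i ≠ i0 → G' i = G i - Polynomial.C (r i) * G i0 := fun i hi => if_neg hi
  have hPG : ∀ i, evP P (G' i) = 0 := by
    intro i
    by_cases hi : i = i0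
    · rw [hi, hG0, map_mul, nfy_ev, sub_self, map_zero, zero_mul, zero_mul]
    · rw [hG1 i hi, map_sub, map_mul, hc i, hc i0]
      by_cases hci : c i = 0
      · rw [hr0 i hci, hci, map_zero, map_zero, map_zero, zero_mul, zero_mul, sub_zero]
      · show Polynomial.C (c i) * Polynomial.X ^ a i -
          evP P (Polynomial.C (C (c i / c i0) * X 1 ^ (a i - a i0))) *
            (Polynomial.C (c i0) * Polynomial.X ^ a i0) = 0
        rw [map_mul, map_mul, map_pow, map_pow, nf_evk, nf_ev1]
        have h1 : Polynomial.C (c i / c i0) * Polynomial.X ^ (a i - a i0) *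
            (Polynomial.C (c i0) * Polynomial.X ^ a i0) =
            (Polynomial.C (c i / c i0) * Polynomial.C (c i0)) *
              (Polynomial.X ^ (a i - a i0) * Polynomial.X ^ a i0) := by ring
        rw [h1, ← map_mul, ← pow_add, div_mul_cancel₀ _ hc0, Nat.sub_add_cancel (hle i hci),
          sub_self]
  have hsG : ∀ i, G' i ∈ IX s := by
    intro i
    by_cases hi : i = i0
    · rw [hi, hG0]
      exact Ideal.mul_mem_left _ _ (h.memG i0)
    · rw [hG1 i hi]
      exact Ideal.sub_mem _ (h.memG i) (Ideal.mul_mem_left _ _ (h.memG i0))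
  refine ⟨G', a', h.monic, h.deg, h.hom, hF, ?_, ?_, ?_, ?_, ?_⟩
  · intro i
    by_cases hi : i = i0
    · rw [hi, hG0]
      exact (Polynomial.natDegree_C_mul_le _ _).trans (h.degG i0)
    · rw [hG1 i hi]
      exact (Polynomial.natDegree_sub_le _ _).trans
        (max_le (h.degG i) ((Polynomial.natDegree_C_mul_le _ _).trans (h.degG i0)))
  · intro i
    by_cases hi : i = i0
    · have h1 : a' i = 1 + a i0 := if_pos hi
      rw [h1, hi, hG0]
      exact nf_mul (nfy_hom P.2) (h.homG i0)
    · have h1 : a' i = a i := if_neg hi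
      rw [h1, hG1 i hi]
      apply nf_sub (h.homG i)
      by_cases hci : c i = 0
      · rw [hr0 i hci, map_zero, zero_mul]
        intro j m hjm
        rw [Polynomial.coeff_zero, MvPolynomial.coeff_zero] at hjm
        exact absurd rfl hjm
      · have h2 := nf_mul (nf_pow_hom (c i / c i0) (a i - a i0)) (h.homG i0)
        rw [Nat.sub_add_cancel (hle i hci)] at h2
        exact h2
  · intro i
    rw [nf_mem]
    intro P' hP'
    rcases Finset.mem_insert.1 hP' with rfl | hP'
    · exact hPG i
    · exact nf_mem.1 (hsG i) P' hP'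
  · intro f hf
    have hfs : f ∈ IX s := nf_mem.2 fun P' hP' => nf_mem.1 hf P' (Finset.mem_insert_of_mem hP')
    have hfP : evP P f = 0 := nf_mem.1 hf P (Finset.mem_insert_self P s)
    obtain ⟨cF, al, hal⟩ := h.span f hfs
    let b : A k := al i0 + ∑ i ∈ Finset.univ.erase i0, al i * r i
    have hb : f = cF * F + (∑ i ∈ Finset.univ.erase i0, Polynomial.C (al i) * G' i) +
        Polynomial.C b * G i0 := by
      have h1 : ∑ i, Polynomial.C (al i) * G i = Polynomial.C (al i0) * G i0 +
          ∑ i ∈ Finset.univ.erase i0, Polynomial.C (al i) * G i :=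
        (Finset.add_sum_erase _ _ (Finset.mem_univ i0)).symm
      have h2 : ∑ i ∈ Finset.univ.erase i0, Polynomial.C (al i) * G i =
          (∑ i ∈ Finset.univ.erase i0, Polynomial.C (al i) * G' i) +
          (∑ i ∈ Finset.univ.erase i0, Polynomial.C (al i * r i)) * G i0 := by
        rw [Finset.sum_mul, ← Finset.sum_add_distrib]
        refine Finset.sum_congr rfl fun i hi => ?_
        have h3 : Polynomial.C (al i * r i) = Polynomial.C (al i) * Polynomial.C (r i) :=
          Polynomial.C_mul
        rw [hG1 i (Finset.ne_of_mem_erase hi), h3]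
        generalize r i = ri
        ring
      rw [hal, h1, h2]
      show _ = _ + Polynomial.C (al i0 + ∑ i ∈ Finset.univ.erase i0, al i * r i) * G i0
      rw [map_add, map_sum]
      ring
    have hbP : evP P (Polynomial.C b) = 0 := by
      rw [hb, map_add, map_add, map_mul, hFP, mul_zero, zero_add, map_sum, map_mul, hc i0] at hfP
      have h1 : ∑ i ∈ Finset.univ.erase i0, evP P (Polynomial.C (al i) * G' i) = 0 :=
        Finset.sum_eq_zero fun i _ => by rw [map_mul, hPG i, mul_zero]
      rw [h1, zero_add] at hfP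
      rcases mul_eq_zero.1 hfP with h2 | h2
      · exact h2
      · exact absurd h2 (mul_ne_zero (Polynomial.C_ne_zero.2 hc0)
          (pow_ne_zero _ Polynomial.X_ne_zero))
    obtain ⟨b', hb'⟩ := nfy_dvd P hbP
    refine ⟨cF, fun i => if i = i0 then b' else al i, ?_⟩
    have h1 : ∑ i, Polynomial.C (if i = i0 then b' else al i) * G' i =
        Polynomial.C (if i0 = i0 then b' else al i0) * G' i0 +
        ∑ i ∈ Finset.univ.erase i0, Polynomial.C (if i = i0 then b' else al i) * G' i :=
      (Finset.add_sum_erase _ _ (Finset.mem_univ i0)).symm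
    have h2 : ∑ i ∈ Finset.univ.erase i0, Polynomial.C (if i = i0 then b' else al i) * G' i =
        ∑ i ∈ Finset.univ.erase i0, Polynomial.C (al i) * G' i :=
      Finset.sum_congr rfl fun i hi => by rw [if_neg (Finset.ne_of_mem_erase hi)]
    rw [h1, h2, if_pos rfl, hG0, hb, hb', map_mul]
    ring
  · let N1 : Matrix (Fin 3) (Fin 3) (A k) := Matrix.of fun i j : Fin 3 =>
      (G i).coeff j + (if i = i0 then 0 else - r i) * (G i0).coeff j
    have hN1 : N1.det = (Matrix.of fun i j : Fin 3 => (G i).coeff j).det := by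
      apply Matrix.det_eq_of_forall_row_eq_smul_add_const
        (c := fun i => if i = i0 then 0 else - r i) (k := i0) (hk := if_pos rfl)
      intro i j
      rfl
    have hN' : (Matrix.of fun i j : Fin 3 => (G' i).coeff j) =
        N1.updateRow i0 (nfy P.2 • N1 i0) := by
      ext1 i j
      rw [Matrix.of_apply]
      by_cases hi : i = i0
      · rw [hi, Matrix.updateRow_self, hG0, Polynomial.coeff_C_mul, Pi.smul_apply, smul_eq_mul]
        show _ = nfy P.2 * ((G i0).coeff j + (if i0 = i0 then 0 else - r i0) * (G i0).coeff j)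
        rw [if_pos rfl, zero_mul, add_zero]
      · rw [Matrix.updateRow_ne hi, hG1 i hi, Polynomial.coeff_sub, Polynomial.coeff_C_mul]
        show _ = (G i).coeff j + (if i = i0 then 0 else - r i) * (G i0).coeff j
        rw [if_neg hi]
        ring
    rw [hN', Matrix.det_updateRow_smul, Matrix.updateRow_eq_self, hN1]
    exact mul_ne_zero (nfy_ne P.2) h.det

end NForm

theorem exists_nf {k : Type*} [Field k] (s : Finset (k × k)) (F : R k) (hF : F.Monic)
    (hd : F.natDegree = 3) (hom : HomR 3 F) (hm : F ∈ IX s) :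
    ∃ (G : Fin 3 → R k) (a : Fin 3 → ℕ), NF s F G a := by
  classical
  induction s using Finset.induction_on with
  | empty => exact ⟨_, _, nf_empty F hF hd hom hm⟩
  | insert P s hP ih =>
    obtain ⟨G, a, h⟩ := ih (nf_mem.2 fun P' hP' => nf_mem.1 hm P' (Finset.mem_insert_of_mem hP'))
    exact nf_insert hP h hm

end Pool.Agent.H873.RT
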