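import Pool.Agent.H873.RT.RelDefs

set_option autoImplicit false

namespace Pool.Agent.H873.RT

open MvPolynomial

variable {B : Type*} [CommRing B] {m m' : ℕ}

theorem GenIn.mono {f : Fin m → B} {r r' : ℕ} (h : r ≤ r') (hf : GenIn f r) : GenIn f r' := by
  refine le_antisymm (le_trans (le_of_eq hf) (Ideal.span_mono ?_)) (Ideal.span_le.2 fun q hq => hq.1)
  rintro q ⟨h1, n, hn, h2⟩
  exact ⟨h1, n, hn.trans h, h2⟩

namespace RelGenN

theorem genIn_iff (f : Fin m → B) (r : ℕ) :
    GenIn f r ↔ relIdeal f ≤ Ideal.span {q | q ∈ relIdeal f ∧ ∃ n ≤ r, q.IsHomogeneous n} :=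
  ⟨fun h => le_of_eq h, fun h => le_antisymm h (Ideal.span_le.2 fun _ hq => hq.1)⟩

theorem mem_rel {f : Fin m → B} {q : MvPolynomial (Fin m) B} : q ∈ relIdeal f ↔
    MvPolynomial.eval₂Hom (Polynomial.C : B →+* Polynomial B)
      (fun i => Polynomial.C (f i) * Polynomial.X) q = 0 := Iff.rfl

/-- an endomorphism is the identity modulo the `X i - ψ (X i)` -/
theorem sub_endo_mem (ψ : MvPolynomial (Fin m) B →ₐ[B] MvPolynomial (Fin m) B)
    (p : MvPolynomial (Fin m) B) :
    p - ψ p ∈ Ideal.span (Set.range fun i => X i - ψ (X i)) := by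
  set I := Ideal.span (Set.range fun i => X i - ψ (X i)) with hI
  have h : (Ideal.Quotient.mkₐ B I).comp ψ = Ideal.Quotient.mkₐ B I := by
    apply MvPolynomial.algHom_ext
    intro i
    show Ideal.Quotient.mk I (ψ (X i)) = Ideal.Quotient.mk I (X i)
    symm
    rw [Ideal.Quotient.eq]
    exact Ideal.subset_span ⟨i, rfl⟩
  have h2 : Ideal.Quotient.mk I (ψ p) = Ideal.Quotient.mk I p := DFunLike.congr_fun h p
  exact Ideal.Quotient.eq.1 h2.symm

/-- the substitution by linear forms -/
noncomputable def sub (c : Fin m' → Fin m → B) :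
    MvPolynomial (Fin m') B →ₐ[B] MvPolynomial (Fin m) B :=
  aeval fun j => ∑ i, C (c j i) * X i

theorem sub_hom (c : Fin m' → Fin m → B) {q : MvPolynomial (Fin m') B} {n : ℕ}
    (h : q.IsHomogeneous n) : (sub c q).IsHomogeneous n := by
  have := h.aeval (fun j => ∑ i, C (c j i) * X i) (n := 1) (fun j =>
    IsHomogeneous.sum _ _ _ fun i _ => isHomogeneous_C_mul_X _ _)
  rwa [one_mul] at this

theorem phi_sub {f : Fin m → B} {g : Fin m' → B} (c : Fin m' → Fin m → B)
    (hc : ∀ j, ∑ i, c j i * f i = g j) (q : MvPolynomial (Fin m') B) :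
    MvPolynomial.eval₂Hom (Polynomial.C : B →+* Polynomial B)
      (fun i => Polynomial.C (f i) * Polynomial.X) (sub c q) =
    MvPolynomial.eval₂Hom (Polynomial.C : B →+* Polynomial B)
      (fun i => Polynomial.C (g i) * Polynomial.X) q := by
  have h : (MvPolynomial.eval₂Hom (Polynomial.C : B →+* Polynomial B)
      (fun i => Polynomial.C (f i) * Polynomial.X)).comp (sub c).toRingHom =
      MvPolynomial.eval₂Hom (Polynomial.C : B →+* Polynomial B)
      (fun i => Polynomial.C (g i) * Polynomial.X) := by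
    apply MvPolynomial.ringHom_ext
    · intro b
      simp [sub]
    · intro j
      simp only [RingHom.comp_apply, AlgHom.toRingHom_eq_coe, RingHom.coe_coe, sub, aeval_X, map_sum,
        map_mul, eval₂Hom_C, eval₂Hom_X']
      rw [← hc j, map_sum, Finset.sum_mul]
      refine Finset.sum_congr rfl fun i _ => ?_
      rw [map_mul]; ring
  exact DFunLike.congr_fun h q

theorem map_rel {B' : Type*} [CommRing B'] (e : B ≃+* B') (f : Fin m → B)
    (p : MvPolynomial (Fin m) B) :
    MvPolynomial.eval₂Hom (Polynomial.C : B' →+* Polynomial B')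
      (fun i => Polynomial.C (e (f i)) * Polynomial.X) (MvPolynomial.map (e : B →+* B') p) =
    Polynomial.map (e : B →+* B') (MvPolynomial.eval₂Hom (Polynomial.C : B →+* Polynomial B)
      (fun i => Polynomial.C (f i) * Polynomial.X) p) := by
  have h : (MvPolynomial.eval₂Hom (Polynomial.C : B' →+* Polynomial B')
      (fun i => Polynomial.C (e (f i)) * Polynomial.X)).comp (MvPolynomial.map (e : B →+* B')) =
      (Polynomial.mapRingHom (e : B →+* B')).comp
        (MvPolynomial.eval₂Hom (Polynomial.C : B →+* Polynomial B)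
          (fun i => Polynomial.C (f i) * Polynomial.X)) := by
    apply MvPolynomial.ringHom_ext
    · intro b
      simp
    · intro j
      simp
  exact DFunLike.congr_fun h p

theorem map_mem {B' : Type*} [CommRing B'] (e : B ≃+* B') (f : Fin m → B)
    {p : MvPolynomial (Fin m) B} (hp : p ∈ relIdeal f) :
    MvPolynomial.map (e : B →+* B') p ∈ relIdeal (fun i => e (f i)) := by
  rw [mem_rel] at hp ⊢
  rw [map_rel, hp, Polynomial.map_zero]

theorem genIn_equiv_aux {B' : Type*} [CommRing B'] (e : B ≃+* B') (f : Fin m → B) (r : ℕ)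
    (h : GenIn f r) : GenIn (fun i => e (f i)) r := by
  rw [genIn_iff]
  intro q hq
  have h1 : MvPolynomial.map (e.symm : B' →+* B) q ∈ relIdeal f := by
    have := map_mem e.symm (fun i => e (f i)) hq
    simpa using this
  rw [h] at h1
  have h2 := Ideal.mem_map_of_mem (MvPolynomial.map (σ := Fin m) (e : B →+* B')) h1
  have h3 : MvPolynomial.map (e : B →+* B') (MvPolynomial.map (e.symm : B' →+* B) q) = q := by
    rw [MvPolynomial.map_map]
    have : (e : B →+* B').comp (e.symm : B' →+* B) = RingHom.id B' := by ext x; simp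
    rw [this, MvPolynomial.map_id]
  rw [h3, Ideal.map_span] at h2
  refine Ideal.span_mono ?_ h2
  rintro _ ⟨p, ⟨hp1, n, hn, hp2⟩, rfl⟩
  exact ⟨map_mem e f hp1, n, hn, hp2.map _⟩

theorem comp_mem (S : Set (MvPolynomial (Fin m) B)) (hS : ∀ b ∈ S, ∃ n, b.IsHomogeneous n)
    (p : MvPolynomial (Fin m) B) (hp : p ∈ Ideal.span S) :
    ∀ n, homogeneousComponent n p ∈ Ideal.span {c | c ∈ S ∧ ∃ e ≤ n, c.IsHomogeneous e} := by
  induction hp using Submodule.span_induction with
  | mem x hx =>
    intro n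
    obtain ⟨e, he⟩ := hS x hx
    rw [homogeneousComponent_of_mem he]
    split_ifs with h
    · exact Ideal.subset_span ⟨hx, e, h ▸ le_rfl, he⟩
    · exact Ideal.zero_mem _
  | zero => intro n; rw [map_zero]; exact Ideal.zero_mem _
  | add x y _ _ hx hy => intro n; rw [map_add]; exact Ideal.add_mem _ (hx n) (hy n)
  | smul a x _ hx =>
    intro n
    have h1 : a • x = ∑ i ∈ Finset.range (a.totalDegree + 1), ∑ j ∈ Finset.range (x.totalDegree + 1),
        homogeneousComponent i a * homogeneousComponent j x := by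
      rw [← Finset.sum_mul_sum, sum_homogeneousComponent, sum_homogeneousComponent, smul_eq_mul]
    rw [h1, map_sum]
    refine Ideal.sum_mem _ fun i _ => ?_
    rw [map_sum]
    refine Ideal.sum_mem _ fun j _ => ?_
    have h2 : (homogeneousComponent i a * homogeneousComponent j x).IsHomogeneous (i + j) :=
      (homogeneousComponent_isHomogeneous i a).mul (homogeneousComponent_isHomogeneous j x)
    rw [homogeneousComponent_of_mem h2]
    split_ifs with h
    · refine Ideal.mul_mem_left _ _ (Ideal.span_mono ?_ (hx j))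
      rintro c ⟨hc, e, he, hce⟩
      exact ⟨hc, e, by omega, hce⟩
    · exact Ideal.zero_mem _

end RelGenN

open RelGenN

theorem genIn_of_span (f : Fin m → B) (g : Fin m' → B)
    (h : Ideal.span (Set.range f) = Ideal.span (Set.range g)) (r : ℕ) (hr : 1 ≤ r) (hg : GenIn g r) :
    GenIn f r := by
  have h1 : ∀ j, ∃ c : Fin m → B, ∑ i, c i * f i = g j := fun j => by
    rw [← Ideal.mem_span_range_iff_exists_fun, h]
    exact Ideal.subset_span ⟨j, rfl⟩
  have h2 : ∀ i, ∃ d : Fin m' → B, ∑ j, d j * g j = f i := fun i => by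
    rw [← Ideal.mem_span_range_iff_exists_fun, ← h]
    exact Ideal.subset_span ⟨i, rfl⟩
  choose c hc using h1
  choose d hd using h2
  rw [genIn_iff]
  intro q hq
  set J := Ideal.span {q | q ∈ relIdeal f ∧ ∃ n ≤ r, q.IsHomogeneous n} with hJ
  have h3 : sub d q ∈ relIdeal g := by
    rw [mem_rel, phi_sub d hd]
    exact hq
  rw [hg] at h3
  have h4 := Ideal.mem_map_of_mem (sub c) h3
  rw [Ideal.map_span] at h4
  have h5 : sub c (sub d q) ∈ J := by
    refine Ideal.span_mono ?_ h4
    rintro _ ⟨p, ⟨hp1, n, hn, hp2⟩, rfl⟩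
    refine ⟨?_, n, hn, sub_hom c hp2⟩
    rw [mem_rel, phi_sub c hc]
    exact hp1
  have h6 := sub_endo_mem ((sub c).comp (sub d)) q
  have h7 : q - ((sub c).comp (sub d)) q ∈ J := by
    refine Ideal.span_le.2 ?_ h6
    rintro _ ⟨i, rfl⟩
    refine Ideal.subset_span ⟨?_, 1, hr, ?_⟩
    · rw [mem_rel, map_sub, AlgHom.comp_apply, phi_sub c hc, phi_sub d hd, sub_self]
    · refine (isHomogeneous_X _ i).sub ?_
      rw [AlgHom.comp_apply]
      exact sub_hom c (sub_hom d (isHomogeneous_X _ i))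
  have h8 : q = (q - ((sub c).comp (sub d)) q) + sub c (sub d q) := by
    rw [AlgHom.comp_apply]; ring
  rw [h8]
  exact Ideal.add_mem _ h7 h5

theorem genIn_equiv {B' : Type*} [CommRing B'] (e : B ≃+* B') (f : Fin m → B) (r : ℕ) :
    GenIn (fun i => e (f i)) r ↔ GenIn f r := by
  refine ⟨fun h => ?_, fun h => genIn_equiv_aux e f r h⟩
  have := genIn_equiv_aux e.symm _ r h
  simpa using this

theorem relIdeal_ne_bot [Nontrivial B] (f : Fin m → B) (i j : Fin m) (hij : i ≠ j) (hi : f i ≠ 0) :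
    relIdeal f ≠ ⊥ := by
  intro h
  have h1 : C (f i) * X j - C (f j) * X i ∈ relIdeal f := by
    rw [mem_rel]
    simp only [map_sub, map_mul, eval₂Hom_C, eval₂Hom_X']
    ring
  rw [h, Ideal.mem_bot] at h1
  have h2 := congrArg (coeff (Finsupp.single j 1)) h1
  rw [coeff_sub, coeff_C_mul, coeff_C_mul, coeff_X, coeff_X, if_pos rfl, coeff_zero, if_neg, mul_one,
    mul_zero, sub_zero] at h2
  · exact hi h2
  · intro h3
    exact hij (Finsupp.single_left_injective one_ne_zero h3)

theorem not_genIn_zero (f : Fin m → B) (h : relIdeal f ≠ ⊥) : ¬ GenIn f 0 := by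
  intro h0
  apply h
  rw [eq_bot_iff, h0, Ideal.span_le]
  rintro q ⟨hq, n, hn, hqn⟩
  obtain rfl : n = 0 := by omega
  have h1 : q = C (coeff 0 q) := by
    rw [← totalDegree_eq_zero_iff_eq_C]
    exact (totalDegree_zero_iff_isHomogeneous _).2 hqn
  rw [mem_rel, h1, eval₂Hom_C] at hq
  have h2 : coeff 0 q = 0 := Polynomial.C_eq_zero.1 hq
  rw [h1, h2, C_0]
  exact Ideal.zero_mem _

/-- the relation type is the largest `T`-degree in a minimal set of `T`-homogeneous generators -/
theorem minimal_gens (f : Fin m → B) (S : Set (MvPolynomial (Fin m) B))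
    (hS : ∀ b ∈ S, ∃ n, b.IsHomogeneous n) (hspan : Ideal.span S = relIdeal f)
    (hmin : ∀ b ∈ S, b ∉ Ideal.span (S \ {b})) (r : ℕ) (hr : IsLeast {r | GenIn f r} r)
    (hne : relIdeal f ≠ ⊥) : IsGreatest {n | ∃ b ∈ S, b.IsHomogeneous n} r := by
  have hb0 : ∀ b ∈ S, b ≠ 0 := by
    intro b hb h0
    apply hmin b hb
    rw [h0]
    exact Ideal.zero_mem _
  have hub : ∀ n, (∃ b ∈ S, b.IsHomogeneous n) → n ≤ r := by
    rintro n ⟨b, hb, hbn⟩
    by_contra hlt
    have hg : GenIn f r := hr.1
    have h1 : b ∈ relIdeal f := by rw [← hspan]; exact Ideal.subset_span hb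
    rw [hg] at h1
    have h2 : b ∈ Ideal.span {c | c ∈ S ∧ ∃ e ≤ r, c.IsHomogeneous e} := by
      refine Ideal.span_le.2 ?_ h1
      rintro q ⟨hq, n', hn', hqn⟩
      have h3 := comp_mem S hS q (by rw [hspan]; exact hq) n'
      rw [homogeneousComponent_of_mem hqn, if_pos rfl] at h3
      refine Ideal.span_mono ?_ h3
      rintro c ⟨hc, e, he, hce⟩
      exact ⟨hc, e, he.trans hn', hce⟩
    apply hmin b hb
    refine Ideal.span_mono ?_ h2
    rintro c ⟨hc, e, he, hce⟩
    refine ⟨hc, ?_⟩
    rintro rfl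
    have := hce.inj_right hbn (hb0 _ hc)
    omega
  refine ⟨?_, fun n hn => hub n hn⟩
  by_contra hr'
  have hr0 : r ≠ 0 := by
    rintro rfl
    exact not_genIn_zero f hne hr.1
  have h1 : GenIn f (r - 1) := by
    rw [genIn_iff]
    conv_lhs => rw [← hspan]
    rw [Ideal.span_le]
    intro b hb
    obtain ⟨n, hn⟩ := hS b hb
    refine Ideal.subset_span ⟨by rw [← hspan]; exact Ideal.subset_span hb, n, ?_, hn⟩
    have h2 := hub n ⟨b, hb, hn⟩
    have h3 : n ≠ r := by
      rintro rfl
      exact hr' ⟨b, hb, hn⟩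
    omega
  have h2 : r ≤ r - 1 := hr.2 h1
  omega

end Pool.Agent.H873.RT
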