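import Pool.Agent.H873.RT.Defs
import Pool.Agent.H873.RT.RelDefs

set_option autoImplicit false

namespace Pool.Agent.H873.RT

open MvPolynomial

namespace RelIsoAux

section gen

variable {A : Type*} [CommRing A] {σ : Type*}

/-- `A[x][T] → A[T][x]` -/
noncomputable def psi (A : Type*) [CommRing A] (σ : Type*) :
    MvPolynomial σ (Polynomial A) →+* Polynomial (MvPolynomial σ A) :=
  MvPolynomial.eval₂Hom (Polynomial.mapRingHom (MvPolynomial.C : A →+* MvPolynomial σ A))
    (fun i => Polynomial.C (X i))

theorem psi_C (r : Polynomial A) :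
    psi A σ (C r) = Polynomial.map (MvPolynomial.C : A →+* MvPolynomial σ A) r := by
  unfold psi
  rw [MvPolynomial.eval₂Hom_C]
  rfl

theorem psi_X (i : σ) : psi A σ (X i) = Polynomial.C (X i) := by
  unfold psi
  rw [MvPolynomial.eval₂Hom_X']

theorem psi_monomial (u : σ →₀ ℕ) (r : Polynomial A) :
    psi A σ (monomial u r) =
      Polynomial.map (MvPolynomial.C : A →+* MvPolynomial σ A) r *
        Polynomial.C (monomial u (1 : A)) := by
  unfold psi
  rw [MvPolynomial.coe_eval₂Hom, MvPolynomial.eval₂_monomial]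
  have h : (u.prod fun i k => (Polynomial.C (X i : MvPolynomial σ A)) ^ k) =
      Polynomial.C (monomial u (1 : A)) := by
    rw [MvPolynomial.monomial_eq, MvPolynomial.C_1, one_mul, Finsupp.prod, Finsupp.prod, map_prod]
    exact Finset.prod_congr rfl fun i _ => (map_pow _ _ _).symm
  rw [h]
  rfl

theorem psi_coeff (p : MvPolynomial σ (Polynomial A)) (j : ℕ) (d : σ →₀ ℕ) :
    MvPolynomial.coeff d ((psi A σ p).coeff j) = (MvPolynomial.coeff d p).coeff j := by
  classical
  induction p using MvPolynomial.induction_on' with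
  | monomial u r =>
    rw [psi_monomial, Polynomial.coeff_mul_C, Polynomial.coeff_map, MvPolynomial.coeff_C_mul,
      MvPolynomial.coeff_monomial, MvPolynomial.coeff_monomial]
    by_cases h : u = d
    · rw [if_pos h, if_pos h, mul_one]
    · rw [if_neg h, if_neg h, mul_zero, Polynomial.coeff_zero]
  | add p q hp hq =>
    rw [map_add, Polynomial.coeff_add, MvPolynomial.coeff_add, MvPolynomial.coeff_add,
      Polynomial.coeff_add, hp, hq]

theorem psi_inj : Function.Injective (psi A σ) := by
  intro p q h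
  ext d j
  rw [← psi_coeff, ← psi_coeff, h]

theorem psi_surj : Function.Surjective (psi A σ) := by
  intro q
  have hC : ∀ a : MvPolynomial σ A, Polynomial.C a ∈ (psi A σ).range := by
    intro a
    induction a using MvPolynomial.induction_on with
    | C r => exact ⟨C (Polynomial.C r), by rw [psi_C, Polynomial.map_C]⟩
    | add p q hp hq => rw [map_add]; exact Subring.add_mem _ hp hq
    | mul_X p i hp =>
      rw [map_mul]
      exact Subring.mul_mem _ hp ⟨X i, psi_X i⟩
  have hX : (Polynomial.X : Polynomial (MvPolynomial σ A)) ∈ (psi A σ).range :=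
    ⟨C Polynomial.X, by rw [psi_C, Polynomial.map_X]⟩
  have h : q ∈ (psi A σ).range := by
    induction q using Polynomial.induction_on' with
    | add p q hp hq => exact Subring.add_mem _ hp hq
    | monomial n a =>
      rw [← Polynomial.C_mul_X_pow_eq_monomial]
      exact Subring.mul_mem _ (hC a) (Subring.pow_mem _ hX n)
  exact h

theorem psi_hom (p : MvPolynomial σ (Polynomial A)) (n : ℕ) :
    p.IsHomogeneous n ↔ ∀ j, ((psi A σ p).coeff j).IsHomogeneous n := by
  constructor
  · intro h j d hd
    apply h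
    intro h0
    rw [psi_coeff, h0, Polynomial.coeff_zero] at hd
    exact hd rfl
  · intro h d hd
    have h1 : ∃ j, (MvPolynomial.coeff d p).coeff j ≠ 0 := by
      by_contra hcon
      push Not at hcon
      exact hd (Polynomial.ext fun j => by rw [hcon j, Polynomial.coeff_zero])
    obtain ⟨j, hj⟩ := h1
    rw [← psi_coeff] at hj
    exact h j hj

end gen

section ideals

/-- transport of generation along a bijective ring map -/
theorem transport {S T : Type*} [CommRing S] [CommRing T] (f : S →+* T)
    (hf : Function.Bijective f) (K : Ideal T) (P : S → Prop) (Q : T → Prop)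
    (hPQ : ∀ s, P s ↔ Q (f s)) :
    K.comap f = Ideal.span {q | q ∈ K.comap f ∧ P q} ↔ K = Ideal.span {q | q ∈ K ∧ Q q} := by
  have himg : f '' {q | q ∈ K.comap f ∧ P q} = {q | q ∈ K ∧ Q q} := by
    ext t
    constructor
    · rintro ⟨s, ⟨h1, h2⟩, rfl⟩
      exact ⟨h1, (hPQ s).1 h2⟩
    · rintro ⟨h1, h2⟩
      obtain ⟨s, rfl⟩ := hf.2 t
      exact ⟨s, ⟨h1, (hPQ s).2 h2⟩, rfl⟩
  constructor
  · intro h
    have h1 := congrArg (Ideal.map f) h
    rw [Ideal.map_comap_of_surjective f hf.2, Ideal.map_span, himg] at h1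
    exact h1
  · intro h
    have h1 : Ideal.map f (K.comap f) = Ideal.map f (Ideal.span {q | q ∈ K.comap f ∧ P q}) := by
      rw [Ideal.map_comap_of_surjective f hf.2, Ideal.map_span, himg]
      exact h
    have h2 := congrArg (Ideal.comap f) h1
    rw [Ideal.comap_map_of_bijective f hf, Ideal.comap_map_of_bijective f hf] at h2
    exact h2

end ideals

variable {k : Type*} [Field k]

theorem phi_psi (F : R k) (G : Fin 3 → R k) :
    (Phi F G).comp (psi (A k) (Fin 4)) =
      MvPolynomial.eval₂Hom (Polynomial.C : R k →+* Polynomial (R k))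
        (fun i => Polynomial.C (fam F G i) * Polynomial.X) := by
  have h1 : ((Phi F G).comp (psi (A k) (Fin 4))).comp (C : R k →+* MvPolynomial (Fin 4) (R k)) =
      (Polynomial.C : R k →+* Polynomial (R k)) := by
    refine Polynomial.ringHom_ext (fun a => ?_) ?_
    · rw [RingHom.comp_apply, RingHom.comp_apply, psi_C, Polynomial.map_C]
      show Polynomial.eval₂ (evE F G) (Polynomial.C (Polynomial.X : R k)) (Polynomial.C (C a)) = _
      rw [Polynomial.eval₂_C]
      unfold evE
      rw [MvPolynomial.eval₂Hom_C]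
      rfl
    · rw [RingHom.comp_apply, RingHom.comp_apply, psi_C, Polynomial.map_X]
      show Polynomial.eval₂ (evE F G) (Polynomial.C (Polynomial.X : R k)) Polynomial.X = _
      rw [Polynomial.eval₂_X]
  refine MvPolynomial.ringHom_ext (fun r => ?_) (fun i => ?_)
  · have h2 := congrArg (fun g : R k →+* Polynomial (R k) => g r) h1
    rw [MvPolynomial.eval₂Hom_C]
    exact h2
  · rw [RingHom.comp_apply, psi_X, MvPolynomial.eval₂Hom_X']
    show Polynomial.eval₂ (evE F G) (Polynomial.C (Polynomial.X : R k)) (Polynomial.C (X i)) = _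
    rw [Polynomial.eval₂_C]
    unfold evE
    rw [MvPolynomial.eval₂Hom_X']

theorem rel_eq (F : R k) (G : Fin 3 → R k) :
    relIdeal (fam F G) = (RingHom.ker (Phi F G)).comap (psi (A k) (Fin 4)) := by
  unfold relIdeal
  rw [← phi_psi]
  rfl

end RelIsoAux

variable {k : Type*} [Field k]

theorem genIn_fam_iff (F : R k) (G : Fin 3 → R k) (r : ℕ) :
    GenIn (fam F G) r ↔
      RingHom.ker (Phi F G) = Ideal.span {q | q ∈ RingHom.ker (Phi F G) ∧ ∃ n ≤ r, HomS n q} := by
  unfold GenIn
  rw [RelIsoAux.rel_eq F G]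
  exact RelIsoAux.transport (RelIsoAux.psi (A k) (Fin 4))
    ⟨RelIsoAux.psi_inj, RelIsoAux.psi_surj⟩ (RingHom.ker (Phi F G))
    (fun q => ∃ n ≤ r, q.IsHomogeneous n) (fun q => ∃ n ≤ r, HomS n q)
    (fun s => by
      constructor
      · rintro ⟨n, hn, h⟩
        exact ⟨n, hn, (RelIsoAux.psi_hom s n).1 h⟩
      · rintro ⟨n, hn, h⟩
        exact ⟨n, hn, (RelIsoAux.psi_hom s n).2 h⟩)

end Pool.Agent.H873.RT
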