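import Pool.Agent.H873.RT.Syz

set_option autoImplicit false

namespace Pool.Agent.H873.RT

open MvPolynomial

variable {k : Type*} [Field k] {s : Finset (k × k)} {F : R k} {G : Fin 3 → R k} {a : Fin 3 → ℕ}
  {M : Matrix (Fin 3) (Fin 3) (A k)} {h : Fin 3 → A k}

/-- the constant coefficient of an element of `R` -/
noncomputable def tgChi (k : Type*) [Field k] : R k →+* k :=
  MvPolynomial.constantCoeff.comp Polynomial.constantCoeff

theorem tgChi_C (c : A k) : tgChi k (Polynomial.C c) = c.coeff 0 := by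
  simp [tgChi, MvPolynomial.constantCoeff_eq]

theorem tgChi_X : tgChi k (Polynomial.X) = 0 := by
  simp [tgChi]

theorem tg_memI (hN : NF s F G a) (l : Fin 4) : fam F G l ∈ IX s := by
  refine Fin.cases ?_ (fun j => ?_) l
  · exact hN.memF
  · exact hN.memG j

theorem tg_spn (hN : NF s F G a) {f : R k} (hf : f ∈ IX s) :
    ∃ c : Fin 4 → R k, f = ∑ l, c l * fam F G l := by
  obtain ⟨c, α, hcα⟩ := hN.span f hf
  refine ⟨Fin.cons c fun i => Polynomial.C (α i), ?_⟩
  rw [Fin.sum_univ_succ]
  simp only [Fin.cons_zero, Fin.cons_succ, fam]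
  exact hcα

/-- four generators are needed when all the relations have coefficients in the irrelevant ideal -/
theorem not_three_gens (hN : NF s F G a) (hM : MH F G a M h) (hM0 : ∀ i j, (M i j).coeff 0 = 0)
    (hh0 : ∀ i, (h i).coeff 0 = 0) (g : Fin 3 → R k) : Ideal.span (Set.range g) ≠ IX s := by
  classical
  intro hg
  -- relations
  have rel : ∀ b : Fin 4 → R k, ∑ l, b l * fam F G l = 0 → ∀ l, tgChi k (b l) = 0 := by
    intro b hb
    rw [Fin.sum_univ_succ] at hb
    have hb' : (∑ j : Fin 3, b j.succ * G j) + b 0 * F = 0 := by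
      rw [add_comm]
      exact hb
    obtain ⟨lam, h1, h2⟩ := syz hN hM (fun j => b j.succ) (b 0) hb'
    intro l
    refine Fin.cases ?_ (fun j => ?_) l
    · rw [h2, map_neg, map_sum, neg_eq_zero]
      apply Finset.sum_eq_zero
      intro i _
      rw [map_mul, tgChi_C, hh0, mul_zero]
    · rw [h1 j, map_sub, map_mul, tgChi_X, mul_zero, map_sum, zero_sub, neg_eq_zero]
      apply Finset.sum_eq_zero
      intro i _
      rw [map_mul, tgChi_C, hM0, mul_zero]
  have hc : ∀ i : Fin 4, ∃ c : Fin 3 → R k, ∑ j, c j * g j = fam F G i := by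
    intro i
    have h1 := tg_memI hN i
    rw [← hg] at h1
    exact Ideal.mem_span_range_iff_exists_fun.1 h1
  choose c hc using hc
  have hd : ∀ j : Fin 3, ∃ d : Fin 4 → R k, g j = ∑ l, d l * fam F G l := by
    intro j
    apply tg_spn hN
    rw [← hg]
    exact Ideal.subset_span ⟨j, rfl⟩
  choose d hd using hd
  have key : ∀ i l, tgChi k ((if i = l then 1 else 0) - ∑ j, c i j * d j l) = 0 := by
    intro i
    refine rel (fun l => (if i = l then 1 else 0) - ∑ j, c i j * d j l) ?_
    simp only [sub_mul, Finset.sum_sub_distrib, Finset.sum_mul]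
    rw [Finset.sum_comm]
    have h1 : ∑ l, (if i = l then (1 : R k) else 0) * fam F G l = fam F G i := by
      simp
    have h2 : ∑ j, ∑ l, c i j * d j l * fam F G l = fam F G i := by
      rw [← hc i]
      refine Finset.sum_congr rfl fun j _ => ?_
      rw [hd j, Finset.mul_sum]
      exact Finset.sum_congr rfl fun l _ => by ring
    rw [h1, h2, sub_self]
  refine no_span (1 : k) one_ne_zero (fun l => tgChi k (d 0 l)) (fun l => tgChi k (d 1 l))
    (fun l => tgChi k (d 2 l)) (fun i => tgChi k (c i 0)) (fun i => tgChi k (c i 1))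
    (fun i => tgChi k (c i 2)) ?_
  intro i l
  have h1 := key i l
  rw [Fin.sum_univ_three, map_sub, map_add, map_add, map_mul, map_mul, map_mul] at h1
  have h2 : (if i = l then (1 : k) else 0) = tgChi k (if i = l then 1 else 0) := by
    split_ifs <;> simp
  rw [h2]
  linear_combination h1

theorem span_fam (hN : NF s F G a) : Ideal.span (Set.range (fam F G)) = IX s := by
  apply le_antisymm
  · rw [Ideal.span_le]
    rintro _ ⟨l, rfl⟩
    exact tg_memI hN l
  · intro f hf
    obtain ⟨c, hc⟩ := tg_spn hN hf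
    exact Ideal.mem_span_range_iff_exists_fun.2 ⟨c, hc.symm⟩

theorem tg_drop (x : Fin 4 → R k) (j : Fin 4) (I : Ideal (R k))
    (hI : I = Ideal.span (Set.range fun t : Fin 3 => x (j.succAbove t))) (hj : x j ∈ I) :
    I = Ideal.span (Set.range x) := by
  subst hI
  apply le_antisymm
  · apply Ideal.span_mono
    rintro _ ⟨t, rfl⟩
    exact ⟨_, rfl⟩
  · rw [Ideal.span_le]
    rintro _ ⟨l, rfl⟩
    by_cases hl : l = j
    · rw [hl]; exact hj
    · obtain ⟨t, ht⟩ := Fin.exists_succAbove_eq hl
      rw [← ht]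
      exact Ideal.subset_span ⟨t, rfl⟩

theorem tg_const {p : A k} (hp : ∀ m, p.coeff m ≠ 0 → m.degree = 0) : p = C (p.coeff 0) := by
  classical
  ext m
  rw [MvPolynomial.coeff_C]
  split_ifs with hm
  · rw [hm]
  · by_contra hne
    exact hm ((Finsupp.degree_eq_zero_iff m).1 (hp m hne)).symm

/-- three generators suffice otherwise -/
theorem three_gens (hN : NF s F G a) (hM : MH F G a M h)
    (h0 : ¬ ((∀ i j, (M i j).coeff 0 = 0) ∧ ∀ i, (h i).coeff 0 = 0)) :
    ∃ g : Fin 3 → R k, Ideal.span (Set.range g) = IX s := by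
  classical
  suffices hsuff : ∃ j : Fin 4, fam F G j ∈
      Ideal.span (Set.range fun t : Fin 3 => fam F G (j.succAbove t)) by
    obtain ⟨j, hj⟩ := hsuff
    exact ⟨_, (tg_drop (fam F G) j _ rfl hj).trans (span_fam hN)⟩
  have hmem : ∀ j l : Fin 4, l ≠ j →
      fam F G l ∈ Ideal.span (Set.range fun t : Fin 3 => fam F G (j.succAbove t)) := by
    intro j l hl
    obtain ⟨t, ht⟩ := Fin.exists_succAbove_eq hl
    rw [← ht]
    exact Ideal.subset_span ⟨t, rfl⟩
  have hunit : ∀ (c : k) (f : R k) (I : Ideal (R k)), c ≠ 0 → Polynomial.C (C c) * f ∈ I →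
      f ∈ I := by
    intro c f I hc hf
    have h1 : f = Polynomial.C (C c⁻¹) * (Polynomial.C (C c) * f) := by
      rw [← mul_assoc, ← map_mul, ← map_mul, inv_mul_cancel₀ hc, map_one, map_one, one_mul]
    rw [h1]
    exact I.mul_mem_left _ hf
  by_cases h1 : ∀ i j, (M i j).coeff 0 = 0
  · have h2 : ¬ ∀ i, (h i).coeff 0 = 0 := fun h2 => h0 ⟨h1, h2⟩
    push Not at h2
    obtain ⟨i, hi⟩ := h2
    refine ⟨0, ?_⟩
    have ha := hM.homh i 0 hi
    have hz : (0 : Fin 2 →₀ ℕ).degree = 0 := by simp
    have hconst : h i = C ((h i).coeff 0) := by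
      apply tg_const
      intro m hm
      have := hM.homh i m hm
      omega
    have hr := hM.rel i
    apply hunit _ _ _ hi
    rw [← hconst]
    have h3 : Polynomial.C (h i) * fam F G 0 = Polynomial.X * fam F G i.succ -
        ∑ j : Fin 3, Polynomial.C (M i j) * fam F G j.succ := by
      simp only [fam, Fin.cons_zero, Fin.cons_succ]
      rw [hr]
      ring
    rw [h3]
    refine Ideal.sub_mem _ (Ideal.mul_mem_left _ _ (hmem 0 _ (Fin.succ_ne_zero i))) ?_
    exact Ideal.sum_mem _ fun j _ => Ideal.mul_mem_left _ _ (hmem 0 _ (Fin.succ_ne_zero j))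
  · push Not at h1
    obtain ⟨i, j, hij⟩ := h1
    refine ⟨j.succ, ?_⟩
    have ha := hM.homM i j 0 hij
    have hz : (0 : Fin 2 →₀ ℕ).degree = 0 := by simp
    have hne : i ≠ j := by
      rintro rfl
      omega
    have hconst : M i j = C ((M i j).coeff 0) := by
      apply tg_const
      intro m hm
      have := hM.homM i j m hm
      omega
    have hr := hM.rel i
    apply hunit _ _ _ hij
    rw [← hconst]
    have h3 : Polynomial.C (M i j) * fam F G j.succ = Polynomial.X * fam F G i.succ -
        (∑ l ∈ Finset.univ.erase j, Polynomial.C (M i l) * fam F G l.succ) -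
        Polynomial.C (h i) * fam F G 0 := by
      simp only [fam, Fin.cons_zero, Fin.cons_succ]
      rw [hr, ← Finset.add_sum_erase Finset.univ _ (Finset.mem_univ j)]
      ring
    rw [h3]
    refine Ideal.sub_mem _ (Ideal.sub_mem _ (Ideal.mul_mem_left _ _ (hmem _ _ ?_)) ?_) ?_
    · intro he
      exact hne (Fin.succ_injective _ he)
    · refine Ideal.sum_mem _ fun l hl => Ideal.mul_mem_left _ _ (hmem _ _ ?_)
      intro he
      exact (Finset.mem_erase.1 hl).1 (Fin.succ_injective _ he)
    · exact Ideal.mul_mem_left _ _ (hmem _ _ (Fin.succ_ne_zero j).symm)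

/-- the ideal of a nonempty set of points is not principal -/
theorem not_principal (hs : s.Nonempty) (g : R k) : Ideal.span {g} ≠ IX s := by
  classical
  intro hg
  have m1 : (∏ P ∈ s, lx P) ∈ IX s := by
    rw [mem_IX]
    intro P hP
    rw [map_prod]
    exact Finset.prod_eq_zero hP (evP_lx P)
  have m2 : (∏ P ∈ s, ly P) ∈ IX s := by
    rw [mem_IX]
    intro P hP
    rw [map_prod]
    exact Finset.prod_eq_zero hP (evP_ly P)
  have hmon : (∏ P ∈ s, lx P).Monic := by
    apply Polynomial.monic_prod_of_monic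
    intro P _
    exact Polynomial.monic_X_sub_C _
  have hly : (∏ P ∈ s, ly P) = Polynomial.C (∏ P ∈ s, ((X 0 - C P.2 * X 1 : A k))) := by
    rw [map_prod]
    rfl
  have hne : (∏ P ∈ s, ((X 0 - C P.2 * X 1 : A k))) ≠ 0 := by
    rw [Finset.prod_ne_zero_iff]
    intro P _ h0
    have := congrArg (MvPolynomial.eval (![1, 0] : Fin 2 → k)) h0
    simp at this
  rw [← hg, Ideal.mem_span_singleton] at m1 m2
  have hdeg : g.natDegree = 0 := by
    rw [hly] at m2
    have h1 := Polynomial.natDegree_le_of_dvd m2 (by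
      intro h0
      exact hne (Polynomial.C_eq_zero.1 h0))
    rw [Polynomial.natDegree_C] at h1
    omega
  have hgC : g = Polynomial.C (g.coeff 0) := Polynomial.eq_C_of_natDegree_eq_zero hdeg
  obtain ⟨q, hq⟩ := m1
  have hu : IsUnit (g.coeff 0) := by
    have h1 : (∏ P ∈ s, lx P).leadingCoeff = 1 := hmon
    rw [hq, Polynomial.leadingCoeff_mul, hgC, Polynomial.leadingCoeff_C] at h1
    exact IsUnit.of_mul_eq_one _ h1
  have hgu : IsUnit g := by
    rw [hgC]
    exact hu.map Polynomial.C
  obtain ⟨P, hP⟩ := hs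
  have h1 : (1 : R k) ∈ IX s := by
    rw [← hg, Ideal.span_singleton_eq_top.2 hgu]
    trivial
  have h2 := mem_IX.1 h1 P hP
  rw [map_one] at h2
  exact one_ne_zero h2

end Pool.Agent.H873.RT
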