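import Pool.Agent.H873.RT.Combo
import Pool.Agent.H873.RT.NForm
import Pool.Agent.H873.RT.RelGen
import Pool.Agent.H873.RT.RelIso
import Pool.Agent.H873.RT.Frame
import Pool.Agent.H873.RT.Coord
import Pool.Agent.H873.RT.MinCount
import Pool.Agent.H873.RT.ThreeGens
import Pool.Agent.H873.RT.Ex1
import Pool.Agent.H873.RT.Ex3

set_option autoImplicit false

namespace Pool.Agent.H873.RT

open MvPolynomial
open scoped LinearAlgebra.Projectivization

section

variable {k : Type*} [Field k]

/-- transport of spans -/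
theorem span_transport {B B' : Type*} [CommRing B] [CommRing B'] (e : B ≃+* B') (I : Ideal B) (J : Ideal B')
    (hIJ : ∀ f : B, f ∈ I ↔ e f ∈ J) {m : ℕ} (f : Fin m → B) :
    Ideal.span (Set.range f) = I ↔ Ideal.span (Set.range fun i => e (f i)) = J := by
  have h1 : Ideal.map (e : B →+* B') I = J := by
    ext y
    constructor
    · intro hy
      rw [Ideal.mem_map_iff_of_surjective (e : B →+* B') e.surjective] at hy
      obtain ⟨x, hx, rfl⟩ := hy
      exact (hIJ x).1 hx
    · intro hy
      rw [Ideal.mem_map_iff_of_surjective (e : B →+* B') e.surjective]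
      exact ⟨e.symm y, (hIJ _).2 (by rwa [e.apply_symm_apply]), e.apply_symm_apply y⟩
  have h2 : Ideal.map (e : B →+* B') (Ideal.span (Set.range f)) = Ideal.span (Set.range fun i => e (f i)) := by
    rw [Ideal.map_span]
    congr 1
    rw [← Set.range_comp]
    rfl
  constructor
  · intro h
    rw [← h2, h, h1]
  · intro h
    have h3 : Ideal.map (e : B →+* B') (Ideal.span (Set.range f)) = Ideal.map (e : B →+* B') I := by
      rw [h2, h, h1]
    have hinj : Function.Injective (Ideal.map (e : B →+* B')) := by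
      intro I1 I2 h12
      have h4 : ∀ K : Ideal B, Ideal.comap (e : B →+* B') (Ideal.map (e : B →+* B') K) = K := by
        intro K
        exact Ideal.comap_map_of_bijective (e : B →+* B') e.bijective
      rw [← h4 I1, h12, h4 I2]
    exact hinj h3

/-- padding a family by zeros -/
theorem pad {B : Type*} [CommRing B] {m n : ℕ} (hmn : m ≤ n) (f : Fin m → B) :
    ∃ g : Fin n → B, Ideal.span (Set.range g) = Ideal.span (Set.range f) := by
  refine ⟨fun i => if h : i.val < m then f ⟨i.val, h⟩ else 0, ?_⟩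
  apply le_antisymm
  · rw [Ideal.span_le]
    rintro _ ⟨i, rfl⟩
    by_cases h : i.val < m
    · simp only [h, dif_pos]
      exact Ideal.subset_span ⟨_, rfl⟩
    · simp only [h, dif_neg, not_false_iff]
      exact Ideal.zero_mem _
  · rw [Ideal.span_le]
    rintro _ ⟨i, rfl⟩
    refine Ideal.subset_span ⟨⟨i.val, by omega⟩, ?_⟩
    simp

theorem main_nf [Infinite k] (X : Finset (ℙ k (Fin 3 → k))) (hne : X.Nonempty)
    (F : MvPolynomial (Fin 3) k) (hF : F.IsHomogeneous 3) (hF0 : F ≠ 0) (hX : ∀ P ∈ X, eval P.rep F = 0)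
    {m : ℕ} (f : Fin m → MvPolynomial (Fin 3) k) (hf : MinGens X f) :
    ((m ≤ 3 ∧ IsLeast {r | GenIn f r} 1) ∨ (m = 4 ∧ IsLeast {r | GenIn f r} 3)) ∧ relIdeal f ≠ ⊥ := by
  obtain ⟨g, g', h1, h2, h3, h4⟩ := exists_frame X F 3 (by norm_num) hF hF0 hX
  obtain ⟨e, s, F', hmon, hdeg, hhom, hmem, hIff, hsne⟩ := exists_coord X F hF hX g g' h1 h2 h3 h4
  obtain ⟨G, a, hN⟩ := exists_nf s F' hmon hdeg hhom hmem
  obtain ⟨M, h, hM⟩ := exists_mh hN
  have hs := hsne hne
  have hspan : Ideal.span (Set.range fun i => e (f i)) = IX s :=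
    (span_transport e _ _ hIff f).1 hf.span
  have hfam : Ideal.span (Set.range fun i => e (f i)) = Ideal.span (Set.range (fam F' G)) := by
    rw [hspan, span_fam hN]
  -- any family spanning `IX s` comes from one spanning `pointIdeal X`
  have hback : ∀ {n : ℕ} (q : Fin n → R k), Ideal.span (Set.range q) = IX s →
      Ideal.span (Set.range f) = Ideal.span (Set.range fun i => e.symm (q i)) := by
    intro n q hq
    rw [hf.span]
    refine ((span_transport e _ _ hIff _).2 ?_).symm
    simpa using hq
  -- at least two generators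
  have hm2 : 2 ≤ m := by
    by_contra hlt
    obtain ⟨q, hq⟩ := pad (show m ≤ 1 by omega) (fun i => e (f i))
    rw [hspan] at hq
    have h5 : Set.range q = {q 0} := by
      ext x
      simp only [Set.mem_range, Set.mem_singleton_iff]
      constructor
      · rintro ⟨i, rfl⟩
        rw [Subsingleton.elim i 0]
      · rintro rfl
        exact ⟨0, rfl⟩
    rw [h5] at hq
    exact not_principal hs _ hq
  have hrel : relIdeal f ≠ ⊥ := by
    refine relIdeal_ne_bot f ⟨0, by omega⟩ ⟨1, by omega⟩ ?_ ?_
    · intro h01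
      have := congrArg Fin.val h01
      simp at this
    · intro h0
      apply hf.min ⟨0, by omega⟩
      rw [h0]
      exact Ideal.zero_mem _
  have htrans : ∀ r, 1 ≤ r → (GenIn f r ↔ GenIn (fam F' G) r) := by
    intro r hr
    rw [← genIn_equiv e f r]
    exact ⟨genIn_of_span _ _ hfam.symm r hr, genIn_of_span _ _ hfam r hr⟩
  refine ⟨?_, hrel⟩
  by_cases h0 : (∀ i j, (M i j).coeff 0 = 0) ∧ ∀ i, (h i).coeff 0 = 0
  · right
    obtain ⟨h3', h2'⟩ := combo2 hN hM h0.1 h0.2
    rw [← genIn_fam_iff] at h3' h2'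
    refine ⟨?_, ?_, ?_⟩
    · apply le_antisymm
      · exact card_le f hf.hom hf.min _ (hback (fam F' G) (span_fam hN))
      · by_contra hlt
        obtain ⟨q, hq⟩ := pad (show m ≤ 3 by omega) (fun i => e (f i))
        rw [hspan] at hq
        exact not_three_gens hN hM h0.1 h0.2 q hq
    · exact (htrans 3 (by norm_num)).2 h3'
    · intro r hr
      by_contra hlt
      apply h2'
      rw [not_le] at hlt
      exact (htrans 2 (by norm_num)).1 (GenIn.mono (by omega) hr)
  · left
    have h1' := combo1 hN hM h0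
    rw [← genIn_fam_iff] at h1'
    refine ⟨?_, ?_, ?_⟩
    · obtain ⟨q, hq⟩ := three_gens hN hM h0
      exact card_le f hf.hom hf.min _ (hback q hq)
    · exact (htrans 1 (le_refl 1)).2 h1'
    · intro r hr
      by_contra hlt
      have hr0 : r = 0 := by omega
      rw [hr0] at hr
      exact not_genIn_zero f hrel hr

end

end Pool.Agent.H873.RT
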