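import Pool.Agent.H873.RT.Defs

set_option autoImplicit false

namespace Pool.Agent.H873.RT

open MvPolynomial

namespace HBaux

section ring

variable {B : Type*} [CommRing B]

theorem ww_apply (M : Matrix (Fin 3) (Fin 3) B) (h : Fin 3 → B) :
    ww M h = ![X 2 * nn M h 2 - X 3 * nn M h 1, X 3 * nn M h 0 - X 1 * nn M h 2,
      X 1 * nn M h 1 - X 2 * nn M h 0] := rfl

theorem w0 (M : Matrix (Fin 3) (Fin 3) B) (h : Fin 3 → B) :
    ww M h 0 = X 2 * nn M h 2 - X 3 * nn M h 1 := rfl

theorem w1 (M : Matrix (Fin 3) (Fin 3) B) (h : Fin 3 → B) :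
    ww M h 1 = X 3 * nn M h 0 - X 1 * nn M h 2 := rfl

theorem w2 (M : Matrix (Fin 3) (Fin 3) B) (h : Fin 3 → B) :
    ww M h 2 = X 1 * nn M h 1 - X 2 * nn M h 0 := rfl

theorem nn_apply (M : Matrix (Fin 3) (Fin 3) B) (h : Fin 3 → B) (i : Fin 3) :
    nn M h i = C (M i 0) * X 1 + C (M i 1) * X 2 + C (M i 2) * X 3 + C (h i) * X 0 := by
  unfold nn
  rw [Fin.sum_univ_three]
  rfl

theorem nn_eval (M : Matrix (Fin 3) (Fin 3) B) (h : Fin 3 → B) (x : Fin 4 → B) (i : Fin 3) :
    eval x (nn M h i) = M i 0 * x 1 + M i 1 * x 2 + M i 2 * x 3 + h i * x 0 := by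
  rw [nn_apply]
  simp only [map_add, map_mul, eval_C, eval_X]

theorem dvd_eval {s : B} {f : MvPolynomial (Fin 4) B} (h : C s ∣ f) (x : Fin 4 → B) :
    s ∣ eval x f := by
  obtain ⟨g, rfl⟩ := h
  exact ⟨eval x g, by rw [map_mul, eval_C]⟩

/-- common divisors of `w` from the base ring -/
theorem common_C (M : Matrix (Fin 3) (Fin 3) B) (h : Fin 3 → B) (s : B)
    (hs : ∀ j, C s ∣ ww M h j) :
    (∀ i j, s ∣ (M i j - if i = j then M 0 0 else 0)) ∧ ∀ i, s ∣ h i := by
  have e0 : ∀ x : Fin 4 → B, s ∣ x 2 * (M 2 0 * x 1 + M 2 1 * x 2 + M 2 2 * x 3 + h 2 * x 0) -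
      x 3 * (M 1 0 * x 1 + M 1 1 * x 2 + M 1 2 * x 3 + h 1 * x 0) := by
    intro x
    have := dvd_eval (hs 0) x
    rwa [w0, map_sub, map_mul, map_mul, eval_X, eval_X, nn_eval, nn_eval] at this
  have e1 : ∀ x : Fin 4 → B, s ∣ x 3 * (M 0 0 * x 1 + M 0 1 * x 2 + M 0 2 * x 3 + h 0 * x 0) -
      x 1 * (M 2 0 * x 1 + M 2 1 * x 2 + M 2 2 * x 3 + h 2 * x 0) := by
    intro x
    have := dvd_eval (hs 1) x
    rwa [w1, map_sub, map_mul, map_mul, eval_X, eval_X, nn_eval, nn_eval] at this
  have e2 : ∀ x : Fin 4 → B, s ∣ x 1 * (M 1 0 * x 1 + M 1 1 * x 2 + M 1 2 * x 3 + h 1 * x 0) -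
      x 2 * (M 0 0 * x 1 + M 0 1 * x 2 + M 0 2 * x 3 + h 0 * x 0) := by
    intro x
    have := dvd_eval (hs 2) x
    rwa [w2, map_sub, map_mul, map_mul, eval_X, eval_X, nn_eval, nn_eval] at this
  have m10 : s ∣ M 1 0 := by simpa using e2 ![0, 1, 0, 0]
  have m20 : s ∣ M 2 0 := by simpa using e1 ![0, 1, 0, 0]
  have m01 : s ∣ M 0 1 := by simpa using e2 ![0, 0, 1, 0]
  have m21 : s ∣ M 2 1 := by simpa using e0 ![0, 0, 1, 0]
  have m02 : s ∣ M 0 2 := by simpa using e1 ![0, 0, 0, 1]
  have m12 : s ∣ M 1 2 := by simpa using e0 ![0, 0, 0, 1]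
  have h1 : s ∣ h 1 := by
    have := e2 ![1, 1, 0, 0]
    simp at this
    exact (dvd_add_right m10).1 this
  have h2 : s ∣ h 2 := by
    have := e1 ![1, 1, 0, 0]
    simp at this
    have h3 : s ∣ M 2 0 + h 2 := by
      rw [← dvd_neg]
      convert this using 1
      ring
    exact (dvd_add_right m20).1 h3
  have h0 : s ∣ h 0 := by
    have := e2 ![1, 0, 1, 0]
    simp at this
    have h3 : s ∣ M 0 1 + h 0 := by
      rw [← dvd_neg]
      convert this using 1
      ring
    exact (dvd_add_right m01).1 h3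
  have d11 : s ∣ M 1 1 - M 0 0 := by
    have := e2 ![0, 1, 1, 0]
    simp at this
    have e : M 1 1 - M 0 0 = (M 1 0 + M 1 1 - (M 0 0 + M 0 1)) - M 1 0 + M 0 1 := by ring
    rw [e]
    exact dvd_add (dvd_sub this m10) m01
  have d22 : s ∣ M 2 2 - M 0 0 := by
    have := e1 ![0, 1, 0, 1]
    simp at this
    have e : M 2 2 - M 0 0 = -((M 0 0 + M 0 2 - (M 2 0 + M 2 2)) - M 0 2 + M 2 0) := by ring
    rw [e, dvd_neg]
    exact dvd_add (dvd_sub this m02) m20
  constructor
  · intro i j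
    fin_cases i <;> fin_cases j <;> simp <;> assumption
  · intro i
    fin_cases i <;> assumption

/-- the grading homomorphism -/
noncomputable def tau (B : Type*) [CommRing B] :
    MvPolynomial (Fin 4) B →+* Polynomial (MvPolynomial (Fin 4) B) :=
  eval₂Hom (Polynomial.C.comp C) (fun i => Polynomial.C (X i) * Polynomial.X)

theorem tau_C (a : B) : tau B (C a) = Polynomial.C (C a) := by
  unfold tau
  simp

theorem tau_X (i : Fin 4) : tau B (X i) = Polynomial.C (X i) * Polynomial.X := by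
  unfold tau
  simp

theorem tau_eval_one (f : MvPolynomial (Fin 4) B) : (tau B f).eval 1 = f := by
  have h : (Polynomial.evalRingHom (1 : MvPolynomial (Fin 4) B)).comp (tau B) =
      RingHom.id _ := by
    apply MvPolynomial.ringHom_ext
    · intro a
      simp [tau_C]
    · intro i
      simp [tau_X]
  exact congrArg (fun g : MvPolynomial (Fin 4) B →+* MvPolynomial (Fin 4) B => g f) h

theorem tau_hom (f : MvPolynomial (Fin 4) B) : ∀ n, ((tau B f).coeff n).IsHomogeneous n := by
  induction f using MvPolynomial.induction_on with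
  | C a =>
    intro n
    rw [tau_C, Polynomial.coeff_C]
    split_ifs with h
    · rw [h]; exact isHomogeneous_C _ _
    · exact isHomogeneous_zero _ _ _
  | add p q hp hq =>
    intro n
    rw [map_add, Polynomial.coeff_add]
    exact (hp n).add (hq n)
  | mul_X p i hp =>
    intro n
    rw [map_mul, tau_X, ← mul_assoc]
    cases n with
    | zero =>
      rw [Polynomial.coeff_mul_X_zero]
      exact isHomogeneous_zero _ _ _
    | succ n =>
      rw [Polynomial.coeff_mul_X, Polynomial.coeff_mul_C]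
      exact (hp n).mul (isHomogeneous_X _ _)

theorem tau_nn (M : Matrix (Fin 3) (Fin 3) B) (h : Fin 3 → B) (i : Fin 3) :
    tau B (nn M h i) = Polynomial.C (nn M h i) * Polynomial.X := by
  rw [nn_apply]
  simp only [map_add, map_mul, tau_C, tau_X]
  ring

theorem tau_ww (M : Matrix (Fin 3) (Fin 3) B) (h : Fin 3 → B) (j : Fin 3) :
    tau B (ww M h j) = Polynomial.C (ww M h j) * Polynomial.X ^ 2 := by
  fin_cases j
  · change tau B (ww M h 0) = Polynomial.C (ww M h 0) * Polynomial.X ^ 2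
    rw [w0]
    simp only [map_sub, map_mul, tau_X, tau_nn]
    ring
  · change tau B (ww M h 1) = Polynomial.C (ww M h 1) * Polynomial.X ^ 2
    rw [w1]
    simp only [map_sub, map_mul, tau_X, tau_nn]
    ring
  · change tau B (ww M h 2) = Polynomial.C (ww M h 2) * Polynomial.X ^ 2
    rw [w2]
    simp only [map_sub, map_mul, tau_X, tau_nn]
    ring

theorem T_dot_w (M : Matrix (Fin 3) (Fin 3) B) (h : Fin 3 → B) :
    X 1 * ww M h 0 + X 2 * ww M h 1 + X 3 * ww M h 2 = 0 := by
  rw [w0, w1, w2]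
  ring

end ring

section domain

variable {B : Type*} [CommRing B] [IsDomain B]

theorem tau_mono {f : MvPolynomial (Fin 4) B}
    (h : (tau B f).natDegree = (tau B f).natTrailingDegree) :
    f.IsHomogeneous (tau B f).natDegree := by
  have e : tau B f = Polynomial.C ((tau B f).coeff (tau B f).natDegree) *
      Polynomial.X ^ (tau B f).natDegree := by
    ext1 n
    rw [Polynomial.coeff_C_mul_X_pow]
    split_ifs with hn
    · rw [hn]
    · rcases lt_or_gt_of_ne hn with h1 | h1
      · exact Polynomial.coeff_eq_zero_of_lt_natTrailingDegree (h ▸ h1)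
      · exact Polynomial.coeff_eq_zero_of_natDegree_lt h1
  have e2 : f = (tau B f).coeff (tau B f).natDegree := by
    conv_lhs => rw [← tau_eval_one f, e]
    simp
  have := tau_hom f (tau B f).natDegree
  rw [← e2] at this
  exact this

theorem homog_of_mul {q u w : MvPolynomial (Fin 4) B} (hw : w ≠ 0)
    (h : tau B w = Polynomial.C w * Polynomial.X ^ 2) (hq : w = q * u) :
    ∃ d e, d + e = 2 ∧ q.IsHomogeneous d ∧ u.IsHomogeneous e := by
  have hq0 : q ≠ 0 := by rintro rfl; rw [zero_mul] at hq; exact hw hq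
  have hu0 : u ≠ 0 := by rintro rfl; rw [mul_zero] at hq; exact hw hq
  have tq : tau B q ≠ 0 := by
    intro h0
    apply hq0
    rw [← tau_eval_one q, h0, Polynomial.eval_zero]
  have tu : tau B u ≠ 0 := by
    intro h0
    apply hu0
    rw [← tau_eval_one u, h0, Polynomial.eval_zero]
  have hm : tau B q * tau B u = Polynomial.C w * Polynomial.X ^ 2 := by
    rw [← map_mul, ← hq, h]
  have hCw : (Polynomial.C w : Polynomial (MvPolynomial (Fin 4) B)) ≠ 0 :=
    Polynomial.C_ne_zero.2 hw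
  have d1 : (tau B q).natDegree + (tau B u).natDegree = 2 := by
    rw [← Polynomial.natDegree_mul tq tu, hm, Polynomial.natDegree_C_mul_X_pow 2 w hw]
  have d2 : (tau B q).natTrailingDegree + (tau B u).natTrailingDegree = 2 := by
    rw [← Polynomial.natTrailingDegree_mul tq tu, hm,
      Polynomial.natTrailingDegree_mul_X_pow hCw, Polynomial.natTrailingDegree_C]
  have l1 := Polynomial.natTrailingDegree_le_natDegree (tau B q)
  have l2 := Polynomial.natTrailingDegree_le_natDegree (tau B u)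
  exact ⟨_, _, d1, tau_mono (by omega), tau_mono (by omega)⟩

theorem koszul {a : Fin 3 → MvPolynomial (Fin 4) B}
    (h1 : X 3 * a 0 = X 1 * a 2) (h2 : X 1 * a 1 = X 2 * a 0) :
    ∃ α, ∀ i, a i = α * TT B i := by
  have hp : Prime (X 1 : MvPolynomial (Fin 4) B) := X_prime
  have hn : ¬ (X 1 : MvPolynomial (Fin 4) B) ∣ X 2 := by
    rw [X_dvd_X]
    decide
  have hd : (X 1 : MvPolynomial (Fin 4) B) ∣ X 2 * a 0 := ⟨a 1, h2.symm⟩
  obtain ⟨α, hα⟩ := (hp.dvd_or_dvd hd).resolve_left hn
  have hX : (X 1 : MvPolynomial (Fin 4) B) ≠ 0 := hp.ne_zero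
  refine ⟨α, fun i => ?_⟩
  have e1 : a 1 = α * X 2 := by
    apply mul_left_cancel₀ hX
    rw [h2, hα]
    ring
  have e2 : a 2 = α * X 3 := by
    apply mul_left_cancel₀ hX
    rw [← h1, hα]
    ring
  fin_cases i
  · change a 0 = α * X 1
    rw [hα, mul_comm]
  · exact e1
  · exact e2

theorem linear_form {f : MvPolynomial (Fin 4) B} (h : f.IsHomogeneous 1) :
    ∃ c : Fin 4 → B, f = C (c 0) * X 0 + C (c 1) * X 1 + C (c 2) * X 2 + C (c 3) * X 3 := by
  have h1 : f ∈ homogeneousSubmodule (Fin 4) B 1 := h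
  rw [homogeneousSubmodule_one_eq_span_X, Submodule.mem_span_range_iff_exists_fun] at h1
  obtain ⟨c, hc⟩ := h1
  refine ⟨c, ?_⟩
  rw [← hc, Fin.sum_univ_four]
  simp only [smul_eq_C_mul]

/-- common divisors of `w` are constants -/
theorem common (M : Matrix (Fin 3) (Fin 3) B) (h : Fin 3 → B)
    (E2 : ¬ ∃ (ρ : B) (a p : Fin 3 → B) (p0 : B),
      (∀ i j, M i j = (if i = j then ρ else 0) + a i * p j) ∧ ∀ i, h i = a i * p0)
    (q : MvPolynomial (Fin 4) B) (hq : ∀ j, q ∣ ww M h j) : (∃ j, ww M h j ≠ 0) ∧ ∃ s, q = C s := by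
  have hw : ∃ j, ww M h j ≠ 0 := by
    by_contra hcon
    push Not at hcon
    obtain ⟨h1, h2⟩ := common_C M h 0 (fun j => by rw [hcon j, C_0])
    apply E2
    refine ⟨M 0 0, fun _ => 0, fun _ => 0, 0, fun i j => ?_, fun i => ?_⟩
    · have := h1 i j
      rw [zero_dvd_iff, sub_eq_zero] at this
      rw [this, zero_mul, add_zero]
    · have := h2 i
      rw [zero_dvd_iff] at this
      rw [this, zero_mul]
  refine ⟨hw, ?_⟩
  choose u hu using hq
  obtain ⟨j₀, hj₀⟩ := hw
  have hq0 : q ≠ 0 := by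
    rintro rfl
    exact hj₀ (by rw [hu j₀, zero_mul])
  obtain ⟨d, e, hde, hqd, -⟩ := homog_of_mul hj₀ (tau_ww M h j₀) (hu j₀)
  -- all the `u j` are homogeneous of degree `e`
  have hue : ∀ j, (u j).IsHomogeneous e := by
    intro j
    by_cases h0 : ww M h j = 0
    · have : u j = 0 := by
        have h1 := hu j
        rw [h0] at h1
        exact (mul_eq_zero.1 h1.symm).resolve_left hq0
      rw [this]
      exact isHomogeneous_zero _ _ _
    · obtain ⟨d', e', hde', hqd', hu'⟩ := homog_of_mul h0 (tau_ww M h j) (hu j)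
      have : d = d' := hqd.inj_right hqd' hq0
      have : e = e' := by omega
      rw [this]
      exact hu'
  have hTu : X 1 * u 0 + X 2 * u 1 + X 3 * u 2 = 0 := by
    have h1 := T_dot_w M h
    rw [hu 0, hu 1, hu 2] at h1
    have h2 : q * (X 1 * u 0 + X 2 * u 1 + X 3 * u 2) = 0 := by
      rw [← h1]
      ring
    exact (mul_eq_zero.1 h2).resolve_left hq0
  have hd : d = 0 ∨ d = 1 ∨ d = 2 := by omega
  rcases hd with rfl | rfl | rfl
  · refine ⟨coeff 0 q, ?_⟩
    exact totalDegree_eq_zero_iff_eq_C.1 ((totalDegree_zero_iff_isHomogeneous _).2 hqd)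
  · -- degree one
    have he : e = 1 := by omega
    subst he
    exfalso
    obtain ⟨p, hp⟩ := linear_form hqd
    obtain ⟨a, ha⟩ := linear_form (hue 0)
    obtain ⟨b, hb⟩ := linear_form (hue 1)
    obtain ⟨c, hc⟩ := linear_form (hue 2)
    have hev : ∀ x : Fin 4 → B, x 1 * (a 0 * x 0 + a 1 * x 1 + a 2 * x 2 + a 3 * x 3) +
        x 2 * (b 0 * x 0 + b 1 * x 1 + b 2 * x 2 + b 3 * x 3) +
        x 3 * (c 0 * x 0 + c 1 * x 1 + c 2 * x 2 + c 3 * x 3) = 0 := by
      intro x
      have := congrArg (eval x) hTu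
      rw [ha, hb, hc] at this
      simpa only [map_add, map_mul, eval_X, eval_C, map_zero] using this
    have a1 : a 1 = 0 := by simpa using hev ![0, 1, 0, 0]
    have b2 : b 2 = 0 := by simpa using hev ![0, 0, 1, 0]
    have c3 : c 3 = 0 := by simpa using hev ![0, 0, 0, 1]
    have a0 : a 0 = 0 := by simpa [a1] using hev ![1, 1, 0, 0]
    have b0 : b 0 = 0 := by simpa [b2] using hev ![1, 0, 1, 0]
    have c0 : c 0 = 0 := by simpa [c3] using hev ![1, 0, 0, 1]
    have ab : b 1 = -a 2 := by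
      have := hev ![0, 1, 1, 0]
      simp [a1, b2] at this
      linear_combination this
    have ac : c 1 = -a 3 := by
      have := hev ![0, 1, 0, 1]
      simp [a1, c3] at this
      linear_combination this
    have bc : c 2 = -b 3 := by
      have := hev ![0, 0, 1, 1]
      simp [b2, c3] at this
      linear_combination this
    rw [a0, a1] at ha
    rw [b0, b2, ab] at hb
    rw [c0, c3, ac, bc] at hc
    -- `w = q (T × α)`, `α = (b 3, -a 3, a 2)`
    set α : Fin 3 → B := ![b 3, -a 3, a 2] with hα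
    set M' : Matrix (Fin 3) (Fin 3) B := fun i j => M i j - α i * p j.succ with hM'
    set h' : Fin 3 → B := fun i => h i - α i * p 0 with hh'
    have hn : ∀ i, nn M' h' i = nn M h i - C (α i) * q := by
      intro i
      rw [nn_apply, nn_apply, hp]
      simp only [hM', hh', C_sub, C_mul]
      have e1 : p (Fin.succ 0) = p 1 := rfl
      have e2 : p (Fin.succ 1) = p 2 := rfl
      have e3 : p (Fin.succ 2) = p 3 := rfl
      rw [e1, e2, e3]
      ring
    have hα0 : α 0 = b 3 := rfl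
    have hα1 : α 1 = -a 3 := rfl
    have hα2 : α 2 = a 2 := rfl
    have k0 := hu 0
    have k1 := hu 1
    have k2 := hu 2
    rw [w0, ha] at k0
    rw [w1, hb] at k1
    rw [w2, hc] at k2
    have z : ∀ j, C (0 : B) ∣ ww M' h' j := by
      intro j
      rw [C_0, zero_dvd_iff]
      fin_cases j
      · change ww M' h' 0 = 0
        rw [w0, hn, hn, hα1, hα2]
        simp only [C_neg, C_0] at k0 ⊢
        linear_combination k0
      · change ww M' h' 1 = 0
        rw [w1, hn, hn, hα0, hα2]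
        simp only [C_neg, C_0] at k1 ⊢
        linear_combination k1
      · change ww M' h' 2 = 0
        rw [w2, hn, hn, hα0, hα1]
        simp only [C_neg, C_0] at k2 ⊢
        linear_combination k2
    obtain ⟨g1, g2⟩ := common_C M' h' 0 z
    apply E2
    refine ⟨M' 0 0, α, fun j => p j.succ, p 0, fun i j => ?_, fun i => ?_⟩
    · have := g1 i j
      rw [zero_dvd_iff, sub_eq_zero] at this
      have e1 : M' i j = M i j - α i * p j.succ := rfl
      rw [← this, e1]
      ring
    · have := g2 i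
      rw [zero_dvd_iff] at this
      have e1 : h' i = h i - α i * p 0 := rfl
      rw [e1] at this
      linear_combination this
  · -- degree two
    have he : e = 0 := by omega
    subst he
    exfalso
    have hC : ∀ j, u j = C (coeff 0 (u j)) := fun j =>
      totalDegree_eq_zero_iff_eq_C.1 ((totalDegree_zero_iff_isHomogeneous _).2 (hue j))
    have hev : ∀ x : Fin 4 → B, x 1 * coeff 0 (u 0) + x 2 * coeff 0 (u 1) +
        x 3 * coeff 0 (u 2) = 0 := by
      intro x
      have := congrArg (eval x) hTu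
      rw [hC 0, hC 1, hC 2] at this
      simpa only [map_add, map_mul, eval_X, eval_C, map_zero] using this
    have z0 : coeff 0 (u 0) = 0 := by simpa using hev ![0, 1, 0, 0]
    have z1 : coeff 0 (u 1) = 0 := by simpa using hev ![0, 0, 1, 0]
    have z2 : coeff 0 (u 2) = 0 := by simpa using hev ![0, 0, 0, 1]
    apply hj₀
    rw [hu j₀, hC j₀]
    have : ∀ j, coeff 0 (u j) = 0 := by
      intro j
      fin_cases j <;> assumption
    rw [this, C_0, mul_zero]

theorem dvd_pow_of_primes [UniqueFactorizationMonoid B] {δ : B} (s : B) (hs : s ≠ 0)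
    (h : ∀ r, Prime r → r ∣ s → r ∣ δ) : ∃ N, s ∣ δ ^ N := by
  induction s using UniqueFactorizationMonoid.induction_on_prime with
  | h₁ => exact absurd rfl hs
  | h₂ x hx => exact ⟨0, by rw [pow_zero]; exact hx.dvd⟩
  | h₃ a r ha hr ih =>
    obtain ⟨N, hN⟩ := ih ha fun t ht hta => h t ht (hta.mul_left r)
    refine ⟨N + 1, ?_⟩
    rw [pow_succ']
    exact mul_dvd_mul (h r hr (dvd_mul_right r a)) hN

end domain

end HBaux

open HBaux in
/-- **Hilbert–Burch lemma.** -/
theorem hb {B : Type*} [CommRing B] [IsDomain B] [UniqueFactorizationMonoid B]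
    (M : Matrix (Fin 3) (Fin 3) B) (h : Fin 3 → B) (δ : B) (hδ : δ ≠ 0)
    (E1 : ∀ s : B, Prime s → ¬ s ∣ δ →
      ¬ ∃ ρ : B, (∀ i j, s ∣ (M i j - if i = j then ρ else 0)) ∧ ∀ i, s ∣ h i)
    (E2 : ¬ ∃ (ρ : B) (a p : Fin 3 → B) (p0 : B),
      (∀ i j, M i j = (if i = j then ρ else 0) + a i * p j) ∧ ∀ i, h i = a i * p0)
    (v : Fin 3 → MvPolynomial (Fin 4) B) (hv : dotProduct v (ww M h) = 0) :
    ∃ (N : ℕ) (α β : MvPolynomial (Fin 4) B),
      ∀ i, C (δ ^ N) * v i = α * TT B i + β * nn M h i := by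
  classical
  have hv' : v 0 * ww M h 0 + v 1 * ww M h 1 + v 2 * ww M h 2 = 0 := by
    rw [← hv, dotProduct, Fin.sum_univ_three]
  -- the vector `c = T × v` is parallel to `w`
  obtain ⟨c, hc⟩ : ∃ c : Fin 3 → MvPolynomial (Fin 4) B, c = ![X 2 * v 2 - X 3 * v 1,
    X 3 * v 0 - X 1 * v 2, X 1 * v 1 - X 2 * v 0] := ⟨_, rfl⟩
  have c0 : c 0 = X 2 * v 2 - X 3 * v 1 := by rw [hc]; rfl
  have c1 : c 1 = X 3 * v 0 - X 1 * v 2 := by rw [hc]; rfl
  have c2 : c 2 = X 1 * v 1 - X 2 * v 0 := by rw [hc]; rfl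
  rw [w0, w1, w2] at hv'
  have p01 : c 0 * ww M h 1 = c 1 * ww M h 0 := by
    rw [c0, c1, w0, w1]
    linear_combination -(X 3) * hv'
  have p12 : c 1 * ww M h 2 = c 2 * ww M h 1 := by
    rw [c1, c2, w1, w2]
    linear_combination -(X 1) * hv'
  have p20 : c 2 * ww M h 0 = c 0 * ww M h 2 := by
    rw [c0, c2, w0, w2]
    linear_combination -(X 2) * hv'
  have par : ∀ i j, c i * ww M h j = c j * ww M h i := by
    intro i j
    fin_cases i <;> fin_cases j
    · rfl
    · exact p01
    · exact p20.symm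
    · exact p01.symm
    · rfl
    · exact p12
    · exact p20
    · exact p12.symm
    · rfl
  -- some `w` is not zero
  obtain ⟨⟨i₀, hi₀⟩, -⟩ := common M h E2 1 fun j => one_dvd _
  obtain ⟨q, a', g, hrel, hq, ha⟩ :=
    UniqueFactorizationMonoid.exists_reduced_factors (ww M h i₀) hi₀ (c i₀)
  have hg0 : g ≠ 0 := by
    rintro rfl
    rw [zero_mul] at hq
    exact hi₀ hq.symm
  have hq0 : q ≠ 0 := by
    rintro rfl
    rw [mul_zero] at hq
    exact hi₀ hq.symm
  have hpar : ∀ j, c j * q = a' * ww M h j := by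
    intro j
    apply mul_left_cancel₀ hg0
    have := par i₀ j
    rw [← hq, ← ha] at this
    linear_combination -this
  have hqw : ∀ j, q ∣ ww M h j := by
    intro j
    have h1 : q ∣ a' * ww M h j := ⟨c j, by rw [← hpar j]; ring⟩
    exact hrel.dvd_of_dvd_mul_left h1
  obtain ⟨-, s, hs⟩ := common M h E2 q hqw
  have hs0 : s ≠ 0 := by
    rintro rfl
    rw [C_0] at hs
    exact hq0 hs
  obtain ⟨N, r, hr⟩ := dvd_pow_of_primes s hs0 (δ := δ) (by
    intro r hr hrs
    by_contra hcon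
    apply E1 r hr hcon
    have h1 : ∀ j, C r ∣ ww M h j := by
      intro j
      refine dvd_trans ?_ (hqw j)
      rw [hs]
      obtain ⟨t, ht⟩ := hrs
      exact ⟨C t, by rw [← C_mul, ← ht]⟩
    exact ⟨M 0 0, common_C M h r h1⟩)
  obtain ⟨β, hβ⟩ : ∃ β : MvPolynomial (Fin 4) B, β = C r * a' := ⟨_, rfl⟩
  have hmain : ∀ j, C (δ ^ N) * c j = β * ww M h j := by
    intro j
    rw [hr, C_mul, ← hs, hβ]
    linear_combination C r * hpar j
  have m0 := hmain 0
  have m1 := hmain 1
  have m2 := hmain 2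
  rw [c0, w0] at m0
  rw [c1, w1] at m1
  rw [c2, w2] at m2
  obtain ⟨α, hα⟩ := koszul (a := fun i => C (δ ^ N) * v i - β * nn M h i)
    (by linear_combination m1) (by linear_combination m2)
  refine ⟨N, α, β, fun i => ?_⟩
  have := hα i
  linear_combination this

end Pool.Agent.H873.RT
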