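import Mathlib

set_option autoImplicit false

namespace Pool.Agent.H873.RT

open Matrix

theorem la2 {k : Type*} [Field k] [Infinite k] (U : Matrix (Fin 3) (Fin 3) k) (u : Fin 3 → k) (hu : u ≠ 0)
    (h : ∀ v : Fin 3 → k, Matrix.det ![v, U *ᵥ v, u] = 0) :
    ∃ (a : k) (p : Fin 3 → k), U = a • (1 : Matrix (Fin 3) (Fin 3) k) + vecMulVec u p := by
  have h0 := h ![1, 0, 0]
  have h1 := h ![0, 1, 0]
  have h2 := h ![0, 0, 1]
  have h01 := h ![1, 1, 0]
  have h02 := h ![1, 0, 1]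
  have h12 := h ![0, 1, 1]
  clear h
  rw [Matrix.det_fin_three] at h0 h1 h2 h01 h02 h12
  simp [Matrix.mulVec, dotProduct, Fin.sum_univ_three] at h0 h1 h2 h01 h02 h12
  have hex : u 0 ≠ 0 ∨ u 1 ≠ 0 ∨ u 2 ≠ 0 := by
    by_contra hc
    push Not at hc
    apply hu
    funext i
    fin_cases i
    · exact hc.1
    · exact hc.2.1
    · exact hc.2.2
  rcases hex with hx | hx | hx
  · refine ⟨U 1 1 - u 1 * (U 0 1 / u 0), ![(U 0 0 - (U 1 1 - u 1 * (U 0 1 / u 0))) / u 0, U 0 1 / u 0, U 0 2 / u 0], ?_⟩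
    ext i j
    fin_cases i <;> fin_cases j <;> simp [vecMulVec, Matrix.one_apply] <;> grind
  · refine ⟨U 0 0 - u 0 * (U 1 0 / u 1), ![U 1 0 / u 1, (U 1 1 - (U 0 0 - u 0 * (U 1 0 / u 1))) / u 1, U 1 2 / u 1], ?_⟩
    ext i j
    fin_cases i <;> fin_cases j <;> simp [vecMulVec, Matrix.one_apply] <;> grind
  · refine ⟨U 0 0 - u 0 * (U 2 0 / u 2), ![U 2 0 / u 2, U 2 1 / u 2, (U 2 2 - (U 0 0 - u 0 * (U 2 0 / u 2))) / u 2], ?_⟩
    ext i j
    fin_cases i <;> fin_cases j <;> simp [vecMulVec, Matrix.one_apply] <;> grind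

theorem cub0 {k : Type*} [Field k] [Infinite k] (c0 c1 c2 c3 : k)
    (h : ∀ x : k, c0 + c1 * x + c2 * x ^ 2 + c3 * x ^ 3 = 0) : c0 = 0 ∧ c1 = 0 ∧ c2 = 0 ∧ c3 = 0 := by
  have hp : (Polynomial.C c0 + Polynomial.C c1 * Polynomial.X + Polynomial.C c2 * Polynomial.X ^ 2
      + Polynomial.C c3 * Polynomial.X ^ 3 : Polynomial k) = 0 := by
    apply Polynomial.funext
    intro x
    simpa using h x
  refine ⟨?_, ?_, ?_, ?_⟩
  · have := congrArg (fun p => Polynomial.coeff p 0) hp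
    simpa [Polynomial.coeff_X, Polynomial.coeff_C, Polynomial.coeff_X_pow] using this
  · have := congrArg (fun p => Polynomial.coeff p 1) hp
    simpa [Polynomial.coeff_X, Polynomial.coeff_C, Polynomial.coeff_X_pow] using this
  · have := congrArg (fun p => Polynomial.coeff p 2) hp
    simpa [Polynomial.coeff_X, Polynomial.coeff_C, Polynomial.coeff_X_pow] using this
  · have := congrArg (fun p => Polynomial.coeff p 3) hp
    simpa [Polynomial.coeff_X, Polynomial.coeff_C, Polynomial.coeff_X_pow] using this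

/-- reduced case: first columns `e₁` and `0` -/
theorem LA_red {k : Type*} [Field k] [Infinite k] (U V : Matrix (Fin 3) (Fin 3) k)
    (hU0 : U 0 0 = 0) (hU1 : U 1 0 = 1) (hU2 : U 2 0 = 0) (hV0 : V 0 0 = 0) (hV1 : V 1 0 = 0) (hV2 : V 2 0 = 0)
    (h : ∀ v : Fin 3 → k, Matrix.det ![v, U *ᵥ v, V *ᵥ v] = 0) :
    V = 0 ∨ ∃ (u p q : Fin 3 → k) (a : k), u ≠ 0 ∧ U = a • (1 : Matrix (Fin 3) (Fin 3) k) + vecMulVec u p ∧
      V = vecMulVec u q := by
  have h' : ∀ x y z : k,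
      x * ((x + U 1 1 * y + U 1 2 * z) * (V 2 1 * y + V 2 2 * z) - (U 2 1 * y + U 2 2 * z) * (V 1 1 * y + V 1 2 * z))
      - y * ((U 0 1 * y + U 0 2 * z) * (V 2 1 * y + V 2 2 * z) - (U 2 1 * y + U 2 2 * z) * (V 0 1 * y + V 0 2 * z))
      + z * ((U 0 1 * y + U 0 2 * z) * (V 1 1 * y + V 1 2 * z) - (x + U 1 1 * y + U 1 2 * z) * (V 0 1 * y + V 0 2 * z)) = 0 := by
    intro x y z
    have := h ![x, y, z]
    rw [Matrix.det_fin_three] at this
    simp [Matrix.mulVec, dotProduct, Fin.sum_univ_three, hU0, hU1, hU2, hV0, hV1, hV2] at this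
    linear_combination this
  clear h
  have hx : ∀ y z : k, (V 2 1 * y + V 2 2 * z) = 0 ∧
      (U 1 1 * y + U 1 2 * z) * (V 2 1 * y + V 2 2 * z) - (U 2 1 * y + U 2 2 * z) * (V 1 1 * y + V 1 2 * z)
        - z * (V 0 1 * y + V 0 2 * z) = 0 ∧
      - y * ((U 0 1 * y + U 0 2 * z) * (V 2 1 * y + V 2 2 * z) - (U 2 1 * y + U 2 2 * z) * (V 0 1 * y + V 0 2 * z))
      + z * ((U 0 1 * y + U 0 2 * z) * (V 1 1 * y + V 1 2 * z) - (U 1 1 * y + U 1 2 * z) * (V 0 1 * y + V 0 2 * z)) = 0 := by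
    intro y z
    have := cub0 (- y * ((U 0 1 * y + U 0 2 * z) * (V 2 1 * y + V 2 2 * z) - (U 2 1 * y + U 2 2 * z) * (V 0 1 * y + V 0 2 * z))
      + z * ((U 0 1 * y + U 0 2 * z) * (V 1 1 * y + V 1 2 * z) - (U 1 1 * y + U 1 2 * z) * (V 0 1 * y + V 0 2 * z)))
      ((U 1 1 * y + U 1 2 * z) * (V 2 1 * y + V 2 2 * z) - (U 2 1 * y + U 2 2 * z) * (V 1 1 * y + V 1 2 * z)
        - z * (V 0 1 * y + V 0 2 * z)) (V 2 1 * y + V 2 2 * z) 0 (by
        intro x
        linear_combination h' x y z)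
    exact ⟨this.2.2.1, this.2.1, this.1⟩
  clear h'
  have a1 : V 2 1 = 0 := by simpa using (hx 1 0).1
  have a2 : V 2 2 = 0 := by simpa using (hx 0 1).1
  have b1 := (hx 1 0).2.1
  have b2 := (hx 0 1).2.1
  have b3 := (hx 1 1).2.1
  have c0 := (hx 1 0).2.2
  have hc := cub0 (U 0 2 * V 1 2 - U 1 2 * V 0 2)
    (U 2 2 * V 0 2 + U 0 1 * V 1 2 + U 0 2 * V 1 1 - U 1 1 * V 0 2 - U 1 2 * V 0 1)
    (U 2 1 * V 0 2 + U 2 2 * V 0 1 + U 0 1 * V 1 1 - U 1 1 * V 0 1) (U 2 1 * V 0 1) (by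
      intro y
      have := (hx y 1).2.2
      rw [a1, a2] at this
      linear_combination this)
  obtain ⟨c1, c2, c3, c4⟩ := hc
  simp [a1, a2] at b1 b2 b3
  by_cases hV : V = 0
  · exact Or.inl hV
  right
  have hne : V 1 1 ≠ 0 ∨ V 1 2 ≠ 0 := by
    by_contra hcon
    push Not at hcon
    obtain ⟨q1, q2⟩ := hcon
    apply hV
    have q3 : V 0 1 = 0 := by grind
    have q4 : V 0 2 = 0 := by grind
    ext i j
    fin_cases i <;> fin_cases j <;> simp [*]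
  have hU21 : U 2 1 = 0 := by grind
  have m1 : U 0 1 = U 2 2 ^ 2 - U 2 2 * U 1 1 := by grind
  have m2 : U 0 2 = - (U 2 2 * U 1 2) := by grind
  have m3 : V 0 1 = - (U 2 2 * V 1 1) := by grind
  have m4 : V 0 2 = - (U 2 2 * V 1 2) := by grind
  refine ⟨![- U 2 2, 1, 0], ![1, U 1 1 - U 2 2, U 1 2], ![0, V 1 1, V 1 2], U 2 2, ?_, ?_, ?_⟩
  · intro h0
    have := congrFun h0 1
    simp at this
  · ext i j
    fin_cases i <;> fin_cases j <;> simp [vecMulVec, Matrix.one_apply, *] <;> ring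
  · ext i j
    fin_cases i <;> fin_cases j <;> simp [vecMulVec, Matrix.one_apply, *]

theorem la1 {k : Type*} [Field k] [Infinite k] (U V : Matrix (Fin 3) (Fin 3) k)
    (h : ∀ v : Fin 3 → k, Matrix.det ![v, U *ᵥ v, V *ᵥ v] = 0) :
    (∃ a b c : k, (a ≠ 0 ∨ b ≠ 0 ∨ c ≠ 0) ∧ a • (1 : Matrix (Fin 3) (Fin 3) k) + b • U + c • V = 0) ∨
    ∃ (u p q : Fin 3 → k) (a b : k), u ≠ 0 ∧ U = a • (1 : Matrix (Fin 3) (Fin 3) k) + vecMulVec u p ∧
      V = b • (1 : Matrix (Fin 3) (Fin 3) k) + vecMulVec u q := by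
  by_cases hsc : ∀ v : Fin 3 → k, ∀ w : Fin 3 → k, Matrix.det ![v, U *ᵥ v, w] = 0
  · left
    refine ⟨- U 0 0, 1, 0, Or.inr (Or.inl one_ne_zero), ?_⟩
    have g : ∀ x y z a b c : k, Matrix.det ![![x, y, z], U *ᵥ ![x, y, z], ![a, b, c]] = 0 :=
      fun x y z a b c => hsc _ _
    clear hsc h
    have g1 := g 1 0 0 0 0 1
    have g2 := g 1 0 0 0 1 0
    have g3 := g 0 1 0 0 0 1
    have g4 := g 0 1 0 1 0 0
    have g5 := g 0 0 1 1 0 0
    have g6 := g 0 0 1 0 1 0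
    have g7 := g 1 1 0 0 0 1
    have g8 := g 1 0 1 0 1 0
    clear g
    rw [Matrix.det_fin_three] at g1 g2 g3 g4 g5 g6 g7 g8
    simp [Matrix.mulVec, dotProduct, Fin.sum_univ_three] at g1 g2 g3 g4 g5 g6 g7 g8
    ext i j
    fin_cases i <;> fin_cases j <;> simp [Matrix.one_apply] <;> grind
  push Not at hsc
  obtain ⟨v0, w, hw⟩ := hsc
  set P : Matrix (Fin 3) (Fin 3) k := Matrix.transpose ![v0, U *ᵥ v0, w] with hP
  have hPdet : P.det ≠ 0 := by rw [hP, Matrix.det_transpose]; exact hw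
  have hPu : IsUnit P.det := isUnit_iff_ne_zero.mpr hPdet
  have hPP : P * P⁻¹ = 1 := Matrix.mul_nonsing_inv P hPu
  have hPP' : P⁻¹ * P = 1 := Matrix.nonsing_inv_mul P hPu
  have hPe0 : P *ᵥ ![1, 0, 0] = v0 := by
    ext i
    simp [hP, Matrix.mulVec, dotProduct, Fin.sum_univ_three, Matrix.transpose_apply]
  have hPe1 : P *ᵥ ![0, 1, 0] = U *ᵥ v0 := by
    ext i
    simp [hP, Matrix.mulVec, dotProduct, Fin.sum_univ_three, Matrix.transpose_apply]
  -- coordinates of V v0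
  obtain ⟨al, be, hab⟩ : ∃ al be : k, V *ᵥ v0 = al • v0 + be • (U *ᵥ v0) := by
    set y := P⁻¹ *ᵥ (V *ᵥ v0) with hy
    have hPy : P *ᵥ y = V *ᵥ v0 := by rw [hy, Matrix.mulVec_mulVec, hPP, Matrix.one_mulVec]
    have hexp : ∀ i, (V *ᵥ v0) i = y 0 * v0 i + y 1 * (U *ᵥ v0) i + y 2 * w i := by
      intro i
      rw [← hPy]
      simp [hP, Matrix.mulVec, dotProduct, Fin.sum_univ_three, Matrix.transpose_apply]
      ring
    have hd := h v0
    have hy2 : y 2 * Matrix.det ![v0, U *ᵥ v0, w] = 0 := by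
      rw [← hd, Matrix.det_fin_three, Matrix.det_fin_three]
      have e0 := hexp 0
      have e1 := hexp 1
      have e2 := hexp 2
      simp only [Matrix.cons_val_zero, Matrix.cons_val_one, Matrix.cons_val] at *
      rw [e0, e1, e2]
      ring
    have hy2' : y 2 = 0 := by
      rcases mul_eq_zero.mp hy2 with h1 | h1
      · exact h1
      · exact absurd h1 hw
    refine ⟨y 0, y 1, ?_⟩
    ext i
    rw [hexp i, hy2']
    simp
  set V2 : Matrix (Fin 3) (Fin 3) k := V - al • (1 : Matrix (Fin 3) (Fin 3) k) - be • U with hV2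
  have hV2v : ∀ x : Fin 3 → k, V2 *ᵥ x = V *ᵥ x - al • x - be • (U *ᵥ x) := by
    intro x
    rw [hV2, Matrix.sub_mulVec, Matrix.sub_mulVec, Matrix.smul_mulVec, Matrix.smul_mulVec, Matrix.one_mulVec]
  have hdet2 : ∀ x : Fin 3 → k, Matrix.det ![x, U *ᵥ x, V2 *ᵥ x] = 0 := by
    intro x
    have := h x
    rw [hV2v x]
    rw [Matrix.det_fin_three] at this ⊢
    simp only [Matrix.cons_val_zero, Matrix.cons_val_one, Matrix.cons_val, Pi.sub_apply, Pi.smul_apply, smul_eq_mul] at this ⊢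
    linear_combination this
  have hred := LA_red (P⁻¹ * U * P) (P⁻¹ * V2 * P) 
  have hUcol : (P⁻¹ * U * P) *ᵥ ![1, 0, 0] = ![0, 1, 0] := by
    rw [← Matrix.mulVec_mulVec, hPe0, ← Matrix.mulVec_mulVec, ← hPe1, Matrix.mulVec_mulVec, hPP', Matrix.one_mulVec]
  have hVcol : (P⁻¹ * V2 * P) *ᵥ ![1, 0, 0] = 0 := by
    rw [← Matrix.mulVec_mulVec, hPe0, ← Matrix.mulVec_mulVec, hV2v, hab]
    simp
  have hcolval : ∀ (M : Matrix (Fin 3) (Fin 3) k) (i : Fin 3), (M *ᵥ ![1, 0, 0]) i = M i 0 := by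
    intro M i
    simp [Matrix.mulVec, dotProduct, Fin.sum_univ_three]
  have hfin := hred ((hcolval _ 0).symm.trans (congrFun hUcol 0)) ((hcolval _ 1).symm.trans (congrFun hUcol 1))
    ((hcolval _ 2).symm.trans (congrFun hUcol 2)) ((hcolval _ 0).symm.trans (congrFun hVcol 0))
    ((hcolval _ 1).symm.trans (congrFun hVcol 1)) ((hcolval _ 2).symm.trans (congrFun hVcol 2)) (by
      intro v
      have hx := hdet2 (P *ᵥ v)
      have hmul : Matrix.of ![P *ᵥ v, U *ᵥ (P *ᵥ v), V2 *ᵥ (P *ᵥ v)] =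
          Matrix.of ![v, (P⁻¹ * U * P) *ᵥ v, (P⁻¹ * V2 * P) *ᵥ v] * Matrix.transpose P := by
        have k1 : P *ᵥ ((P⁻¹ * U * P) *ᵥ v) = U *ᵥ (P *ᵥ v) := by
          rw [Matrix.mulVec_mulVec, Matrix.mulVec_mulVec, ← Matrix.mul_assoc, ← Matrix.mul_assoc, hPP, Matrix.one_mul]
        have k2 : P *ᵥ ((P⁻¹ * V2 * P) *ᵥ v) = V2 *ᵥ (P *ᵥ v) := by
          rw [Matrix.mulVec_mulVec, Matrix.mulVec_mulVec, ← Matrix.mul_assoc, ← Matrix.mul_assoc, hPP, Matrix.one_mul]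
        have key2 : ∀ a b c : Fin 3 → k, Matrix.of ![P *ᵥ a, P *ᵥ b, P *ᵥ c] = Matrix.of ![a, b, c] * Matrix.transpose P := by
          intro a b c
          ext i j
          rw [Matrix.mul_apply]
          fin_cases i <;> simp [Matrix.mulVec, dotProduct, mul_comm]
        rw [← k1, ← k2]
        exact key2 _ _ _
      change Matrix.det (Matrix.of ![P *ᵥ v, U *ᵥ (P *ᵥ v), V2 *ᵥ (P *ᵥ v)]) = 0 at hx
      rw [hmul, Matrix.det_mul, Matrix.det_transpose] at hx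
      rcases mul_eq_zero.mp hx with h1 | h1
      · exact h1
      · exact absurd h1 hPdet)
  have hback : ∀ M : Matrix (Fin 3) (Fin 3) k, M = P * (P⁻¹ * M * P) * P⁻¹ := by
    intro M
    rw [← Matrix.mul_assoc, ← Matrix.mul_assoc, hPP, Matrix.one_mul, Matrix.mul_assoc, hPP, Matrix.mul_one]
  rcases hfin with h0 | ⟨u, p, q, a, hu, hU, hVq⟩
  · left
    have hV20 : V2 = 0 := by rw [hback V2, h0]; simp
    refine ⟨al, be, -1, Or.inr (Or.inr (neg_ne_zero.mpr one_ne_zero)), ?_⟩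
    have : V = al • (1 : Matrix (Fin 3) (Fin 3) k) + be • U := by
      have h2 : V = V2 + al • (1 : Matrix (Fin 3) (Fin 3) k) + be • U := by rw [hV2]; abel
      rw [h2, hV20, zero_add]
    rw [this, neg_smul, one_smul]
    abel
  · right
    have hUe : U = a • (1 : Matrix (Fin 3) (Fin 3) k) + vecMulVec (P *ᵥ u) (p ᵥ* P⁻¹) := by
      rw [hback U, hU, Matrix.mul_add, Matrix.add_mul, Matrix.mul_smul, Matrix.mul_one, Matrix.smul_mul, hPP,
        Matrix.mul_vecMulVec, Matrix.vecMulVec_mul]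
    have hVe : V2 = vecMulVec (P *ᵥ u) (q ᵥ* P⁻¹) := by
      rw [hback V2, hVq, Matrix.mul_vecMulVec, Matrix.vecMulVec_mul]
    refine ⟨P *ᵥ u, p ᵥ* P⁻¹, q ᵥ* P⁻¹ + be • (p ᵥ* P⁻¹), a, al + be * a, ?_, hUe, ?_⟩
    · intro h0
      apply hu
      have : P⁻¹ *ᵥ (P *ᵥ u) = u := by rw [Matrix.mulVec_mulVec, hPP', Matrix.one_mulVec]
      rw [← this, h0, Matrix.mulVec_zero]
    · have h2 : V = V2 + al • (1 : Matrix (Fin 3) (Fin 3) k) + be • U := by rw [hV2]; abel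
      rw [h2, hVe]
      conv_lhs => rw [hUe]
      ext i j
      simp only [Matrix.add_apply, Matrix.smul_apply, Matrix.vecMulVec_apply, Pi.add_apply, Pi.smul_apply, smul_eq_mul]
      ring

end Pool.Agent.H873.RT

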