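import Pool.Agent.H873.RT.Defs
import Pool.Agent.H873.RT.HB
import Pool.Agent.H873.RT.Mult
import Pool.Agent.H873.RT.Syz
import Pool.Agent.H873.RT.Rees
import Pool.Agent.H873.RT.Sat

set_option autoImplicit false

namespace Pool.Agent.H873.RT

open MvPolynomial

theorem eval₂_mul_of_homog {σ B C' : Type*} [CommRing B] [CommRing C'] (f : B →+* C') (g : σ → C') (r : C')
    {n : ℕ} (e : MvPolynomial σ B) (he : e.IsHomogeneous n) :
    MvPolynomial.eval₂ f (fun i => r * g i) e = r ^ n * MvPolynomial.eval₂ f g e := by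
  rw [MvPolynomial.eval₂_eq, MvPolynomial.eval₂_eq, Finset.mul_sum]
  refine Finset.sum_congr rfl fun d hd => ?_
  have h1 : d.degree = n := by
    by_contra h
    exact (MvPolynomial.mem_support_iff.1 hd) (he.coeff_eq_zero h)
  have h2 : ∏ i ∈ d.support, (r * g i) ^ d i = r ^ n * ∏ i ∈ d.support, g i ^ d i := by
    simp_rw [mul_pow]
    rw [Finset.prod_mul_distrib, Finset.prod_pow_eq_pow_sum, ← h1]
    rfl
  rw [h2]
  ring

theorem eval₂_scale {σ B S S' : Type*} [CommRing B] [CommRing S] [CommRing S'] (f : B →+* S) (g : S →+* S')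
    (y : σ → S) (t : S') {n : ℕ} (e : MvPolynomial σ B) (he : e.IsHomogeneous n) :
    MvPolynomial.eval₂ (g.comp f) (fun j => t * g (y j)) e = t ^ n * g (MvPolynomial.eval₂ f y e) := by
  rw [eval₂_mul_of_homog (g.comp f) (fun j => g (y j)) t e he]
  congr 1
  exact (MvPolynomial.eval₂_comp_left g f y e).symm

theorem congr_homog {σ B S : Type*} [CommRing B] [CommRing S] (L : Ideal S) (f : B →+* S) (x y : σ → S)
    (c τ : S) (h : ∀ j, c * x j - τ * y j ∈ L) {n : ℕ} (e : MvPolynomial σ B) (he : e.IsHomogeneous n) :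
    c ^ n * MvPolynomial.eval₂ f x e - τ ^ n * MvPolynomial.eval₂ f y e ∈ L := by
  rw [← eval₂_mul_of_homog f x c e he, ← eval₂_mul_of_homog f y τ e he, ← Ideal.Quotient.eq,
    MvPolynomial.eval₂_comp_left (Ideal.Quotient.mk L), MvPolynomial.eval₂_comp_left (Ideal.Quotient.mk L)]
  congr 1
  funext j
  exact Ideal.Quotient.eq.2 (h j)

variable {k : Type*} [Field k] {s : Finset (k × k)} {F : R k} {G : Fin 3 → R k} {a : Fin 3 → ℕ}
  {M : Matrix (Fin 3) (Fin 3) (A k)} {h : Fin 3 → A k}

/-- `R → S = E[x]` -/
noncomputable def iota (k : Type*) [Field k] : R k →+* Polynomial (E k) :=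
  Polynomial.mapRingHom (MvPolynomial.C)

theorem rel_mem (hN : NF s F G a) (hM : MH F G a M h) (b : Fin 3 → R k) (b0 : R k)
    (hb : (∑ j, b j * G j) + b0 * F = 0) :
    (∑ j, iota k (b j) * Polynomial.C (TT (A k) j)) + iota k b0 * Polynomial.C (X 0) ∈ LL M h := by
  obtain ⟨lam, h1, h2⟩ := syz hN hM b b0 hb
  have : (∑ j, iota k (b j) * Polynomial.C (TT (A k) j)) + iota k b0 * Polynomial.C (X 0) =
      ∑ i, iota k (lam i) * gg M h i := by
    have hX : iota k Polynomial.X = Polynomial.X := by simp [iota]
    have hC : ∀ c : A k, iota k (Polynomial.C c) = Polynomial.C (C c) := by intro c; simp [iota]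
    rw [h2]
    simp only [h1, Fin.sum_univ_three, map_sub, map_mul, map_add, map_neg, hX, hC, gg, nn, TT]
    simp only [Fin.succ_zero_eq_one, Fin.succ_one_eq_two]
    ring
  rw [this]
  exact Ideal.sum_mem _ fun i _ => Ideal.mul_mem_left _ _ (Ideal.subset_span ⟨i, rfl⟩)

theorem iota_C (c : A k) : iota k (Polynomial.C c) = Polynomial.C (C c) := by simp [iota]

theorem evE_eq {n : ℕ} (e : E k) (he : e.IsHomogeneous n) :
    evE F G e = Polynomial.X ^ n * Polynomial.C (MvPolynomial.eval₂ Polynomial.C (fam F G) e) := by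
  have h1 : evE F G e = MvPolynomial.eval₂ (Polynomial.C.comp Polynomial.C)
      (fun j => Polynomial.X * Polynomial.C (fam F G j)) e := by
    unfold evE
    rw [coe_eval₂Hom]
    congr 1
    funext j
    ring
  rw [h1]
  exact eval₂_scale Polynomial.C Polynomial.C (fam F G) Polynomial.X e he

theorem eval_eq_zero {n : ℕ} (e : E k) (he : e.IsHomogeneous n) (h0 : evE F G e = 0) :
    MvPolynomial.eval₂ Polynomial.C (fam F G) e = 0 := by
  rw [evE_eq e he] at h0
  rcases mul_eq_zero.1 h0 with h | h
  · exact absurd h (pow_ne_zero _ Polynomial.X_ne_zero)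
  · exact Polynomial.C_eq_zero.1 h

/-- elements of `I ∩ A` push the Rees relations into the ideal of minors -/
theorem pow_mem (hN : NF s F G a) (hM : MH F G a M h) (c : A k) (hc : Polynomial.C c ∈ IX s)
    (n : ℕ) (e : E k) (he : e.IsHomogeneous n) (h0 : evE F G e = 0) : C (c ^ n) * e ∈ JJ M h := by
  obtain ⟨c', α, hα⟩ := hN.span _ hc
  have hc' : c' = 0 := by
    by_contra hc'
    have h1 : (c' * F).natDegree = c'.natDegree + 3 := by
      rw [mul_comm, hN.monic.natDegree_mul' hc', hN.deg, add_comm]
    have h2 : c' * F = Polynomial.C c - ∑ i, Polynomial.C (α i) * G i := by rw [hα]; ring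
    have h3 : (Polynomial.C c - ∑ i, Polynomial.C (α i) * G i).natDegree ≤ 2 := by
      refine (Polynomial.natDegree_sub_le _ _).trans (max_le (by simp) ?_)
      refine Polynomial.natDegree_sum_le_of_forall_le _ _ fun i _ => ?_
      exact (Polynomial.natDegree_C_mul_le _ _).trans (hN.degG i)
    rw [← h2, h1] at h3
    omega
  rw [hc', zero_mul, zero_add] at hα
  rw [← elim]
  set τ : Polynomial (E k) := ∑ i, Polynomial.C (C (α i)) * Polynomial.C (TT (A k) i) with hτ
  -- the basic congruences
  have hrel : ∀ j : Fin 4, Polynomial.C (C c) * Polynomial.C (X j) - τ * iota k (fam F G j) ∈ LL M h := by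
    intro j
    rw [← map_mul]
    refine Fin.cases ?_ (fun i => ?_) j
    · -- j = 0 : `c T₀ - F τ`
      have h1 := rel_mem hN hM (fun i => - (Polynomial.C (α i) * F)) (Polynomial.C c) (by
        rw [hα]
        simp only [Fin.sum_univ_three]
        ring)
      have h2 : Polynomial.C (C c * X 0) - τ * iota k (fam F G 0) =
          (∑ j, iota k (- (Polynomial.C (α j) * F)) * Polynomial.C (TT (A k) j)) +
            iota k (Polynomial.C c) * Polynomial.C (X 0) := by
        simp only [Fin.sum_univ_three, map_neg, map_mul, iota_C, hτ, fam, Fin.cons_zero]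
        ring
      rw [h2]
      exact h1
    · have h1 := rel_mem hN hM (fun l => (if l = i then Polynomial.C c else 0) - Polynomial.C (α l) * G i) 0 (by
        have : ∀ l, ((if l = i then Polynomial.C c else 0) - Polynomial.C (α l) * G i) * G l =
            (if l = i then Polynomial.C c * G l else 0) - G i * (Polynomial.C (α l) * G l) := by
          intro l
          split_ifs <;> ring
        rw [Finset.sum_congr rfl fun l _ => this l, Finset.sum_sub_distrib, ← Finset.mul_sum, ← hα]
        simp
        ring)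
      have h2 : Polynomial.C (C c * X i.succ) - τ * iota k (fam F G i.succ) =
          (∑ l, iota k ((if l = i then Polynomial.C c else 0) - Polynomial.C (α l) * G i) *
            Polynomial.C (TT (A k) l)) + iota k 0 * Polynomial.C (X 0) := by
        have hG : fam F G i.succ = G i := by simp [fam]
        rw [hG, hτ, map_zero, zero_mul, add_zero]
        simp only [map_sub, map_mul, iota_C, Fin.sum_univ_three]
        fin_cases i
        · simp [TT, iota_C]; ring
        · simp [TT, iota_C]; ring
        · simp [TT, iota_C]; ring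
      rw [h2]
      exact h1
  -- evaluate `e`
  have h1 := congr_homog (LL M h) (Polynomial.C.comp C) (fun j : Fin 4 => Polynomial.C (X j))
    (fun j => iota k (fam F G j)) (Polynomial.C (C c)) τ hrel e he
  have h2 : MvPolynomial.eval₂ (Polynomial.C.comp C) (fun j : Fin 4 => Polynomial.C (X j)) e =
      Polynomial.C e := by
    have h3 := MvPolynomial.eval₂_comp_left (Polynomial.C : E k →+* Polynomial (E k)) (C : A k →+* E k) X e
    rw [MvPolynomial.eval₂_eta] at h3
    exact h3.symm
  have h4 : MvPolynomial.eval₂ (Polynomial.C.comp C) (fun j => iota k (fam F G j)) e =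
      (iota k) (MvPolynomial.eval₂ Polynomial.C (fam F G) e) := by
    rw [MvPolynomial.eval₂_comp_left (iota k)]
    congr 1
    exact RingHom.ext fun x => (iota_C x).symm
  rw [h2, h4, eval_eq_zero e he h0, map_zero, mul_zero, sub_zero] at h1
  simpa [map_mul, map_pow] using h1

end Pool.Agent.H873.RT
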