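import Pool.Agent.H873.RT.Tors

set_option autoImplicit false

namespace Pool.Agent.H873.RT

open MvPolynomial

/-- `A = k[y,z] → k[z]`, `y ↦ q z`, `z ↦ z` -/
noncomputable def rho {k : Type*} [Field k] (q : k) : A k →+* Polynomial k :=
  MvPolynomial.eval₂Hom Polynomial.C ![Polynomial.C q * Polynomial.X, Polynomial.X]

/-- the section `k[z] → A` -/
noncomputable def sec (k : Type*) [Field k] : Polynomial k →+* A k :=
  Polynomial.eval₂RingHom C (X 1)

variable {k : Type*} [Field k]

theorem rho_sec (q : k) (f : Polynomial k) : rho q (sec k f) = f := by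
  have : (rho q).comp (sec k) = RingHom.id _ := by
    apply Polynomial.ringHom_ext
    · intro c; simp [rho, sec]
    · simp [rho, sec]
  exact RingHom.congr_fun this f

theorem rho_ker (q : k) (f : A k) (hf : rho q f = 0) : ∃ g, f = (X 0 - C q * X 1) * g := by
  have h1 : ∀ f : A k, ∃ g, f - sec k (rho q f) = (X 0 - C q * X 1) * g := by
    intro f
    induction f using MvPolynomial.induction_on with
    | C c => exact ⟨0, by simp [rho, sec]⟩
    | add f1 f2 h1 h2 =>
      obtain ⟨g1, h1⟩ := h1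
      obtain ⟨g2, h2⟩ := h2
      exact ⟨g1 + g2, by rw [map_add, map_add, mul_add, ← h1, ← h2]; ring⟩
    | mul_X f i h1 =>
      obtain ⟨g1, h1⟩ := h1
      have hX : ∃ g, X i - sec k (rho q (X i)) = (X 0 - C q * X 1) * g := by
        fin_cases i
        · exact ⟨1, by simp [rho, sec]⟩
        · exact ⟨0, by simp [rho, sec]⟩
      obtain ⟨g2, h2⟩ := hX
      refine ⟨g1 * X i + sec k (rho q f) * g2, ?_⟩
      rw [map_mul, map_mul, mul_add]
      linear_combination X i * h1 + sec k (rho q f) * h2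
  obtain ⟨g, hg⟩ := h1 f
  rw [hf, map_zero, sub_zero] at hg
  exact ⟨g, hg⟩

theorem map_nn {B B' : Type*} [CommRing B] [CommRing B'] (f : B →+* B') (M : Matrix (Fin 3) (Fin 3) B)
    (h : Fin 3 → B) (i : Fin 3) : MvPolynomial.map f (nn M h i) = nn (M.map f) (fun i => f (h i)) i := by
  simp [nn]

theorem map_TT {B B' : Type*} [CommRing B] [CommRing B'] (f : B →+* B') (i : Fin 3) :
    MvPolynomial.map f (TT B i) = TT B' i := by
  simp [TT]

theorem ww_apply {B : Type*} [CommRing B] (M : Matrix (Fin 3) (Fin 3) B) (h : Fin 3 → B) :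
    ww M h 0 = TT B 1 * nn M h 2 - TT B 2 * nn M h 1 ∧ ww M h 1 = TT B 2 * nn M h 0 - TT B 0 * nn M h 2 ∧
    ww M h 2 = TT B 0 * nn M h 1 - TT B 1 * nn M h 0 := by
  refine ⟨?_, ?_, ?_⟩ <;> · rw [ww, cross_apply]; simp

theorem map_ww {B B' : Type*} [CommRing B] [CommRing B'] (f : B →+* B') (M : Matrix (Fin 3) (Fin 3) B)
    (h : Fin 3 → B) (i : Fin 3) : MvPolynomial.map f (ww M h i) = ww (M.map f) (fun i => f (h i)) i := by
  obtain ⟨h0, h1, h2⟩ := ww_apply M h
  obtain ⟨h0', h1', h2'⟩ := ww_apply (M.map f) (fun i => f (h i))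
  fin_cases i
  · show MvPolynomial.map f (ww M h 0) = ww _ _ 0
    rw [h0, h0', map_sub, map_mul, map_mul, map_TT, map_TT, map_nn, map_nn]
  · show MvPolynomial.map f (ww M h 1) = ww _ _ 1
    rw [h1, h1', map_sub, map_mul, map_mul, map_TT, map_TT, map_nn, map_nn]
  · show MvPolynomial.map f (ww M h 2) = ww _ _ 2
    rw [h2, h2', map_sub, map_mul, map_mul, map_TT, map_TT, map_nn, map_nn]

/-- the linear form of the line of the pencil through a point, as an element of `A` -/
noncomputable def ell (q : k) : A k := X 0 - C q * X 1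

theorem prod_mem (s : Finset (k × k)) : Polynomial.C (∏ P ∈ s, ell P.2) ∈ IX s := by
  unfold IX
  simp only [Ideal.mem_iInf]
  intro P hP
  rw [RingHom.mem_ker, evP, Polynomial.coe_eval₂RingHom, Polynomial.eval₂_C, map_prod]
  apply Finset.prod_eq_zero hP
  simp [ell]

/-- if `C π * e` lies in `JJ` then all is congruent modulo `π` -/
theorem lemmaZ_abs {M : Matrix (Fin 3) (Fin 3) (A k)} {h : Fin 3 → A k} (q : k)
    (hb : ∀ v : Fin 3 → MvPolynomial (Fin 4) (Polynomial k),
      dotProduct v (ww (M.map (rho q)) (fun i => rho q (h i))) = 0 →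
      ∃ (N : ℕ) (α β : MvPolynomial (Fin 4) (Polynomial k)),
        ∀ i, C (Polynomial.X ^ N) * v i = α * TT (Polynomial k) i + β * nn (M.map (rho q)) (fun i => rho q (h i)) i)
    (e : E k) (he : C (ell q) * e ∈ JJ M h) : ∃ N : ℕ, C (X 1 ^ N) * e ∈ JJ M h := by
  obtain ⟨a, ha⟩ := (mem_span_dot _ _).1 he
  set μ : E k →+* MvPolynomial (Fin 4) (Polynomial k) := MvPolynomial.map (rho q) with hμ
  have h1 : dotProduct (fun i => μ (a i)) (ww (M.map (rho q)) (fun i => rho q (h i))) = 0 := by
    have h2 := congrArg μ ha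
    have h3 : rho q (ell q) = 0 := by simp [rho, ell]
    rw [map_mul, hμ, MvPolynomial.map_C, h3, map_zero, zero_mul] at h2
    rw [h2, dot3, dot3]
    simp only [map_add, map_mul, map_ww, hμ]
  obtain ⟨N, α, β, hαβ⟩ := hb _ h1
  set σ : MvPolynomial (Fin 4) (Polynomial k) →+* E k := MvPolynomial.map (sec k) with hσ
  have hμσ : ∀ x, μ (σ x) = x := by
    intro x
    rw [hμ, hσ, MvPolynomial.map_map]
    have : (rho q).comp (sec k) = RingHom.id _ := RingHom.ext fun f => rho_sec q f
    rw [this, MvPolynomial.map_id]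
  have h4 : ∀ i, ∃ v, C (X 1 ^ N) * a i - σ α * TT (A k) i - σ β * nn M h i = C (ell q) * v := by
    intro i
    have h5 : μ (C (X 1 ^ N) * a i - σ α * TT (A k) i - σ β * nn M h i) = 0 := by
      have hr : rho q (X 1 ^ N) = Polynomial.X ^ N := by simp [rho]
      rw [map_sub, map_sub, map_mul, map_mul, map_mul, hμσ, hμσ]
      simp only [hμ, map_TT, map_nn, MvPolynomial.map_C, hr]
      have := hαβ i
      rw [hμ] at this
      rw [this]
      ring
    rw [← RingHom.mem_ker, hμ, MvPolynomial.ker_map, MvPolynomial.mem_map_C_iff] at h5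
    -- divide every coefficient by `ell q`
    have h6 : ∀ m, ∃ g, (C (X 1 ^ N) * a i - σ α * TT (A k) i - σ β * nn M h i).coeff m = ell q * g :=
      fun m => rho_ker q _ (h5 m)
    have h7 : C (ell q) ∣ (C (X 1 ^ N) * a i - σ α * TT (A k) i - σ β * nn M h i) := by
      rw [MvPolynomial.C_dvd_iff_dvd_coeff]
      intro m
      obtain ⟨g, hg⟩ := h6 m
      exact ⟨g, hg⟩
    exact h7
  choose v hv using h4
  have hC0 : (C (ell q) : E k) ≠ 0 := by
    rw [Ne, MvPolynomial.C_eq_zero]
    intro h0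
    have := congrArg (MvPolynomial.eval ![1, 0]) h0
    simp [ell] at this
  refine ⟨N, (mem_span_dot _ _).2 ⟨v, ?_⟩⟩
  apply mul_left_cancel₀ hC0
  have h8 : (fun i => C (X 1 ^ N) * a i) = fun i => σ α * TT (A k) i + σ β * nn M h i + C (ell q) * v i := by
    funext i
    linear_combination hv i
  have h9 : dotProduct (fun i => C (X 1 ^ N) * a i) (ww M h) = C (X 1 ^ N) * (C (ell q) * e) := by
    rw [ha, dot3, dot3]; ring
  have h10 : dotProduct (TT (A k)) (ww M h) = 0 := dot_self_cross _ _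
  have h11 : dotProduct (nn M h) (ww M h) = 0 := dot_cross_self _ _
  have h12 : dotProduct (fun i => σ α * TT (A k) i + σ β * nn M h i + C (ell q) * v i) (ww M h) =
      σ α * dotProduct (TT (A k)) (ww M h) + σ β * dotProduct (nn M h) (ww M h) +
        C (ell q) * dotProduct v (ww M h) := by
    rw [dot3, dot3, dot3, dot3]; ring
  rw [← h8, h9, h10, h11] at h12
  linear_combination h12

end Pool.Agent.H873.RT
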